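import Pool.Agent.DyMax.Defs

/-! MODULE ANG: joint law of the norm and of the cosine of the angle with a fixed direction.

Proof: by rotation `e` may be taken to be a coordinate vector (or split `E n = ℝ e ⊕ e^⊥` directly),
`w = (t, v)`, `t ∈ ℝ`, `v ∈ ℝ^(n-1)`. The integrand depends only on `t` and `|v|`; polar coordinates in
`ℝ^(n-1)` give `const * ∫_ℝ ∫_0^∞ φ(√(t²+σ²), t/√(t²+σ²)) σ^(n-2) dσ dt`; polar coordinates
`(t, σ) = ρ (cos α, sin α)`, `α ∈ (0, π)`, then `c = cos α` give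
`const * ∫_0^∞ ∫_{-1}^1 φ(ρ, c) ρ^(n-1) (1-c²)^((n-3)/2) dc dρ`. The same formula for functions of `|w|`
only (or polar coordinates in `ℝ^n`) identifies the constant: the right-hand side of the theorem is
`const' ∫_0^∞ (∫ φ(ρ,c) wn(c) dc) ρ^(n-1) dρ`, and both constants agree since `∫ wn = 1`
(take `φ = indicator of ρ<1`). -/

set_option autoImplicit false

open MeasureTheory Metric
open scoped ENNReal RealInnerProductSpace

namespace Pool.DyMax

/-- radial integration, Lebesgue integral form -/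
lemma ang_radial (m : ℕ) (hm : 1 ≤ m) (g : ℝ → ℝ≥0∞) (hg : Measurable g) :
    ∫⁻ v : E m, g ‖v‖ = (volume : Measure (E m)).toSphere Set.univ *
      ∫⁻ y in Set.Ioi (0 : ℝ), ENNReal.ofReal (y ^ (m - 1)) * g y := by
  have : Nonempty (Fin m) := ⟨⟨0, hm⟩⟩
  have : Nontrivial (E m) := by infer_instance
  have hdim : Module.finrank ℝ (E m) = m := by simp [E]
  set μ : Measure (E m) := volume with hμ
  calc ∫⁻ v, g ‖v‖ ∂μ = ∫⁻ x in ({0}ᶜ : Set (E m)), g ‖x‖ ∂μ := by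
        rw [restrict_compl_singleton]
    _ = ∫⁻ x : ({(0)}ᶜ : Set (E m)), g ‖x.1‖ ∂(μ.comap (↑)) :=
        (lintegral_subtype_comap (measurableSet_singleton _).compl _).symm
    _ = ∫⁻ x, g x.2 ∂μ.toSphere.prod (.volumeIoiPow (Module.finrank ℝ (E m) - 1)) := by
        have := μ.measurePreserving_homeomorphUnitSphereProd.lintegral_comp_emb
          (Homeomorph.measurableEmbedding _) (g ∘ Subtype.val ∘ Prod.snd)
        simpa using this
    _ = μ.toSphere Set.univ *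
        ∫⁻ x : Set.Ioi (0 : ℝ), g x ∂.volumeIoiPow (Module.finrank ℝ (E m) - 1) := by
        rw [lintegral_prod _ (by fun_prop)]
        simp [mul_comm]
    _ = _ := by
        rw [hdim, Measure.volumeIoiPow,
          lintegral_withDensity_eq_lintegral_mul _ (by fun_prop) (by fun_prop)]
        congr 1
        exact lintegral_subtype_comap measurableSet_Ioi
          (fun a : ℝ => ENNReal.ofReal (a ^ (m - 1)) * g a)

lemma ang_cov (m : ℕ) (hm : 2 ≤ m) (k : ℝ → ℝ≥0∞) (_hk : Measurable k) :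
    ∫⁻ α in Set.Ioo (0 : ℝ) Real.pi, ENNReal.ofReal (Real.sin α ^ (m - 1)) * k (Real.cos α) =
      ∫⁻ c in Set.Ioo (-1 : ℝ) 1,
        ENNReal.ofReal ((1 - c ^ 2) ^ ((((m + 1 : ℕ) : ℝ) - 3) / 2)) * k c := by
  have himg : Real.cos '' (Set.Ioo (0 : ℝ) Real.pi) = Set.Ioo (-1 : ℝ) 1 := by
    ext c
    constructor
    · rintro ⟨α, ⟨h1, h2⟩, rfl⟩
      constructor
      · rw [← Real.cos_pi]
        exact Real.cos_lt_cos_of_nonneg_of_le_pi h1.le le_rfl h2
      · rw [← Real.cos_zero]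
        exact Real.cos_lt_cos_of_nonneg_of_le_pi le_rfl h2.le h1
    · rintro ⟨h1, h2⟩
      refine ⟨Real.arccos c, ⟨Real.arccos_pos.2 h2, ?_⟩, Real.cos_arccos h1.le h2.le⟩
      rw [← Real.arccos_neg_one]
      exact Real.strictAntiOn_arccos ⟨le_rfl, by norm_num⟩ ⟨h1.le, h2.le⟩ h1
  have h := lintegral_image_eq_lintegral_abs_deriv_mul (s := Set.Ioo (0 : ℝ) Real.pi)
    (f := Real.cos) (f' := fun x => -Real.sin x) measurableSet_Ioo
    (fun x _ => (Real.hasDerivAt_cos x).hasDerivWithinAt)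
    (Real.injOn_cos.mono (Set.Ioo_subset_Icc_self))
    (fun c => ENNReal.ofReal ((1 - c ^ 2) ^ ((((m + 1 : ℕ) : ℝ) - 3) / 2)) * k c)
  rw [himg] at h
  rw [h]
  refine setLIntegral_congr_fun measurableSet_Ioo (fun α hα => ?_)
  have hs : 0 < Real.sin α := Real.sin_pos_of_pos_of_lt_pi hα.1 hα.2
  have h1 : 1 - Real.cos α ^ 2 = Real.sin α ^ 2 := by
    have := Real.sin_sq_add_cos_sq α
    linarith
  have h2 : (Real.sin α ^ 2) ^ ((((m + 1 : ℕ) : ℝ) - 3) / 2) = Real.sin α ^ (m - 2) := by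
    rw [← Real.rpow_natCast (Real.sin α) 2, ← Real.rpow_mul hs.le, ← Real.rpow_natCast]
    congr 1
    rw [Nat.cast_sub hm]
    push_cast
    ring
  rw [h1, h2, abs_neg, abs_of_pos hs, ← mul_assoc, ← ENNReal.ofReal_mul hs.le, ← pow_succ']
  congr 3
  omega

lemma ang_two (m : ℕ) (hm : 2 ≤ m) (φ : ℝ → ℝ → ℝ≥0∞)
    (hφ : Measurable (Function.uncurry φ)) :
    ∫⁻ t : ℝ, ∫⁻ y in Set.Ioi (0 : ℝ), ENNReal.ofReal (y ^ (m - 1)) *
        φ (Real.sqrt (t ^ 2 + y ^ 2)) (t / Real.sqrt (t ^ 2 + y ^ 2)) =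
      ∫⁻ ρ in Set.Ioi (0 : ℝ), ENNReal.ofReal (ρ ^ m) * ∫⁻ c in Set.Ioo (-1 : ℝ) 1,
        ENNReal.ofReal ((1 - c ^ 2) ^ ((((m + 1 : ℕ) : ℝ) - 3) / 2)) * φ ρ c := by
  set P : ℝ × ℝ → ℝ≥0∞ := fun p => (Set.Ioi (0 : ℝ)).indicator (fun y =>
    ENNReal.ofReal (y ^ (m - 1)) *
        φ (Real.sqrt (p.1 ^ 2 + y ^ 2)) (p.1 / Real.sqrt (p.1 ^ 2 + y ^ 2))) p.2 with hP
  have hm1 : Measurable (fun p : ℝ × ℝ => ENNReal.ofReal (p.2 ^ (m - 1)) *
        φ (Real.sqrt (p.1 ^ 2 + p.2 ^ 2)) (p.1 / Real.sqrt (p.1 ^ 2 + p.2 ^ 2))) := by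
    have : Measurable (fun p : ℝ × ℝ => Function.uncurry φ (Real.sqrt (p.1 ^ 2 + p.2 ^ 2),
        p.1 / Real.sqrt (p.1 ^ 2 + p.2 ^ 2))) := by
      apply hφ.comp
      fun_prop
    simp only [Function.uncurry] at this
    exact Measurable.mul (by fun_prop) this
  have hPm : Measurable P := by
    have : P = (Prod.snd ⁻¹' (Set.Ioi (0 : ℝ))).indicator (fun p : ℝ × ℝ =>
        ENNReal.ofReal (p.2 ^ (m - 1)) *
        φ (Real.sqrt (p.1 ^ 2 + p.2 ^ 2)) (p.1 / Real.sqrt (p.1 ^ 2 + p.2 ^ 2))) := by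
      funext p
      simp only [hP, Set.indicator, Set.mem_preimage]
    rw [this]
    exact hm1.indicator (measurable_snd measurableSet_Ioi)
  have e1 : ∫⁻ t : ℝ, ∫⁻ y in Set.Ioi (0 : ℝ), ENNReal.ofReal (y ^ (m - 1)) *
        φ (Real.sqrt (t ^ 2 + y ^ 2)) (t / Real.sqrt (t ^ 2 + y ^ 2)) = ∫⁻ p : ℝ × ℝ, P p := by
    rw [Measure.volume_eq_prod, lintegral_prod _ hPm.aemeasurable]
    refine lintegral_congr (fun t => ?_)
    rw [← lintegral_indicator measurableSet_Ioi]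
  rw [e1, ← lintegral_comp_polarCoord_symm, polarCoord_target, Measure.volume_eq_prod,
    ← Measure.prod_restrict]
  have hQm : Measurable (fun p : ℝ × ℝ => ENNReal.ofReal p.1 • P (polarCoord.symm p)) := by
    have : (fun p : ℝ × ℝ => ENNReal.ofReal p.1 • P (polarCoord.symm p)) =
        fun p : ℝ × ℝ => ENNReal.ofReal p.1 * P (p.1 * Real.cos p.2, p.1 * Real.sin p.2) := by
      funext p
      simp [polarCoord_symm_apply]
    rw [this]
    apply Measurable.mul (by fun_prop)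
    apply hPm.comp
    fun_prop
  rw [lintegral_prod _ hQm.aemeasurable]
  refine setLIntegral_congr_fun measurableSet_Ioi (fun ρ hρ => ?_)
  have hρ' : (0 : ℝ) < ρ := hρ
  have hφρ : Measurable (fun c => φ ρ c) := by
    have : Measurable (fun c : ℝ => Function.uncurry φ (ρ, c)) := by
      apply hφ.comp
      fun_prop
    exact this
  rw [← ang_cov m hm _ hφρ, ← lintegral_const_mul _ (by
    apply Measurable.mul (by fun_prop)
    exact hφρ.comp (by fun_prop))]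
  rw [← lintegral_indicator measurableSet_Ioo, ← lintegral_indicator measurableSet_Ioo]
  refine lintegral_congr (fun α => ?_)
  simp only [polarCoord_symm_apply, hP, smul_eq_mul]
  by_cases h1 : α ∈ Set.Ioo (0 : ℝ) Real.pi
  · have h2 : α ∈ Set.Ioo (-Real.pi) Real.pi := ⟨by linarith [h1.1, Real.pi_pos], h1.2⟩
    have hs : 0 < Real.sin α := Real.sin_pos_of_pos_of_lt_pi h1.1 h1.2
    rw [Set.indicator_of_mem h1, Set.indicator_of_mem h2,
      Set.indicator_of_mem (by exact mul_pos hρ' hs)]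
    have h3 : (ρ * Real.cos α) ^ 2 + (ρ * Real.sin α) ^ 2 = ρ ^ 2 := by
      have := Real.sin_sq_add_cos_sq α
      nlinarith [this]
    rw [h3, Real.sqrt_sq hρ'.le, mul_div_cancel_left₀ _ hρ'.ne', ← mul_assoc, ← mul_assoc,
      ← ENNReal.ofReal_mul hρ'.le, ← ENNReal.ofReal_mul (by positivity)]
    congr 2
    rw [mul_pow, ← mul_assoc, ← pow_succ']
    congr 2
    omega
  · rw [Set.indicator_of_notMem h1]
    by_cases h2 : α ∈ Set.Ioo (-Real.pi) Real.pi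
    · rw [Set.indicator_of_mem h2, Set.indicator_of_notMem, mul_zero]
      intro h3
      have h4 : α ≤ 0 := by
        by_contra h5
        exact h1 ⟨not_le.1 h5, h2.2⟩
      have h5 : Real.sin α ≤ 0 := Real.sin_nonpos_of_nonpos_of_neg_pi_le h4 h2.1.le
      have h6 : 0 < ρ * Real.sin α := h3
      nlinarith
    · rw [Set.indicator_of_notMem h2]

lemma ang_main (m : ℕ) (hm : 2 ≤ m) (φ : ℝ → ℝ → ℝ≥0∞)
    (hφ : Measurable (Function.uncurry φ)) :
    ∫⁻ w : E (m + 1), φ ‖w‖ (w 0 / ‖w‖) =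
      (volume : Measure (E m)).toSphere Set.univ *
      ∫⁻ ρ in Set.Ioi (0 : ℝ), ENNReal.ofReal (ρ ^ m) * ∫⁻ c in Set.Ioo (-1 : ℝ) 1,
        ENNReal.ofReal ((1 - c ^ 2) ^ ((((m + 1 : ℕ) : ℝ) - 3) / 2)) * φ ρ c := by
  set G : ℝ × (Fin m → ℝ) → ℝ≥0∞ := fun p =>
    φ (Real.sqrt (p.1 ^ 2 + ‖(WithLp.toLp 2 p.2 : E m)‖ ^ 2))
      (p.1 / Real.sqrt (p.1 ^ 2 + ‖(WithLp.toLp 2 p.2 : E m)‖ ^ 2)) with hG
  have hGm : Measurable G := by
    have : G = fun p => Function.uncurry φ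
      (Real.sqrt (p.1 ^ 2 + ‖(WithLp.toLp 2 p.2 : E m)‖ ^ 2),
        p.1 / Real.sqrt (p.1 ^ 2 + ‖(WithLp.toLp 2 p.2 : E m)‖ ^ 2)) := rfl
    rw [this]
    apply hφ.comp
    have h2 : Measurable (fun p : ℝ × (Fin m → ℝ) => ‖(WithLp.toLp 2 p.2 : E m)‖) := by
      apply Measurable.norm
      exact (PiLp.volume_preserving_toLp (Fin m)).measurable.comp measurable_snd
    fun_prop
  have e1 : ∫⁻ w : E (m + 1), φ ‖w‖ (w 0 / ‖w‖) =
      ∫⁻ u : Fin (m + 1) → ℝ, φ ‖(WithLp.toLp 2 u : E (m + 1))‖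
        (u 0 / ‖(WithLp.toLp 2 u : E (m + 1))‖) := by
    rw [← (PiLp.volume_preserving_toLp (Fin (m + 1))).lintegral_comp_emb
      (MeasurableEquiv.toLp 2 (Fin (m + 1) → ℝ)).measurableEmbedding]
  have e2 : ∀ u : Fin (m + 1) → ℝ, φ ‖(WithLp.toLp 2 u : E (m + 1))‖
        (u 0 / ‖(WithLp.toLp 2 u : E (m + 1))‖) =
      G (MeasurableEquiv.piFinSuccAbove (fun _ : Fin (m + 1) => ℝ) 0 u) := by
    intro u
    have h1 : ‖(WithLp.toLp 2 u : E (m + 1))‖ = Real.sqrt (u 0 ^ 2 +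
        ‖(WithLp.toLp 2 (fun j : Fin m => u ((0 : Fin (m + 1)).succAbove j)) : E m)‖ ^ 2) := by
      rw [EuclideanSpace.norm_sq_eq, EuclideanSpace.norm_eq, Fin.sum_univ_succ]
      simp
    rw [h1]
    rfl
  rw [e1]
  simp_rw [e2]
  rw [(volume_preserving_piFinSuccAbove (fun _ : Fin (m + 1) => ℝ) 0).lintegral_comp_emb
    (MeasurableEquiv.measurableEmbedding _) G, Measure.volume_eq_prod,
    lintegral_prod _ hGm.aemeasurable]
  have e3 : ∀ t : ℝ, ∫⁻ v : Fin m → ℝ, G (t, v) =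
      (volume : Measure (E m)).toSphere Set.univ *
      ∫⁻ y in Set.Ioi (0 : ℝ), ENNReal.ofReal (y ^ (m - 1)) *
        φ (Real.sqrt (t ^ 2 + y ^ 2)) (t / Real.sqrt (t ^ 2 + y ^ 2)) := by
    intro t
    rw [← ang_radial m (by omega)
      (fun y => φ (Real.sqrt (t ^ 2 + y ^ 2)) (t / Real.sqrt (t ^ 2 + y ^ 2)))]
    · rw [← (PiLp.volume_preserving_toLp (Fin m)).lintegral_comp_emb
        (MeasurableEquiv.toLp 2 (Fin m → ℝ)).measurableEmbedding]
    · have : Measurable (fun y : ℝ => Function.uncurry φ (Real.sqrt (t ^ 2 + y ^ 2),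
          t / Real.sqrt (t ^ 2 + y ^ 2))) := by
        apply hφ.comp
        fun_prop
      exact this
  simp_rw [e3]
  rw [lintegral_const_mul, ang_two m hm φ hφ]
  have hm1 : Measurable (fun p : ℝ × ℝ => ENNReal.ofReal (p.2 ^ (m - 1)) *
        φ (Real.sqrt (p.1 ^ 2 + p.2 ^ 2)) (p.1 / Real.sqrt (p.1 ^ 2 + p.2 ^ 2))) := by
    have : Measurable (fun p : ℝ × ℝ => Function.uncurry φ (Real.sqrt (p.1 ^ 2 + p.2 ^ 2),
        p.1 / Real.sqrt (p.1 ^ 2 + p.2 ^ 2))) := by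
      apply hφ.comp
      fun_prop
    simp only [Function.uncurry] at this
    exact Measurable.mul (by fun_prop) this
  exact hm1.lintegral_prod_right'

lemma ang_wn (m : ℕ) (hm : 2 ≤ m) (ψ : ℝ → ℝ≥0∞) (hψ : Measurable ψ) :
    ∫⁻ c in Set.Ioo (-1 : ℝ) 1,
        ENNReal.ofReal ((1 - c ^ 2) ^ ((((m + 1 : ℕ) : ℝ) - 3) / 2)) *
          (∫⁻ c in Set.Ioo (-1 : ℝ) 1, ψ c * ENNReal.ofReal (wn (m + 1) c)) =
      ∫⁻ c in Set.Ioo (-1 : ℝ) 1,
        ENNReal.ofReal ((1 - c ^ 2) ^ ((((m + 1 : ℕ) : ℝ) - 3) / 2)) * ψ c := by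
  set x : ℝ := (((m + 1 : ℕ) : ℝ) - 3) / 2 with hx
  have hx0 : 0 ≤ x := by
    rw [hx]
    have : (2 : ℝ) ≤ m := by exact_mod_cast hm
    push_cast
    linarith
  have hcont : Continuous (fun c : ℝ => (1 - c ^ 2) ^ x) := by
    apply Continuous.rpow_const (by fun_prop)
    intro c
    right
    exact hx0
  have hpos : ∀ c ∈ Set.Ioo (-1 : ℝ) 1, 0 < (1 - c ^ 2) ^ x := by
    intro c hc
    apply Real.rpow_pos_of_pos
    nlinarith [hc.1, hc.2]
  have hint : IntegrableOn (fun c : ℝ => (1 - c ^ 2) ^ x) (Set.Ioo (-1 : ℝ) 1) :=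
    (hcont.integrableOn_Icc).mono_set Set.Ioo_subset_Icc_self
  set I : ℝ := ∫ t in Set.Ioo (-1 : ℝ) 1, (1 - t ^ 2) ^ x with hI
  have hIpos : 0 < I := by
    have h1 : I = ∫ t in (-1 : ℝ)..1, (1 - t ^ 2) ^ x := by
      rw [hI, intervalIntegral.integral_of_le (by norm_num), integral_Ioc_eq_integral_Ioo]
    rw [h1]
    apply intervalIntegral.intervalIntegral_pos_of_pos_on
    · exact hcont.intervalIntegrable _ _
    · exact hpos
    · norm_num
  have hJ : ∫⁻ c in Set.Ioo (-1 : ℝ) 1, ENNReal.ofReal ((1 - c ^ 2) ^ x) = ENNReal.ofReal I := by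
    rw [hI, ofReal_integral_eq_lintegral_ofReal hint]
    rw [Filter.EventuallyLE, ae_restrict_iff' measurableSet_Ioo]
    exact Filter.Eventually.of_forall (fun c hc => (hpos c hc).le)
  rw [lintegral_mul_const _ (by fun_prop), hJ, ← lintegral_const_mul _ (by
    apply Measurable.mul hψ
    unfold wn
    apply Measurable.ennreal_ofReal
    apply Measurable.div_const
    have := hcont.measurable
    rw [hx] at this
    exact this)]
  refine setLIntegral_congr_fun measurableSet_Ioo (fun c hc => ?_)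
  have h1 : wn (m + 1) c = (1 - c ^ 2) ^ x / I := rfl
  rw [h1, mul_comm (ψ c), ← mul_assoc, ← ENNReal.ofReal_mul hIpos.le,
    mul_div_cancel₀ _ hIpos.ne']

theorem angle_law (n : ℕ) (hn : 3 ≤ n) (e : E n) (he : ‖e‖ = 1) (φ : ℝ → ℝ → ℝ≥0∞)
    (hφ : Measurable (Function.uncurry φ)) :
    ∫⁻ w : E n, φ ‖w‖ (⟪e, w⟫ / ‖w‖) =
      ∫⁻ w : E n, ∫⁻ c in Set.Ioo (-1 : ℝ) 1, φ ‖w‖ c * ENNReal.ofReal (wn n c) := by
  obtain ⟨m, rfl⟩ : ∃ m, n = m + 1 := ⟨n - 1, by omega⟩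
  have hm : 2 ≤ m := by omega
  set e₀ : E (m + 1) := EuclideanSpace.single 0 1 with he₀
  have he₀n : ‖e₀‖ = 1 := by simp [he₀]
  have hR : Submodule.reflection (ℝ ∙ (e - e₀))ᗮ e = e₀ :=
    Submodule.reflection_sub (by rw [he, he₀n])
  set R := Submodule.reflection (ℝ ∙ (e - e₀))ᗮ with hRdef
  have h1 : ∫⁻ w : E (m + 1), φ ‖w‖ (⟪e, w⟫ / ‖w‖) = ∫⁻ w : E (m + 1), φ ‖w‖ (w 0 / ‖w‖) := by
    rw [← R.measurePreserving.lintegral_comp_emb R.toHomeomorph.measurableEmbedding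
      (fun w => φ ‖w‖ (w 0 / ‖w‖))]
    refine lintegral_congr (fun w => ?_)
    have h2 : ⟪e, w⟫ = (R w) 0 := by
      rw [← R.inner_map_map e w, hR, he₀]
      simp [EuclideanSpace.inner_single_left]
    rw [h2, R.norm_map]
  rw [h1, ang_main m hm φ hφ]
  have hG : Measurable (fun ρ : ℝ => ∫⁻ c in Set.Ioo (-1 : ℝ) 1,
      φ ρ c * ENNReal.ofReal (wn (m + 1) c)) := by
    have h2 : Measurable (fun p : ℝ × ℝ => φ p.1 p.2 * ENNReal.ofReal (wn (m + 1) p.2)) := by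
      apply Measurable.mul hφ
      unfold wn
      fun_prop
    exact h2.lintegral_prod_right'
  have h3 := ang_main m hm (fun ρ _ => ∫⁻ c in Set.Ioo (-1 : ℝ) 1,
      φ ρ c * ENNReal.ofReal (wn (m + 1) c)) (hG.comp measurable_fst)
  rw [h3]
  congr 1
  refine setLIntegral_congr_fun measurableSet_Ioi (fun ρ hρ => ?_)
  congr 1
  have hφρ : Measurable (fun c => φ ρ c) := by
    have : Measurable (fun c : ℝ => Function.uncurry φ (ρ, c)) := by
      apply hφ.comp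
      fun_prop
    exact this
  exact (ang_wn m hm (fun c => φ ρ c) hφρ).symm

end Pool.DyMax
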