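import Pool.Agent.DyMax.Defs

/-! Basic facts about annuli and averages (proved by helper84). -/

set_option autoImplicit false

open MeasureTheory Metric
open scoped ENNReal RealInnerProductSpace

namespace Pool.DyMax

variable {n : ℕ} {R : ℝ}

theorem meas_ann (n : ℕ) (R : ℝ) : MeasurableSet (ann n R) := by
  have h : ann n R = {z : E n | (1 - 1 / (n : ℝ)) * R ≤ ‖z‖} ∩ {z : E n | ‖z‖ < R} := rfl
  rw [h]
  exact (measurableSet_le measurable_const measurable_norm).inter
    (measurableSet_lt measurable_norm measurable_const)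

theorem ann_subset_ball (n : ℕ) (R : ℝ) : ann n R ⊆ ball (0 : E n) R := by
  intro z hz
  rw [mem_ball_zero_iff]
  exact hz.2

theorem ann_top (n : ℕ) (R : ℝ) : volume (ann n R) ≠ ∞ :=
  ne_top_of_le_ne_top measure_ball_lt_top.ne (measure_mono (ann_subset_ball n R))

theorem basic_pow (hn : 2 ≤ n) : (1 - 1 / (n : ℝ)) ^ n ≤ 1 / 2 := by
  have hn' : (2 : ℝ) ≤ n := by exact_mod_cast hn
  have h0 : (0 : ℝ) ≤ 1 - 1 / (n : ℝ) := by
    rw [sub_nonneg, div_le_one (by linarith)]; linarith
  have h1 : 1 - 1 / (n : ℝ) ≤ Real.exp (-(1 / (n : ℝ))) := by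
    have := Real.add_one_le_exp (-(1 / (n : ℝ)))
    linarith
  calc (1 - 1 / (n : ℝ)) ^ n ≤ Real.exp (-(1 / (n : ℝ))) ^ n := pow_le_pow_left₀ h0 h1 n
    _ = Real.exp (n * (-(1 / (n : ℝ)))) := by rw [← Real.exp_nat_mul]
    _ = Real.exp (-1) := by
        congr 1
        field_simp
    _ ≤ 1 / 2 := by
        rw [Real.exp_neg, one_div]
        apply inv_anti₀ (by norm_num)
        have := Real.exp_one_gt_d9
        linarith

/-- `|B(R)| ≤ 2 |ann(R)|`. -/
theorem ball_le_ann (hn : 2 ≤ n) (hR : 0 < R) :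
    volume (ball (0 : E n) R) ≤ 2 * volume (ann n R) := by
  have hn' : (2 : ℝ) ≤ n := by exact_mod_cast hn
  have h0 : (0 : ℝ) < 1 - 1 / (n : ℝ) := by
    rw [sub_pos, div_lt_one (by linarith)]; linarith
  have hsub : ball (0 : E n) R ⊆ ann n R ∪ ball (0 : E n) ((1 - 1 / (n : ℝ)) * R) := by
    intro z hz
    rw [mem_ball_zero_iff] at hz
    by_cases h : (1 - 1 / (n : ℝ)) * R ≤ ‖z‖
    · exact Or.inl ⟨h, hz⟩
    · exact Or.inr (by rw [mem_ball_zero_iff]; exact not_le.1 h)
  have hB : volume (ball (0 : E n) R) ≠ ∞ := measure_ball_lt_top.ne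
  have h2 : volume (ball (0 : E n) ((1 - 1 / (n : ℝ)) * R)) ≤ volume (ball (0 : E n) R) / 2 := by
    rw [Measure.addHaar_ball_mul_of_pos volume (0 : E n) h0 R, finrank_euclideanSpace_fin,
      ENNReal.div_eq_inv_mul]
    gcongr
    calc ENNReal.ofReal ((1 - 1 / (n : ℝ)) ^ n) ≤ ENNReal.ofReal (1 / 2) :=
          ENNReal.ofReal_le_ofReal (basic_pow hn)
      _ = 2⁻¹ := by
          rw [ENNReal.ofReal_div_of_pos (by norm_num)]
          simp
  have h3 : volume (ball (0 : E n) R) ≤ volume (ann n R) + volume (ball (0 : E n) R) / 2 :=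
    (measure_mono hsub).trans ((measure_union_le _ _).trans (by gcongr))
  have h4 : volume (ball (0 : E n) R) / 2 ≠ ∞ := ENNReal.div_ne_top hB (by norm_num)
  have h5 : volume (ball (0 : E n) R) / 2 + volume (ball (0 : E n) R) / 2 ≤
      volume (ann n R) + volume (ball (0 : E n) R) / 2 := by rwa [ENNReal.add_halves]
  have h6 := (ENNReal.add_le_add_iff_right h4).1 h5
  calc volume (ball (0 : E n) R) = 2 * (volume (ball (0 : E n) R) / 2) := by
        rw [ENNReal.mul_div_cancel (by norm_num) (by norm_num)]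
    _ ≤ _ := by gcongr

theorem ann_pos (hn : 2 ≤ n) (hR : 0 < R) : volume (ann n R) ≠ 0 := by
  intro h
  have h1 := ball_le_ann hn hR
  rw [h, mul_zero] at h1
  exact absurd (le_antisymm h1 zero_le) (Metric.measure_ball_pos volume (0 : E n) hR).ne'

theorem ann_neg (z : E n) : -z ∈ ann n R ↔ z ∈ ann n R := by
  simp [ann]

/-- `av` as a convolution. -/
theorem av_eq (f : E n → ℝ≥0∞) (x : E n) :
    av n R f x = (volume (ann n R))⁻¹ * ∫⁻ p, (ann n R).indicator 1 (x - p) * f p := by
  unfold av
  congr 1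
  rw [← lintegral_indicator (meas_ann n R),
    ← lintegral_sub_left_eq_self (fun p => (ann n R).indicator 1 (x - p) * f p) x]
  rw [← lintegral_neg_eq_self]
  refine lintegral_congr fun z => ?_
  by_cases hz : z ∈ ann n R
  · have h1 : -z ∈ ann n R := (ann_neg z).2 hz
    rw [Set.indicator_of_mem h1]
    simp [hz, sub_eq_add_neg]
  · have h1 : -z ∉ ann n R := fun h => hz ((ann_neg z).1 h)
    rw [Set.indicator_of_notMem h1]
    simp [hz]

theorem av_kernel_meas (n : ℕ) (R : ℝ) :
    Measurable (fun q : E n × E n => (ann n R).indicator (1 : E n → ℝ≥0∞) (q.1 - q.2)) :=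
  (measurable_one.indicator (meas_ann n R)).comp (measurable_fst.sub measurable_snd)

theorem av_meas {f : E n → ℝ≥0∞} (hf : Measurable f) : Measurable (av n R f) := by
  have h : av n R f = fun x => (volume (ann n R))⁻¹ *
      ∫⁻ p, (ann n R).indicator 1 (x - p) * f p := funext (av_eq f)
  rw [h]
  refine Measurable.const_mul ?_ _
  exact Measurable.lintegral_prod_right' ((av_kernel_meas n R).mul (hf.comp measurable_snd))

theorem av_symm {f g : E n → ℝ≥0∞} (hf : Measurable f) (hg : Measurable g) :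
    ∫⁻ x, f x * av n R g x = ∫⁻ x, av n R f x * g x := by
  have hk := av_kernel_meas n R
  have e1 : ∫⁻ x, f x * av n R g x = (volume (ann n R))⁻¹ *
      ∫⁻ x, ∫⁻ p, f x * ((ann n R).indicator 1 (x - p) * g p) := by
    have hm : Measurable fun x => ∫⁻ p, f x * ((ann n R).indicator 1 (x - p) * g p) := by
      refine Measurable.lintegral_prod_right' (f := fun q : E n × E n =>
        f q.1 * ((ann n R).indicator 1 (q.1 - q.2) * g q.2)) ?_
      exact (hf.comp measurable_fst).mul (hk.mul (hg.comp measurable_snd))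
    rw [← lintegral_const_mul _ hm]
    refine lintegral_congr fun x => ?_
    rw [av_eq]
    have hm2 : Measurable fun p => (ann n R).indicator (1 : E n → ℝ≥0∞) (x - p) * g p :=
      (hk.comp (measurable_const.prodMk measurable_id)).mul hg
    rw [lintegral_const_mul _ hm2]
    ring
  have e2 : ∫⁻ p, av n R f p * g p = (volume (ann n R))⁻¹ *
      ∫⁻ p, ∫⁻ x, f x * ((ann n R).indicator 1 (x - p) * g p) := by
    have hm : Measurable fun p => ∫⁻ x, f x * ((ann n R).indicator 1 (x - p) * g p) := by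
      refine Measurable.lintegral_prod_left' (f := fun q : E n × E n =>
        f q.1 * ((ann n R).indicator 1 (q.1 - q.2) * g q.2)) ?_
      exact (hf.comp measurable_fst).mul (hk.mul (hg.comp measurable_snd))
    rw [← lintegral_const_mul _ hm]
    refine lintegral_congr fun p => ?_
    rw [av_eq]
    have hm2 : Measurable fun x => (ann n R).indicator (1 : E n → ℝ≥0∞) (p - x) * f x :=
      (hk.comp (measurable_const.prodMk measurable_id)).mul hf
    rw [mul_assoc, ← lintegral_mul_const _ hm2]
    congr 1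
    refine lintegral_congr fun x => ?_
    have h : (ann n R).indicator (1 : E n → ℝ≥0∞) (p - x) = (ann n R).indicator 1 (x - p) := by
      by_cases hz : x - p ∈ ann n R
      · have h1 : p - x ∈ ann n R := by
          rw [← neg_sub]; exact (ann_neg _).2 hz
        simp [hz, h1]
      · have h1 : p - x ∉ ann n R := by
          rw [← neg_sub]; exact fun h => hz ((ann_neg _).1 h)
        simp [hz, h1]
    rw [h]
    ring
  rw [e1, e2]
  congr 1
  exact lintegral_lintegral_swap ((hf.comp measurable_fst).mul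
    (hk.mul (hg.comp measurable_snd))).aemeasurable

theorem av_const (hn : 2 ≤ n) (hR : 0 < R) (c : ℝ≥0∞) (x : E n) : av n R (fun _ => c) x = c := by
  unfold av
  rw [setLIntegral_const, mul_comm c, ← mul_assoc, ENNReal.inv_mul_cancel (ann_pos hn hR) (ann_top n R),
    one_mul]

theorem lint_av (hn : 2 ≤ n) (hR : 0 < R) {f : E n → ℝ≥0∞} (hf : Measurable f) :
    ∫⁻ x, av n R f x = ∫⁻ x, f x := by
  have h := av_symm (n := n) (R := R) (f := fun _ => 1) (g := f) measurable_const hf
  simp only [one_mul] at h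
  rw [h]
  refine lintegral_congr fun x => ?_
  rw [av_const hn hR, one_mul]

theorem av_mono {f g : E n → ℝ≥0∞} (h : ∀ x, f x ≤ g x) (x : E n) : av n R f x ≤ av n R g x := by
  unfold av
  gcongr
  exact h _

theorem av_le_one (hn : 2 ≤ n) (hR : 0 < R) {f : E n → ℝ≥0∞} (h : ∀ x, f x ≤ 1) (x : E n) :
    av n R f x ≤ 1 := (av_mono h x).trans (av_const hn hR 1 x).le

/-- `av` only depends on the values of `f` in the ball of radius `R`. -/
theorem av_congr_ball {f g : E n → ℝ≥0∞} (x : E n) (h : ∀ y, dist y x < R → f y = g y) :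
    av n R f x = av n R g x := by
  unfold av
  congr 1
  refine setLIntegral_congr_fun (meas_ann n R) fun z hz => ?_
  apply h
  rw [dist_eq_norm, add_sub_cancel_left]
  exact hz.2

end Pool.DyMax
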