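import Pool.Agent.DyMax.Defs

/-! MODULE COV: covering of the badly conditioned directions.

Proof: let `W = span L`, `dim W ≤ |L|`, `π` the orthogonal projection onto `W`. If `z` is in the set on
the left, `θ = z/‖z‖`, then `‖θ - πθ‖ < 1/64` (otherwise `v = (θ - πθ)/‖θ - πθ‖` is a unit vector
orthogonal to `L` with `⟪v, θ⟫ = ‖θ - πθ‖ ≥ 1/64`). Let `T` be a maximal subset of this set with mutual
distances `≥ R/8`. For `z ≠ z'` in `T`: `‖z/‖z‖ - z/R‖ ≤ 1/n`, so `‖θ - θ'‖ ≥ 1/8 - 2/n` and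
`‖πθ - πθ'‖ ≥ 1/8 - 2/n - 2/64 ≥ 1/16` for `n ≥ 64`, all `πθ` in the unit ball of `W`. Hence
`|T| ≤ 33^dim W ≤ 33^|L|` (volume argument in `W`, as in Mathlib `Besicovitch.card_le_of_separated`: disjoint
balls of radius `1/32` in the ball of radius `1 + 1/32`), in particular `T` exists, and the balls
`B(z, R/8)`, `z ∈ T`, cover the set. -/

set_option autoImplicit false

open MeasureTheory Metric
open scoped ENNReal RealInnerProductSpace

namespace Pool.DyMax

open Module in
theorem cover_card {V : Type*} [NormedAddCommGroup V] [NormedSpace ℝ V] [FiniteDimensional ℝ V]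
    (s : Finset V) (hs : ∀ c ∈ s, ‖c‖ ≤ 1) (h : ∀ c ∈ s, ∀ d ∈ s, c ≠ d → 1 / 16 ≤ ‖c - d‖) :
    s.card ≤ 33 ^ finrank ℝ V := by
  borelize V
  let μ : Measure V := Measure.addHaar
  let δ : ℝ := (1 : ℝ) / 32
  let ρ : ℝ := (33 : ℝ) / 32
  have ρpos : 0 < ρ := by norm_num [ρ]
  set A := ⋃ c ∈ s, ball (c : V) δ with hA
  have D : Set.Pairwise (s : Set V) (Function.onFun Disjoint fun c => ball (c : V) δ) := by
    rintro c hc d hd hcd
    apply ball_disjoint_ball
    rw [dist_eq_norm]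
    have := h c hc d hd hcd
    simp only [δ]
    linarith
  have A_subset : A ⊆ ball (0 : V) ρ := by
    refine Set.iUnion₂_subset fun x hx => ?_
    apply ball_subset_ball'
    have := hs x hx
    rw [dist_zero_right]
    simp only [δ, ρ]
    linarith
  have I : (s.card : ℝ≥0∞) * ENNReal.ofReal (δ ^ finrank ℝ V) * μ (ball 0 1) ≤
      ENNReal.ofReal (ρ ^ finrank ℝ V) * μ (ball 0 1) :=
    calc
      (s.card : ℝ≥0∞) * ENNReal.ofReal (δ ^ finrank ℝ V) * μ (ball 0 1) = μ A := by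
        rw [hA, measure_biUnion_finset D fun c _ => measurableSet_ball]
        have I : 0 < δ := by norm_num [δ]
        simp only [μ.addHaar_ball_of_pos _ I]
        simp only [Finset.sum_const, nsmul_eq_mul, mul_assoc]
      _ ≤ μ (ball (0 : V) ρ) := measure_mono A_subset
      _ = ENNReal.ofReal (ρ ^ finrank ℝ V) * μ (ball 0 1) := by
        simp only [μ.addHaar_ball_of_pos _ ρpos]
  have J : (s.card : ℝ≥0∞) * ENNReal.ofReal (δ ^ finrank ℝ V) ≤
      ENNReal.ofReal (ρ ^ finrank ℝ V) :=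
    (ENNReal.mul_le_mul_iff_left (measure_ball_pos _ _ zero_lt_one).ne' measure_ball_lt_top.ne).1 I
  have K : (s.card : ℝ) ≤ (33 : ℝ) ^ finrank ℝ V := by
    have := ENNReal.toReal_le_of_le_ofReal (pow_nonneg ρpos.le _) J
    simpa [ρ, δ, div_eq_mul_inv, mul_pow] using this
  exact mod_cast K

theorem cover_sep {V : Type*} [NormedAddCommGroup V] [NormedSpace ℝ V] [FiniteDimensional ℝ V]
    {α : Type*} (T : Finset α) (g : α → V) (hs : ∀ c ∈ T, ‖g c‖ ≤ 1)
    (h : ∀ c ∈ T, ∀ d ∈ T, c ≠ d → 1 / 16 ≤ ‖g c - g d‖) :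
    T.card ≤ 33 ^ Module.finrank ℝ V := by
  classical
  have hinj : Set.InjOn g T := by
    intro c hc d hd hcd
    by_contra hne
    have := h c hc d hd hne
    rw [hcd, sub_self, norm_zero] at this
    norm_num at this
  rw [← Finset.card_image_of_injOn hinj]
  apply cover_card
  · intro c hc
    obtain ⟨a, ha, rfl⟩ := Finset.mem_image.1 hc
    exact hs a ha
  · intro c hc d hd hcd
    obtain ⟨a, ha, rfl⟩ := Finset.mem_image.1 hc
    obtain ⟨a', ha', rfl⟩ := Finset.mem_image.1 hd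
    exact h a ha a' ha' (fun e => hcd (by rw [e]))

theorem cover (n : ℕ) (hn : 64 ≤ n) (R : ℝ) (hR : 0 < R) (S : Set (E n)) (hS : S ⊆ ann n R)
    (ν : Measure (E n)) (φ : ℝ≥0∞) (hφ : ∀ z ∈ S, ν (ball z (R / 8)) ≤ φ) (L : List (E n)) :
    ν {z | z ∈ S ∧ ¬ ∃ v : E n, ‖v‖ = 1 ∧ (∀ u ∈ L, ⟪v, u⟫ = 0) ∧ 1 / 64 ≤ |⟪v, ‖z‖⁻¹ • z⟫|} ≤
      33 ^ L.length * φ := by
  classical
  set A : Set (E n) := {z | z ∈ S ∧ ¬ ∃ v : E n, ‖v‖ = 1 ∧ (∀ u ∈ L, ⟪v, u⟫ = 0) ∧
    1 / 64 ≤ |⟪v, ‖z‖⁻¹ • z⟫|} with hA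
  have hn' : (64 : ℝ) ≤ n := by exact_mod_cast hn
  have hn0 : (0 : ℝ) < n := by linarith
  have hn1 : 1 / (n : ℝ) ≤ 1 / 64 := one_div_le_one_div_of_le (by norm_num) hn'
  set W : Submodule ℝ (E n) := Submodule.span ℝ (L.toFinset : Set (E n)) with hW
  have hdim : Module.finrank ℝ W ≤ L.length :=
    (finrank_span_finset_le_card L.toFinset).trans (List.toFinset_card_le L)
  -- residuals are small
  have hres : ∀ z ∈ A, ‖‖z‖⁻¹ • z - W.orthogonalProjectionOnto (‖z‖⁻¹ • z)‖ < 1 / 64 := by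
    intro z hz
    by_contra hcon
    push Not at hcon
    apply hz.2
    set θ := ‖z‖⁻¹ • z with hθ
    set r : E n := θ - W.orthogonalProjectionOnto θ with hr
    have hr0 : 0 < ‖r‖ := by linarith
    have hrW : r ∈ Wᗮ := by
      rw [hr]
      exact W.sub_starProjection_mem_orthogonal θ
    refine ⟨‖r‖⁻¹ • r, ?_, ?_, ?_⟩
    · rw [norm_smul, norm_inv, norm_norm, inv_mul_cancel₀ hr0.ne']
    · intro u hu
      rw [real_inner_smul_left]
      have huW : u ∈ W := Submodule.subset_span (by simpa using hu)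
      rw [(Submodule.mem_orthogonal' W r).1 hrW u huW, mul_zero]
    · have h1 : ⟪r, θ⟫ = ‖r‖ ^ 2 := by
        have h2 : θ = r + W.orthogonalProjectionOnto θ := by rw [hr]; abel
        conv_lhs => rw [h2]
        rw [inner_add_right, (Submodule.mem_orthogonal' W r).1 hrW _
          (W.orthogonalProjectionOnto θ).2, add_zero, real_inner_self_eq_norm_sq]
      rw [real_inner_smul_left, h1, pow_two, ← mul_assoc, inv_mul_cancel₀ hr0.ne', one_mul,
        abs_of_pos hr0]
      exact hcon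
  have hpos : ∀ z ∈ A, 0 < ‖z‖ := by
    intro z hz
    have h1 := (hS hz.1).1
    have : 0 < (1 - 1 / (n : ℝ)) * R := mul_pos (by linarith) hR
    linarith
  have hclose : ∀ z ∈ A, ‖‖z‖⁻¹ • z - R⁻¹ • z‖ ≤ 1 / n := by
    intro z hz
    have h0 := hpos z hz
    have h1 := (hS hz.1).1
    have h2 := (hS hz.1).2
    rw [← sub_smul, norm_smul, Real.norm_eq_abs]
    have h3 : |‖z‖⁻¹ - R⁻¹| = ‖z‖⁻¹ - R⁻¹ := by
      apply abs_of_nonneg
      have := inv_anti₀ h0 h2.le
      linarith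
    rw [h3, sub_mul, inv_mul_cancel₀ h0.ne']
    have h4 : R⁻¹ * ((1 - 1 / (n : ℝ)) * R) ≤ R⁻¹ * ‖z‖ :=
      mul_le_mul_of_nonneg_left h1 (inv_nonneg.2 hR.le)
    have h5 : R⁻¹ * ((1 - 1 / (n : ℝ)) * R) = 1 - 1 / (n : ℝ) := by field_simp
    linarith
  have hcard : ∀ T : Finset (E n), (∀ z ∈ T, z ∈ A) →
      (∀ c ∈ T, ∀ d ∈ T, c ≠ d → R / 8 ≤ dist c d) → T.card ≤ 33 ^ L.length := by
    intro T hT hsep
    have h1 : T.card ≤ 33 ^ Module.finrank ℝ W := by
      apply cover_sep T (fun z => W.orthogonalProjectionOnto (‖z‖⁻¹ • z))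
      · intro z hz
        have h0 := hpos z (hT z hz)
        calc ‖W.orthogonalProjectionOnto (‖z‖⁻¹ • z)‖ ≤ ‖‖z‖⁻¹ • z‖ :=
              W.norm_orthogonalProjectionOnto_apply_le _
          _ = 1 := by rw [norm_smul, norm_inv, norm_norm, inv_mul_cancel₀ h0.ne']
          _ ≤ 1 := le_rfl
      · intro c hc d hd hcd
        have h2 := hsep c hc d hd hcd
        have hrc := hres c (hT c hc)
        have hrd := hres d (hT d hd)
        have hcc := hclose c (hT c hc)
        have hcd' := hclose d (hT d hd)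
        set θ := ‖c‖⁻¹ • c with hθ
        set θ' := ‖d‖⁻¹ • d with hθ'
        have h3 : ‖R⁻¹ • c - R⁻¹ • d‖ = R⁻¹ * dist c d := by
          rw [← smul_sub, norm_smul, norm_inv, Real.norm_of_nonneg hR.le, dist_eq_norm]
        have h4 : 1 / 8 ≤ ‖R⁻¹ • c - R⁻¹ • d‖ := by
          rw [h3]
          have : R⁻¹ * (R / 8) ≤ R⁻¹ * dist c d :=
            mul_le_mul_of_nonneg_left h2 (inv_nonneg.2 hR.le)
          have h5 : R⁻¹ * (R / 8) = 1 / 8 := by field_simp
          linarith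
        have h6 : R⁻¹ • c - R⁻¹ • d = (((W.orthogonalProjectionOnto θ : E n) -
            (W.orthogonalProjectionOnto θ' : E n)) + (θ - W.orthogonalProjectionOnto θ)) -
            (θ' - W.orthogonalProjectionOnto θ') - (θ - R⁻¹ • c) + (θ' - R⁻¹ • d) := by abel
        have h7 : ‖(W.orthogonalProjectionOnto θ : E n) - (W.orthogonalProjectionOnto θ' : E n)‖ =
            ‖W.orthogonalProjectionOnto θ - W.orthogonalProjectionOnto θ'‖ := by
          rw [← Submodule.coe_sub, Submodule.coe_norm]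
        have h8 := norm_add_le ((((W.orthogonalProjectionOnto θ : E n) -
            (W.orthogonalProjectionOnto θ' : E n)) + (θ - W.orthogonalProjectionOnto θ)) -
            (θ' - W.orthogonalProjectionOnto θ') - (θ - R⁻¹ • c)) (θ' - R⁻¹ • d)
        have h9 := norm_sub_le ((((W.orthogonalProjectionOnto θ : E n) -
            (W.orthogonalProjectionOnto θ' : E n)) + (θ - W.orthogonalProjectionOnto θ)) -
            (θ' - W.orthogonalProjectionOnto θ')) (θ - R⁻¹ • c)
        have h10 := norm_sub_le (((W.orthogonalProjectionOnto θ : E n) -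
            (W.orthogonalProjectionOnto θ' : E n)) + (θ - W.orthogonalProjectionOnto θ))
            (θ' - W.orthogonalProjectionOnto θ')
        have h11 := norm_add_le ((W.orthogonalProjectionOnto θ : E n) -
            (W.orthogonalProjectionOnto θ' : E n)) (θ - W.orthogonalProjectionOnto θ)
        rw [← h6] at h8
        rw [← h7]
        linarith
    exact h1.trans (Nat.pow_le_pow_right (by norm_num) hdim)
  -- a maximal separated set
  have hmax : ∃ T : Finset (E n), (∀ z ∈ T, z ∈ A) ∧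
      (∀ c ∈ T, ∀ d ∈ T, c ≠ d → R / 8 ≤ dist c d) ∧ ∀ T' : Finset (E n), (∀ z ∈ T', z ∈ A) →
      (∀ c ∈ T', ∀ d ∈ T', c ≠ d → R / 8 ≤ dist c d) → T'.card ≤ T.card := by
    set P : ℕ → Prop := fun k => ∃ T : Finset (E n), (∀ z ∈ T, z ∈ A) ∧
      (∀ c ∈ T, ∀ d ∈ T, c ≠ d → R / 8 ≤ dist c d) ∧ T.card = k with hP
    have hP0 : P 0 := ⟨∅, by simp, by simp, rfl⟩
    have hb : ∀ k, P k → k ≤ 33 ^ L.length := by
      rintro k ⟨T, h1, h2, rfl⟩
      exact hcard T h1 h2
    obtain ⟨T, h1, h2, h3⟩ := Nat.findGreatest_spec (P := P) (n := 33 ^ L.length) (Nat.zero_le _) hP0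
    refine ⟨T, h1, h2, fun T' h1' h2' => ?_⟩
    rw [h3]
    exact Nat.le_findGreatest (hcard T' h1' h2') ⟨T', h1', h2', rfl⟩
  obtain ⟨T, hTA, hTsep, hTmax⟩ := hmax
  have hcov : A ⊆ ⋃ c ∈ T, ball c (R / 8) := by
    intro z hz
    by_contra hcon
    simp only [Set.mem_iUnion, mem_ball, not_exists, not_lt] at hcon
    have hzT : z ∉ T := by
      intro h
      have := hcon z h
      rw [dist_self] at this
      linarith
    have h1 := hTmax (insert z T) (by
      intro w hw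
      rcases Finset.mem_insert.1 hw with rfl | hw
      · exact hz
      · exact hTA w hw) (by
      intro c hc d hd hcd
      rcases Finset.mem_insert.1 hc with hc1 | hc1
      · rcases Finset.mem_insert.1 hd with hd1 | hd1
        · exact absurd (hc1.trans hd1.symm) hcd
        · rw [hc1]; exact hcon d hd1
      · rcases Finset.mem_insert.1 hd with hd1 | hd1
        · rw [hd1, dist_comm]; exact hcon c hc1
        · exact hTsep c hc1 d hd1 hcd)
    rw [Finset.card_insert_of_notMem hzT] at h1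
    omega
  calc ν A ≤ ν (⋃ c ∈ T, ball c (R / 8)) := measure_mono hcov
    _ ≤ ∑ c ∈ T, ν (ball c (R / 8)) := measure_biUnion_finset_le T _
    _ ≤ ∑ _c ∈ T, φ := Finset.sum_le_sum fun c hc => hφ c (hTA c hc).1
    _ = (T.card : ℝ≥0∞) * φ := by rw [Finset.sum_const, nsmul_eq_mul]
    _ ≤ 33 ^ L.length * φ := by
        gcongr
        exact_mod_cast hcard T hTA hTsep

end Pool.DyMax
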