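import Pool.Agent.MaxFn.Defs

/-!
Definitions for the dimension-free weak type (1,1) bound of the dyadic ball maximal function
(MP_6b2635_an, frozen statement S04943). Radii are `R_k = 2^k R`, `k < K`.
-/

set_option autoImplicit false

open MeasureTheory Metric
open scoped ENNReal RealInnerProductSpace

namespace Pool.DyMax

/-- Euclidean space. -/
abbrev E (n : ℕ) := EuclideanSpace ℝ (Fin n)

/-- The annulus `(1 - 1/n) R ≤ |z| < R`. -/
def ann (n : ℕ) (R : ℝ) : Set (E n) := {z | (1 - 1 / (n : ℝ)) * R ≤ ‖z‖ ∧ ‖z‖ < R}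

/-- Average of `f` over the annulus `x + ann n R`. -/
noncomputable def av (n : ℕ) (R : ℝ) (f : E n → ℝ≥0∞) (x : E n) : ℝ≥0∞ :=
  (volume (ann n R))⁻¹ * ∫⁻ z in ann n R, f (x + z)

/-- Average of `f` over the ball of radius `ρ` about `x`. -/
noncomputable def bav (n : ℕ) (ρ : ℝ) (f : E n → ℝ≥0∞) (x : E n) : ℝ≥0∞ :=
  (volume (ball (0 : E n) ρ))⁻¹ * ∫⁻ z in ball (0 : E n) ρ, f (x + z)

/-- The number of dyadic radii in one window. -/
def Kn (n : ℕ) : ℕ := Nat.log 2 n + 1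

/-- The radius of the ball in the pair kernel: `rp^2 = (R_j^2 - R_i^2)(1 + 3/n)`. -/
noncomputable def rp (n : ℕ) (R : ℝ) (i j : ℕ) : ℝ :=
  Real.sqrt (((2 ^ j * R) ^ 2 - (2 ^ i * R) ^ 2) * (1 + 3 / n))

/-- First form of the pair kernel. -/
noncomputable def kapA (n : ℕ) (R : ℝ) (i j : ℕ) (z w : E n) : ℝ≥0∞ :=
  {q : E n × E n | q.1 ∈ ann n (2 ^ i * R) ∧ q.2 ∈ ann n (2 ^ j * R) ∧
    |⟪q.1, q.2⟫ / (‖q.1‖ * ‖q.2‖) - (1 / 2) ^ (j - i)| ≤ 1 / n}.indicator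
    (fun _ => (volume (ann n (2 ^ i * R)))⁻¹ * (volume (ann n (2 ^ j * R)))⁻¹ *
      ENNReal.ofReal (200 * Real.sqrt n * (1 - (1 / 4) ^ (j - i)) ^ (-(n : ℝ) / 2))) (z, w)

/-- Second form of the pair kernel: `w - z` is in a ball and nearly orthogonal to `z`. -/
noncomputable def kap (n : ℕ) (R : ℝ) (i j : ℕ) (z w : E n) : ℝ≥0∞ :=
  {q : E n × E n | q.1 ∈ ann n (2 ^ i * R) ∧ q.2 - q.1 ∈ ball (0 : E n) (rp n R i j) ∧
    |⟪q.2 - q.1, q.1⟫| ≤ 2 * (2 ^ j * R) / n * ‖q.1‖}.indicator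
    (fun _ => (volume (ann n (2 ^ i * R)))⁻¹ * (volume (ball (0 : E n) (rp n R i j)))⁻¹ *
      ENNReal.ofReal (2000 * Real.sqrt n)) (z, w)

/-- A system of functions `ψ_k` with sum at most one, supported where the average of `f` over the
annulus of radius `2^k R` is at most `2 s`. -/
structure Sys (n K : ℕ) (R : ℝ) (f : E n → ℝ≥0∞) (s : ℝ≥0∞) (ψ : ℕ → E n → ℝ≥0∞) : Prop where
  meas : ∀ k, Measurable (ψ k)
  le_one : ∀ x, ∑ k ∈ Finset.range K, ψ k x ≤ 1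
  lvl : ∀ k < K, ∀ x, ψ k x ≠ 0 → av n (2 ^ k * R) f x ≤ 2 * s
  fin : ∀ k < K, ∫⁻ x, ψ k x ≠ ∞

/-- `U = ∑ S_k ψ_k`. -/
noncomputable def UU (n K : ℕ) (R : ℝ) (ψ : ℕ → E n → ℝ≥0∞) (p : E n) : ℝ≥0∞ :=
  ∑ k ∈ Finset.range K, av n (2 ^ k * R) (ψ k) p

/-- Degenerate points at scale `i`: the ball of radius `R_i/8` has large mass. -/
def degen (n : ℕ) (R : ℝ) (f : E n → ℝ≥0∞) (s : ℝ≥0∞) (i : ℕ) : Set (E n) :=
  {p | ENNReal.ofReal ((9 / 10) ^ n) * s * volume (ball (0 : E n) (2 ^ i * R)) ≤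
    ∫⁻ y in ball p (2 ^ i * R / 8), f y}

/-- Points which are degenerate at some scale `i'` with `i < i' < K`. -/
def degenAbove (n K : ℕ) (R : ℝ) (f : E n → ℝ≥0∞) (s : ℝ≥0∞) (i : ℕ) : Set (E n) :=
  {p | ∃ i', i < i' ∧ i' < K ∧ p ∈ degen n R f s i'}

/-- Well-conditioned lists of vectors: each vector has a component of size at least `1/64` in some
unit direction orthogonal to the following ones. -/
def Cond {n : ℕ} : List (E n) → Prop
  | [] => True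
  | θ :: L => (∃ v : E n, ‖v‖ = 1 ∧ (∀ u ∈ L, ⟪v, u⟫ = 0) ∧ 1 / 64 ≤ |⟪v, θ⟫|) ∧ Cond L

/-- Density of the cosine of the angle with a fixed direction. -/
noncomputable def wn (n : ℕ) (c : ℝ) : ℝ :=
  (1 - c ^ 2) ^ (((n : ℝ) - 3) / 2) / ∫ t in Set.Ioo (-1 : ℝ) 1, (1 - t ^ 2) ^ (((n : ℝ) - 3) / 2)

/-- The parameter interval of the random perturbation. -/
noncomputable def tI (n : ℕ) : Set ℝ :=
  Set.Icc (2 / (3 * Real.sqrt n)) (1 / Real.sqrt n)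

/-- Inner product of `sqrt(1-a²) v + a e` and `sqrt(1-b²) v' + b e` if `⟪v, v'⟫ = r`. -/
noncomputable def cc (r a b : ℝ) : ℝ := Real.sqrt (1 - a ^ 2) * Real.sqrt (1 - b ^ 2) * r + a * b

end Pool.DyMax
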