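import Pool.Agent.DyMax.Basic

/-! MODULE DEG: degenerate points.

Proof: let `D = {(p, m) : m < K, p ∈ degen m}`. By the Vitali covering lemma
(Mathlib `Vitali.exists_disjoint_subfamily_covering_enlargement`, sizes `δ = 2^m R/8`, factor `τ < 2`,
e.g. 3/2; as the radii are dyadic, `δ a ≤ (3/2) δ b` gives `m_a ≤ m_b`) there is a countable subfamily
`(p_b, m_b)` with disjoint balls `B(p_b, R_{m_b}/8)` such that for every `(p, m) ∈ D` there is `b` with
`m ≤ m_b` and `|p - p_b| < R_m/8 + R_{m_b}/8 ≤ R_{m_b}/4` (use open or closed balls; if closed balls are used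
for disjointness, the open ones are disjoint too).
If `p ∈ degenAbove i`, i.e. `p ∈ degen m` with `i < m < K`, then the corresponding `b` has `i < m_b`. So
`∑_i 1_{degenAbove i}(p) S_iψ_i(p) ≤ ∑_b 1_{B(p_b, R_{m_b}/4)}(p) ∑_{i<m_b} S_iψ_i(p)`.
For each `b`, with `g = f 1_{B(p_b, R_{m_b}/4)}`: `∫ g S_iψ_i = ∫ ψ_i S_i g` (lemma `av_symm`) and
`S_i g(x) ≤ S_i f(x) ≤ 2s` when `ψ_i(x) ≠ 0`, `S_i g(x) = 0` unless `|x - p_b| < R_{m_b}/4 + R_i ≤ (3/4) R_{m_b}`.
Hence the sum over `i < m_b` is at most `2s |B(3R_{m_b}/4)|` (as `∑ψ_i ≤ 1`)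
`= 2s (3/4)^n |B(R_{m_b})| ≤ 2 (3/4)^n (10/9)^n ∫_{B(p_b, R_{m_b}/8)} f = 2 (5/6)^n ∫_{B(p_b,R_{m_b}/8)} f`.
Sum over the disjoint balls. -/

set_option autoImplicit false

open MeasureTheory Metric
open scoped ENNReal

namespace Pool.DyMax

theorem degen_ballint_meas (n : ℕ) (r : ℝ) (f : E n → ℝ≥0∞) (hf : Measurable f) :
    Measurable (fun p : E n => ∫⁻ y in ball p r, f y) := by
  have h : (fun p : E n => ∫⁻ y in ball p r, f y) = fun p : E n =>
      ∫⁻ y, ({q : E n × E n | dist q.2 q.1 < r}.indicator (fun q => f q.2)) (p, y) := by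
    funext p
    rw [← lintegral_indicator measurableSet_ball]
    refine lintegral_congr fun y => ?_
    by_cases hy : dist y p < r
    · rw [Set.indicator_of_mem (by exact hy), Set.indicator_of_mem (by exact hy)]
    · rw [Set.indicator_of_notMem (by exact hy), Set.indicator_of_notMem (by exact hy)]
  rw [h]
  refine Measurable.lintegral_prod_right' ?_
  exact (hf.comp measurable_snd).indicator
    (measurableSet_lt (measurable_snd.dist measurable_fst) measurable_const)

theorem degen_meas (n : ℕ) (R : ℝ) (f : E n → ℝ≥0∞) (hf : Measurable f) (s : ℝ≥0∞) (i : ℕ) :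
    MeasurableSet (degen n R f s i) :=
  measurableSet_le measurable_const (degen_ballint_meas n (2 ^ i * R / 8) f hf)

theorem degenAbove_meas (n K : ℕ) (R : ℝ) (f : E n → ℝ≥0∞) (hf : Measurable f) (s : ℝ≥0∞) (i : ℕ) :
    MeasurableSet (degenAbove n K R f s i) := by
  have h : degenAbove n K R f s i = ⋃ j : ℕ, {p | i < j ∧ j < K ∧ p ∈ degen n R f s j} := by
    ext p
    simp [degenAbove]
  rw [h]
  refine MeasurableSet.iUnion fun j => ?_
  by_cases hj : i < j ∧ j < K
  · have h2 : {p | i < j ∧ j < K ∧ p ∈ degen n R f s j} = degen n R f s j := by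
      ext p
      simp [hj.1, hj.2]
    rw [h2]
    exact degen_meas n R f hf s j
  · have h2 : {p | i < j ∧ j < K ∧ p ∈ degen n R f s j} = ∅ := by
      ext p
      exact ⟨fun h => hj ⟨h.1, h.2.1⟩, fun h => h.elim⟩
    rw [h2]
    exact MeasurableSet.empty

/-- The contribution of one ball of the covering. -/
theorem degen_one (n K : ℕ) (R : ℝ) (hR : 0 < R) (f : E n → ℝ≥0∞)
    (hf : Measurable f) (s : ℝ≥0∞)
    (ψ : ℕ → E n → ℝ≥0∞) (hψ : Sys n K R f s ψ) (p0 : E n) (m : ℕ) (hm : m < K)
    (hp0 : p0 ∈ degen n R f s m) :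
    ∑ i ∈ Finset.range m, ∫⁻ p, (ball p0 (2 ^ m * R / 4)).indicator f p *
      av n (2 ^ i * R) (ψ i) p ≤
      2 * ENNReal.ofReal ((5 / 6) ^ n) * ∫⁻ y in ball p0 (2 ^ m * R / 8), f y := by
  set g : E n → ℝ≥0∞ := (ball p0 (2 ^ m * R / 4)).indicator f with hg
  have hgm : Measurable g := hf.indicator measurableSet_ball
  have hgf : ∀ x, g x ≤ f x := fun x => Set.indicator_le_self _ _ _
  have hρ : 0 < 2 ^ m * R := by positivity
  have h1 : ∀ i, ∫⁻ p, g p * av n (2 ^ i * R) (ψ i) p = ∫⁻ p, av n (2 ^ i * R) g p * ψ i p :=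
    fun i => av_symm hgm (hψ.meas i)
  simp only [h1]
  have h1' : ∑ i ∈ Finset.range m, ∫⁻ p, av n (2 ^ i * R) g p * ψ i p =
      ∫⁻ p, ∑ i ∈ Finset.range m, av n (2 ^ i * R) g p * ψ i p :=
    (lintegral_finsetSum _ (fun i _ => (av_meas hgm).mul (hψ.meas i))).symm
  rw [h1']
  have h2 : ∀ x, ∑ i ∈ Finset.range m, av n (2 ^ i * R) g x * ψ i x ≤
      (ball p0 (3 / 4 * (2 ^ m * R))).indicator (fun _ => 2 * s) x := by
    intro x
    by_cases hx : x ∈ ball p0 (3 / 4 * (2 ^ m * R))
    · rw [Set.indicator_of_mem hx]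
      calc ∑ i ∈ Finset.range m, av n (2 ^ i * R) g x * ψ i x
          ≤ ∑ i ∈ Finset.range m, 2 * s * ψ i x := by
            refine Finset.sum_le_sum fun i hi => ?_
            by_cases h0 : ψ i x = 0
            · rw [h0, mul_zero, mul_zero]
            · gcongr
              exact (av_mono hgf x).trans
                (hψ.lvl i ((Finset.mem_range.1 hi).trans hm) x h0)
        _ = 2 * s * ∑ i ∈ Finset.range m, ψ i x := by rw [Finset.mul_sum]
        _ ≤ 2 * s * ∑ i ∈ Finset.range K, ψ i x := by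
            gcongr
        _ ≤ 2 * s * 1 := by
            gcongr
            exact hψ.le_one x
        _ = 2 * s := mul_one _
    · rw [Set.indicator_of_notMem hx]
      refine (Finset.sum_eq_zero fun i hi => ?_).le
      have him : i + 1 ≤ m := Finset.mem_range.1 hi
      have h3 : av n (2 ^ i * R) g x = av n (2 ^ i * R) (fun _ => 0) x := by
        refine av_congr_ball x fun y hy => ?_
        rw [hg, Set.indicator_of_notMem]
        intro hy2
        apply hx
        rw [mem_ball] at hy2 ⊢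
        have h4 : (2 : ℝ) ^ i * R ≤ 2 ^ m * R / 2 := by
          have : (2 : ℝ) ^ (i + 1) ≤ 2 ^ m := pow_le_pow_right₀ (by norm_num) him
          rw [pow_succ] at this
          nlinarith
        have h5 := dist_triangle x y p0
        rw [dist_comm] at hy
        linarith
      rw [h3]
      simp [av]
  calc ∫⁻ x, ∑ i ∈ Finset.range m, av n (2 ^ i * R) g x * ψ i x
      ≤ ∫⁻ x, (ball p0 (3 / 4 * (2 ^ m * R))).indicator (fun _ => 2 * s) x := lintegral_mono h2
    _ = 2 * s * volume (ball p0 (3 / 4 * (2 ^ m * R))) := by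
        rw [lintegral_indicator measurableSet_ball, setLIntegral_const]
    _ = 2 * s * (ENNReal.ofReal ((3 / 4) ^ n) * volume (ball (0 : E n) (2 ^ m * R))) := by
        rw [Measure.addHaar_ball_mul_of_pos volume p0 (by norm_num : (0 : ℝ) < 3 / 4),
          finrank_euclideanSpace_fin]
    _ = 2 * ENNReal.ofReal ((5 / 6) ^ n) * (ENNReal.ofReal ((9 / 10) ^ n) * s *
          volume (ball (0 : E n) (2 ^ m * R))) := by
        have h6 : ((3 : ℝ) / 4) ^ n = (5 / 6) ^ n * (9 / 10) ^ n := by
          rw [← mul_pow]; norm_num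
        rw [h6, ENNReal.ofReal_mul (by positivity)]
        ring
    _ ≤ _ := by
        gcongr
        exact hp0

theorem degen_bound (n K : ℕ) (hn : 2 ≤ n) (R : ℝ) (hR : 0 < R) (f : E n → ℝ≥0∞)
    (hf : Measurable f) (hfi : ∫⁻ x, f x ≠ ∞) (s : ℝ≥0∞) (hs : s ≠ 0) (hs' : s ≠ ∞)
    (ψ : ℕ → E n → ℝ≥0∞) (hψ : Sys n K R f s ψ) :
    ∫⁻ p, f p * ∑ i ∈ Finset.range K,
      (degenAbove n K R f s i).indicator (av n (2 ^ i * R) (ψ i)) p ≤
      2 * ENNReal.ofReal ((5 / 6) ^ n) * ∫⁻ x, f x := by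
  -- Vitali covering
  obtain ⟨u, hut, hdisj, hcov⟩ := Vitali.exists_disjoint_subfamily_covering_enlargement
    (fun q : E n × ℕ => ball q.1 (2 ^ q.2 * R / 8)) {q | q.2 < K ∧ q.1 ∈ degen n R f s q.2}
    (fun q => 2 ^ q.2 * R / 8) (3 / 2) (by norm_num)
    (fun q _ => by positivity) (2 ^ K * R / 8)
    (fun q hq => by
      have : (2 : ℝ) ^ q.2 ≤ 2 ^ K := pow_le_pow_right₀ (by norm_num) hq.1.le
      have := mul_le_mul_of_nonneg_right this hR.le
      linarith)
    (fun q _ => nonempty_ball.2 (by positivity))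
  have hcount : u.Countable := by
    refine hdisj.countable_of_isOpen (fun q _ => isOpen_ball) fun q _ => nonempty_ball.2 ?_
    positivity
  have : Countable u := hcount.to_subtype
  -- pointwise domination
  have hpt : ∀ p, f p * ∑ i ∈ Finset.range K,
      (degenAbove n K R f s i).indicator (av n (2 ^ i * R) (ψ i)) p ≤
      ∑' b : u, ∑ i ∈ Finset.range b.1.2,
        (ball b.1.1 (2 ^ b.1.2 * R / 4)).indicator f p * av n (2 ^ i * R) (ψ i) p := by
    intro p
    by_cases hex : ∃ m, m < K ∧ p ∈ degen n R f s m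
    · classical
      -- the largest degenerate scale
      obtain ⟨m, hmK, hmd, hmax⟩ : ∃ m, m < K ∧ p ∈ degen n R f s m ∧
          ∀ j, j < K → p ∈ degen n R f s j → j ≤ m := by
        have hne : ((Finset.range K).filter (fun m => p ∈ degen n R f s m)).Nonempty := by
          obtain ⟨m, h1, h2⟩ := hex
          exact ⟨m, Finset.mem_filter.2 ⟨Finset.mem_range.2 h1, h2⟩⟩
        refine ⟨((Finset.range K).filter (fun m => p ∈ degen n R f s m)).max' hne, ?_, ?_, ?_⟩
        · exact Finset.mem_range.1 (Finset.mem_filter.1 (Finset.max'_mem _ hne)).1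
        · exact (Finset.mem_filter.1 (Finset.max'_mem _ hne)).2
        · intro j hj hjd
          exact Finset.le_max' _ _ (Finset.mem_filter.2 ⟨Finset.mem_range.2 hj, hjd⟩)
      obtain ⟨b, hb, ⟨z, hz1, hz2⟩, hle⟩ := hcov (p, m) ⟨hmK, hmd⟩
      have hmb : m ≤ b.2 := by
        by_contra hlt
        have h1 : b.2 + 1 ≤ m := by omega
        have h2 : (2 : ℝ) ^ (b.2 + 1) ≤ 2 ^ m := pow_le_pow_right₀ (by norm_num) h1
        rw [pow_succ] at h2
        have h3 : (0 : ℝ) < 2 ^ b.2 := by positivity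
        have h4 := mul_le_mul_of_nonneg_right h2 hR.le
        have h5 : (0 : ℝ) < 2 ^ b.2 * R := by positivity
        simp only at hle
        linarith
      have hpb : p ∈ ball b.1 (2 ^ b.2 * R / 4) := by
        simp only [mem_ball] at hz1 hz2 ⊢
        have h2 : (2 : ℝ) ^ m ≤ 2 ^ b.2 := pow_le_pow_right₀ (by norm_num) hmb
        have h4 := mul_le_mul_of_nonneg_right h2 hR.le
        have h5 := dist_triangle p z b.1
        rw [dist_comm] at hz1
        linarith
      refine le_trans ?_ (ENNReal.le_tsum (⟨b, hb⟩ : u))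
      simp only [Set.indicator_of_mem hpb]
      rw [← Finset.mul_sum]
      gcongr
      calc ∑ i ∈ Finset.range K, (degenAbove n K R f s i).indicator (av n (2 ^ i * R) (ψ i)) p
          ≤ ∑ i ∈ Finset.range K, if i < b.2 then av n (2 ^ i * R) (ψ i) p else 0 := by
            refine Finset.sum_le_sum fun i _ => ?_
            by_cases hi : p ∈ degenAbove n K R f s i
            · obtain ⟨i', h1, h2, h3⟩ := hi
              have h4 : i < b.2 := lt_of_lt_of_le h1 ((hmax i' h2 h3).trans hmb)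
              rw [if_pos h4]
              exact Set.indicator_le_self _ _ _
            · rw [Set.indicator_of_notMem hi]
              exact zero_le
        _ = ∑ i ∈ (Finset.range K).filter (fun i => i < b.2), av n (2 ^ i * R) (ψ i) p := by
            rw [Finset.sum_filter]
        _ ≤ ∑ i ∈ Finset.range b.2, av n (2 ^ i * R) (ψ i) p := by
            refine Finset.sum_le_sum_of_subset fun i hi => ?_
            exact Finset.mem_range.2 (Finset.mem_filter.1 hi).2
    · have h0 : ∑ i ∈ Finset.range K,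
          (degenAbove n K R f s i).indicator (av n (2 ^ i * R) (ψ i)) p = 0 := by
        refine Finset.sum_eq_zero fun i _ => Set.indicator_of_notMem ?_ _
        rintro ⟨i', _, h2, h3⟩
        exact hex ⟨i', h2, h3⟩
      rw [h0, mul_zero]
      exact zero_le
  have hmeas : ∀ b : u, ∀ i, Measurable (fun p =>
      (ball b.1.1 (2 ^ b.1.2 * R / 4)).indicator f p * av n (2 ^ i * R) (ψ i) p) :=
    fun b i => (hf.indicator measurableSet_ball).mul (av_meas (hψ.meas i))
  calc ∫⁻ p, f p * ∑ i ∈ Finset.range K,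
        (degenAbove n K R f s i).indicator (av n (2 ^ i * R) (ψ i)) p
      ≤ ∫⁻ p, ∑' b : u, ∑ i ∈ Finset.range b.1.2,
        (ball b.1.1 (2 ^ b.1.2 * R / 4)).indicator f p * av n (2 ^ i * R) (ψ i) p :=
        lintegral_mono hpt
    _ = ∑' b : u, ∑ i ∈ Finset.range b.1.2, ∫⁻ p,
        (ball b.1.1 (2 ^ b.1.2 * R / 4)).indicator f p * av n (2 ^ i * R) (ψ i) p := by
        rw [lintegral_tsum]
        · congr 1
          funext b
          exact lintegral_finsetSum _ (fun i _ => hmeas b i)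
        · intro b
          exact (Finset.measurable_sum _ (fun i _ => hmeas b i)).aemeasurable
    _ ≤ ∑' b : u, 2 * ENNReal.ofReal ((5 / 6) ^ n) *
          ∫⁻ y in ball b.1.1 (2 ^ b.1.2 * R / 8), f y := by
        refine ENNReal.tsum_le_tsum fun b => ?_
        exact degen_one n K R hR f hf s ψ hψ b.1.1 b.1.2 (hut b.2).1 (hut b.2).2
    _ = 2 * ENNReal.ofReal ((5 / 6) ^ n) *
          ∫⁻ y in ⋃ b : u, ball b.1.1 (2 ^ b.1.2 * R / 8), f y := by
        rw [ENNReal.tsum_mul_left, lintegral_iUnion (fun _ => measurableSet_ball)]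
        intro a b hab
        exact hdisj a.2 b.2 (fun h => hab (Subtype.ext h))
    _ ≤ _ := by
        gcongr
        exact Measure.restrict_le_self

end Pool.DyMax
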