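import Pool.Agent.DyMax.Defs
import Pool.Agent.MaxFn.Local

/-! MODULE LOC: from one window of dyadic radii to all dyadic radii.

Proof: copy `Pool.MaxFn.windows` and `Pool.MaxFn.localize` (file Pool/Agent/MaxFn/Local.lean,
lemmas exists_family, bigSet_mono, bigSet_iUnion ... can be imported), replacing the set of radii
`win n i` by `win n i ∩ {2^k R : k ∈ ℤ}`; the latter is contained in `{2^k R' | k < Kn n}` where `R'`
is its smallest element `2^k0 R` (if it is nonempty): the quotient of two radii of the window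
`[(n+1)^i, (n+1)^(i+1))` is `< n+1`, so `2^m < n+1`, `2^m ≤ n`, `m ≤ log_2 n < Kn n`. -/

set_option autoImplicit false

open MeasureTheory Metric
open scoped ENNReal

namespace Pool.DyMax

open Pool.MaxFn in
/-- dyadic radii in a window -/
private def dwin (n : ℕ) (R : ℝ) (i : ℤ) : Set ℝ := MaxFn.win n i ∩ {r | ∃ k : ℤ, r = 2 ^ k * R}

private lemma dwin_subset (n : ℕ) (hn : 1 ≤ n) (R : ℝ) (hR : 0 < R) (i : ℤ) :
    ∃ R' : ℝ, 0 < R' ∧ dwin n R i ⊆ {r | ∃ k < Kn n, r = 2 ^ k * R'} := by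
  have hN1 : (1 : ℝ) < (n : ℝ) + 1 := by
    have : (1 : ℝ) ≤ n := by exact_mod_cast hn
    linarith
  have hN0 : (0 : ℝ) < (n : ℝ) + 1 := by linarith
  by_cases hne : ∃ k : ℤ, (2 : ℝ) ^ k * R ∈ MaxFn.win n i
  · have hx : 0 < ((n : ℝ) + 1) ^ i / R := div_pos (zpow_pos hN0 _) hR
    obtain ⟨m, hm1, hm2⟩ := exists_mem_Ico_zpow hx (one_lt_two : (1 : ℝ) < 2)
    have hbdd : ∃ b : ℤ, ∀ z : ℤ, (2 : ℝ) ^ z * R ∈ MaxFn.win n i → b ≤ z := by
      refine ⟨m, fun z hz => ?_⟩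
      have h1 : ((n : ℝ) + 1) ^ i / R ≤ 2 ^ z := by
        rw [div_le_iff₀ hR]; exact hz.1
      exact (zpow_le_zpow_iff_right₀ (one_lt_two : (1 : ℝ) < 2)).1 (hm1.trans h1)
    obtain ⟨k0, hk0, hmin⟩ := Int.exists_least_of_bdd hbdd hne
    refine ⟨2 ^ k0 * R, mul_pos (zpow_pos two_pos _) hR, ?_⟩
    rintro r ⟨hr, k, rfl⟩
    have hk : k0 ≤ k := hmin k hr
    obtain ⟨l, rfl⟩ := Int.le.dest hk
    refine ⟨l, ?_, ?_⟩
    · have h1 : (2 : ℝ) ^ (k0 + l) * R < ((n : ℝ) + 1) ^ (i + 1) := hr.2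
      have h2 : ((n : ℝ) + 1) ^ i ≤ 2 ^ k0 * R := hk0.1
      rw [zpow_add₀ two_ne_zero, zpow_add_one₀ hN0.ne', zpow_natCast] at h1
      have h3 : (2 : ℝ) ^ l < (n : ℝ) + 1 := by
        by_contra hcon
        rw [not_lt] at hcon
        have h4 : ((n : ℝ) + 1) ^ i * ((n : ℝ) + 1) ≤ (2 ^ k0 * R) * 2 ^ l :=
          mul_le_mul h2 hcon hN0.le (le_trans (zpow_pos hN0 i).le h2)
        have h5 : (2 ^ k0 * R) * 2 ^ l = (2 : ℝ) ^ k0 * 2 ^ l * R := by ring
        linarith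
      have h6 : 2 ^ l < n + 1 := by exact_mod_cast h3
      have h7 : 2 ^ l ≤ n := by omega
      have h8 : l ≤ Nat.log 2 n := Nat.le_log_of_pow_le (by norm_num) h7
      exact Nat.lt_succ_of_le h8
    · rw [zpow_add₀ two_ne_zero, zpow_natCast]
      ring
  · refine ⟨1, one_pos, ?_⟩
    rintro r ⟨hr, k, rfl⟩
    exact absurd ⟨k, hr⟩ hne

private lemma windows_dy (n : ℕ) (hn : 1 ≤ n) (G : ℝ≥0∞)
    (hloc : ∀ R : ℝ, 0 < R → ∀ f : E n → ℝ≥0∞, Measurable f → ∫⁻ x, f x ≠ ∞ →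
      ∀ s : ℝ≥0∞, s ≠ 0 → s ≠ ∞ →
        volume (MaxFn.bigSet n f {r | ∃ k < Kn n, r = 2 ^ k * R} s) ≤ G / s * ∫⁻ x, f x)
    (R : ℝ) (hR : 0 < R)
    (s : ℝ≥0∞) (hs : s ≠ 0) (hs' : s ≠ ∞) (I : Finset ℤ) :
    (∀ i ∈ I, ∀ j ∈ I, i < j → i + 2 ≤ j) →
    ∀ f : E n → ℝ≥0∞, Measurable f → ∫⁻ x, f x ≠ ∞ →
    volume (MaxFn.bigSet n f (⋃ i ∈ I, dwin n R i) s) ≤ (2 * (3 + G)) / s * ∫⁻ x, f x := by
  classical
  have hN1 : (1 : ℝ) < (n : ℝ) + 1 := by
    have : (1 : ℝ) ≤ n := by exact_mod_cast hn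
    linarith
  have hN0 : (0 : ℝ) < (n : ℝ) + 1 := by linarith
  induction I using Finset.induction_on_max with
  | empty =>
    intro _ f _ _
    simp [MaxFn.bigSet_empty]
  | insert a I hmax ih =>
    intro hsep f hf hfi
    have hsepI : ∀ i ∈ I, ∀ j ∈ I, i < j → i + 2 ≤ j := fun i hi j hj =>
      hsep i (Finset.mem_insert_of_mem hi) j (Finset.mem_insert_of_mem hj)
    obtain ⟨R', hR', hsub⟩ := dwin_subset n hn R hR a
    have hR0pos : 0 < ((n : ℝ) + 1) ^ a := zpow_pos hN0 a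
    obtain ⟨F, hFW, hFs, hFx⟩ := MaxFn.exists_family f hfi s hs hs' (((n : ℝ) + 1) ^ a) hR0pos
      (dwin n R a) (fun r hr => hr.1.1)
    set U := MaxFn.balls F with hU
    have hUm : MeasurableSet U := MaxFn.measurableSet_balls F
    -- the covering
    have hcov : MaxFn.bigSet n f (⋃ i ∈ insert a I, dwin n R i) s ⊆
        MaxFn.bigSet n (U.indicator f) {r | ∃ k < Kn n, r = 2 ^ k * R'} (s / 2) ∪
        (MaxFn.bigSet n (Uᶜ.indicator f) (⋃ i ∈ I, dwin n R i) s ∪
          ⋃ p ∈ F, Metric.ball p.1 ((1 + 1 / ((n : ℝ) + 1)) * p.2)) := by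
      rintro x ⟨r, hr, hx⟩
      rw [Finset.set_biUnion_insert] at hr
      rcases hr with hr | hr
      · left
        refine ⟨r, hsub hr, ?_⟩
        by_contra hcon
        rw [not_lt, setLIntegral_indicator hUm, Set.inter_comm] at hcon
        have h1 := hFx x r hr
        have h2 : ∫⁻ y in Metric.ball x r, f y =
            (∫⁻ y in Metric.ball x r ∩ U, f y) + ∫⁻ y in Metric.ball x r \ U, f y :=
          (lintegral_inter_add_sdiff f _ hUm).symm
        have h3 : ∫⁻ y in Metric.ball x r, f y ≤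
            s / 2 * volume (Metric.ball x r) + s / 2 * volume (Metric.ball x r) := by
          rw [h2]; exact add_le_add hcon h1.le
        rw [← add_mul, ENNReal.add_halves] at h3
        exact absurd hx (not_lt.2 h3)
      · right
        simp only [Set.mem_iUnion] at hr
        obtain ⟨i, hi, hri⟩ := hr
        by_cases hmeet : ∃ p ∈ F, (Metric.ball x r ∩ Metric.ball p.1 p.2).Nonempty
        · right
          obtain ⟨p, hp, y, hy1, hy2⟩ := hmeet
          simp only [Set.mem_iUnion]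
          refine ⟨p, hp, ?_⟩
          rw [Metric.mem_ball] at hy1 hy2 ⊢
          have h1 : dist x p.1 < r + p.2 := by
            calc dist x p.1 ≤ dist x y + dist y p.1 := dist_triangle _ _ _
              _ < r + p.2 := by
                  rw [dist_comm x y]; linarith
          have h2 : p.2 ∈ MaxFn.win n a := (hFW p hp).1
          have h3 : i + 2 ≤ a :=
            hsep i (Finset.mem_insert_of_mem hi) a (Finset.mem_insert_self _ _) (hmax i hi)
          have h4 : r * ((n : ℝ) + 1) ≤ p.2 := by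
            calc r * ((n : ℝ) + 1) ≤ ((n : ℝ) + 1) ^ (i + 1) * ((n : ℝ) + 1) := by
                  gcongr; exact hri.1.2.le
              _ = ((n : ℝ) + 1) ^ (i + 2) := by
                  rw [show i + 2 = (i + 1) + 1 by ring, zpow_add_one₀ hN0.ne' (i + 1)]
              _ ≤ ((n : ℝ) + 1) ^ a := zpow_le_zpow_right₀ hN1.le h3
              _ ≤ p.2 := h2.1
          have h5 : r ≤ p.2 / ((n : ℝ) + 1) := by
            rw [le_div_iff₀ hN0]; exact h4
          calc dist x p.1 < r + p.2 := h1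
            _ ≤ p.2 / ((n : ℝ) + 1) + p.2 := by linarith
            _ = (1 + 1 / ((n : ℝ) + 1)) * p.2 := by ring
        · left
          refine ⟨r, ?_, ?_⟩
          · simp only [Set.mem_iUnion]; exact ⟨i, hi, hri⟩
          · have hdisj : Metric.ball x r ⊆ Uᶜ := by
              intro y hy hyU
              rw [hU] at hyU
              simp only [MaxFn.balls, Set.mem_iUnion] at hyU
              obtain ⟨p, hp, hyp⟩ := hyU
              exact hmeet ⟨p, hp, y, hy, hyp⟩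
            rw [setLIntegral_indicator hUm.compl, Set.inter_eq_right.2 hdisj]
            exact hx
    have hfiU : ∫⁻ x, U.indicator f x ≠ ∞ := by
      rw [lintegral_indicator hUm]
      exact ne_top_of_le_ne_top hfi (setLIntegral_le_lintegral _ _)
    have hfiUc : ∫⁻ x, Uᶜ.indicator f x ≠ ∞ := by
      rw [lintegral_indicator hUm.compl]
      exact ne_top_of_le_ne_top hfi (setLIntegral_le_lintegral _ _)
    have hs2 : s / 2 ≠ 0 := by
      rw [Ne, ENNReal.div_eq_zero_iff]; push Not; exact ⟨hs, by norm_num⟩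
    have hs2' : s / 2 ≠ ∞ := ENNReal.div_ne_top hs' (by norm_num)
    have hA := hloc R' hR' (U.indicator f) (hf.indicator hUm) hfiU (s / 2) hs2 hs2'
    have hB := ih hsepI (Uᶜ.indicator f) (hf.indicator hUm.compl) hfiUc
    rw [lintegral_indicator hUm] at hA
    rw [lintegral_indicator hUm.compl] at hB
    have hC : volume (⋃ p ∈ F, Metric.ball p.1 ((1 + 1 / ((n : ℝ) + 1)) * p.2)) ≤
        3 * (2 / s * ∫⁻ x in U, f x) := by
      calc _ ≤ ∑ p ∈ F, volume (Metric.ball p.1 ((1 + 1 / ((n : ℝ) + 1)) * p.2)) :=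
            measure_biUnion_finset_le _ _
        _ ≤ ∑ p ∈ F, 3 * volume (Metric.ball p.1 p.2) := by
            refine Finset.sum_le_sum fun p hp => ?_
            rw [Measure.addHaar_ball_mul_of_pos volume p.1
              (by positivity : (0 : ℝ) < 1 + 1 / ((n : ℝ) + 1)) p.2, finrank_euclideanSpace_fin,
              ← Measure.addHaar_ball_center volume p.1 p.2]
            gcongr
            calc ENNReal.ofReal ((1 + 1 / ((n : ℝ) + 1)) ^ n) ≤ ENNReal.ofReal 3 :=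
                  ENNReal.ofReal_le_ofReal (MaxFn.pow_le_three n)
              _ = 3 := by norm_num
        _ = 3 * ∑ p ∈ F, volume (Metric.ball p.1 p.2) := by rw [Finset.mul_sum]
        _ ≤ _ := by gcongr
    have hsplit : ∫⁻ x, f x = (∫⁻ x in U, f x) + ∫⁻ x in Uᶜ, f x :=
      (lintegral_add_compl f hUm).symm
    have h2s : G / (s / 2) = 2 * G / s := by
      rw [ENNReal.div_eq_inv_mul, ENNReal.div_eq_inv_mul, ENNReal.div_eq_inv_mul,
        ENNReal.mul_inv (Or.inr hs') (Or.inr hs), inv_inv]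
      ring
    calc volume (MaxFn.bigSet n f (⋃ i ∈ insert a I, dwin n R i) s)
        ≤ volume (MaxFn.bigSet n (U.indicator f) {r | ∃ k < Kn n, r = 2 ^ k * R'} (s / 2)) +
          (volume (MaxFn.bigSet n (Uᶜ.indicator f) (⋃ i ∈ I, dwin n R i) s) +
            volume (⋃ p ∈ F, Metric.ball p.1 ((1 + 1 / ((n : ℝ) + 1)) * p.2))) := by
          refine (measure_mono hcov).trans ((measure_union_le _ _).trans ?_)
          gcongr
          exact measure_union_le _ _
      _ ≤ G / (s / 2) * (∫⁻ x in U, f x) + ((2 * (3 + G)) / s * (∫⁻ x in Uᶜ, f x) +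
            3 * (2 / s * ∫⁻ x in U, f x)) := by gcongr
      _ = (2 * (3 + G)) / s * (∫⁻ x, f x) := by
          rw [hsplit, h2s]
          simp only [ENNReal.div_eq_inv_mul]
          ring

theorem localize_dy (n : ℕ) (hn : 1 ≤ n) (G : ℝ≥0∞)
    (hloc : ∀ R : ℝ, 0 < R → ∀ f : E n → ℝ≥0∞, Measurable f → ∫⁻ x, f x ≠ ∞ →
      ∀ s : ℝ≥0∞, s ≠ 0 → s ≠ ∞ →
        volume (MaxFn.bigSet n f {r | ∃ k < Kn n, r = 2 ^ k * R} s) ≤ G / s * ∫⁻ x, f x)
    (R : ℝ) (hR : 0 < R) (f : E n → ℝ≥0∞) (hf : Measurable f) (hfi : ∫⁻ x, f x ≠ ∞)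
    (s : ℝ≥0∞) (hs : s ≠ 0) (hs' : s ≠ ∞) :
    volume (MaxFn.bigSet n f {r | ∃ k : ℤ, r = 2 ^ k * R} s) ≤ (4 * (3 + G)) / s * ∫⁻ x, f x := by
  classical
  have hN1 : (1 : ℝ) < (n : ℝ) + 1 := by
    have : (1 : ℝ) ≤ n := by exact_mod_cast hn
    linarith
  -- windows of one parity
  let I : ℤ → ℕ → Finset ℤ := fun b k => (Finset.Icc (-(k : ℤ)) k).filter (fun i => i % 2 = b)
  have hpar : ∀ b : ℤ, volume (⋃ k : ℕ, MaxFn.bigSet n f (⋃ i ∈ I b k, dwin n R i) s) ≤
      (2 * (3 + G)) / s * ∫⁻ x, f x := by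
    intro b
    have hmono : Monotone fun k : ℕ => MaxFn.bigSet n f (⋃ i ∈ I b k, dwin n R i) s := by
      intro k k' hkk'
      refine MaxFn.bigSet_mono ?_
      refine Set.biUnion_subset_biUnion_left ?_
      intro i hi
      simp only [I, Finset.coe_filter, Finset.mem_Icc, Set.mem_ofPred_eq] at hi ⊢
      have : (k : ℤ) ≤ k' := by exact_mod_cast hkk'
      exact ⟨⟨by linarith [hi.1.1], by linarith [hi.1.2]⟩, hi.2⟩
    rw [hmono.measure_iUnion]
    refine iSup_le fun k => ?_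
    refine windows_dy n hn G hloc R hR s hs hs' (I b k) ?_ f hf hfi
    intro i hi j hj hij
    simp only [I, Finset.mem_filter] at hi hj
    omega
  have hcov : MaxFn.bigSet n f {r | ∃ k : ℤ, r = 2 ^ k * R} s ⊆
      (⋃ k : ℕ, MaxFn.bigSet n f (⋃ i ∈ I 0 k, dwin n R i) s) ∪
      (⋃ k : ℕ, MaxFn.bigSet n f (⋃ i ∈ I 1 k, dwin n R i) s) := by
    rintro x ⟨r, hr, hx⟩
    obtain ⟨k₁, hk₁⟩ := hr
    have hr0 : 0 < r := by rw [hk₁]; exact mul_pos (zpow_pos two_pos _) hR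
    obtain ⟨i, hi⟩ := exists_mem_Ico_zpow hr0 hN1
    have key : ∀ b : ℤ, i % 2 = b → x ∈ ⋃ k : ℕ, MaxFn.bigSet n f (⋃ i ∈ I b k, dwin n R i) s := by
      intro b hb
      simp only [Set.mem_iUnion]
      refine ⟨i.natAbs, r, ?_, hx⟩
      simp only [Set.mem_iUnion]
      refine ⟨i, ?_, hi, k₁, hk₁⟩
      simp only [I, Finset.mem_filter, Finset.mem_Icc]
      exact ⟨⟨by omega, by omega⟩, hb⟩
    rcases Int.emod_two_eq_zero_or_one i with h | h
    · exact Or.inl (key 0 h)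
    · exact Or.inr (key 1 h)
  calc volume (MaxFn.bigSet n f {r | ∃ k : ℤ, r = 2 ^ k * R} s) ≤ _ := measure_mono hcov
    _ ≤ _ := measure_union_le _ _
    _ ≤ (2 * (3 + G)) / s * (∫⁻ x, f x) + (2 * (3 + G)) / s * (∫⁻ x, f x) :=
        add_le_add (hpar 0) (hpar 1)
    _ = (4 * (3 + G)) / s * (∫⁻ x, f x) := by
        simp only [ENNReal.div_eq_inv_mul]
        ring

end Pool.DyMax
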