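import Pool.Agent.DyMax.Window
import Pool.Agent.DyMax.LocalDy
import Pool.Agent.MaxFn.Polylog

/-! MODULE FIN: the theorem in the form of the frozen statement S04943.

Proof: for `n ≥ n₀` combine `window` and `localize_dy` (with `R = r`); pass from `f : E n → ℝ` integrable to a
measurable representative of `‖f‖ₑ` as at the end of Pool/Agent/MaxFn/Polylog.lean (theorem `polylog`);
`∫⁻ y in ball 0 ρ, ‖f (x+y)‖ₑ = ∫⁻ y in ball x ρ, ‖f y‖ₑ` by translation, and
`volume (ball 0 ρ) = volume (ball x ρ)`. For `1 ≤ n < n₀` use `Pool.MaxFn.polylog`, whose supremum over all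
radii is larger and whose constant is at most `C (1 + log n₀)^4`. -/

set_option autoImplicit false
set_option linter.all false

open MeasureTheory Metric
open scoped ENNReal

namespace Pool.DyMax

namespace FinAux

/-- translation of the integral over a ball -/
lemma ball_translate (n : ℕ) (F : E n → ℝ≥0∞) (x : E n) (ρ : ℝ) :
    ∫⁻ y in Metric.ball (0 : E n) ρ, F (x + y) = ∫⁻ y in Metric.ball x ρ, F y := by
  rw [← lintegral_indicator measurableSet_ball, ← lintegral_indicator measurableSet_ball]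
  rw [← lintegral_add_left_eq_self (μ := volume) ((Metric.ball x ρ).indicator F) x]
  refine lintegral_congr fun y => ?_
  by_cases hy : y ∈ Metric.ball (0 : E n) ρ
  · have hy' : x + y ∈ Metric.ball x ρ := by
      rw [Metric.mem_ball, dist_eq_norm] at hy ⊢
      simpa using hy
    rw [Set.indicator_of_mem hy, Set.indicator_of_mem hy']
  · have hy' : x + y ∉ Metric.ball x ρ := by
      rw [Metric.mem_ball, dist_eq_norm] at hy ⊢
      simpa using hy
    rw [Set.indicator_of_notMem hy, Set.indicator_of_notMem hy']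

lemma vol_translate (n : ℕ) (x : E n) (ρ : ℝ) :
    volume (Metric.ball (0 : E n) ρ) = volume (Metric.ball x ρ) :=
  (Measure.addHaar_ball_center volume x ρ).symm

end FinAux

/-- The bound for the lacunary maximal function with an arbitrary base radius `R`. -/
theorem final_all :
    ∃ C : ℝ, 0 < C ∧ ∀ n : ℕ, 1 ≤ n → ∀ R : ℝ, 0 < R →
      ∀ f : EuclideanSpace ℝ (Fin n) → ℝ, Integrable f →
      ∀ t : ℝ, 0 < t →
        volume {x : EuclideanSpace ℝ (Fin n) |
          ENNReal.ofReal t <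
            ⨆ k : ℤ, (volume (Metric.ball x ((2 : ℝ) ^ k * R)))⁻¹ *
              ∫⁻ y in Metric.ball x ((2 : ℝ) ^ k * R), ‖f y‖ₑ}
          ≤ ENNReal.ofReal (C / t) * ∫⁻ y, ‖f y‖ₑ := by
  obtain ⟨n₀, hwin⟩ := window
  obtain ⟨Cp, hCp, hpoly⟩ := MaxFn.polylog
  have hlog0 : 0 ≤ Real.log n₀ := Real.log_natCast_nonneg n₀
  refine ⟨4 * (3 + 9 * (2 * 30000001)) + Cp * (1 + Real.log n₀) ^ 4, by positivity,
    fun n hn r hr f hf t ht => ?_⟩
  rcases le_or_gt n₀ n with hnn | hnn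
  · -- large dimensions
    set g : EuclideanSpace ℝ (Fin n) → ℝ := hf.1.mk f with hg
    have hfg : f =ᵐ[volume] g := hf.1.ae_eq_mk
    have hgm : Measurable (fun x => ‖g x‖ₑ) := hf.1.stronglyMeasurable_mk.measurable.enorm
    have hfg' : (fun x => ‖f x‖ₑ) =ᵐ[volume] fun x => ‖g x‖ₑ :=
      hfg.mono fun x hx => by simp [hx]
    have hI : ∫⁻ x, ‖f x‖ₑ = ∫⁻ x, ‖g x‖ₑ := lintegral_congr_ae hfg'
    have hIt : ∫⁻ x, ‖g x‖ₑ ≠ ∞ := by
      rw [← hI]
      exact hf.2.ne
    have h := localize_dy n hn (9 * (2 * 30000001)) (hwin n hnn) r hr (fun x => ‖g x‖ₑ) hgm hIt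
      (ENNReal.ofReal t) (by simpa using ht) ENNReal.ofReal_ne_top
    rw [hI]
    refine (measure_mono ?_).trans (h.trans ?_)
    · intro x hx
      simp only [Set.mem_setOf_eq] at hx
      obtain ⟨k, hk⟩ := lt_iSup_iff.1 hx
      refine ⟨(2 : ℝ) ^ k * r, ⟨k, rfl⟩, ?_⟩
      have hρ : 0 < (2 : ℝ) ^ k * r := by positivity
      have hv0 : volume (Metric.ball x ((2 : ℝ) ^ k * r)) ≠ 0 :=
        (Metric.measure_ball_pos _ _ hρ).ne'
      have hvt : volume (Metric.ball x ((2 : ℝ) ^ k * r)) ≠ ∞ := measure_ball_lt_top.ne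
      have e : ∫⁻ y in Metric.ball x ((2 : ℝ) ^ k * r), ‖f y‖ₑ =
          ∫⁻ y in Metric.ball x ((2 : ℝ) ^ k * r), ‖g y‖ₑ :=
        lintegral_congr_ae (ae_restrict_of_ae hfg')
      rw [e] at hk
      by_contra hcon
      push Not at hcon
      apply absurd hk
      rw [not_lt, mul_comm, ← ENNReal.div_eq_inv_mul.trans (mul_comm _ _)]
      exact ENNReal.div_le_of_le_mul hcon
    · have e1 : (4 * (3 + 9 * (2 * 30000001)) : ℝ≥0∞) =
          ENNReal.ofReal (4 * (3 + 9 * (2 * 30000001))) := by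
        rw [ENNReal.ofReal_mul (by norm_num), ENNReal.ofReal_add (by norm_num) (by norm_num),
          ENNReal.ofReal_mul (by norm_num), ENNReal.ofReal_mul (by norm_num)]
        simp
      rw [e1, ← ENNReal.ofReal_div_of_pos ht]
      gcongr
      have : 0 ≤ Cp * (1 + Real.log n₀) ^ 4 := by positivity
      linarith
  · -- small dimensions
    have h := hpoly n hn f hf t ht
    refine (measure_mono ?_).trans (h.trans ?_)
    · intro x hx
      simp only [Set.mem_setOf_eq] at hx ⊢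
      obtain ⟨k, hk⟩ := lt_iSup_iff.1 hx
      have hρ : 0 < (2 : ℝ) ^ k * r := by positivity
      exact lt_iSup_iff.2 ⟨(2 : ℝ) ^ k * r, lt_iSup_iff.2 ⟨hρ, hk⟩⟩
    · have hlogn : Real.log n ≤ Real.log n₀ := by
        apply Real.log_le_log
        · exact_mod_cast hn
        · exact_mod_cast hnn.le
      have hlogn0 : 0 ≤ Real.log n := Real.log_natCast_nonneg n
      gcongr
      have h1 : (1 + Real.log n) ^ 4 ≤ (1 + Real.log n₀) ^ 4 :=
        pow_le_pow_left₀ (by linarith) (by linarith) 4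
      have h2 : Cp * (1 + Real.log n) ^ 4 ≤ Cp * (1 + Real.log n₀) ^ 4 :=
        mul_le_mul_of_nonneg_left h1 hCp.le
      linarith

open FinAux in
theorem final :
    ∃ C : ℝ, 0 < C ∧ ∀ n : ℕ, 1 ≤ n → ∀ r : ℝ, 0 < r →
      volume (Metric.ball (0 : EuclideanSpace ℝ (Fin n)) r) = 1 →
      ∀ f : EuclideanSpace ℝ (Fin n) → ℝ, Integrable f →
      ∀ t : ℝ, 0 < t →
        volume {x : EuclideanSpace ℝ (Fin n) |
          ENNReal.ofReal t <
            ⨆ k : ℤ, (volume (Metric.ball (0 : EuclideanSpace ℝ (Fin n)) ((2 : ℝ) ^ k * r)))⁻¹ *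
              ∫⁻ y in Metric.ball (0 : EuclideanSpace ℝ (Fin n)) ((2 : ℝ) ^ k * r), ‖f (x + y)‖ₑ}
          ≤ ENNReal.ofReal (C / t) * ∫⁻ x, ‖f x‖ₑ := by
  obtain ⟨C, hC, h⟩ := final_all
  refine ⟨C, hC, fun n hn r hr _ f hf t ht => ?_⟩
  refine le_trans (le_of_eq ?_) (h n hn r hr f hf t ht)
  congr 1
  ext x
  simp only [Set.mem_setOf_eq]
  have e : ∀ k : ℤ, (volume (Metric.ball (0 : EuclideanSpace ℝ (Fin n)) ((2 : ℝ) ^ k * r)))⁻¹ *
        ∫⁻ y in Metric.ball (0 : EuclideanSpace ℝ (Fin n)) ((2 : ℝ) ^ k * r), ‖f (x + y)‖ₑ =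
      (volume (Metric.ball x ((2 : ℝ) ^ k * r)))⁻¹ *
        ∫⁻ y in Metric.ball x ((2 : ℝ) ^ k * r), ‖f y‖ₑ := by
    intro k
    rw [ball_translate n (fun y => ‖f y‖ₑ) x, vol_translate n x]
  simp only [e]

end Pool.DyMax
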