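import Pool.Agent.DyMax.Defs

/-! MODULE FRAME: unit vectors `v_k` with `⟪v_i, v_j⟫ = 2^{-(j-i)}` and a unit vector `e` orthogonal to all.

Proof: with an orthonormal basis `e_0, e_1, ...` of `E n` put `v_0 = e_0`,
`v_{k+1} = (1/2) v_k + (√3/2) e_{k+1}`, and `e = e_K` (`K + 1 ≤ n`). By induction `v_k` is a unit vector
in the span of `e_0, ..., e_k` and `⟪v_i, v_{j+1}⟫ = (1/2) ⟪v_i, v_j⟫` for `i ≤ j`. -/

set_option autoImplicit false

open MeasureTheory Metric
open scoped RealInnerProductSpace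

namespace Pool.DyMax

namespace Frame

/-- The standard basis, extended by zero. -/
noncomputable def bb (n k : ℕ) : E n := if h : k < n then EuclideanSpace.single ⟨k, h⟩ (1 : ℝ) else 0

theorem bb_inner (n i j : ℕ) : ⟪bb n i, bb n j⟫ = if i = j ∧ i < n then (1 : ℝ) else 0 := by
  unfold bb
  by_cases hi : i < n
  · by_cases hj : j < n
    · rw [dif_pos hi, dif_pos hj, EuclideanSpace.inner_single_left]
      by_cases hij : i = j
      · subst hij
        simp [hi]
      · simp [hij, Fin.ext_iff]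
    · rw [dif_neg hj, inner_zero_right]
      by_cases hij : i = j
      · omega
      · simp [hij]
  · rw [dif_neg hi, inner_zero_left]
    simp [hi]

/-- The vectors of the frame. -/
noncomputable def vv (n : ℕ) : ℕ → E n
  | 0 => bb n 0
  | k + 1 => (1 / 2 : ℝ) • vv n k + (Real.sqrt 3 / 2) • bb n (k + 1)

theorem vv_bb (n k : ℕ) : ∀ j, k < j → ⟪vv n k, bb n j⟫ = (0 : ℝ) := by
  induction k with
  | zero =>
    intro j hj
    rw [vv, bb_inner, if_neg]
    rintro ⟨h, -⟩
    omega
  | succ k ih =>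
    intro j hj
    rw [vv, inner_add_left, inner_smul_left, inner_smul_left, ih j (by omega), bb_inner, if_neg]
    · simp
    · rintro ⟨h, -⟩
      omega

theorem vv_self (n k : ℕ) (hk : k < n) : ⟪vv n k, vv n k⟫ = (1 : ℝ) := by
  induction k with
  | zero =>
    rw [vv, bb_inner, if_pos ⟨rfl, hk⟩]
  | succ k ih =>
    have h1 := vv_bb n k (k + 1) (by omega)
    have h2 : ⟪bb n (k + 1), vv n k⟫ = (0 : ℝ) := by rw [real_inner_comm]; exact h1
    rw [vv, inner_add_left, inner_add_right, inner_add_right]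
    simp only [inner_smul_left, inner_smul_right, h1, h2, ih (by omega), bb_inner, hk, and_self,
      if_true, conj_trivial]
    have h3 : Real.sqrt 3 * Real.sqrt 3 = 3 := Real.mul_self_sqrt (by norm_num)
    nlinarith

theorem vv_inner (n i m : ℕ) (hi : i < n) : ⟪vv n i, vv n (i + m)⟫ = (1 / 2 : ℝ) ^ m := by
  induction m with
  | zero => rw [add_zero, vv_self n i hi, pow_zero]
  | succ m ih =>
    rw [← add_assoc, vv, inner_add_right, inner_smul_right, inner_smul_right, ih,
      vv_bb n i (i + m + 1) (by omega)]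
    ring

end Frame

theorem exists_frame (n K : ℕ) (hK : K + 1 ≤ n) : ∃ (v : ℕ → E n) (e : E n), ‖e‖ = 1 ∧
    (∀ k < K, ‖v k‖ = 1) ∧ (∀ k < K, ⟪v k, e⟫ = 0) ∧
    ∀ i j, i < j → j < K → ⟪v i, v j⟫ = (1 / 2 : ℝ) ^ (j - i) := by
  have hn : ∀ x : E n, ⟪x, x⟫ = (1 : ℝ) → ‖x‖ = 1 := by
    intro x hx
    rw [real_inner_self_eq_norm_sq] at hx
    exact (pow_eq_one_iff_of_nonneg (norm_nonneg x) two_ne_zero).1 hx
  refine ⟨Frame.vv n, Frame.bb n K, hn _ ?_, fun k hk => hn _ (Frame.vv_self n k (by omega)),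
    fun k hk => Frame.vv_bb n k K hk, ?_⟩
  · rw [Frame.bb_inner, if_pos ⟨rfl, by omega⟩]
  · intro i j hij hj
    obtain ⟨m, rfl⟩ := Nat.exists_eq_add_of_lt hij
    rw [add_assoc, Frame.vv_inner n i (m + 1) (by omega)]
    congr 1
    omega

end Pool.DyMax
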