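import Pool.Agent.DyMax.Basic

/-! MODULE GEOM: `kapA ≤ kap`.

Proof: put `R_i = 2^i R`, `R_j = 2^j R`, `r = (1/2)^(j-i)`, so `R_i = r R_j ≤ R_j/2`; let `z ∈ ann(R_i)`,
`w ∈ ann(R_j)`, `c = ⟪z,w⟫/(‖z‖‖w‖)`, `|c - r| ≤ 1/n`.
(1) `‖w-z‖² = ‖w‖² + ‖z‖² - 2c‖z‖‖w‖ < R_j² + R_i² - 2 (r - 1/n)(1-1/n)² R_i R_j` when `r ≥ 1/n`
(and `< R_j² + R_i² + (2/n) R_i R_j` in general), and in both cases this is at most
`R_j² - R_i² + (4/n) R_i² + (2/n) R_i R_j ≤ (R_j² - R_i²) + (2/n) R_j² ≤ (R_j² - R_i²)(1 + 3/n)`, because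
`4 R_i² ≤ R_j²`, `2 R_i R_j ≤ R_j²`, `R_j² - R_i² ≥ (3/4) R_j²`. [If `r < 1/n` then
`-c‖z‖‖w‖ ≤ (1/n - r)‖z‖‖w‖ ≤ (1/n - r) R_i R_j = R_i R_j/n - R_i²`.]
(2) `⟪w - z, z⟫ = c‖z‖‖w‖ - ‖z‖² = ‖z‖ (c‖w‖ - ‖z‖)`, and `c‖w‖, ‖z‖` both lie within `(R_i+R_j)/n` of `R_i`:
`|c‖w‖ - ‖z‖| ≤ 2 R_j/n` (more precisely `c‖w‖ ∈ [R_i - R_i/n - R_j/n, R_i + R_j/n]`,
`‖z‖ ∈ [R_i - R_i/n, R_i]`).
(3) `|ann(R_j)|⁻¹ ≤ 2 |ball R_j|⁻¹` (lemma `ball_le_ann`), `|ball R_j| (1-r²)^(n/2) = |ball √(R_j²-R_i²)|` and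
`|ball (rp)| = (1+3/n)^(n/2) |ball √(R_j²-R_i²)| ≤ e^(3/2) |...| ≤ 5 |...|`, so the constants satisfy
`200 √n * 2 * 5 = 2000 √n`. -/

set_option autoImplicit false

open MeasureTheory Metric
open scoped ENNReal RealInnerProductSpace

namespace Pool.DyMax

/-- real inequalities of the geometric part: `a = ‖z‖`, `b = ‖w‖`, `ν = 1/n` -/
private lemma geom_real {a b c r ν S T : ℝ} (hν0 : 0 < ν) (hν1 : ν ≤ 1 / 100) (hr0 : 0 < r)
    (hr1 : r ≤ 1 / 2) (hT : 0 < T) (hS : S = r * T) (ha1 : (1 - ν) * S ≤ a) (ha2 : a < S)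
    (hb1 : (1 - ν) * T ≤ b) (hb2 : b < T) (hc : |c - r| ≤ ν) :
    b ^ 2 + a ^ 2 - 2 * (c * (a * b)) < (T ^ 2 - S ^ 2) * (1 + 3 * ν) ∧
      |c * b - a| ≤ 2 * T * ν := by
  have hS0 : 0 < S := by rw [hS]; positivity
  have ha0 : 0 < a := lt_of_lt_of_le (mul_pos (by linarith) hS0) ha1
  have hb0 : 0 < b := lt_of_lt_of_le (mul_pos (by linarith) hT) hb1
  obtain ⟨hc1, hc2⟩ := abs_le.1 hc
  have hST : 2 * S ≤ T := by rw [hS]; nlinarith
  have ha3 : a ^ 2 < S ^ 2 := by nlinarith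
  have hb3 : b ^ 2 < T ^ 2 := by nlinarith
  have hab0 : 0 < a * b := mul_pos ha0 hb0
  have hab1 : a * b ≤ S * T := mul_le_mul ha2.le hb2.le hb0.le hS0.le
  have hab2 : (1 - 2 * ν) * (S * T) ≤ a * b := by
    have h1 : ((1 - ν) * S) * ((1 - ν) * T) ≤ a * b :=
      mul_le_mul ha1 hb1 (mul_nonneg (by linarith) hT.le) ha0.le
    nlinarith [mul_pos hS0 hT, sq_nonneg ν]
  -- lower bound for `c a b`
  have hmain : S ^ 2 - 2 * ν * S ^ 2 - ν * (S * T) ≤ c * (a * b) := by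
    have h1 : (r - ν) * (a * b) ≤ c * (a * b) :=
      mul_le_mul_of_nonneg_right (by linarith) hab0.le
    refine le_trans ?_ h1
    have hSS : r * (S * T) = S ^ 2 := by rw [hS]; ring
    rcases le_or_gt ν r with h | h
    · have h2 : (r - ν) * ((1 - 2 * ν) * (S * T)) ≤ (r - ν) * (a * b) :=
        mul_le_mul_of_nonneg_left hab2 (by linarith)
      refine le_trans ?_ h2
      have h3 : (r - ν) * ((1 - 2 * ν) * (S * T)) =
          r * (S * T) - 2 * ν * (r * (S * T)) - ν * (S * T) + 2 * ν ^ 2 * (S * T) := by ring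
      rw [h3, hSS]
      have : 0 ≤ 2 * ν ^ 2 * (S * T) := by positivity
      linarith
    · have h2 : (r - ν) * (S * T) ≤ (r - ν) * (a * b) :=
        mul_le_mul_of_nonpos_left hab1 (by linarith)
      refine le_trans ?_ h2
      rw [sub_mul, hSS]
      have : 0 ≤ 2 * ν * S ^ 2 := by positivity
      linarith
  constructor
  · have h1 : 4 * S ^ 2 ≤ T ^ 2 := by nlinarith
    have h2 : 2 * (S * T) ≤ T ^ 2 := by nlinarith
    have h3 : b ^ 2 + a ^ 2 - 2 * (c * (a * b)) <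
        T ^ 2 + S ^ 2 - 2 * (S ^ 2 - 2 * ν * S ^ 2 - ν * (S * T)) := by linarith
    refine lt_of_lt_of_le h3 ?_
    have h4 : ν * (4 * S ^ 2) ≤ ν * T ^ 2 := by gcongr
    have h5 : ν * (2 * (S * T)) ≤ ν * T ^ 2 := by gcongr
    have h6 : 0 ≤ ν * (T ^ 2 - 3 * S ^ 2) := by
      apply mul_nonneg hν0.le
      nlinarith [sq_nonneg S]
    nlinarith
  · rw [abs_le]
    have hνT : 0 < ν * T := mul_pos hν0 hT
    have hνS : ν * S ≤ ν * T := mul_le_mul_of_nonneg_left (by linarith) hν0.le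
    constructor
    · have h1 : (r - ν) * b ≤ c * b := mul_le_mul_of_nonneg_right (by linarith) hb0.le
      rcases le_or_gt ν r with h | h
      · have h2 : (r - ν) * ((1 - ν) * T) ≤ (r - ν) * b :=
          mul_le_mul_of_nonneg_left hb1 (by linarith)
        have h3 : (r - ν) * ((1 - ν) * T) = r * T - ν * T - ν * (r * T) + ν ^ 2 * T := by ring
        rw [h3, ← hS] at h2
        have : 0 ≤ ν ^ 2 * T := by positivity
        linarith
      · have h2 : (r - ν) * T ≤ (r - ν) * b :=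
          mul_le_mul_of_nonpos_left hb2.le (by linarith)
        rw [sub_mul, ← hS] at h2
        linarith
    · have h1 : c * b ≤ (r + ν) * b := mul_le_mul_of_nonneg_right (by linarith) hb0.le
      have h2 : (r + ν) * b ≤ (r + ν) * T := mul_le_mul_of_nonneg_left hb2.le (by linarith)
      have h4 : (r + ν) * T = S + ν * T := by rw [hS]; ring
      have h3 : (1 - ν) * S = S - ν * S := by ring
      rw [h3] at ha1
      rw [h4] at h2
      linarith

/-- comparison of the constants -/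
private lemma geom_const (n : ℕ) (hn : 100 ≤ n) (R : ℝ) (hR : 0 < R) (i j : ℕ) (hij : i < j) :
    (volume (ann n (2 ^ j * R)))⁻¹ *
      ENNReal.ofReal (200 * Real.sqrt n * (1 - (1 / 4) ^ (j - i)) ^ (-(n : ℝ) / 2)) ≤
    (volume (ball (0 : E n) (rp n R i j)))⁻¹ * ENNReal.ofReal (2000 * Real.sqrt n) := by
  have hn0 : (0 : ℝ) < n := by
    have : 0 < n := by omega
    exact_mod_cast this
  have hs : 0 < Real.sqrt n := Real.sqrt_pos.2 hn0
  set T : ℝ := 2 ^ j * R with hT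
  have hT0 : 0 < T := by positivity
  set s : ℝ := 1 - (1 / 4) ^ (j - i) with hsdef
  have hs0 : 0 < s := by
    have h1 : (1 / 4 : ℝ) ^ (j - i) ≤ (1 / 4) ^ 1 :=
      pow_le_pow_of_le_one (by norm_num) (by norm_num) (by omega)
    rw [hsdef]
    norm_num at h1 ⊢
    linarith
  have hrp : rp n R i j = T * (Real.sqrt s * Real.sqrt (1 + 3 / n)) := by
    unfold rp
    have h1 : (2 ^ i * R : ℝ) = (1 / 2) ^ (j - i) * T := by
      have h2 : (2 : ℝ) ^ j = 2 ^ (j - i) * 2 ^ i := by rw [← pow_add]; congr 1; omega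
      rw [hT, h2, one_div, inv_pow]
      field_simp
    have e0 : ((1 / 2 : ℝ) ^ (j - i)) ^ 2 = (1 / 4) ^ (j - i) := by
      rw [← pow_mul, mul_comm (j - i) 2, pow_mul]
      norm_num
    have h3 : ((2 ^ j * R) ^ 2 - (2 ^ i * R) ^ 2 : ℝ) = T ^ 2 * s := by
      have e1 : ((1 / 2 : ℝ) ^ (j - i) * T) ^ 2 = (1 / 4) ^ (j - i) * T ^ 2 := by
        rw [mul_pow, e0]
      rw [h1, ← hT, hsdef, e1]
      ring
    rw [h3, mul_assoc, Real.sqrt_mul (by positivity), Real.sqrt_sq hT0.le,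
      Real.sqrt_mul hs0.le]
  have hrp0 : 0 < rp n R i j := by
    rw [hrp]
    have : 0 < Real.sqrt s := Real.sqrt_pos.2 hs0
    have : 0 < Real.sqrt (1 + 3 / (n : ℝ)) := Real.sqrt_pos.2 (by positivity)
    positivity
  have hrpn : rp n R i j ^ n = T ^ n * (s ^ ((n : ℝ) / 2) * Real.sqrt (1 + 3 / n) ^ n) := by
    have e2 : Real.sqrt s ^ n = s ^ ((n : ℝ) / 2) := by
      rw [Real.sqrt_eq_rpow, ← Real.rpow_natCast, ← Real.rpow_mul hs0.le]
      congr 1
      ring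
    rw [hrp, mul_pow T, mul_pow (Real.sqrt s), e2]
  have hq : Real.sqrt (1 + 3 / (n : ℝ)) ^ n ≤ 5 := by
    have h3 : (Real.sqrt (1 + 3 / (n : ℝ)) ^ n) ^ 2 ≤ 5 ^ 2 := by
      have h4 : (Real.sqrt (1 + 3 / (n : ℝ)) ^ n) ^ 2 = (1 + 3 / (n : ℝ)) ^ n := by
        rw [← pow_mul, mul_comm n 2, pow_mul, Real.sq_sqrt (by positivity)]
      have h5 : (1 + 3 / (n : ℝ)) ^ n ≤ Real.exp 1 ^ 3 := by
        have h6 : 1 + 3 / (n : ℝ) ≤ Real.exp (3 / n) := by
          have := Real.add_one_le_exp (3 / (n : ℝ))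
          linarith
        calc (1 + 3 / (n : ℝ)) ^ n ≤ Real.exp (3 / n) ^ n := by gcongr
          _ = Real.exp 1 ^ 3 := by
              rw [← Real.exp_nat_mul, ← Real.exp_nat_mul]
              congr 1
              field_simp
              norm_num
      rw [h4]
      have h7 := Real.exp_one_lt_d9
      have h8 : Real.exp 1 ^ 3 ≤ (2.72 : ℝ) ^ 3 := by
        gcongr
        linarith
      refine h5.trans (h8.trans ?_)
      norm_num
    exact le_of_sq_le_sq h3 (by norm_num)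
  set κ : ℝ≥0∞ := volume (ball (0 : E n) 1) with hκ
  have hκ0 : κ ≠ 0 := (Metric.measure_ball_pos volume (0 : E n) one_pos).ne'
  have hκt : κ ≠ ∞ := measure_ball_lt_top.ne
  have hb1 : volume (ball (0 : E n) (rp n R i j)) = ENNReal.ofReal (rp n R i j ^ n) * κ := by
    rw [Measure.addHaar_ball_of_pos _ _ hrp0, finrank_euclideanSpace, Fintype.card_fin]
  have hb2 : volume (ball (0 : E n) T) = ENNReal.ofReal (T ^ n) * κ := by
    rw [Measure.addHaar_ball_of_pos _ _ hT0, finrank_euclideanSpace, Fintype.card_fin]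
  have hinv : ∀ x : ℝ, 0 < x → (ENNReal.ofReal x * κ)⁻¹ = ENNReal.ofReal x⁻¹ * κ⁻¹ := by
    intro x hx
    rw [ENNReal.mul_inv (Or.inr hκt) (Or.inr hκ0), ENNReal.ofReal_inv_of_pos hx]
  have hann : (volume (ann n T))⁻¹ ≤ 2 * (volume (ball (0 : E n) T))⁻¹ := by
    have h1 := ball_le_ann (n := n) (R := T) (by omega) hT0
    have h2 : (2 * volume (ann n T))⁻¹ ≤ (volume (ball (0 : E n) T))⁻¹ := ENNReal.inv_le_inv.2 h1
    rw [ENNReal.mul_inv (Or.inl (by norm_num)) (Or.inl (by norm_num))] at h2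
    calc (volume (ann n T))⁻¹ = 2 * (2⁻¹ * (volume (ann n T))⁻¹) := by
          rw [← mul_assoc, ENNReal.mul_inv_cancel (by norm_num) (by norm_num), one_mul]
      _ ≤ _ := by gcongr
  have hX0 : 0 ≤ 200 * Real.sqrt n * s ^ (-(n : ℝ) / 2) := by positivity
  calc (volume (ann n T))⁻¹ * ENNReal.ofReal (200 * Real.sqrt n * s ^ (-(n : ℝ) / 2))
      ≤ (2 * (volume (ball (0 : E n) T))⁻¹) *
          ENNReal.ofReal (200 * Real.sqrt n * s ^ (-(n : ℝ) / 2)) := by gcongr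
    _ = ENNReal.ofReal (2 * (T ^ n)⁻¹ * (200 * Real.sqrt n * s ^ (-(n : ℝ) / 2))) * κ⁻¹ := by
        rw [hb2, hinv _ (by positivity)]
        have e3 : ENNReal.ofReal (2 * (T ^ n)⁻¹ * (200 * Real.sqrt n * s ^ (-(n : ℝ) / 2))) =
            2 * ENNReal.ofReal (T ^ n)⁻¹ *
              ENNReal.ofReal (200 * Real.sqrt n * s ^ (-(n : ℝ) / 2)) := by
          rw [ENNReal.ofReal_mul (by positivity), ENNReal.ofReal_mul (by norm_num),
            ENNReal.ofReal_ofNat]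
        rw [e3]
        ring
    _ ≤ ENNReal.ofReal ((rp n R i j ^ n)⁻¹ * (2000 * Real.sqrt n)) * κ⁻¹ := by
        refine mul_le_mul' (ENNReal.ofReal_le_ofReal ?_) le_rfl
        rw [hrpn, inv_mul_eq_div, le_div_iff₀ (by positivity)]
        have h1 : s ^ (-(n : ℝ) / 2) * s ^ ((n : ℝ) / 2) = 1 := by
          rw [← Real.rpow_add hs0]
          have : -(n : ℝ) / 2 + n / 2 = 0 := by ring
          rw [this, Real.rpow_zero]
        calc 2 * (T ^ n)⁻¹ * (200 * Real.sqrt n * s ^ (-(n : ℝ) / 2)) *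
              (T ^ n * (s ^ ((n : ℝ) / 2) * Real.sqrt (1 + 3 / n) ^ n))
            = 400 * Real.sqrt n * ((T ^ n)⁻¹ * T ^ n) *
              (s ^ (-(n : ℝ) / 2) * s ^ ((n : ℝ) / 2)) * Real.sqrt (1 + 3 / n) ^ n := by ring
          _ = 400 * Real.sqrt n * Real.sqrt (1 + 3 / n) ^ n := by
              rw [h1, inv_mul_cancel₀ (by positivity)]
              ring
          _ ≤ 400 * Real.sqrt n * 5 := by gcongr
          _ = 2000 * Real.sqrt n := by ring
    _ = _ := by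
        rw [hb1, hinv _ (by positivity), ENNReal.ofReal_mul (by positivity)]
        ring

theorem kapA_le (n : ℕ) (hn : 100 ≤ n) (R : ℝ) (hR : 0 < R) (i j : ℕ) (hij : i < j) (z w : E n) :
    kapA n R i j z w ≤ kap n R i j z w := by
  have hn0 : (0 : ℝ) < n := by
    have : 0 < n := by omega
    exact_mod_cast this
  unfold kapA kap
  by_cases hq : (z, w) ∈ {q : E n × E n | q.1 ∈ ann n (2 ^ i * R) ∧ q.2 ∈ ann n (2 ^ j * R) ∧
    |⟪q.1, q.2⟫ / (‖q.1‖ * ‖q.2‖) - (1 / 2) ^ (j - i)| ≤ 1 / n}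
  · obtain ⟨h1, h2, h3⟩ := hq
    simp only at h1 h2 h3
    have hT0 : (0 : ℝ) < 2 ^ j * R := by positivity
    have hS : (2 ^ i * R : ℝ) = (1 / 2) ^ (j - i) * (2 ^ j * R) := by
      have h2 : (2 : ℝ) ^ j = 2 ^ (j - i) * 2 ^ i := by rw [← pow_add]; congr 1; omega
      rw [h2, one_div, inv_pow]
      field_simp
    have hr1 : (1 / 2 : ℝ) ^ (j - i) ≤ 1 / 2 := by
      calc (1 / 2 : ℝ) ^ (j - i) ≤ (1 / 2) ^ 1 :=
            pow_le_pow_of_le_one (by norm_num) (by norm_num) (by omega)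
        _ = 1 / 2 := pow_one _
    have hν1 : (1 : ℝ) / n ≤ 1 / 100 := by
      apply one_div_le_one_div_of_le (by norm_num)
      exact_mod_cast hn
    have hS0 : (0 : ℝ) < 2 ^ i * R := by positivity
    have hz0 : 0 < ‖z‖ := lt_of_lt_of_le (mul_pos (by linarith) hS0) h1.1
    have hw0 : 0 < ‖w‖ := lt_of_lt_of_le (mul_pos (by linarith) hT0) h2.1
    obtain ⟨g1, g2⟩ := geom_real (a := ‖z‖) (b := ‖w‖) (c := ⟪z, w⟫ / (‖z‖ * ‖w‖))
      (r := (1 / 2) ^ (j - i)) (ν := 1 / n) (S := 2 ^ i * R) (T := 2 ^ j * R) (by positivity) hν1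
      (by positivity) hr1 hT0 hS h1.1 h1.2 h2.1 h2.2 h3
    have hin : ⟪z, w⟫ / (‖z‖ * ‖w‖) * (‖z‖ * ‖w‖) = ⟪z, w⟫ := by field_simp
    rw [hin] at g1
    have hmem : (z, w) ∈ {q : E n × E n | q.1 ∈ ann n (2 ^ i * R) ∧
        q.2 - q.1 ∈ ball (0 : E n) (rp n R i j) ∧
        |⟪q.2 - q.1, q.1⟫| ≤ 2 * (2 ^ j * R) / n * ‖q.1‖} := by
      refine ⟨h1, ?_, ?_⟩
      · show w - z ∈ ball (0 : E n) (rp n R i j)
        rw [mem_ball_zero_iff]
        unfold rp
        apply Real.lt_sqrt_of_sq_lt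
        rw [norm_sub_sq_real, real_inner_comm]
        have h4 : (3 : ℝ) * (1 / n) = 3 / n := by ring
        rw [h4] at g1
        linarith
      · show |⟪w - z, z⟫| ≤ 2 * (2 ^ j * R) / n * ‖z‖
        rw [inner_sub_left, real_inner_self_eq_norm_sq, real_inner_comm]
        have h4 : ⟪z, w⟫ - ‖z‖ ^ 2 = (⟪z, w⟫ / (‖z‖ * ‖w‖) * ‖w‖ - ‖z‖) * ‖z‖ := by
          field_simp
        rw [h4, abs_mul, abs_of_pos hz0]
        have h5 : 2 * (2 ^ j * R) * (1 / n) = 2 * (2 ^ j * R) / n := by ring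
        rw [h5] at g2
        gcongr
    have hq' : (z, w) ∈ {q : E n × E n | q.1 ∈ ann n (2 ^ i * R) ∧ q.2 ∈ ann n (2 ^ j * R) ∧
        |⟪q.1, q.2⟫ / (‖q.1‖ * ‖q.2‖) - (1 / 2) ^ (j - i)| ≤ 1 / n} := ⟨h1, h2, h3⟩
    rw [Set.indicator_of_mem hmem, Set.indicator_of_mem hq',
      mul_assoc (volume (ann n (2 ^ i * R)))⁻¹, mul_assoc (volume (ann n (2 ^ i * R)))⁻¹]
    exact mul_le_mul' le_rfl (geom_const n hn R hR i j hij)
  · rw [Set.indicator_of_notMem hq]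
    exact zero_le

theorem kapA_meas (n : ℕ) (R : ℝ) (i j : ℕ) :
    Measurable (Function.uncurry (kapA n R i j)) := by
  have h : Function.uncurry (kapA n R i j) =
    {q : E n × E n | q.1 ∈ ann n (2 ^ i * R) ∧ q.2 ∈ ann n (2 ^ j * R) ∧
      |⟪q.1, q.2⟫ / (‖q.1‖ * ‖q.2‖) - (1 / 2) ^ (j - i)| ≤ 1 / n}.indicator
      (fun _ => (volume (ann n (2 ^ i * R)))⁻¹ * (volume (ann n (2 ^ j * R)))⁻¹ *
        ENNReal.ofReal (200 * Real.sqrt n * (1 - (1 / 4) ^ (j - i)) ^ (-(n : ℝ) / 2))) := by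
    funext q
    rfl
  rw [h]
  refine measurable_const.indicator ?_
  refine ((meas_ann n _).preimage measurable_fst).inter
    (((meas_ann n _).preimage measurable_snd).inter ?_)
  have h1 : Measurable fun q : E n × E n => ⟪q.1, q.2⟫ / (‖q.1‖ * ‖q.2‖) - (1 / 2) ^ (j - i) := by
    refine Measurable.sub ?_ measurable_const
    refine Measurable.div ?_ ?_
    · have hc : Continuous fun q : E n × E n => (⟪q.1, q.2⟫ : ℝ) := by fun_prop
      exact hc.measurable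
    · have hc : Continuous fun q : E n × E n => ‖q.1‖ * ‖q.2‖ := by fun_prop
      exact hc.measurable
  exact measurableSet_le (measurable_norm.comp h1) measurable_const

theorem kap_meas (n : ℕ) (R : ℝ) (i j : ℕ) :
    Measurable (Function.uncurry (kap n R i j)) := by
  have h : Function.uncurry (kap n R i j) =
    {q : E n × E n | q.1 ∈ ann n (2 ^ i * R) ∧ q.2 - q.1 ∈ ball (0 : E n) (rp n R i j) ∧
      |⟪q.2 - q.1, q.1⟫| ≤ 2 * (2 ^ j * R) / n * ‖q.1‖}.indicator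
      (fun _ => (volume (ann n (2 ^ i * R)))⁻¹ * (volume (ball (0 : E n) (rp n R i j)))⁻¹ *
        ENNReal.ofReal (2000 * Real.sqrt n)) := by
    funext q
    rfl
  rw [h]
  refine measurable_const.indicator ?_
  refine ((meas_ann n _).preimage measurable_fst).inter (?_ : MeasurableSet _)
  refine (measurableSet_ball.preimage (measurable_snd.sub measurable_fst)).inter ?_
  have h1 : Continuous fun q : E n × E n => (⟪q.2 - q.1, q.1⟫ : ℝ) := by fun_prop
  have h2 : Continuous fun q : E n × E n => 2 * (2 ^ j * R) / n * ‖q.1‖ := by fun_prop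
  exact measurableSet_le (measurable_norm.comp h1.measurable) h2.measurable

end Pool.DyMax
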