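import Pool.Agent.DyMax.Defs

/-! MODULE MARG: the Fourier transform of the uniform density of a ball is close to a Gaussian.

Proof: by rotation invariance and Fubini in the direction of `ξ` (`E n = ℝ ⊕ ξ^⊥`, the slice of the ball at
height `ρu` is a ball of radius `ρ√(1-u²)` in dimension `n-1`) the left transform is
`∫_{-1}^1 cos(2π‖ξ‖ρu) g(u) du`, `g(u) = (1-u²)^((n-1)/2)/J`, `J = ∫_{-1}^1 (1-u²)^((n-1)/2) du`
(the constant is determined by `ξ = 0`), and
`exp(-2π²ρ²‖ξ‖²/(n-1)) = ∫_ℝ cos(2π‖ξ‖ρu) γ(u) du`, `γ(u) = √((n-1)/(2π)) e^{-(n-1)u²/2}`.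
Since `(1-u²)^((n-1)/2) ≤ e^{-(n-1)u²/2}`, `g ≤ (1+κ) γ` with `1 + κ = √(2π/(n-1))/J`, and both have integral one,
so `∫|g - γ| = 2∫(g-γ)⁺ ≤ 2κ`. Finally with `I_m = ∫_0^π sin^m`, `J = I_n`, `I_n I_(n+1) = 2π/(n+1)` and
`I_(n+1) ≤ I_n`, so `J ≥ √(2π/(n+1))`, `1 + κ ≤ √((n+1)/(n-1)) ≤ 1 + 1/(n-1)`.
(Any bound `C/√n` instead of `2/(n-1)` would be enough for the application; if you prove a weaker one, tell me.) -/

set_option autoImplicit false

open MeasureTheory Metric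
open scoped ENNReal RealInnerProductSpace FourierTransform

namespace Pool.DyMax

/-- Slicing of the ball orthogonally to a unit vector. -/
theorem marg_slice (m : ℕ) (hm : 1 ≤ m) (e : E (m + 1)) (he : ‖e‖ = 1) (ρ : ℝ) (hρ : 0 < ρ)
    (f : ℝ → ℝ≥0∞) (hf : Measurable f) :
    ∫⁻ x in ball (0 : E (m + 1)) ρ, f ⟪e, x⟫ =
      volume (ball (0 : E m) 1) * ∫⁻ t, ENNReal.ofReal (Real.sqrt (ρ ^ 2 - t ^ 2) ^ m) * f t := by
  have : Nonempty (Fin m) := ⟨⟨0, hm⟩⟩
  have : Nontrivial (E m) := by infer_instance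
  set e₀ : E (m + 1) := EuclideanSpace.single 0 1 with he₀
  have he₀n : ‖e₀‖ = 1 := by simp [he₀]
  have hR : Submodule.reflection (ℝ ∙ (e - e₀))ᗮ e = e₀ :=
    Submodule.reflection_sub (by rw [he, he₀n])
  set R := Submodule.reflection (ℝ ∙ (e - e₀))ᗮ with hRdef
  set D : Set ℝ := Set.Iio ρ with hD
  have h1 : ∫⁻ x in ball (0 : E (m + 1)) ρ, f ⟪e, x⟫ =
      ∫⁻ w : E (m + 1), (D.indicator (fun _ => 1) ‖w‖) * f (w 0) := by
    rw [← lintegral_indicator measurableSet_ball,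
      ← R.measurePreserving.lintegral_comp_emb R.toHomeomorph.measurableEmbedding
      (fun w => (D.indicator (fun _ => 1) ‖w‖) * f (w 0))]
    refine lintegral_congr (fun w => ?_)
    have h2 : ⟪e, w⟫ = (R w) 0 := by
      rw [← R.inner_map_map e w, hR, he₀]
      simp [EuclideanSpace.inner_single_left]
    have h3 : ‖R w‖ = ‖w‖ := R.norm_map w
    show (ball (0 : E (m + 1)) ρ).indicator (fun x => f ⟪e, x⟫) w =
      (D.indicator (fun _ => 1) ‖R w‖) * f ((R w) 0)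
    rw [h3, ← h2]
    by_cases hw : ‖w‖ < ρ
    · rw [Set.indicator_of_mem (by simpa using hw), Set.indicator_of_mem (by simpa [hD] using hw), one_mul]
    · rw [Set.indicator_of_notMem (by simpa using hw), Set.indicator_of_notMem (by simpa [hD] using hw),
        zero_mul]
  rw [h1]
  set G : ℝ × (Fin m → ℝ) → ℝ≥0∞ := fun p =>
    (D.indicator (fun _ => 1) (Real.sqrt (p.1 ^ 2 + ‖(WithLp.toLp 2 p.2 : E m)‖ ^ 2))) * f p.1 with hG
  have hDm : Measurable (D.indicator (fun _ => (1 : ℝ≥0∞))) := measurable_const.indicator measurableSet_Iio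
  have hnm : Measurable (fun p : ℝ × (Fin m → ℝ) => ‖(WithLp.toLp 2 p.2 : E m)‖) := by
    apply Measurable.norm
    exact (PiLp.volume_preserving_toLp (Fin m)).measurable.comp measurable_snd
  have hGm : Measurable G := by
    apply Measurable.mul
    · apply hDm.comp
      fun_prop
    · exact hf.comp measurable_fst
  have e1 : ∫⁻ w : E (m + 1), (D.indicator (fun _ => 1) ‖w‖) * f (w 0) =
      ∫⁻ u : Fin (m + 1) → ℝ, (D.indicator (fun _ => 1) ‖(WithLp.toLp 2 u : E (m + 1))‖) * f (u 0) := by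
    rw [← (PiLp.volume_preserving_toLp (Fin (m + 1))).lintegral_comp_emb
      (MeasurableEquiv.toLp 2 (Fin (m + 1) → ℝ)).measurableEmbedding]
  have e2 : ∀ u : Fin (m + 1) → ℝ,
      (D.indicator (fun _ => 1) ‖(WithLp.toLp 2 u : E (m + 1))‖) * f (u 0) =
      G (MeasurableEquiv.piFinSuccAbove (fun _ : Fin (m + 1) => ℝ) 0 u) := by
    intro u
    have h1 : ‖(WithLp.toLp 2 u : E (m + 1))‖ = Real.sqrt (u 0 ^ 2 +
        ‖(WithLp.toLp 2 (fun j : Fin m => u ((0 : Fin (m + 1)).succAbove j)) : E m)‖ ^ 2) := by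
      rw [EuclideanSpace.norm_sq_eq, EuclideanSpace.norm_eq, Fin.sum_univ_succ]
      simp
    rw [h1]
    rfl
  rw [e1]
  simp_rw [e2]
  rw [(volume_preserving_piFinSuccAbove (fun _ : Fin (m + 1) => ℝ) 0).lintegral_comp_emb
    (MeasurableEquiv.measurableEmbedding _) G, Measure.volume_eq_prod,
    lintegral_prod _ hGm.aemeasurable]
  have e3 : ∀ t : ℝ, ∫⁻ v : Fin m → ℝ, G (t, v) =
      volume (ball (0 : E m) 1) * (ENNReal.ofReal (Real.sqrt (ρ ^ 2 - t ^ 2) ^ m) * f t) := by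
    intro t
    have e4 : ∫⁻ v : Fin m → ℝ, G (t, v) =
        ∫⁻ v : E m, (ball (0 : E m) (Real.sqrt (ρ ^ 2 - t ^ 2))).indicator (fun _ => f t) v := by
      rw [← (PiLp.volume_preserving_toLp (Fin m)).lintegral_comp_emb
        (MeasurableEquiv.toLp 2 (Fin m → ℝ)).measurableEmbedding]
      refine lintegral_congr (fun v => ?_)
      simp only [hG]
      have h5 : (Real.sqrt (t ^ 2 + ‖(WithLp.toLp 2 v : E m)‖ ^ 2) ∈ D) ↔
          (WithLp.toLp 2 v : E m) ∈ ball (0 : E m) (Real.sqrt (ρ ^ 2 - t ^ 2)) := by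
        rw [hD, Set.mem_Iio, Real.sqrt_lt' hρ, mem_ball_zero_iff, Real.lt_sqrt (norm_nonneg _)]
        constructor <;> intro h <;> linarith
      by_cases h6 : Real.sqrt (t ^ 2 + ‖(WithLp.toLp 2 v : E m)‖ ^ 2) ∈ D
      · rw [Set.indicator_of_mem h6, Set.indicator_of_mem (h5.1 h6), one_mul]
      · rw [Set.indicator_of_notMem h6, Set.indicator_of_notMem (fun h => h6 (h5.2 h)), zero_mul]
    rw [e4, lintegral_indicator measurableSet_ball, setLIntegral_const,
      Measure.addHaar_ball _ _ (Real.sqrt_nonneg _)]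
    have hdim : Module.finrank ℝ (E m) = m := by simp [E]
    rw [hdim]
    ring
  simp_rw [e3]
  rw [lintegral_const_mul]
  apply Measurable.mul _ hf
  fun_prop

/-- The profile of the marginal. -/
noncomputable def mgh (m : ℕ) (u : ℝ) : ℝ := Real.sqrt (1 - u ^ 2) ^ m

theorem mgh_cont (m : ℕ) : Continuous (mgh m) := by
  unfold mgh
  fun_prop

theorem mgh_nonneg (m : ℕ) (u : ℝ) : 0 ≤ mgh m u := by
  unfold mgh
  positivity

theorem mgh_zero (m : ℕ) (hm : 1 ≤ m) (u : ℝ) (hu : u ∉ Set.Ioo (-1 : ℝ) 1) : mgh m u = 0 := by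
  unfold mgh
  have : 1 - u ^ 2 ≤ 0 := by
    by_contra h
    apply hu
    have h1 : u ^ 2 < 1 := by linarith
    have h2 := (sq_lt_one_iff_abs_lt_one u).1 h1
    exact ⟨(abs_lt.1 h2).1, (abs_lt.1 h2).2⟩
  rw [Real.sqrt_eq_zero_of_nonpos this]
  exact zero_pow (by omega)

theorem mgh_le (m : ℕ) (u : ℝ) : mgh m u ≤ Real.exp (-(m / 2 * u ^ 2)) := by
  unfold mgh
  have h1 : Real.sqrt (1 - u ^ 2) ≤ Real.exp (-(u ^ 2 / 2)) := by
    rw [Real.sqrt_le_left (Real.exp_pos _).le, ← Real.exp_nat_mul]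
    have := Real.add_one_le_exp (-(u ^ 2))
    have e : ((2 : ℕ) : ℝ) * -(u ^ 2 / 2) = - (u ^ 2) := by push_cast; ring
    rw [e]
    linarith
  calc Real.sqrt (1 - u ^ 2) ^ m ≤ Real.exp (-(u ^ 2 / 2)) ^ m :=
        pow_le_pow_left₀ (Real.sqrt_nonneg _) h1 m
    _ = Real.exp (-(m / 2 * u ^ 2)) := by
        rw [← Real.exp_nat_mul]
        congr 1
        ring

theorem mgh_int (m : ℕ) (hm : 1 ≤ m) : Integrable (mgh m) := by
  have h : mgh m = (Set.Ioo (-1 : ℝ) 1).indicator (mgh m) := by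
    funext u
    by_cases hu : u ∈ Set.Ioo (-1 : ℝ) 1
    · rw [Set.indicator_of_mem hu]
    · rw [Set.indicator_of_notMem hu, mgh_zero m hm u hu]
  rw [h, integrable_indicator_iff measurableSet_Ioo]
  exact ((mgh_cont m).integrableOn_Icc).mono_set Set.Ioo_subset_Icc_self

/-- The scaled law. -/
theorem marg_law (m : ℕ) (hm : 1 ≤ m) (e : E (m + 1)) (he : ‖e‖ = 1) (ρ : ℝ) (hρ : 0 < ρ)
    (f : ℝ → ℝ≥0∞) (hf : Measurable f) :
    ∫⁻ x in ball (0 : E (m + 1)) ρ, f (⟪e, x⟫ / ρ) =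
      (volume (ball (0 : E m) 1) * ENNReal.ofReal (ρ ^ (m + 1))) *
        ∫⁻ u, ENNReal.ofReal (mgh m u) * f u := by
  rw [marg_slice m hm e he ρ hρ (fun t => f (t / ρ)) (by fun_prop)]
  have h := lintegral_image_eq_lintegral_abs_deriv_mul (s := Set.univ)
    (f := fun u : ℝ => ρ * u) (f' := fun _ => ρ) MeasurableSet.univ
    (fun x _ => (show HasDerivAt (fun u : ℝ => ρ * u) ρ x by
      simpa using (hasDerivAt_id x).const_mul ρ).hasDerivWithinAt)
    (fun x _ y _ hxy => mul_left_cancel₀ hρ.ne' hxy)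
    (fun t => ENNReal.ofReal (Real.sqrt (ρ ^ 2 - t ^ 2) ^ m) * f (t / ρ))
  have himg : (fun u : ℝ => ρ * u) '' Set.univ = Set.univ := by
    rw [Set.image_univ, Set.range_eq_univ]
    intro t
    exact ⟨t / ρ, by field_simp⟩
  rw [himg, setLIntegral_univ, setLIntegral_univ] at h
  rw [h, mul_assoc]
  congr 1
  have hmh : Measurable (fun u => ENNReal.ofReal (mgh m u) * f u) := by
    apply Measurable.mul _ hf
    exact (mgh_cont m).measurable.ennreal_ofReal
  rw [← lintegral_const_mul _ hmh]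
  refine lintegral_congr (fun u => ?_)
  rw [mul_div_cancel_left₀ _ hρ.ne', abs_of_pos hρ, ← mul_assoc, ← mul_assoc,
    ← ENNReal.ofReal_mul hρ.le, ← ENNReal.ofReal_mul (by positivity)]
  congr 2
  unfold mgh
  have e1 : ρ ^ 2 - (ρ * u) ^ 2 = ρ ^ 2 * (1 - u ^ 2) := by ring
  rw [e1, Real.sqrt_mul (by positivity), Real.sqrt_sq hρ.le, mul_pow]
  ring


/-- The same for bounded complex functions (and the value of the constant). -/
theorem marg_int (m : ℕ) (hm : 1 ≤ m) (e : E (m + 1)) (he : ‖e‖ = 1) (ρ : ℝ) (hρ : 0 < ρ) :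
    ∃ K : ℝ, ∀ F : ℝ → ℂ, Continuous F →
      ∫ x in ball (0 : E (m + 1)) ρ, F (⟪e, x⟫ / ρ) = K * ∫ u, (mgh m u : ℂ) * F u := by
  set K₀ : ℝ≥0∞ := volume (ball (0 : E m) 1) * ENNReal.ofReal (ρ ^ (m + 1)) with hK₀
  have hK₀t : K₀ ≠ ∞ := ENNReal.mul_ne_top measure_ball_lt_top.ne ENNReal.ofReal_ne_top
  refine ⟨K₀.toReal, ?_⟩
  intro F hF
  set T : E (m + 1) → ℝ := fun x => ⟪e, x⟫ / ρ with hT
  have hTm : Measurable T := by fun_prop
  have hmap : Measure.map T (volume.restrict (ball (0 : E (m + 1)) ρ)) =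
      K₀ • (volume : Measure ℝ).withDensity (fun u => ENNReal.ofReal (mgh m u)) := by
    ext s hs
    rw [Measure.map_apply hTm hs, Measure.smul_apply, withDensity_apply _ hs, smul_eq_mul]
    have h1 := marg_law m hm e he ρ hρ (s.indicator (fun _ => 1)) (measurable_const.indicator hs)
    rw [← hK₀] at h1
    have h2 : ∫⁻ x in ball (0 : E (m + 1)) ρ, s.indicator (fun _ => (1 : ℝ≥0∞)) (⟪e, x⟫ / ρ) =
        (volume.restrict (ball (0 : E (m + 1)) ρ)) (T ⁻¹' s) := by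
      rw [← lintegral_indicator_one (hTm hs)]
      rfl
    have h3 : ∫⁻ u, ENNReal.ofReal (mgh m u) * s.indicator (fun _ => (1 : ℝ≥0∞)) u =
        ∫⁻ u in s, ENNReal.ofReal (mgh m u) := by
      rw [← lintegral_indicator hs]
      refine lintegral_congr (fun u => ?_)
      by_cases hu : u ∈ s
      · rw [Set.indicator_of_mem hu, Set.indicator_of_mem hu, mul_one]
      · rw [Set.indicator_of_notMem hu, Set.indicator_of_notMem hu, mul_zero]
    rw [← h2, h1, h3]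
  have h4 : ∫ x in ball (0 : E (m + 1)) ρ, F (⟪e, x⟫ / ρ) =
      ∫ u, F u ∂(Measure.map T (volume.restrict (ball (0 : E (m + 1)) ρ))) := by
    rw [integral_map hTm.aemeasurable hF.aestronglyMeasurable]
  rw [h4, hmap, integral_smul_measure]
  have h5 : ∫ u, F u ∂((volume : Measure ℝ).withDensity (fun u => ENNReal.ofReal (mgh m u))) =
      ∫ u, (mgh m u : ℂ) * F u := by
    rw [integral_withDensity_eq_integral_toReal_smul (mgh_cont m).measurable.ennreal_ofReal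
      (Filter.Eventually.of_forall fun x => ENNReal.ofReal_lt_top)]
    congr 1
    funext u
    rw [ENNReal.toReal_ofReal (mgh_nonneg m u)]
    exact Complex.real_smul
  rw [h5]
  exact Complex.real_smul

/-- The normalising constant. -/
noncomputable def mgJ (m : ℕ) : ℝ := ∫ u, mgh m u

theorem mgJ_eq (m : ℕ) (hm : 1 ≤ m) : mgJ m = ∫ x in (0 : ℝ)..Real.pi, Real.sin x ^ (m + 1) := by
  unfold mgJ
  have h : ∫ u, mgh m u = ∫ u in Set.Ioo (-1 : ℝ) 1, mgh m u := by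
    rw [← integral_indicator measurableSet_Ioo]
    congr 1
    funext u
    by_cases hu : u ∈ Set.Ioo (-1 : ℝ) 1
    · rw [Set.indicator_of_mem hu]
    · rw [Set.indicator_of_notMem hu, mgh_zero m hm u hu]
  have himg : Real.cos '' (Set.Ioo (0 : ℝ) Real.pi) = Set.Ioo (-1 : ℝ) 1 := by
    ext c
    constructor
    · rintro ⟨α, ⟨h1, h2⟩, rfl⟩
      constructor
      · rw [← Real.cos_pi]
        exact Real.cos_lt_cos_of_nonneg_of_le_pi h1.le le_rfl h2
      · rw [← Real.cos_zero]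
        exact Real.cos_lt_cos_of_nonneg_of_le_pi le_rfl h2.le h1
    · rintro ⟨h1, h2⟩
      refine ⟨Real.arccos c, ⟨Real.arccos_pos.2 h2, ?_⟩, Real.cos_arccos h1.le h2.le⟩
      rw [← Real.arccos_neg_one]
      exact Real.strictAntiOn_arccos ⟨le_rfl, by norm_num⟩ ⟨h1.le, h2.le⟩ h1
  have h2 := integral_image_eq_integral_abs_deriv_smul (s := Set.Ioo (0 : ℝ) Real.pi)
    (f := Real.cos) (f' := fun x => -Real.sin x) measurableSet_Ioo
    (fun x _ => (Real.hasDerivAt_cos x).hasDerivWithinAt)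
    (Real.injOn_cos.mono (Set.Ioo_subset_Icc_self)) (mgh m)
  rw [himg] at h2
  rw [h, h2, intervalIntegral.integral_of_le Real.pi_pos.le, integral_Ioc_eq_integral_Ioo]
  refine setIntegral_congr_fun measurableSet_Ioo (fun α hα => ?_)
  have hs : 0 < Real.sin α := Real.sin_pos_of_pos_of_lt_pi hα.1 hα.2
  have h1 : 1 - Real.cos α ^ 2 = Real.sin α ^ 2 := by
    have := Real.sin_sq_add_cos_sq α
    linarith
  simp only [smul_eq_mul]
  unfold mgh
  rw [h1, Real.sqrt_sq hs.le, abs_neg, abs_of_pos hs, ← pow_succ']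

/-- Wallis product. -/
theorem mg_wallis (k : ℕ) : ((k : ℝ) + 1) * ((∫ x in (0 : ℝ)..Real.pi, Real.sin x ^ k) *
    ∫ x in (0 : ℝ)..Real.pi, Real.sin x ^ (k + 1)) = 2 * Real.pi := by
  induction k with
  | zero =>
    simp
    ring
  | succ k ih =>
    have h1 := integral_sin_pow (a := 0) (b := Real.pi) (n := k)
    have h2 : (∫ x in (0 : ℝ)..Real.pi, Real.sin x ^ (k + 2)) =
        ((k : ℝ) + 1) / (k + 2) * ∫ x in (0 : ℝ)..Real.pi, Real.sin x ^ k := by
      rw [h1]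
      simp
    rw [h2, ← ih]
    push_cast
    have : (k : ℝ) + 2 ≠ 0 := by positivity
    field_simp
    ring

theorem mgJ_low (m : ℕ) (hm : 1 ≤ m) : Real.sqrt (2 * Real.pi / (m + 2)) ≤ mgJ m := by
  rw [mgJ_eq m hm]
  have h1 := mg_wallis (m + 1)
  have h2 := integral_sin_pow_succ_le (m + 1)
  have h3 : 0 < ∫ x in (0 : ℝ)..Real.pi, Real.sin x ^ (m + 1) := integral_sin_pow_pos (m + 1)
  rw [Real.sqrt_le_left h3.le]
  push_cast at h1
  rw [div_le_iff₀ (by positivity), ← h1]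
  have h4 : (0 : ℝ) < (m : ℝ) + 1 + 1 := by positivity
  nlinarith [mul_le_mul_of_nonneg_left h2 h3.le]


/-- The Gaussian density. -/
noncomputable def mgG (m : ℕ) (u : ℝ) : ℝ := (Real.sqrt (Real.pi / (m / 2)))⁻¹ * Real.exp (-(m / 2) * u ^ 2)

theorem mgG_int (m : ℕ) (hm : 1 ≤ m) : Integrable (mgG m) := by
  unfold mgG
  have : (0 : ℝ) < m / 2 := by
    have : (1 : ℝ) ≤ m := by exact_mod_cast hm
    linarith
  exact (integrable_exp_neg_mul_sq this).const_mul _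

theorem mgG_one (m : ℕ) (hm : 1 ≤ m) : ∫ u, mgG m u = 1 := by
  unfold mgG
  have h0 : (0 : ℝ) < m / 2 := by
    have : (1 : ℝ) ≤ m := by exact_mod_cast hm
    linarith
  rw [integral_const_mul, integral_gaussian]
  exact inv_mul_cancel₀ (Real.sqrt_pos.2 (div_pos Real.pi_pos h0)).ne'

theorem mgG_ft (m : ℕ) (hm : 1 ≤ m) (s : ℝ) :
    ∫ u, (mgG m u : ℂ) * Complex.exp (Complex.I * ((-(2 * Real.pi * s) : ℝ) : ℂ) * u) =
      ((Real.exp (-(2 * Real.pi ^ 2 * s ^ 2 / m)) : ℝ) : ℂ) := by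
  have h0 : (0 : ℝ) < m / 2 := by
    have : (1 : ℝ) ≤ m := by exact_mod_cast hm
    linarith
  have h1 := fourierIntegral_gaussian (b := ((m / 2 : ℝ) : ℂ)) (by rw [Complex.ofReal_re]; exact h0)
    ((-(2 * Real.pi * s) : ℝ) : ℂ)
  have h2 : ∀ u : ℝ, (mgG m u : ℂ) * Complex.exp (Complex.I * ((-(2 * Real.pi * s) : ℝ) : ℂ) * u) =
      ((Real.sqrt (Real.pi / (m / 2)))⁻¹ : ℝ) * (Complex.exp (Complex.I * ((-(2 * Real.pi * s) : ℝ) : ℂ) * u) *
        Complex.exp (-((m / 2 : ℝ) : ℂ) * u ^ 2)) := by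
    intro u
    unfold mgG
    push_cast
    ring
  simp_rw [h2]
  rw [integral_const_mul, h1]
  have h3 : ((Real.pi : ℂ) / ((m / 2 : ℝ) : ℂ)) ^ (1 / 2 : ℂ) = ((Real.sqrt (Real.pi / (m / 2)) : ℝ) : ℂ) := by
    rw [Real.sqrt_eq_rpow, Complex.ofReal_cpow (div_pos Real.pi_pos h0).le]
    push_cast
    rfl
  rw [h3, ← mul_assoc, ← Complex.ofReal_mul,
    inv_mul_cancel₀ (Real.sqrt_pos.2 (div_pos Real.pi_pos h0)).ne', Complex.ofReal_one, one_mul,
    Complex.ofReal_exp]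
  congr 1
  push_cast
  have : (m : ℂ) ≠ 0 := by
    have : m ≠ 0 := by omega
    exact_mod_cast this
  field_simp
  ring

theorem mg_comp (m : ℕ) (hm : 1 ≤ m) (u : ℝ) : mgh m u / mgJ m ≤ (1 + 1 / m) * mgG m u := by
  have hm' : (1 : ℝ) ≤ m := by exact_mod_cast hm
  have h0 : (0 : ℝ) < m / 2 := by linarith
  have hJ := mgJ_low m hm
  have hJ0 : 0 < Real.sqrt (2 * Real.pi / (m + 2)) := by
    apply Real.sqrt_pos.2
    have := Real.pi_pos
    positivity
  have hJp : 0 < mgJ m := hJ0.trans_le hJ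
  have h1 := mgh_le m u
  unfold mgG
  have e1 : Real.exp (-(m / 2) * u ^ 2) = Real.exp (-(m / 2 * u ^ 2)) := by
    congr 1
    ring
  rw [e1]
  have hsp : 0 < Real.sqrt (Real.pi / (m / 2)) := Real.sqrt_pos.2 (div_pos Real.pi_pos h0)
  have h2 : Real.sqrt (Real.pi / (m / 2)) ≤ (1 + 1 / m) * mgJ m := by
    refine le_trans ?_ (mul_le_mul_of_nonneg_left hJ (by positivity))
    rw [Real.sqrt_le_left (by positivity), mul_pow, Real.sq_sqrt (by have := Real.pi_pos; positivity)]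
    have e2 : Real.pi / (m / 2) = 2 * Real.pi / (m + 2) * (1 + 2 / m) := by
      have : (m : ℝ) ≠ 0 := by positivity
      field_simp
    rw [e2, mul_comm ((1 + 1 / (m : ℝ)) ^ 2)]
    apply mul_le_mul_of_nonneg_left _ (by have := Real.pi_pos; positivity)
    have e3 : (1 + 1 / (m : ℝ)) ^ 2 = 1 + 2 / m + (1 / m) ^ 2 := by ring
    rw [e3]
    have : 0 ≤ (1 / (m : ℝ)) ^ 2 := by positivity
    linarith
  rw [div_le_iff₀ hJp]
  calc mgh m u ≤ Real.exp (-(m / 2 * u ^ 2)) := h1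
    _ = Real.sqrt (Real.pi / (m / 2)) * ((Real.sqrt (Real.pi / (m / 2)))⁻¹ * Real.exp (-(m / 2 * u ^ 2))) := by
        rw [← mul_assoc, mul_inv_cancel₀ hsp.ne', one_mul]
    _ ≤ ((1 + 1 / m) * mgJ m) * ((Real.sqrt (Real.pi / (m / 2)))⁻¹ * Real.exp (-(m / 2 * u ^ 2))) :=
        mul_le_mul_of_nonneg_right h2 (by positivity)
    _ = _ := by ring

theorem mg_tv (m : ℕ) (hm : 1 ≤ m) (F : ℝ → ℂ) (hF : Continuous F) (hF1 : ∀ u, ‖F u‖ ≤ 1) :
    ‖(mgJ m : ℂ)⁻¹ * (∫ u, (mgh m u : ℂ) * F u) - ∫ u, (mgG m u : ℂ) * F u‖ ≤ 2 / m := by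
  have hJ0 : 0 < Real.sqrt (2 * Real.pi / (m + 2)) := by
    apply Real.sqrt_pos.2
    have := Real.pi_pos
    positivity
  have hJp : 0 < mgJ m := hJ0.trans_le (mgJ_low m hm)
  have hi1 : Integrable (fun u => (mgh m u : ℂ) * F u) :=
    (mgh_int m hm).ofReal.mul_bdd hF.aestronglyMeasurable (Filter.Eventually.of_forall hF1)
  have hi2 : Integrable (fun u => (mgG m u : ℂ) * F u) :=
    (mgG_int m hm).ofReal.mul_bdd hF.aestronglyMeasurable (Filter.Eventually.of_forall hF1)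
  rw [← integral_const_mul, ← integral_sub (hi1.const_mul _) hi2]
  refine (norm_integral_le_integral_norm _).trans ?_
  have hg : Integrable (fun u => mgh m u / mgJ m) := (mgh_int m hm).div_const _
  have hdom : Integrable (fun u => 2 / m * mgG m u - (mgh m u / mgJ m - mgG m u)) :=
    ((mgG_int m hm).const_mul _).sub (hg.sub (mgG_int m hm))
  have h1 : ∫ u, ‖(mgJ m : ℂ)⁻¹ * ((mgh m u : ℂ) * F u) - (mgG m u : ℂ) * F u‖ ≤
      ∫ u, (2 / m * mgG m u - (mgh m u / mgJ m - mgG m u)) := by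
    apply integral_mono_of_nonneg
    · exact Filter.Eventually.of_forall fun u => norm_nonneg _
    · exact hdom
    · refine Filter.Eventually.of_forall fun u => ?_
      simp only
      have e1 : (mgJ m : ℂ)⁻¹ * ((mgh m u : ℂ) * F u) - (mgG m u : ℂ) * F u =
          ((mgh m u / mgJ m - mgG m u : ℝ) : ℂ) * F u := by
        push_cast
        ring
      rw [e1, norm_mul, Complex.norm_real, Real.norm_eq_abs]
      have h2 := mg_comp m hm u
      have hG0 : 0 ≤ mgG m u := by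
        unfold mgG
        positivity
      have h3 : |mgh m u / mgJ m - mgG m u| * ‖F u‖ ≤ |mgh m u / mgJ m - mgG m u| :=
        mul_le_of_le_one_right (abs_nonneg _) (hF1 u)
      refine h3.trans ?_
      have h4 : mgh m u / mgJ m - mgG m u ≤ 1 / m * mgG m u := by linarith
      have h5 : (2 : ℝ) / m * mgG m u = 2 * (1 / m * mgG m u) := by ring
      have h6 : 0 ≤ 1 / (m : ℝ) * mgG m u := by positivity
      rw [h5]
      rcases abs_cases (mgh m u / mgJ m - mgG m u) with h | h <;> linarith [h.1, h.2]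
  refine h1.trans (le_of_eq ?_)
  have hsub : Integrable (fun u => mgh m u / mgJ m - mgG m u) := hg.sub (mgG_int m hm)
  rw [integral_sub ((mgG_int m hm).const_mul _) hsub,
    integral_sub hg (mgG_int m hm), integral_const_mul, mgG_one m hm, integral_div]
  have : ∫ u, mgh m u = mgJ m := rfl
  rw [this, div_self hJp.ne']
  ring

theorem ball_ft (n : ℕ) (hn : 3 ≤ n) (ρ : ℝ) (hρ : 0 < ρ) (ξ : E n) :
    ‖𝓕 (fun x : E n => (((ball (0 : E n) ρ).indicator
        (fun _ => (volume (ball (0 : E n) ρ)).toReal⁻¹) x : ℝ) : ℂ)) ξ -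
      Real.exp (-(2 * Real.pi ^ 2 * ρ ^ 2 * ‖ξ‖ ^ 2 / (n - 1)))‖ ≤ 2 / (n - 1) := by
  obtain ⟨m, rfl⟩ : ∃ m, n = m + 1 := ⟨n - 1, by omega⟩
  have hm : 1 ≤ m := by omega
  -- a unit vector in the direction of `ξ`
  obtain ⟨e, he, hξ⟩ : ∃ e : E (m + 1), ‖e‖ = 1 ∧ ξ = ‖ξ‖ • e := by
    by_cases h : ξ = 0
    · exact ⟨EuclideanSpace.single 0 1, by simp, by simp [h]⟩
    · have hne : ‖ξ‖ ≠ 0 := norm_ne_zero_iff.2 h
      refine ⟨‖ξ‖⁻¹ • ξ, ?_, ?_⟩
      · rw [norm_smul, norm_inv, norm_norm, inv_mul_cancel₀ hne]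
      · rw [smul_smul, mul_inv_cancel₀ hne, one_smul]
  set s : ℝ := ‖ξ‖ * ρ with hs
  obtain ⟨K, hK⟩ := marg_int m hm e he ρ hρ
  set V : ℝ := (volume (ball (0 : E (m + 1)) ρ)).toReal with hV
  have hVpos : 0 < V := ENNReal.toReal_pos (measure_ball_pos volume _ hρ).ne' measure_ball_lt_top.ne
  have hKJ : (V : ℂ) = K * mgJ m := by
    have h1 := hK (fun _ => 1) continuous_const
    simp only [mul_one] at h1
    rw [setIntegral_const] at h1
    have h2 : ∫ u, (mgh m u : ℂ) = (mgJ m : ℂ) := by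
      unfold mgJ
      rw [integral_complex_ofReal]
    rw [h2] at h1
    rw [← h1, hV]
    simp [Measure.real]
  set F : ℝ → ℂ := fun u => Complex.exp (Complex.I * ((-(2 * Real.pi * s) : ℝ) : ℂ) * u) with hF
  have hFc : Continuous F := by
    rw [hF]
    fun_prop
  have hF1 : ∀ u, ‖F u‖ ≤ 1 := by
    intro u
    rw [hF]
    simp only
    have : Complex.I * ((-(2 * Real.pi * s) : ℝ) : ℂ) * u = ((-(2 * Real.pi * s) * u : ℝ) : ℂ) * Complex.I := by
      push_cast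
      ring
    rw [this, Complex.norm_exp_ofReal_mul_I]
  have hft : 𝓕 (fun x : E (m + 1) => (((ball (0 : E (m + 1)) ρ).indicator
        (fun _ => V⁻¹) x : ℝ) : ℂ)) ξ = (mgJ m : ℂ)⁻¹ * ∫ u, (mgh m u : ℂ) * F u := by
    rw [Real.fourier_eq']
    have h1 : ∀ x : E (m + 1), Complex.exp ((-2 * Real.pi * ⟪x, ξ⟫ : ℝ) * Complex.I) •
        (((ball (0 : E (m + 1)) ρ).indicator (fun _ => V⁻¹) x : ℝ) : ℂ) =
        (ball (0 : E (m + 1)) ρ).indicator (fun x => (V : ℂ)⁻¹ * F (⟪e, x⟫ / ρ)) x := by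
      intro x
      by_cases hx : x ∈ ball (0 : E (m + 1)) ρ
      · rw [Set.indicator_of_mem hx, Set.indicator_of_mem hx, smul_eq_mul, mul_comm]
        push_cast
        congr 1
        rw [hF]
        simp only
        congr 1
        have h2 : ⟪x, ξ⟫ = ‖ξ‖ * ⟪e, x⟫ := by
          conv_lhs => rw [hξ]
          rw [real_inner_smul_right, real_inner_comm]
        rw [h2, hs]
        push_cast
        have : (ρ : ℂ) ≠ 0 := by exact_mod_cast hρ.ne'
        field_simp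
      · rw [Set.indicator_of_notMem hx, Set.indicator_of_notMem hx]
        simp
    simp_rw [h1]
    rw [integral_indicator measurableSet_ball, integral_const_mul, hK F hFc]
    have hKne : (K : ℂ) ≠ 0 := by
      intro h
      rw [h, zero_mul] at hKJ
      exact hVpos.ne' (by exact_mod_cast hKJ)
    rw [← mul_assoc, hKJ]
    congr 1
    rw [mul_inv]
    field_simp
  have hG := mgG_ft m hm s
  have h5 := mg_tv m hm F hFc hF1
  rw [← hft] at h5
  have h6 : ∫ u, (mgG m u : ℂ) * F u =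
      ((Real.exp (-(2 * Real.pi ^ 2 * ρ ^ 2 * ‖ξ‖ ^ 2 / (((m + 1 : ℕ) : ℝ) - 1))) : ℝ) : ℂ) := by
    rw [hF]
    simp only
    rw [hG]
    congr 3
    rw [hs]
    push_cast
    ring
  rw [h6] at h5
  have h7 : (2 : ℝ) / (((m + 1 : ℕ) : ℝ) - 1) = 2 / m := by
    push_cast
    ring_nf
  rw [h7]
  exact h5

end Pool.DyMax
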