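import Pool.Agent.DyMax.Mult
import Pool.Agent.DyMax.Marg
import Pool.Agent.MaxFn.Heat

/-! MODULE HFT: comparison of a ball average with a heat average in L².

`heat_ft`: from Mathlib `fourierIntegral_gaussian_innerProductSpace` (Fourier transform of `exp(-b‖x‖²)`):
the transform of `heatK n t` is `exp(-4π²t‖ξ‖²)`.
`heatK_int`: integrability and integral one (see Pool/Agent/MaxFn/Heat.lean `lintegral_heatK`).
`ball_heat`: apply `mult_bound` to `k = uniform density of the ball of radius rp - heatK n T`,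
`T = β/2 (R_j² + R_i²)`, `β = (1+3/n)/(n-1)`. Multiplier: by `ball_ft` it is within `2/(n-1)` of
`exp(-2π²β(R_j²-R_i²)‖ξ‖²) - exp(-2π²β(R_j²+R_i²)‖ξ‖²)`, which with `a = 2π²βR_j²‖ξ‖²`, `q = (1/4)^(j-i) ≤ 1/4` is
`e^{-a(1-q)} (1 - e^{-2aq}) ≤ 2 a q e^{-3a/4} ≤ q (8/3)/e ≤ q`.
Translate between `lintegral` and `integral` (all functions are bounded by 1 and integrable). -/

set_option autoImplicit false

open MeasureTheory Metric
open scoped ENNReal RealInnerProductSpace FourierTransform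

namespace Pool.DyMax

theorem heat_ft (n : ℕ) (t : ℝ) (ht : 0 < t) (ξ : E n) :
    𝓕 (fun x : E n => ((MaxFn.heatK n t x : ℝ) : ℂ)) ξ =
      Real.exp (-(4 * Real.pi ^ 2 * t * ‖ξ‖ ^ 2)) := by
  have hpos : 0 < 4 * Real.pi * t := by positivity
  have hb : 0 < ((1 / (4 * t) : ℝ) : ℂ).re := by
    rw [Complex.ofReal_re]; positivity
  have h1 := fourier_gaussian_innerProductSpace (V := E n) hb ξ
  have h2 : (fun x : E n => ((MaxFn.heatK n t x : ℝ) : ℂ)) =
      (((4 * Real.pi * t) ^ (-((n : ℝ) / 2)) : ℝ) : ℂ) •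
        (fun v : E n => Complex.exp (-((1 / (4 * t) : ℝ) : ℂ) * (‖v‖ : ℂ) ^ 2)) := by
    funext x
    simp only [Pi.smul_apply, smul_eq_mul, MaxFn.heatK]
    rw [Complex.ofReal_mul, Complex.ofReal_exp]
    congr 2
    push_cast
    ring
  have h3 : 𝓕 (fun x : E n => ((MaxFn.heatK n t x : ℝ) : ℂ)) ξ =
      (((4 * Real.pi * t) ^ (-((n : ℝ) / 2)) : ℝ) : ℂ) •
        𝓕 (fun v : E n => Complex.exp (-((1 / (4 * t) : ℝ) : ℂ) * (‖v‖ : ℂ) ^ 2)) ξ := by
    rw [h2]
    exact congrFun (VectorFourier.fourierIntegral_const_smul _ _ _ _ _) ξ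
  rw [h3, h1, finrank_euclideanSpace_fin, smul_eq_mul]
  have h4 : ((Real.pi : ℂ) / ((1 / (4 * t) : ℝ) : ℂ)) = ((4 * Real.pi * t : ℝ) : ℂ) := by
    push_cast
    field_simp
  have h5 : ((4 * Real.pi * t : ℝ) : ℂ) ^ ((n : ℂ) / 2) =
      (((4 * Real.pi * t) ^ ((n : ℝ) / 2) : ℝ) : ℂ) := by
    rw [Complex.ofReal_cpow hpos.le]
    congr 1
    push_cast
    ring
  rw [h4, h5, ← mul_assoc, ← Complex.ofReal_mul, ← Real.rpow_add hpos, neg_add_cancel,
    Real.rpow_zero, Complex.ofReal_one, one_mul, Complex.ofReal_exp]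
  congr 1
  have ht' : (t : ℂ) ≠ 0 := by exact_mod_cast ht.ne'
  push_cast
  field_simp

theorem heatK_int (n : ℕ) (t : ℝ) (ht : 0 < t) : Integrable (fun x : E n => MaxFn.heatK n t x) := by
  refine ⟨(MaxFn.heatK_continuous n t).aestronglyMeasurable, ?_⟩
  rw [hasFiniteIntegral_iff_ofReal (Filter.Eventually.of_forall fun x => MaxFn.heatK_nonneg n ht x)]
  have h := MaxFn.lintegral_heatK n ht (0 : E n)
  have h2 : ∫⁻ a : E n, ENNReal.ofReal (MaxFn.heatK n t a) = 1 := by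
    rw [← h]
    refine lintegral_congr fun y => ?_
    rw [zero_sub, MaxFn.heatK_neg]
  rw [h2]
  exact ENNReal.one_lt_top

/-- heat time of scale `k` -/
noncomputable def tt (n : ℕ) (R : ℝ) (k : ℕ) : ℝ := 4 ^ k * ((1 + 3 / n) / (n - 1) / 2 * R ^ 2)

/-- The uniform density of a ball. -/
noncomputable def hft_kb (n : ℕ) (ρ : ℝ) (x : E n) : ℝ :=
  (ball (0 : E n) ρ).indicator (fun _ => (volume (ball (0 : E n) ρ)).toReal⁻¹) x

theorem hft_kb_meas (n : ℕ) (ρ : ℝ) : Measurable (hft_kb n ρ) := by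
  unfold hft_kb
  exact measurable_const.indicator measurableSet_ball

theorem hft_kb_nonneg (n : ℕ) (ρ : ℝ) (x : E n) : 0 ≤ hft_kb n ρ x := by
  unfold hft_kb
  exact Set.indicator_nonneg (fun _ _ => inv_nonneg.2 ENNReal.toReal_nonneg) x

theorem hft_kb_int (n : ℕ) (ρ : ℝ) : Integrable (hft_kb n ρ) := by
  unfold hft_kb
  exact (integrable_indicator_iff measurableSet_ball).2
    (integrableOn_const measure_ball_lt_top.ne (by simp))

/-- The ball average as a convolution. -/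
theorem hft_bav_eq (n : ℕ) {ρ : ℝ} (hρ : 0 < ρ) (g : E n → ℝ≥0∞) (x : E n) :
    bav n ρ g x = ∫⁻ y, ENNReal.ofReal (hft_kb n ρ (x - y)) * g y := by
  have hv : volume (ball (0 : E n) ρ) ≠ 0 := (measure_ball_pos volume (0 : E n) hρ).ne'
  have hv' : volume (ball (0 : E n) ρ) ≠ ∞ := measure_ball_lt_top.ne
  have e1 : ∀ z : E n, ENNReal.ofReal (hft_kb n ρ z) =
      (volume (ball (0 : E n) ρ))⁻¹ * (ball (0 : E n) ρ).indicator 1 z := by
    intro z
    unfold hft_kb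
    by_cases hz : z ∈ ball (0 : E n) ρ
    · rw [Set.indicator_of_mem hz, Set.indicator_of_mem hz, Pi.one_apply, mul_one,
        ENNReal.ofReal_inv_of_pos (ENNReal.toReal_pos hv hv'), ENNReal.ofReal_toReal hv']
    · rw [Set.indicator_of_notMem hz, Set.indicator_of_notMem hz, ENNReal.ofReal_zero, mul_zero]
  unfold bav
  have hc : (volume (ball (0 : E n) ρ))⁻¹ ≠ ∞ := ENNReal.inv_ne_top.2 hv
  simp only [e1, mul_assoc]
  rw [lintegral_const_mul' _ _ hc]
  congr 1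
  rw [← lintegral_indicator measurableSet_ball,
    ← lintegral_sub_left_eq_self (fun p => (ball (0 : E n) ρ).indicator 1 (x - p) * g p) x,
    ← lintegral_neg_eq_self]
  refine lintegral_congr fun z => ?_
  by_cases hz : z ∈ ball (0 : E n) ρ
  · have h1 : -z ∈ ball (0 : E n) ρ := by
      rw [mem_ball_zero_iff] at hz ⊢; rwa [norm_neg]
    rw [Set.indicator_of_mem h1]
    simp only [sub_eq_add_neg, neg_add_rev, neg_neg]
    have h2 : x + (z + -x) = z := by abel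
    rw [h2, Set.indicator_of_mem hz, Pi.one_apply, one_mul]
  · have h1 : -z ∉ ball (0 : E n) ρ := by
      rw [mem_ball_zero_iff] at hz ⊢; rwa [norm_neg]
    rw [Set.indicator_of_notMem h1]
    have h2 : x - (x - z) = z := by abel
    rw [h2, Set.indicator_of_notMem hz, zero_mul]

/-- Real form of the pairing with a convolution. -/
theorem hft_conv (n : ℕ) (k : E n → ℝ) (hk : Integrable k) (hkm : Measurable k)
    (hk0 : ∀ x, 0 ≤ k x) (φ g : E n → ℝ≥0∞) (hφ : Measurable φ) (hg : Measurable g)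
    (hφ1 : ∀ x, φ x ≤ 1) (hg1 : ∀ x, g x ≤ 1) (hφi : ∫⁻ x, φ x ≠ ∞) :
    (∀ x, Integrable fun y => k (x - y) * (g y).toReal) ∧
    Integrable (fun x => (φ x).toReal * ∫ y, k (x - y) * (g y).toReal) ∧
    ∫⁻ x, φ x * (∫⁻ y, ENNReal.ofReal (k (x - y)) * g y) =
      ENNReal.ofReal (∫ x, (φ x).toReal * ∫ y, k (x - y) * (g y).toReal) := by
  have hgt : ∀ y, g y ≠ ∞ := fun y => ne_top_of_le_ne_top ENNReal.one_ne_top (hg1 y)
  have hφt : ∀ y, φ y ≠ ∞ := fun y => ne_top_of_le_ne_top ENNReal.one_ne_top (hφ1 y)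
  have hgr1 : ∀ y, (g y).toReal ≤ 1 := fun y => by
    have := ENNReal.toReal_mono ENNReal.one_ne_top (hg1 y)
    simpa using this
  have i1 : ∀ x, Integrable fun y => k (x - y) := fun x => hk.comp_sub_left x
  have i2 : ∀ x, Integrable fun y => k (x - y) * (g y).toReal := fun x =>
    (i1 x).mul_bdd (c := 1) hg.ennreal_toReal.aestronglyMeasurable
      (Filter.Eventually.of_forall fun y => by
        rw [Real.norm_of_nonneg ENNReal.toReal_nonneg]; exact hgr1 y)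
  have hI0 : ∀ x, 0 ≤ ∫ y, k (x - y) * (g y).toReal := fun x =>
    integral_nonneg fun y => mul_nonneg (hk0 _) ENNReal.toReal_nonneg
  have hI1 : ∀ x, ∫ y, k (x - y) * (g y).toReal ≤ ∫ y, k y := fun x => by
    calc ∫ y, k (x - y) * (g y).toReal ≤ ∫ y, k (x - y) :=
          integral_mono (i2 x) (i1 x) fun y => mul_le_of_le_one_right (hk0 _) (hgr1 y)
      _ = ∫ y, k y := integral_sub_left_eq_self _ _ _
  have e1 : ∀ x, ∫⁻ y, ENNReal.ofReal (k (x - y)) * g y =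
      ENNReal.ofReal (∫ y, k (x - y) * (g y).toReal) := by
    intro x
    rw [ofReal_integral_eq_lintegral_ofReal (i2 x) (Filter.Eventually.of_forall fun y =>
      mul_nonneg (hk0 _) ENNReal.toReal_nonneg)]
    refine lintegral_congr fun y => ?_
    rw [ENNReal.ofReal_mul (hk0 _), ENNReal.ofReal_toReal (hgt y)]
  have m1 : Measurable fun x => ∫⁻ y, ENNReal.ofReal (k (x - y)) * g y := by
    refine Measurable.lintegral_prod_right' (f := fun q : E n × E n =>
      ENNReal.ofReal (k (q.1 - q.2)) * g q.2) ?_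
    exact (hkm.comp (measurable_fst.sub measurable_snd)).ennreal_ofReal.mul
      (hg.comp measurable_snd)
  have m2 : Measurable fun x => ∫ y, k (x - y) * (g y).toReal := by
    have h : (fun x => ∫ y, k (x - y) * (g y).toReal) =
        fun x => (∫⁻ y, ENNReal.ofReal (k (x - y)) * g y).toReal := by
      funext x
      rw [e1 x, ENNReal.toReal_ofReal (hI0 x)]
    rw [h]
    exact m1.ennreal_toReal
  have iφ : Integrable fun x => (φ x).toReal :=
    integrable_toReal_of_lintegral_ne_top hφ.aemeasurable hφi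
  have i3 : Integrable (fun x => (φ x).toReal * ∫ y, k (x - y) * (g y).toReal) :=
    iφ.mul_bdd (c := ∫ y, k y) m2.aestronglyMeasurable
      (Filter.Eventually.of_forall fun x => by
        rw [Real.norm_of_nonneg (hI0 x)]; exact hI1 x)
  refine ⟨i2, i3, ?_⟩
  rw [ofReal_integral_eq_lintegral_ofReal i3 (Filter.Eventually.of_forall fun x =>
    mul_nonneg ENNReal.toReal_nonneg (hI0 x))]
  refine lintegral_congr fun x => ?_
  rw [e1 x, ENNReal.ofReal_mul ENNReal.toReal_nonneg, ENNReal.ofReal_toReal (hφt x)]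

/-- `2 a exp(-3a/4) ≤ 1`. -/
theorem hft_num1 (a : ℝ) : 2 * a * Real.exp (-(3 / 4 * a)) ≤ 1 := by
  have h1 : 3 / 4 * a ≤ Real.exp (3 / 4 * a - 1) := by
    have := Real.add_one_le_exp (3 / 4 * a - 1)
    linarith
  have h2 : Real.exp (3 / 4 * a - 1) = Real.exp (3 / 4 * a) * Real.exp (-1) := by
    rw [← Real.exp_add]; ring_nf
  have h3 : Real.exp (-1) ≤ 3 / 8 := by
    rw [Real.exp_neg]
    have := Real.exp_one_gt_d9
    rw [inv_le_comm₀ (Real.exp_pos 1) (by norm_num)]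
    linarith
  have h4 : 0 < Real.exp (3 / 4 * a) := Real.exp_pos _
  have h5 : Real.exp (-(3 / 4 * a)) * Real.exp (3 / 4 * a) = 1 := by
    rw [← Real.exp_add]; simp
  have h6 : 2 * a ≤ Real.exp (3 / 4 * a) := by
    rw [h2] at h1
    nlinarith
  calc 2 * a * Real.exp (-(3 / 4 * a)) ≤ Real.exp (3 / 4 * a) * Real.exp (-(3 / 4 * a)) := by
        gcongr
    _ = 1 := by rw [mul_comm, h5]

theorem hft_num (a q : ℝ) (ha : 0 ≤ a) (hq : 0 ≤ q) (hq' : q ≤ 1 / 4) :
    |Real.exp (-(a * (1 - q))) - Real.exp (-(a * (1 + q)))| ≤ q := by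
  have h0 : Real.exp (-(a * (1 + q))) = Real.exp (-(a * (1 - q))) * Real.exp (-(2 * a * q)) := by
    rw [← Real.exp_add]; ring_nf
  have h1 : 1 - 2 * a * q ≤ Real.exp (-(2 * a * q)) := by
    have := Real.add_one_le_exp (-(2 * a * q))
    linarith
  have h2 : Real.exp (-(2 * a * q)) ≤ 1 := Real.exp_le_one_iff.2 (by nlinarith [mul_nonneg ha hq])
  have h3 : Real.exp (-(a * (1 - q))) ≤ Real.exp (-(3 / 4 * a)) :=
    Real.exp_le_exp.2 (by nlinarith)
  have h4 := hft_num1 a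
  have h5 : 0 < Real.exp (-(a * (1 - q))) := Real.exp_pos _
  rw [h0, abs_of_nonneg (by nlinarith)]
  calc Real.exp (-(a * (1 - q))) - Real.exp (-(a * (1 - q))) * Real.exp (-(2 * a * q))
      = Real.exp (-(a * (1 - q))) * (1 - Real.exp (-(2 * a * q))) := by ring
    _ ≤ Real.exp (-(3 / 4 * a)) * (2 * a * q) := by
        gcongr
        linarith
    _ = q * (2 * a * Real.exp (-(3 / 4 * a))) := by ring
    _ ≤ q * 1 := by gcongr
    _ = q := mul_one q

theorem hft_mult (n : ℕ) (hn : 100 ≤ n) (R : ℝ) (hR : 0 < R) (i j : ℕ) (hij : i < j) (ξ : E n) :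
    ‖𝓕 (fun x : E n => ((hft_kb n (rp n R i j) x - MaxFn.heatK n (tt n R i + tt n R j) x : ℝ) : ℂ))
      ξ‖ ≤ 2 / (n - 1) + (1 / 4) ^ (j - i) := by
  have hn' : (100 : ℝ) ≤ n := by exact_mod_cast hn
  have hn1 : (0 : ℝ) < n - 1 := by linarith
  have hT : 0 < tt n R i + tt n R j := by unfold tt; positivity
  set q : ℝ := (1 / 4) ^ (j - i) with hq
  have hq0 : 0 < q := by positivity
  have hq1 : q ≤ 1 / 4 := by
    calc q ≤ (1 / 4) ^ 1 := pow_le_pow_of_le_one (by norm_num) (by norm_num) (by omega)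
      _ = 1 / 4 := pow_one _
  have hR2 : (2 ^ i * R) ^ 2 = q * (2 ^ j * R) ^ 2 := by
    have h2 : (2 : ℝ) ^ j = 2 ^ i * 2 ^ (j - i) := by rw [← pow_add]; congr 1; omega
    have h3 : q * (2 ^ (j - i)) ^ 2 = 1 := by
      rw [hq, ← pow_mul, mul_comm (j - i) 2, pow_mul, ← mul_pow]
      norm_num
    calc (2 ^ i * R) ^ 2 = (q * (2 ^ (j - i)) ^ 2) * (2 ^ i * R) ^ 2 := by rw [h3, one_mul]
      _ = q * (2 ^ j * R) ^ 2 := by rw [h2]; ring
  have hd : 0 < (2 ^ j * R) ^ 2 - (2 ^ i * R) ^ 2 := by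
    rw [hR2]
    have : 0 < (2 ^ j * R) ^ 2 := by positivity
    nlinarith
  have hρ2 : rp n R i j ^ 2 = ((2 ^ j * R) ^ 2 - (2 ^ i * R) ^ 2) * (1 + 3 / n) := by
    unfold rp
    exact Real.sq_sqrt (by positivity)
  have hρ : 0 < rp n R i j := by
    unfold rp
    exact Real.sqrt_pos.2 (by positivity)
  -- the transform of the difference
  have i1 : Integrable fun x : E n => ((hft_kb n (rp n R i j) x : ℝ) : ℂ) :=
    (hft_kb_int n _).ofReal
  have i2 : Integrable fun x : E n => ((MaxFn.heatK n (tt n R i + tt n R j) x : ℝ) : ℂ) :=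
    (heatK_int n _ hT).ofReal
  have e1 : 𝓕 (fun x : E n =>
      ((hft_kb n (rp n R i j) x - MaxFn.heatK n (tt n R i + tt n R j) x : ℝ) : ℂ)) ξ =
      𝓕 (fun x : E n => ((hft_kb n (rp n R i j) x : ℝ) : ℂ)) ξ -
        𝓕 (fun x : E n => ((MaxFn.heatK n (tt n R i + tt n R j) x : ℝ) : ℂ)) ξ := by
    rw [Real.fourier_eq, Real.fourier_eq, Real.fourier_eq, ← integral_sub
      ((Real.fourierIntegral_convergent_iff ξ).2 i1) ((Real.fourierIntegral_convergent_iff ξ).2 i2)]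
    congr 1
    funext x
    rw [Complex.ofReal_sub, smul_sub]
  have e2 := ball_ft n (by omega) _ hρ ξ
  have e3 := heat_ft n _ hT ξ
  set a : ℝ := 2 * Real.pi ^ 2 * ((1 + 3 / n) / (n - 1)) * (2 ^ j * R) ^ 2 * ‖ξ‖ ^ 2 with ha
  have ha0 : 0 ≤ a := by positivity
  have a1 : 2 * Real.pi ^ 2 * rp n R i j ^ 2 * ‖ξ‖ ^ 2 / (n - 1) = a * (1 - q) := by
    rw [hρ2, hR2, ha]
    field_simp
    try ring
  have a2 : 4 * Real.pi ^ 2 * (tt n R i + tt n R j) * ‖ξ‖ ^ 2 = a * (1 + q) := by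
    have h4 : ∀ k : ℕ, (4 : ℝ) ^ k * R ^ 2 = (2 ^ k * R) ^ 2 := by
      intro k
      rw [mul_pow, ← pow_mul, mul_comm k 2, pow_mul]
      norm_num
    have h5 : tt n R i + tt n R j =
        (1 + 3 / n) / (n - 1) / 2 * ((2 ^ i * R) ^ 2 + (2 ^ j * R) ^ 2) := by
      rw [← h4, ← h4]
      unfold tt
      ring
    rw [h5, hR2, ha]
    ring
  rw [e1, e3]
  have e4 : 𝓕 (fun x : E n => ((hft_kb n (rp n R i j) x : ℝ) : ℂ)) ξ -
      (Real.exp (-(4 * Real.pi ^ 2 * (tt n R i + tt n R j) * ‖ξ‖ ^ 2)) : ℂ) =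
      (𝓕 (fun x : E n => ((hft_kb n (rp n R i j) x : ℝ) : ℂ)) ξ -
        (Real.exp (-(2 * Real.pi ^ 2 * rp n R i j ^ 2 * ‖ξ‖ ^ 2 / (n - 1))) : ℂ)) +
      ((Real.exp (-(a * (1 - q))) - Real.exp (-(a * (1 + q))) : ℝ) : ℂ) := by
    rw [a1, a2]
    push_cast
    ring
  rw [e4]
  refine (norm_add_le _ _).trans (add_le_add e2 ?_)
  rw [Complex.norm_real, Real.norm_eq_abs]
  exact hft_num a q ha0 hq0.le hq1

theorem ball_heat (n : ℕ) (hn : 100 ≤ n) (R : ℝ) (hR : 0 < R) (i j : ℕ) (hij : i < j)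
    (φ g : E n → ℝ≥0∞) (hφ : Measurable φ) (hg : Measurable g) (hφ1 : ∀ x, φ x ≤ 1)
    (hg1 : ∀ x, g x ≤ 1) (hφi : ∫⁻ x, φ x ≠ ∞) (hgi : ∫⁻ x, g x ≠ ∞) :
    ∫⁻ x, φ x * bav n (rp n R i j) g x ≤
      (∫⁻ x, φ x * MaxFn.heatP n (tt n R i + tt n R j) g x) +
        ENNReal.ofReal (2 / (n - 1) + (1 / 4) ^ (j - i)) * ((∫⁻ x, φ x) + ∫⁻ x, g x) / 2 := by
  have hn' : (100 : ℝ) ≤ n := by exact_mod_cast hn
  have hn1 : (0 : ℝ) < n - 1 := by linarith
  have hT : 0 < tt n R i + tt n R j := by unfold tt; positivity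
  have hd : 0 < (2 ^ j * R) ^ 2 - (2 ^ i * R) ^ 2 := by
    have h1 : (2 : ℝ) ^ i < 2 ^ j := pow_lt_pow_right₀ (by norm_num) hij
    have h2 : (2 : ℝ) ^ i * R < 2 ^ j * R := by gcongr
    have h3 : 0 < (2 : ℝ) ^ i * R := by positivity
    nlinarith
  have hρ : 0 < rp n R i j := by
    unfold rp
    exact Real.sqrt_pos.2 (by positivity)
  set kb := hft_kb n (rp n R i j) with hkb
  set kh : E n → ℝ := fun x => MaxFn.heatK n (tt n R i + tt n R j) x with hkh
  obtain ⟨b1, b2, b3⟩ := hft_conv n kb (hft_kb_int n _) (hft_kb_meas n _) (hft_kb_nonneg n _)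
    φ g hφ hg hφ1 hg1 hφi
  obtain ⟨c1, c2, c3⟩ := hft_conv n kh (heatK_int n _ hT) (MaxFn.heatK_continuous n _).measurable
    (MaxFn.heatK_nonneg n hT) φ g hφ hg hφ1 hg1 hφi
  have e1 : ∫⁻ x, φ x * bav n (rp n R i j) g x =
      ENNReal.ofReal (∫ x, (φ x).toReal * ∫ y, kb (x - y) * (g y).toReal) := by
    rw [← b3]
    refine lintegral_congr fun x => ?_
    rw [hft_bav_eq n hρ]
  have e2 : ∫⁻ x, φ x * MaxFn.heatP n (tt n R i + tt n R j) g x =
      ENNReal.ofReal (∫ x, (φ x).toReal * ∫ y, kh (x - y) * (g y).toReal) := by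
    rw [← c3]
    rfl
  have hM0 : 0 ≤ 2 / ((n : ℝ) - 1) + (1 / 4) ^ (j - i) := by positivity
  have ht1 : ∀ {f : E n → ℝ≥0∞}, (∀ x, f x ≤ 1) → ∀ x, (f x).toReal ≤ 1 := fun h x => by
    have := ENNReal.toReal_mono ENNReal.one_ne_top (h x)
    simpa using this
  have iφ : Integrable fun x => (φ x).toReal :=
    integrable_toReal_of_lintegral_ne_top hφ.aemeasurable hφi
  have ig : Integrable fun x => (g x).toReal :=
    integrable_toReal_of_lintegral_ne_top hg.aemeasurable hgi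
  have hmb := mult_bound n (fun x => kb x - kh x) ((hft_kb_int n _).sub (heatK_int n _ hT))
    (2 / ((n : ℝ) - 1) + (1 / 4) ^ (j - i)) (hft_mult n hn R hR i j hij)
    (fun x => (φ x).toReal) (fun x => (g x).toReal) hφ.ennreal_toReal hg.ennreal_toReal
    (fun x => ENNReal.toReal_nonneg) (ht1 hφ1) (fun x => ENNReal.toReal_nonneg) (ht1 hg1) iφ ig
  have e3 : ∫ x, (φ x).toReal * ∫ y, (kb (x - y) - kh (x - y)) * (g y).toReal =
      (∫ x, (φ x).toReal * ∫ y, kb (x - y) * (g y).toReal) -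
        ∫ x, (φ x).toReal * ∫ y, kh (x - y) * (g y).toReal := by
    rw [← integral_sub b2 c2]
    congr 1
    funext x
    rw [← mul_sub, ← integral_sub (b1 x) (c1 x)]
    congr 2
    funext y
    ring
  rw [e3] at hmb
  have hsq : Real.sqrt (∫ x, (φ x).toReal) * Real.sqrt (∫ x, (g x).toReal) ≤
      ((∫ x, (φ x).toReal) + ∫ x, (g x).toReal) / 2 := by
    have h1 : Real.sqrt (∫ x, (φ x).toReal) ^ 2 = ∫ x, (φ x).toReal :=
      Real.sq_sqrt (integral_nonneg fun x => ENNReal.toReal_nonneg)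
    have h2 : Real.sqrt (∫ x, (g x).toReal) ^ 2 = ∫ x, (g x).toReal :=
      Real.sq_sqrt (integral_nonneg fun x => ENNReal.toReal_nonneg)
    nlinarith [sq_nonneg (Real.sqrt (∫ x, (φ x).toReal) - Real.sqrt (∫ x, (g x).toReal))]
  have h5 : (∫ x, (φ x).toReal * ∫ y, kb (x - y) * (g y).toReal) ≤
      (∫ x, (φ x).toReal * ∫ y, kh (x - y) * (g y).toReal) +
        (2 / ((n : ℝ) - 1) + (1 / 4) ^ (j - i)) *
          (((∫ x, (φ x).toReal) + ∫ x, (g x).toReal) / 2) := by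
    have h6 := (le_abs_self _).trans hmb
    rw [mul_assoc] at h6
    have h7 := mul_le_mul_of_nonneg_left hsq hM0
    linarith
  have h0 : 0 ≤ ∫ x, (φ x).toReal * ∫ y, kh (x - y) * (g y).toReal :=
    integral_nonneg fun x => mul_nonneg ENNReal.toReal_nonneg (integral_nonneg fun y =>
      mul_nonneg (MaxFn.heatK_nonneg n hT _) ENNReal.toReal_nonneg)
  have eφ : ENNReal.ofReal (∫ x, (φ x).toReal) = ∫⁻ x, φ x := by
    rw [integral_toReal hφ.aemeasurable (Filter.Eventually.of_forall fun x =>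
      lt_of_le_of_lt (hφ1 x) ENNReal.one_lt_top), ENNReal.ofReal_toReal hφi]
  have eg : ENNReal.ofReal (∫ x, (g x).toReal) = ∫⁻ x, g x := by
    rw [integral_toReal hg.aemeasurable (Filter.Eventually.of_forall fun x =>
      lt_of_le_of_lt (hg1 x) ENNReal.one_lt_top), ENNReal.ofReal_toReal hgi]
  rw [e1, e2]
  refine (ENNReal.ofReal_le_ofReal h5).trans ?_
  rw [ENNReal.ofReal_add h0 (mul_nonneg hM0 (by positivity)), ENNReal.ofReal_mul hM0,
    ENNReal.ofReal_div_of_pos (by norm_num), ENNReal.ofReal_add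
      (integral_nonneg fun x => ENNReal.toReal_nonneg)
      (integral_nonneg fun x => ENNReal.toReal_nonneg), eφ, eg, mul_div_assoc]
  simp

end Pool.DyMax
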