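import Pool.Agent.DyMax.Defs
import Pool.Agent.MaxFn.Heat
import Pool.Agent.MaxFn.Markov

/-! MODULE HPAIR: the pair sum for the heat semigroup at dyadic (factor 4) times.

Proof: let `S = heatOp n (τ/2)`; `S.it m = heatP n (m τ/2)` for `m ≥ 1` (`heatP_heatP`), so
`S.it (2 * 4^k) g = heatP n (4^k τ) g`. Apply `Pool.MaxFn.SymMarkov.lint_V_sq` to `S`, `N = 4^K` and
`φ_m = ψ_k` if `m = 4^k` (`k < K`), `φ_m = 0` otherwise:
`∫ (∑_k heatP n (4^k τ) ψ_k)² ≤ 4 ∑ ∫ ψ_k`. Expand the square and drop the diagonal: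
`2 ∑_{i<j} ∫ heatP(4^i τ)ψ_i heatP(4^j τ)ψ_j ≤ 4 ∑ ∫ ψ_k`, and
`∫ heatP(a)ψ_i heatP(b)ψ_j = ∫ ψ_i heatP(a+b)ψ_j` (symmetry and semigroup property). -/

set_option autoImplicit false

open MeasureTheory Metric
open scoped ENNReal

namespace Pool.DyMax

theorem hpair_it (n : ℕ) (t : ℝ) (ht : 0 < t) (g : E n → ℝ≥0∞) (hg : Measurable g) (m : ℕ) :
    (MaxFn.heatOp n t ht).it (m + 1) g = MaxFn.heatP n (((m + 1 : ℕ) : ℝ) * t) g := by
  induction m with
  | zero =>
    rw [MaxFn.SymMarkov.it_succ', MaxFn.SymMarkov.it_zero]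
    change MaxFn.heatP n t g = _
    congr 1
    push_cast
    ring
  | succ m ih =>
    rw [MaxFn.SymMarkov.it_succ', ih]
    change MaxFn.heatP n t _ = _
    rw [MaxFn.heatP_heatP n _ _ ht (by positivity) g hg]
    congr 1
    push_cast
    ring

theorem hpair_it_zero {X : Type*} [MeasurableSpace X] {m : Measure X} (S : MaxFn.SymMarkov m)
    (j : ℕ) : S.it j (fun _ => 0) = fun _ => 0 := by
  induction j with
  | zero => rfl
  | succ j ih => rw [MaxFn.SymMarkov.it_succ', ih, S.zero]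

theorem hpair_sq (K : ℕ) (h : ℕ → ℝ≥0∞) :
    2 * ∑ j ∈ Finset.range K, ∑ i ∈ Finset.range j, h i * h j ≤ (∑ k ∈ Finset.range K, h k) ^ 2 := by
  induction K with
  | zero => simp
  | succ K ih =>
    rw [Finset.sum_range_succ, Finset.sum_range_succ, ← Finset.sum_mul]
    calc 2 * (∑ j ∈ Finset.range K, ∑ i ∈ Finset.range j, h i * h j +
          (∑ i ∈ Finset.range K, h i) * h K)
        = 2 * ∑ j ∈ Finset.range K, ∑ i ∈ Finset.range j, h i * h j +
          2 * ((∑ i ∈ Finset.range K, h i) * h K) := by ring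
      _ ≤ (∑ k ∈ Finset.range K, h k) ^ 2 + 2 * ((∑ i ∈ Finset.range K, h i) * h K) := by gcongr
      _ ≤ (∑ k ∈ Finset.range K, h k) ^ 2 + 2 * ((∑ i ∈ Finset.range K, h i) * h K) + h K ^ 2 :=
          le_self_add
      _ = (∑ k ∈ Finset.range K, h k + h K) ^ 2 := by ring

theorem hpair_symm (n : ℕ) (a b : ℝ) (ha : 0 < a) (hb : 0 < b) (f g : E n → ℝ≥0∞)
    (hf : Measurable f) (hg : Measurable g) :
    ∫⁻ x, MaxFn.heatP n a f x * MaxFn.heatP n b g x = ∫⁻ x, f x * MaxFn.heatP n (a + b) g x := by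
  have h := (MaxFn.heatOp n a ha).symm f (MaxFn.heatP n b g) hf (MaxFn.heatP_measurable n b g hg)
  have h' : ∫⁻ x, f x * MaxFn.heatP n a (MaxFn.heatP n b g) x =
      ∫⁻ x, MaxFn.heatP n a f x * MaxFn.heatP n b g x := h
  rw [← h', MaxFn.heatP_heatP n a b ha hb g hg]

theorem heat_pairs (n K : ℕ) (τ : ℝ) (hτ : 0 < τ) (ψ : ℕ → E n → ℝ≥0∞) (hψ : ∀ k, Measurable (ψ k))
    (h1 : ∀ x, ∑ k ∈ Finset.range K, ψ k x ≤ 1) (hfin : ∀ k < K, ∫⁻ x, ψ k x ≠ ∞) :
    ∑ j ∈ Finset.range K, ∑ i ∈ Finset.range j,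
      ∫⁻ x, ψ i x * MaxFn.heatP n (4 ^ i * τ + 4 ^ j * τ) (ψ j) x ≤
      2 * ∑ k ∈ Finset.range K, ∫⁻ x, ψ k x := by
  classical
  set S := MaxFn.heatOp n (τ / 2) (by positivity) with hS
  set φ : ℕ → E n → ℝ≥0∞ := fun m x => ∑ k ∈ Finset.range K, if 4 ^ k = m then ψ k x else 0 with hφ
  have hφm : ∀ m, Measurable (φ m) := by
    intro m
    refine Finset.measurable_sum _ fun k _ => ?_
    by_cases hk : 4 ^ k = m
    · simp only [hk, if_true]
      exact hψ k
    · simp only [hk, if_false]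
      exact measurable_const
  have hsum : ∀ (F : ℕ → ℕ → ℝ≥0∞), (∑ m ∈ Finset.range (4 ^ K), ∑ k ∈ Finset.range K,
      if 4 ^ k = m then F k m else 0) = ∑ k ∈ Finset.range K, F k (4 ^ k) := by
    intro F
    rw [Finset.sum_comm]
    refine Finset.sum_congr rfl fun k hk => ?_
    rw [Finset.sum_ite_eq, if_pos]
    rw [Finset.mem_range] at hk ⊢
    exact Nat.pow_lt_pow_right (by norm_num) hk
  have hΦ : ∀ x, ∑ m ∈ Finset.range (4 ^ K), φ m x = ∑ k ∈ Finset.range K, ψ k x := fun x =>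
    hsum fun k _ => ψ k x
  have hit : ∀ m x, S.it (2 * m) (φ m) x =
      ∑ k ∈ Finset.range K, if 4 ^ k = m then MaxFn.heatP n (4 ^ k * τ) (ψ k) x else 0 := by
    intro m x
    have e := S.it_sum (2 * m) (Finset.range K) (fun k x => if 4 ^ k = m then ψ k x else 0) (by
      intro k
      by_cases hk : 4 ^ k = m
      · simp only [hk, if_true]
        exact hψ k
      · simp only [hk, if_false]
        exact measurable_const)
    have e' := congrFun e x
    rw [show φ m = fun x => ∑ k ∈ Finset.range K, if 4 ^ k = m then ψ k x else 0 from rfl, e']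
    refine Finset.sum_congr rfl fun k _ => ?_
    by_cases hk : 4 ^ k = m
    · rw [if_pos hk]
      have e2 : (fun x => if 4 ^ k = m then ψ k x else 0) = ψ k := by
        funext x
        rw [if_pos hk]
      rw [e2]
      have hpos : 1 ≤ 2 * m := by
        have : 0 < 4 ^ k := by positivity
        omega
      obtain ⟨q, hq⟩ : ∃ q, 2 * m = q + 1 := ⟨2 * m - 1, by omega⟩
      rw [hq, hS, hpair_it n _ _ _ (hψ k), ← hq, ← hk]
      congr 1
      push_cast
      ring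
    · rw [if_neg hk]
      have e2 : (fun x => if 4 ^ k = m then ψ k x else 0) = fun _ => (0 : ℝ≥0∞) := by
        funext x
        rw [if_neg hk]
      rw [e2, hpair_it_zero]
  have hV := MaxFn.lint_V_sq S (4 ^ K) φ hφm (fun x => by rw [hΦ]; exact h1 x) (by
    simp only [hΦ]
    rw [lintegral_finsetSum _ fun k _ => hψ k]
    exact ENNReal.sum_ne_top.2 fun k hk => hfin k (Finset.mem_range.1 hk))
  simp only [hΦ, hit] at hV
  have hV2 : ∀ x, (∑ m ∈ Finset.range (4 ^ K), ∑ k ∈ Finset.range K,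
      if 4 ^ k = m then MaxFn.heatP n (4 ^ k * τ) (ψ k) x else 0) =
      ∑ k ∈ Finset.range K, MaxFn.heatP n (4 ^ k * τ) (ψ k) x := fun x =>
    hsum fun k _ => MaxFn.heatP n (4 ^ k * τ) (ψ k) x
  simp only [hV2] at hV
  rw [lintegral_finsetSum _ fun k _ => hψ k] at hV
  have hHm : ∀ k, Measurable (MaxFn.heatP n (4 ^ k * τ) (ψ k)) := fun k =>
    MaxFn.heatP_measurable n _ _ (hψ k)
  have hHH : ∀ i j, Measurable (fun x => MaxFn.heatP n (4 ^ i * τ) (ψ i) x *
      MaxFn.heatP n (4 ^ j * τ) (ψ j) x) := fun i j => (hHm i).mul (hHm j)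
  have hsq : 2 * ∑ j ∈ Finset.range K, ∑ i ∈ Finset.range j,
      ∫⁻ x, ψ i x * MaxFn.heatP n (4 ^ i * τ + 4 ^ j * τ) (ψ j) x ≤
      ∫⁻ x, (∑ k ∈ Finset.range K, MaxFn.heatP n (4 ^ k * τ) (ψ k) x) ^ 2 := by
    have e1 : ∑ j ∈ Finset.range K, ∑ i ∈ Finset.range j,
        ∫⁻ x, ψ i x * MaxFn.heatP n (4 ^ i * τ + 4 ^ j * τ) (ψ j) x =
        ∫⁻ x, ∑ j ∈ Finset.range K, ∑ i ∈ Finset.range j,
          MaxFn.heatP n (4 ^ i * τ) (ψ i) x * MaxFn.heatP n (4 ^ j * τ) (ψ j) x := by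
      rw [lintegral_finsetSum _ fun j _ => Finset.measurable_sum _ fun i _ => hHH i j]
      refine Finset.sum_congr rfl fun j _ => ?_
      rw [lintegral_finsetSum _ fun i _ => hHH i j]
      refine Finset.sum_congr rfl fun i _ => ?_
      rw [hpair_symm n _ _ (by positivity) (by positivity) _ _ (hψ i) (hψ j)]
    rw [e1, ← lintegral_const_mul _ (Finset.measurable_sum _ fun j _ =>
      Finset.measurable_sum _ fun i _ => hHH i j)]
    exact lintegral_mono fun x => hpair_sq K fun k => MaxFn.heatP n (4 ^ k * τ) (ψ k) x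
  have hfinal := hsq.trans hV
  have h4 : (4 : ℝ≥0∞) * ∑ k ∈ Finset.range K, ∫⁻ x, ψ k x =
      2 * (2 * ∑ k ∈ Finset.range K, ∫⁻ x, ψ k x) := by
    rw [← mul_assoc]
    norm_num
  rw [h4] at hfinal
  exact (ENNReal.mul_le_mul_iff_right (by norm_num) (by norm_num)).1 hfinal

end Pool.DyMax
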