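import Pool.Agent.DyMax.Basic

/-! MODULE LEV: summation over the dyadic levels `2^l s`.

Proof: `av n (2^k R) f` has integral `∫ f < ∞` (lemma `lint_av`), so it is finite almost everywhere.
Outside the null set where one of them is `∞`, a point with `max_k av_k > s` lies in
`{2^l s < max_k av_k ≤ 2 * (2^l s)}` for some `l ∈ ℕ`; sum the bounds: `∑ 2^{-l} = 2`. -/

set_option autoImplicit false

open MeasureTheory Metric
open scoped ENNReal

namespace Pool.DyMax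

private theorem lev_null (n K : ℕ) (hn : 2 ≤ n) (R : ℝ) (hR : 0 < R) (f : E n → ℝ≥0∞)
    (hf : Measurable f) (hfi : ∫⁻ x, f x ≠ ∞) :
    volume {x : E n | ∃ k < K, av n (2 ^ k * R) f x = ∞} = 0 := by
  have h : {x : E n | ∃ k < K, av n (2 ^ k * R) f x = ∞} ⊆
      ⋃ k : ℕ, {x : E n | av n (2 ^ k * R) f x = ∞} := by
    rintro x ⟨k, -, hk⟩
    exact Set.mem_iUnion.2 ⟨k, hk⟩
  refine measure_mono_null h (measure_iUnion_null fun k => ?_)
  have hRk : 0 < 2 ^ k * R := by positivity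
  have h1 : ∫⁻ x, av n (2 ^ k * R) f x ≠ ∞ := by rw [lint_av hn hRk hf]; exact hfi
  have h2 := ae_lt_top (av_meas (R := 2 ^ k * R) hf) h1
  rw [ae_iff] at h2
  convert h2 using 2
  ext x
  simp

private theorem lev_fin (K : ℕ) (a : ℕ → ℝ≥0∞) (s : ℝ≥0∞) (hs : s ≠ 0)
    (ha : ∀ k < K, a k ≠ ∞) : ∃ L : ℕ, ∀ k < K, a k ≤ 2 ^ L * s := by
  have hsum : ∑ k ∈ Finset.range K, a k ≠ ∞ :=
    ENNReal.sum_ne_top.2 fun k hk => ha k (Finset.mem_range.1 hk)
  have hd : (∑ k ∈ Finset.range K, a k) / s ≠ ∞ := ENNReal.div_ne_top hsum hs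
  obtain ⟨L, hL⟩ := ENNReal.exists_nat_gt hd
  refine ⟨L, fun k hk => ?_⟩
  have h1 : a k ≤ ∑ k ∈ Finset.range K, a k :=
    Finset.single_le_sum (f := a) (fun _ _ => zero_le) (Finset.mem_range.2 hk)
  have h2 : (L : ℝ≥0∞) ≤ 2 ^ L := by
    exact_mod_cast (Nat.lt_two_pow_self (n := L)).le
  by_cases hst : s = ∞
  · subst hst
    rw [ENNReal.mul_top (by positivity)]
    exact le_top
  calc a k ≤ ∑ k ∈ Finset.range K, a k := h1
    _ ≤ L * s := (ENNReal.div_le_iff hs hst).1 hL.le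
    _ ≤ 2 ^ L * s := by gcongr

theorem levels (n K : ℕ) (hn : 2 ≤ n) (G : ℝ≥0∞) (R : ℝ) (hR : 0 < R) (f : E n → ℝ≥0∞)
    (hf : Measurable f) (hfi : ∫⁻ x, f x ≠ ∞)
    (hlev : ∀ s : ℝ≥0∞, s ≠ 0 → s ≠ ∞ →
        volume {x : E n | (∃ k < K, s < av n (2 ^ k * R) f x) ∧
          ∀ k < K, av n (2 ^ k * R) f x ≤ 2 * s} ≤ G / s * ∫⁻ x, f x)
    (s : ℝ≥0∞) (hs : s ≠ 0) (hs' : s ≠ ∞) :
    volume {x : E n | ∃ k < K, s < av n (2 ^ k * R) f x} ≤ (2 * G) / s * ∫⁻ x, f x := by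
  classical
  have hsub : {x : E n | ∃ k < K, s < av n (2 ^ k * R) f x} ⊆
      {x : E n | ∃ k < K, av n (2 ^ k * R) f x = ∞} ∪
      ⋃ l : ℕ, {x : E n | (∃ k < K, 2 ^ l * s < av n (2 ^ k * R) f x) ∧
          ∀ k < K, av n (2 ^ k * R) f x ≤ 2 * (2 ^ l * s)} := by
    rintro x ⟨k, hk, hkx⟩
    by_cases hN : ∃ k < K, av n (2 ^ k * R) f x = ∞
    · exact Or.inl hN
    right
    have hN' : ∀ k < K, av n (2 ^ k * R) f x ≠ ∞ := fun k hk h => hN ⟨k, hk, h⟩
    have hex := lev_fin K (fun k => av n (2 ^ k * R) f x) s hs hN'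
    have hspec := Nat.find_spec hex
    have hmin := fun m => Nat.find_min hex (m := m)
    rcases hL : Nat.find hex with _ | l
    · rw [hL] at hspec
      have := hspec k hk
      rw [pow_zero, one_mul] at this
      exact absurd this (not_le.2 hkx)
    · rw [hL] at hspec
      refine Set.mem_iUnion.2 ⟨l, ?_, fun k hk => ?_⟩
      · have := hmin l (by omega)
        push Not at this
        exact this
      · have := hspec k hk
        rw [pow_succ'] at this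
        rwa [← mul_assoc]
  refine (measure_mono hsub).trans ((measure_union_le _ _).trans ?_)
  rw [lev_null n K hn R hR f hf hfi, zero_add]
  refine (measure_iUnion_le _).trans ?_
  have h2 : ∀ l : ℕ, (2 : ℝ≥0∞) ^ l ≠ 0 := fun l => by positivity
  have h2' : ∀ l : ℕ, (2 : ℝ≥0∞) ^ l ≠ ∞ := fun l => ENNReal.pow_ne_top ENNReal.ofNat_ne_top
  calc ∑' l : ℕ, volume {x : E n | (∃ k < K, 2 ^ l * s < av n (2 ^ k * R) f x) ∧
          ∀ k < K, av n (2 ^ k * R) f x ≤ 2 * (2 ^ l * s)}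
      ≤ ∑' l : ℕ, (2⁻¹) ^ l * (G / s * ∫⁻ x, f x) := by
        refine ENNReal.tsum_le_tsum fun l => ?_
        refine (hlev (2 ^ l * s) (mul_ne_zero (h2 l) hs) (ENNReal.mul_ne_top (h2' l) hs')).trans
          (le_of_eq ?_)
        rw [ENNReal.div_eq_inv_mul, ENNReal.div_eq_inv_mul,
          ENNReal.mul_inv (Or.inl (h2 l)) (Or.inl (h2' l)), ENNReal.inv_pow]
        ring
    _ = 2 * G / s * ∫⁻ x, f x := by
        rw [ENNReal.tsum_mul_right, ENNReal.tsum_geometric, ENNReal.one_sub_inv_two, inv_inv,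
          ← mul_assoc, mul_div_assoc]

end Pool.DyMax
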