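import Pool.Agent.DyMax.SlabVol
import Pool.Agent.DyMax.Cover

/-! MODULE MOM: the moment bound.

Proof: for a list `L` with `Cond L` and `q`, `|L| + q ≤ q₀`, prove by induction on `q`, for `m = 33^q₀ φ`
and `Q(y) = ν {z ∈ S : |⟪y,z⟫| ≤ δ‖z‖}`:
`∫_{y ∈ B(ρ), ∀ θ ∈ L, |⟪y,θ⟫| ≤ δ} (Q(y) - m)^q dy ≤ (ν univ)^q c^(q+|L|) |B(ρ)|`, `c = 106 √n δ/ρ`.
`q = 0`: `slab_vol`. Step: `Q(y) - m ≤ ν(good_L ∩ {z : |⟪y,z⟫| ≤ δ‖z‖})` where `good_L` is the set of
`z ∈ S` such that `‖z‖⁻¹ z` may be added to `L` (`cover`), so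
`∫ (Q-m)^(q+1) ≤ ∫ (Q-m)^q ν(good_L ∩ {...}) dy = ∫_{good_L} dν(z) ∫_{y, L and z/‖z‖} (Q-m)^q dy` (Tonelli;
`|⟪y,z⟫| ≤ δ‖z‖` iff `|⟪y, ‖z‖⁻¹ z⟫| ≤ δ`), and apply the induction hypothesis to `(‖z‖⁻¹ z) :: L`.
(The set `good_L` is open in `S`; if measurability is inconvenient, use `toMeasurable` of the complement.) -/

set_option autoImplicit false

open MeasureTheory Metric
open scoped ENNReal RealInnerProductSpace

namespace Pool.DyMax

theorem moment_set (n : ℕ) (S : Set (E n)) (hSm : MeasurableSet S) (δ : ℝ) :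
    MeasurableSet {p : E n × E n | p.2 ∈ S ∧ |⟪p.1, p.2⟫| ≤ δ * ‖p.2‖} := by
  have c1 : Continuous (fun p : E n × E n => |⟪p.1, p.2⟫|) := by fun_prop
  have c2 : Continuous (fun p : E n × E n => δ * ‖p.2‖) := by fun_prop
  exact (measurable_snd hSm).inter (isClosed_le c1 c2).measurableSet

theorem moment_aux (n : ℕ) (hn : 64 ≤ n) (R : ℝ) (hR : 0 < R) (S : Set (E n)) (hS : S ⊆ ann n R)
    (hSm : MeasurableSet S) (ν : Measure (E n)) [IsFiniteMeasure ν] (φ : ℝ≥0∞)
    (hφ : ∀ z ∈ S, ν (ball z (R / 8)) ≤ φ) (δ ρ : ℝ) (hδ : 0 < δ) (hρ : 0 < ρ) (q₀ : ℕ) :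
    ∀ (q : ℕ) (L : List (E n)), Cond L → L.length + q ≤ q₀ →
    ∫⁻ y in {y : E n | y ∈ ball (0 : E n) ρ ∧ ∀ θ ∈ L, |⟪y, θ⟫| ≤ δ},
      (ν {z | z ∈ S ∧ |⟪y, z⟫| ≤ δ * ‖z‖} - 33 ^ q₀ * φ) ^ q ≤
      (ν Set.univ) ^ q * ENNReal.ofReal (106 * Real.sqrt n * δ / ρ) ^ (q + L.length) *
        volume (ball (0 : E n) ρ) := by
  intro q
  induction q with
  | zero =>
    intro L hL _
    simp only [pow_zero, setLIntegral_one, one_mul, zero_add]
    exact slab_vol n (by omega) δ ρ hδ hρ L hL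
  | succ q ih =>
    intro L hL hlen
    set C := ENNReal.ofReal (106 * Real.sqrt n * δ / ρ) with hC
    set m : ℝ≥0∞ := 33 ^ q₀ * φ with hm
    set A : Set (E n) := {y : E n | y ∈ ball (0 : E n) ρ ∧ ∀ θ ∈ L, |⟪y, θ⟫| ≤ δ} with hA
    set bad : Set (E n) := {z | z ∈ S ∧ ¬ ∃ v : E n, ‖v‖ = 1 ∧ (∀ u ∈ L, ⟪v, u⟫ = 0) ∧
      1 / 64 ≤ |⟪v, ‖z‖⁻¹ • z⟫|} with hbad
    set T : Set (E n) := toMeasurable ν bad with hT
    have hTm : MeasurableSet T := measurableSet_toMeasurable ν bad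
    have hTν : ν T ≤ m := by
      rw [hT, measure_toMeasurable]
      refine (cover n hn R hR S hS ν φ hφ L).trans ?_
      rw [hm]
      gcongr
      · norm_num
      · omega
    set P : Set (E n × E n) := {p : E n × E n | p.2 ∈ S ∧ |⟪p.1, p.2⟫| ≤ δ * ‖p.2‖} with hP
    have hPm : MeasurableSet P := moment_set n S hSm δ
    set Q : E n → ℝ≥0∞ := fun y => ν {z | z ∈ S ∧ |⟪y, z⟫| ≤ δ * ‖z‖} with hQ
    have hQm : Measurable Q := measurable_measure_prodMk_left hPm
    set f : E n → ℝ≥0∞ := fun y => (Q y - m) ^ q with hf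
    have hfm : Measurable f := (hQm.sub_const m).pow_const q
    set P' : Set (E n × E n) := P ∩ {p | p.2 ∉ T} with hP'
    have hP'm : MeasurableSet P' := hPm.inter (measurable_snd hTm.compl)
    -- pointwise bound
    have h1 : ∀ y, (Q y - m) ^ (q + 1) ≤ ∫⁻ z, f y * P'.indicator (fun _ => 1) (y, z) ∂ν := by
      intro y
      have h2 : Q y - m ≤ ν {z | (y, z) ∈ P'} := by
        rw [tsub_le_iff_right]
        calc Q y ≤ ν ({z | (y, z) ∈ P'} ∪ T) := by
              apply measure_mono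
              intro z hz
              by_cases hzT : z ∈ T
              · exact Or.inr hzT
              · exact Or.inl ⟨hz, hzT⟩
          _ ≤ ν {z | (y, z) ∈ P'} + ν T := measure_union_le _ _
          _ ≤ ν {z | (y, z) ∈ P'} + m := by gcongr
      have hsec : MeasurableSet {z | (y, z) ∈ P'} := measurable_prodMk_left hP'm
      have h3 : ∫⁻ z, f y * P'.indicator (fun _ => 1) (y, z) ∂ν = f y * ν {z | (y, z) ∈ P'} := by
        rw [lintegral_const_mul]
        · congr 1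
          have h4 : (fun z => P'.indicator (fun _ => (1 : ℝ≥0∞)) (y, z)) =
              {z | (y, z) ∈ P'}.indicator (fun _ => (1 : ℝ≥0∞)) := by
            funext z
            by_cases hz : (y, z) ∈ P'
            · rw [Set.indicator_of_mem hz, Set.indicator_of_mem (show z ∈ {z | (y, z) ∈ P'} from hz)]
            · rw [Set.indicator_of_notMem hz,
                Set.indicator_of_notMem (show z ∉ {z | (y, z) ∈ P'} from hz)]
          rw [h4, lintegral_indicator hsec, setLIntegral_one]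
        · exact (measurable_const.indicator hP'm).comp measurable_prodMk_left
      rw [h3, pow_succ]
      exact mul_le_mul' le_rfl h2
    -- the inner integrals
    have hinner : ∀ z, ∫⁻ y in A, f y * P'.indicator (fun _ => 1) (y, z) ≤
        (ν Set.univ) ^ q * C ^ (q + (L.length + 1)) * volume (ball (0 : E n) ρ) := by
      intro z
      by_cases hz : z ∈ S ∧ z ∉ T
      · obtain ⟨hzS, hzT⟩ := hz
        have hgood : ∃ v : E n, ‖v‖ = 1 ∧ (∀ u ∈ L, ⟪v, u⟫ = 0) ∧
            1 / 64 ≤ |⟪v, ‖z‖⁻¹ • z⟫| := by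
          by_contra hcon
          exact hzT (subset_toMeasurable ν bad ⟨hzS, hcon⟩)
        have hz0 : 0 < ‖z‖ := by
          have h2 := (hS hzS).1
          have hn' : (64 : ℝ) ≤ n := by exact_mod_cast hn
          have h3 : 1 / (n : ℝ) ≤ 1 / 64 := one_div_le_one_div_of_le (by norm_num) hn'
          have h4 : 0 < (1 - 1 / (n : ℝ)) * R := mul_pos (by linarith) hR
          linarith
        have hcond : Cond ((‖z‖⁻¹ • z) :: L) := ⟨hgood, hL⟩
        have hIH := ih ((‖z‖⁻¹ • z) :: L) hcond (by simp only [List.length_cons]; omega)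
        rw [List.length_cons] at hIH
        refine le_trans (le_of_eq ?_) hIH
        set H : Set (E n) := {y | |⟪y, z⟫| ≤ δ * ‖z‖} with hH
        have hHm : MeasurableSet H :=
          (isClosed_le (continuous_id.inner continuous_const).abs continuous_const).measurableSet
        have h5 : (fun y => f y * P'.indicator (fun _ => (1 : ℝ≥0∞)) (y, z)) = H.indicator f := by
          funext y
          by_cases hy : y ∈ H
          · have : (y, z) ∈ P' := ⟨⟨hzS, hy⟩, hzT⟩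
            rw [Set.indicator_of_mem this, Set.indicator_of_mem hy, mul_one]
          · have : (y, z) ∉ P' := fun h => hy h.1.2
            rw [Set.indicator_of_notMem this, Set.indicator_of_notMem hy, mul_zero]
        rw [h5, lintegral_indicator hHm, Measure.restrict_restrict hHm]
        have h6 : H ∩ A = {y : E n | y ∈ ball (0 : E n) ρ ∧
            ∀ θ ∈ (‖z‖⁻¹ • z) :: L, |⟪y, θ⟫| ≤ δ} := by
          ext y
          simp only [hH, hA, Set.mem_inter_iff, Set.mem_ofPred_eq, List.mem_cons, forall_eq_or_imp]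
          have h7 : |⟪y, ‖z‖⁻¹ • z⟫| ≤ δ ↔ |⟪y, z⟫| ≤ δ * ‖z‖ := by
            rw [real_inner_smul_right, abs_mul, abs_of_pos (inv_pos.mpr hz0), inv_mul_le_iff₀ hz0,
              mul_comm δ]
          rw [h7]
          tauto
        rw [h6]
      · have h2 : ∀ y, f y * P'.indicator (fun _ => (1 : ℝ≥0∞)) (y, z) = 0 := by
          intro y
          have : (y, z) ∉ P' := fun h => hz ⟨h.1.1, h.2⟩
          rw [Set.indicator_of_notMem this, mul_zero]
        simp only [h2, lintegral_zero]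
        exact zero_le
    calc ∫⁻ y in A, (Q y - m) ^ (q + 1)
        ≤ ∫⁻ y in A, ∫⁻ z, f y * P'.indicator (fun _ => 1) (y, z) ∂ν := lintegral_mono h1
      _ = ∫⁻ z, (∫⁻ y in A, f y * P'.indicator (fun _ => 1) (y, z)) ∂ν := by
          apply lintegral_lintegral_swap
          apply Measurable.aemeasurable
          exact (hfm.comp measurable_fst).mul (measurable_const.indicator hP'm)
      _ ≤ ∫⁻ _z, (ν Set.univ) ^ q * C ^ (q + (L.length + 1)) * volume (ball (0 : E n) ρ) ∂ν :=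
          lintegral_mono hinner
      _ = (ν Set.univ) ^ (q + 1) * C ^ (q + 1 + L.length) * volume (ball (0 : E n) ρ) := by
          rw [lintegral_const, pow_succ (ν Set.univ), show q + (L.length + 1) = q + 1 + L.length by
            omega]
          ring

theorem moment (n : ℕ) (hn : 64 ≤ n) (R : ℝ) (hR : 0 < R) (S : Set (E n)) (hS : S ⊆ ann n R)
    (hSm : MeasurableSet S) (ν : Measure (E n)) [IsFiniteMeasure ν] (φ : ℝ≥0∞)
    (hφ : ∀ z ∈ S, ν (ball z (R / 8)) ≤ φ) (δ ρ : ℝ) (hδ : 0 < δ) (hρ : 0 < ρ) (q : ℕ) :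
    ∫⁻ y in ball (0 : E n) ρ, (ν {z | z ∈ S ∧ |⟪y, z⟫| ≤ δ * ‖z‖} - 33 ^ q * φ) ^ q ≤
      (ν Set.univ * ENNReal.ofReal (106 * Real.sqrt n * δ / ρ)) ^ q * volume (ball (0 : E n) ρ) := by
  have h := moment_aux n hn R hR S hS hSm ν φ hφ δ ρ hδ hρ q q [] trivial (by simp)
  have e : {y : E n | y ∈ ball (0 : E n) ρ ∧ ∀ θ ∈ ([] : List (E n)), |⟪y, θ⟫| ≤ δ} =
      ball (0 : E n) ρ := by
    ext y
    simp only [List.not_mem_nil, false_imp_iff, implies_true, and_true, Set.mem_ofPred_eq]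
  rw [e, List.length_nil, add_zero] at h
  rw [mul_pow]
  exact h

end Pool.DyMax
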