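import Pool.Agent.DyMax.Defs

/-! MODULE MULT: L² bound of a convolution by the supremum of the Fourier transform of the kernel.

Proof (one possibility): (a) for Schwartz functions `φ, g`: `k * g` is continuous and integrable, its Fourier
transform is `𝓕k 𝓕g` (Mathlib `Real.fourier_mul_convolution_eq`, `fourier_smul_convolution_eq`), which is
integrable (bounded times Schwartz), so by Fourier inversion and Fubini
`∫ conj φ (k*g) = ∫ conj(𝓕φ) 𝓕k 𝓕g`, which is `≤ M ‖𝓕φ‖₂ ‖𝓕g‖₂ = M ‖φ‖₂ ‖g‖₂` by Plancherel for Schwartz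
functions. (b) Density of Schwartz functions in `L²` (`SchwartzMap.denseRange_toLpCLM`) and the bound
`|∫ φ (k*g)| ≤ ‖k‖₁ ‖φ‖₂ ‖g‖₂` (Cauchy-Schwarz on `|k(x-y)|`) give the inequality for all `φ, g ∈ L²`.
(c) `∫ φ² ≤ ∫ φ` since `0 ≤ φ ≤ 1`.
(Other possibility: use the L² Fourier transform of Mathlib.Analysis.Fourier.LpSpace.) -/

set_option autoImplicit false

open MeasureTheory Metric
open scoped ENNReal RealInnerProductSpace FourierTransform

namespace Pool.DyMax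

section

variable {V : Type*} [NormedAddCommGroup V] [InnerProductSpace ℝ V] [FiniteDimensional ℝ V]
    [MeasurableSpace V] [BorelSpace V]

/-- Parseval's identity for a Schwartz function and an integrable function. -/
theorem ml_pars (φ : SchwartzMap V ℂ) (h : V → ℂ) (hint : Integrable h) :
    ∫ x, (starRingEnd ℂ) (φ x) * h x = ∫ ξ, (starRingEnd ℂ) (𝓕 φ ξ) * 𝓕 h ξ := by
  have := VectorFourier.integral_sesq_fourierIntegral_eq_neg_flip (μ := (volume : Measure V))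
      (ν := (volume : Measure V)) (L := -innerₗ V) (e := Real.fourierChar)
      (f := (𝓕 φ : SchwartzMap V ℂ)) (g := h) (innerSL ℂ) Real.continuous_fourierChar
      (by
        have : Continuous fun p : V × V => (- innerₗ V) p.1 p.2 := continuous_inner.neg
        exact this) (𝓕 φ).integrable hint
  have e1 : VectorFourier.fourierIntegral Real.fourierChar volume (-innerₗ V) (𝓕 φ : SchwartzMap V ℂ) =
      (φ : V → ℂ) := by
    have : (𝓕⁻ (𝓕 φ) : SchwartzMap V ℂ) = φ := FourierTransform.fourierInv_fourier_eq φ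
    calc VectorFourier.fourierIntegral Real.fourierChar volume (-innerₗ V) (𝓕 φ : SchwartzMap V ℂ)
        = 𝓕⁻ ((𝓕 φ : SchwartzMap V ℂ) : V → ℂ) := rfl
      _ = ((𝓕⁻ (𝓕 φ) : SchwartzMap V ℂ) : V → ℂ) := (SchwartzMap.fourierInv_coe _).symm
      _ = φ := by rw [this]
  have e2 : VectorFourier.fourierIntegral Real.fourierChar volume (-(-innerₗ V).flip) h = 𝓕 h := by
    have : (-(-innerₗ V).flip) = innerₗ V := by
      ext x y
      simp [real_inner_comm]
    rw [this]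
    rfl
  rw [e1, e2] at this
  simp only [innerSL_apply_apply, RCLike.inner_apply] at this
  simp only [mul_comm] at this ⊢
  exact this

/-- Cauchy-Schwarz for Schwartz functions. -/
theorem ml_cs (φ g : SchwartzMap V ℂ) :
    ∫ ξ, ‖φ ξ‖ * ‖g ξ‖ ≤ ‖φ.toLp 2‖ * ‖g.toLp 2‖ := by
  have h1 := integral_mul_norm_le_Lp_mul_Lq (μ := (volume : Measure V)) (f := φ) (g := g) (p := 2) (q := 2)
    Real.HolderConjugate.two_two (by simpa using φ.memLp 2) (by simpa using g.memLp 2)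
  refine h1.trans (le_of_eq ?_)
  have h2 : ∀ ψ : SchwartzMap V ℂ, (∫ a, ‖ψ a‖ ^ (2 : ℝ)) ^ (1 / (2 : ℝ)) = ‖ψ.toLp 2‖ := by
    intro ψ
    have := SchwartzMap.norm_toLp' (f := ψ) (p := 2) (μ := (volume : Measure V)) (by simp) (by simp)
    rw [this]
    simp
  rw [h2, h2]

/-- The bound for the integral on the Fourier side. -/
theorem ml_bd (φ g : SchwartzMap V ℂ) (F : V → ℂ) (M : ℝ) 
    (hM : ∀ ξ, ‖F ξ‖ ≤ M * ‖g ξ‖) : 
    ‖∫ ξ, (starRingEnd ℂ) (φ ξ) * F ξ‖ ≤ M * ∫ ξ, ‖φ ξ‖ * ‖g ξ‖ := by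
  refine (norm_integral_le_integral_norm _).trans ?_
  rw [← integral_const_mul]
  apply integral_mono_of_nonneg
  · exact Filter.Eventually.of_forall fun z => norm_nonneg _
  · apply Integrable.const_mul
    exact MemLp.integrable_mul (φ.memLp 2).norm (g.memLp 2).norm
  · refine Filter.Eventually.of_forall fun ξ => ?_
    simp only
    rw [norm_mul, RCLike.norm_conj]
    calc ‖φ ξ‖ * ‖F ξ‖ ≤ ‖φ ξ‖ * (M * ‖g ξ‖) := mul_le_mul_of_nonneg_left (hM ξ) (norm_nonneg _)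
      _ = M * (‖φ ξ‖ * ‖g ξ‖) := by ring

/-- Translation. -/
noncomputable def mlTr (z : V) (g : Lp ℂ 2 (volume : Measure V)) : Lp ℂ 2 (volume : Measure V) :=
  Lp.compMeasurePreserving (fun x => x - z) (measurePreserving_sub_right volume z) g

theorem mlTr_norm (z : V) (g : Lp ℂ 2 (volume : Measure V)) : ‖mlTr z g‖ = ‖g‖ :=
  Lp.norm_compMeasurePreserving g _

theorem mlTr_sub (z : V) (g h : Lp ℂ 2 (volume : Measure V)) :
    mlTr z (g - h) = mlTr z g - mlTr z h :=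
  map_sub (Lp.compMeasurePreserving (fun x => x - z) (measurePreserving_sub_right volume z)) g h

theorem mlTr_cont (g : Lp ℂ 2 (volume : Measure V)) : Continuous (fun z => mlTr z g) := by
  let G : C(V, C(V, V)) := ContinuousMap.curry ⟨fun p : V × V => p.2 - p.1, by fun_prop⟩
  exact Continuous.compMeasurePreservingLp (f := fun _ : V => g) (g := fun z => G z)
    continuous_const G.continuous (fun z => measurePreserving_sub_right volume z) (by norm_num)

/-- The form `∫ k(z) ⟪φ, T_z g⟫`. -/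
noncomputable def mlF (k : V → ℝ) (φ g : Lp ℂ 2 (volume : Measure V)) : ℂ :=
  ∫ z, (k z : ℂ) * inner ℂ φ (mlTr z g)

theorem mlF_int (k : V → ℝ) (hk : Integrable k) (φ g : Lp ℂ 2 (volume : Measure V)) :
    Integrable (fun z => (k z : ℂ) * inner ℂ φ (mlTr z g)) := by
  refine Integrable.mul_bdd (c := ‖φ‖ * ‖g‖) hk.ofReal ?_ ?_
  · exact (Continuous.inner continuous_const (mlTr_cont g)).aestronglyMeasurable
  · refine Filter.Eventually.of_forall fun z => ?_
    refine (norm_inner_le_norm _ _).trans ?_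
    rw [mlTr_norm]

theorem mlF_le (k : V → ℝ) (φ g : Lp ℂ 2 (volume : Measure V)) (hk : Integrable k) :
    ‖mlF k φ g‖ ≤ (∫ z, |k z|) * (‖φ‖ * ‖g‖) := by
  unfold mlF
  refine (norm_integral_le_integral_norm _).trans ?_
  rw [← integral_mul_const]
  apply integral_mono_of_nonneg
  · exact Filter.Eventually.of_forall fun z => norm_nonneg _
  · exact hk.abs.mul_const _
  · refine Filter.Eventually.of_forall fun z => ?_
    simp only
    rw [norm_mul, Complex.norm_real, Real.norm_eq_abs]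
    apply mul_le_mul_of_nonneg_left _ (abs_nonneg _)
    refine (norm_inner_le_norm _ _).trans ?_
    rw [mlTr_norm]

theorem mlF_sub_left (k : V → ℝ) (hk : Integrable k) (φ φ' g : Lp ℂ 2 (volume : Measure V)) :
    mlF k (φ - φ') g = mlF k φ g - mlF k φ' g := by
  unfold mlF
  rw [← integral_sub (mlF_int k hk φ g) (mlF_int k hk φ' g)]
  congr 1
  funext z
  rw [inner_sub_left, mul_sub]

theorem mlF_sub_right (k : V → ℝ) (hk : Integrable k) (φ g g' : Lp ℂ 2 (volume : Measure V)) :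
    mlF k φ (g - g') = mlF k φ g - mlF k φ g' := by
  unfold mlF
  rw [← integral_sub (mlF_int k hk φ g) (mlF_int k hk φ g')]
  congr 1
  funext z
  rw [mlTr_sub, inner_sub_right, mul_sub]

theorem mlF_cont_left (k : V → ℝ) (hk : Integrable k) (g : Lp ℂ 2 (volume : Measure V)) :
    Continuous (fun φ => mlF k φ g) := by
  refine (LipschitzWith.of_dist_le_mul (K := Real.toNNReal ((∫ z, |k z|) * ‖g‖)) ?_).continuous
  intro φ φ'
  rw [dist_eq_norm, dist_eq_norm, ← mlF_sub_left k hk,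
    Real.coe_toNNReal _ (by positivity)]
  refine (mlF_le k _ _ hk).trans (le_of_eq ?_)
  ring

theorem mlF_cont_right (k : V → ℝ) (hk : Integrable k) (φ : Lp ℂ 2 (volume : Measure V)) :
    Continuous (fun g => mlF k φ g) := by
  refine (LipschitzWith.of_dist_le_mul (K := Real.toNNReal ((∫ z, |k z|) * ‖φ‖)) ?_).continuous
  intro g g'
  rw [dist_eq_norm, dist_eq_norm, ← mlF_sub_right k hk,
    Real.coe_toNNReal _ (by positivity)]
  refine (mlF_le k _ _ hk).trans (le_of_eq ?_)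
  ring

/-- The form in terms of functions. -/
theorem mlF_eq (k : V → ℝ) (hk : Integrable k) (φ g : V → ℂ) (hφ : MemLp φ 2)
    (hg : MemLp g 2) (hφi : Integrable φ) (hgm : StronglyMeasurable g) (c : ℝ) (hgc : ∀ x, ‖g x‖ ≤ c) :
    mlF k (hφ.toLp φ) (hg.toLp g) =
      ∫ x, (starRingEnd ℂ) (φ x) * ∫ z, (k z : ℂ) * g (x - z) := by
  have h1 : ∀ z, inner ℂ (hφ.toLp φ) (mlTr z (hg.toLp g)) =
      ∫ x, (starRingEnd ℂ) (φ x) * g (x - z) := by
    intro z
    rw [L2.inner_def]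
    apply integral_congr_ae
    have e1 := hφ.coeFn_toLp
    have e2 : (mlTr z (hg.toLp g) : V → ℂ) =ᵐ[volume] (hg.toLp g) ∘ (fun x => x - z) :=
      Lp.coeFn_compMeasurePreserving _ _
    have e3 : ((hg.toLp g : Lp ℂ 2 (volume : Measure V)) : V → ℂ) ∘ (fun x => x - z)
        =ᵐ[volume] g ∘ (fun x => x - z) :=
      (measurePreserving_sub_right volume z).quasiMeasurePreserving.ae_eq_comp hg.coeFn_toLp
    filter_upwards [e1, e2, e3] with x h1 h2 h3
    rw [h1, h2, h3]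
    simp only [Function.comp_apply, RCLike.inner_apply]
    ring
  unfold mlF
  simp only [h1]
  have h2 : ∀ z, (k z : ℂ) * ∫ x, (starRingEnd ℂ) (φ x) * g (x - z) =
      ∫ x, (starRingEnd ℂ) (φ x) * ((k z : ℂ) * g (x - z)) := by
    intro z
    rw [← integral_const_mul]
    congr 1
    funext x
    ring
  simp only [h2]
  rw [integral_integral_swap]
  · congr 1
    funext x
    rw [integral_const_mul]
  · have hA : Integrable (fun p : V × V => (k p.1 : ℂ) * (starRingEnd ℂ) (φ p.2))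
        (volume.prod volume) := by
      have hc : Integrable (fun x => (starRingEnd ℂ) (φ x)) := by
        refine hφi.congr' ?_ ?_
        · exact (Complex.continuous_conj.comp_aestronglyMeasurable hφi.1)
        · exact Filter.Eventually.of_forall fun x => by simp
      exact Integrable.mul_prod hk.ofReal hc
    have hB := Integrable.mul_bdd (c := c) (f := fun p : V × V =>
      (k p.1 : ℂ) * (starRingEnd ℂ) (φ p.2)) (g := fun p : V × V => g (p.2 - p.1)) hA
      ((hgm.comp_measurable (measurable_snd.sub measurable_fst)).aestronglyMeasurable)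
      (Filter.Eventually.of_forall fun p => hgc _)
    refine hB.congr (Filter.Eventually.of_forall fun p => ?_)
    simp only [Function.uncurry]
    ring

/-- The bound for Schwartz functions. -/
theorem mlF_schwartz (k : V → ℝ) (hk : Integrable k) (M : ℝ)
    (hM : ∀ ξ : V, ‖𝓕 (fun x => (k x : ℂ)) ξ‖ ≤ M) (φ g : SchwartzMap V ℂ) :
    ‖mlF k (φ.toLp 2) (g.toLp 2)‖ ≤ M * (‖φ.toLp 2‖ * ‖g.toLp 2‖) := by
  have hM0 : 0 ≤ M := (norm_nonneg _).trans (hM 0)
  obtain ⟨c, hc⟩ : ∃ c : ℝ, ∀ x, ‖g x‖ ≤ c :=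
    ⟨SchwartzMap.seminorm ℝ 0 0 g, fun x => SchwartzMap.norm_le_seminorm ℝ g x⟩
  have h1 : mlF k (φ.toLp 2) (g.toLp 2) =
      ∫ x, (starRingEnd ℂ) (φ x) *
        convolution (fun x => (k x : ℂ)) g (ContinuousLinearMap.mul ℂ ℂ) volume x :=
    mlF_eq k hk φ g (φ.memLp 2) (g.memLp 2) φ.integrable g.continuous.stronglyMeasurable c hc
  rw [h1, ml_pars φ _ (Integrable.integrable_convolution _ hk.ofReal g.integrable)]
  have h2 := ml_bd (𝓕 φ) (𝓕 g)
    (𝓕 (convolution (fun x => (k x : ℂ)) g (ContinuousLinearMap.mul ℂ ℂ) volume)) M (by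
      intro ξ
      have e : 𝓕 (convolution (fun x => (k x : ℂ)) g (ContinuousLinearMap.mul ℂ ℂ) volume) ξ =
          𝓕 (fun x => (k x : ℂ)) ξ * 𝓕 (g : V → ℂ) ξ :=
        Real.fourier_mul_convolution_eq hk.ofReal g.integrable ξ
      rw [e, norm_mul, SchwartzMap.fourier_coe]
      exact mul_le_mul_of_nonneg_right (hM ξ) (norm_nonneg _))
  refine h2.trans (mul_le_mul_of_nonneg_left ?_ hM0)
  refine (ml_cs (𝓕 φ) (𝓕 g)).trans ?_
  rw [SchwartzMap.norm_fourier_toL2_eq, SchwartzMap.norm_fourier_toL2_eq]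

theorem ml_dense (P : Lp ℂ 2 (volume : Measure V) → Prop) (hP : IsClosed {φ | P φ})
    (h : ∀ ψ : SchwartzMap V ℂ, P (ψ.toLp 2 volume)) (φ : Lp ℂ 2 (volume : Measure V)) : P φ := by
  have hd : DenseRange (SchwartzMap.toLpCLM ℂ (E := V) ℂ 2 volume) :=
    SchwartzMap.denseRange_toLpCLM ENNReal.ofNat_ne_top
  exact DenseRange.induction_on (p := P) hd φ hP h

theorem ml_step1 (k : V → ℝ) (hk : Integrable k) (M : ℝ) (g : Lp ℂ 2 (volume : Measure V))
    (h : ∀ ψ : SchwartzMap V ℂ, ‖mlF k (ψ.toLp 2 volume) g‖ ≤ M * (‖ψ.toLp 2 volume‖ * ‖g‖))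
    (φ : Lp ℂ 2 (volume : Measure V)) : ‖mlF k φ g‖ ≤ M * (‖φ‖ * ‖g‖) := by
  refine ml_dense (fun φ => ‖mlF k φ g‖ ≤ M * (‖φ‖ * ‖g‖)) ?_ h φ
  apply isClosed_le
  · exact (mlF_cont_left k hk _).norm
  · exact continuous_const.mul (continuous_norm.mul continuous_const)

theorem ml_step2 (k : V → ℝ) (hk : Integrable k) (M : ℝ) (φ : Lp ℂ 2 (volume : Measure V))
    (h : ∀ ψ : SchwartzMap V ℂ, ‖mlF k φ (ψ.toLp 2 volume)‖ ≤ M * (‖φ‖ * ‖ψ.toLp 2 volume‖))
    (g : Lp ℂ 2 (volume : Measure V)) : ‖mlF k φ g‖ ≤ M * (‖φ‖ * ‖g‖) := by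
  refine ml_dense (fun g => ‖mlF k φ g‖ ≤ M * (‖φ‖ * ‖g‖)) ?_ h g
  apply isClosed_le
  · exact (mlF_cont_right k hk _).norm
  · exact continuous_const.mul (continuous_const.mul continuous_norm)

/-- The bound for all square integrable functions. -/
theorem mlF_bound (k : V → ℝ) (hk : Integrable k) (M : ℝ)
    (hM : ∀ ξ : V, ‖𝓕 (fun x => (k x : ℂ)) ξ‖ ≤ M) (φ g : Lp ℂ 2 (volume : Measure V)) :
    ‖mlF k φ g‖ ≤ M * (‖φ‖ * ‖g‖) := by
  refine ml_step2 k hk M φ (fun ψ => ?_) g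
  refine ml_step1 k hk M (ψ.toLp 2 volume) (fun χ => ?_) φ
  exact mlF_schwartz k hk M hM χ ψ

theorem ml_toLp (φ : V → ℝ) (hφ : Measurable φ) (hφ0 : ∀ x, 0 ≤ φ x) (hφ1 : ∀ x, φ x ≤ 1)
    (hφi : Integrable φ) : ∃ h : MemLp (fun x => (φ x : ℂ)) 2,
      ‖h.toLp (fun x => (φ x : ℂ))‖ ≤ Real.sqrt (∫ x, φ x) := by
  have hm : Measurable (fun x => (φ x : ℂ)) := Complex.measurable_ofReal.comp hφ
  have hsq : Integrable (fun x => ‖(φ x : ℂ)‖ ^ 2) := by
    refine hφi.mono ((hm.norm.pow_const 2).aestronglyMeasurable) (Filter.Eventually.of_forall fun x => ?_)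
    rw [Complex.norm_real, Real.norm_of_nonneg (by positivity), Real.norm_of_nonneg (hφ0 x)]
    nlinarith [hφ0 x, hφ1 x]
  have h : MemLp (fun x => (φ x : ℂ)) 2 := (memLp_two_iff_integrable_sq_norm hm.aestronglyMeasurable).2 hsq
  refine ⟨h, ?_⟩
  rw [← Real.sqrt_sq (norm_nonneg _)]
  apply Real.sqrt_le_sqrt
  have e1 : ‖h.toLp (fun x => (φ x : ℂ))‖ ^ 2 = ∫ x, ‖(φ x : ℂ)‖ ^ 2 := by
    have e2 : ((‖h.toLp (fun x => (φ x : ℂ))‖ ^ 2 : ℝ) : ℂ) =
        inner ℂ (h.toLp (fun x => (φ x : ℂ))) (h.toLp (fun x => (φ x : ℂ))) := by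
      rw [inner_self_eq_norm_sq_to_K]
      push_cast
      rfl
    rw [L2.inner_def] at e2
    have e3 : ∫ a, inner ℂ ((h.toLp (fun x => (φ x : ℂ)) : V → ℂ) a) ((h.toLp (fun x => (φ x : ℂ)) : V → ℂ) a) =
        ∫ a, ((‖(φ a : ℂ)‖ ^ 2 : ℝ) : ℂ) := by
      apply integral_congr_ae
      filter_upwards [h.coeFn_toLp] with x hx
      rw [hx, inner_self_eq_norm_sq_to_K]
      push_cast
      rfl
    rw [e3, integral_complex_ofReal] at e2
    exact_mod_cast e2
  rw [e1]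
  apply integral_mono hsq hφi
  intro x
  simp only
  rw [Complex.norm_real, Real.norm_of_nonneg (hφ0 x)]
  nlinarith [hφ0 x, hφ1 x]

theorem ml_main (k : V → ℝ) (hk : Integrable k) (M : ℝ)
    (hM : ∀ ξ : V, ‖𝓕 (fun x => (k x : ℂ)) ξ‖ ≤ M) (φ g : V → ℝ) (hφ : Measurable φ)
    (hg : Measurable g) (hφ0 : ∀ x, 0 ≤ φ x) (hφ1 : ∀ x, φ x ≤ 1) (hg0 : ∀ x, 0 ≤ g x)
    (hg1 : ∀ x, g x ≤ 1) (hφi : Integrable φ) (hgi : Integrable g) :
    |∫ x, φ x * ∫ y, k (x - y) * g y| ≤ M * Real.sqrt (∫ x, φ x) * Real.sqrt (∫ x, g x) := by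
  have hM0 : 0 ≤ M := (norm_nonneg _).trans (hM 0)
  obtain ⟨hφ2, hφn⟩ := ml_toLp φ hφ hφ0 hφ1 hφi
  obtain ⟨hg2, hgn⟩ := ml_toLp g hg hg0 hg1 hgi
  have h1 := mlF_eq k hk (fun x => (φ x : ℂ)) (fun x => (g x : ℂ)) hφ2 hg2 hφi.ofReal
    (Complex.measurable_ofReal.comp hg).stronglyMeasurable 1 (by
      intro x
      rw [Complex.norm_real, Real.norm_of_nonneg (hg0 x)]
      exact hg1 x)
  have h2 : (∫ x, (starRingEnd ℂ) (φ x : ℂ) * ∫ z, (k z : ℂ) * (g (x - z) : ℂ)) =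
      ((∫ x, φ x * ∫ y, k (x - y) * g y : ℝ) : ℂ) := by
    rw [← integral_complex_ofReal]
    congr 1
    funext x
    rw [Complex.conj_ofReal]
    push_cast
    congr 1
    rw [← integral_complex_ofReal]
    rw [← integral_sub_left_eq_self (fun z => (k z : ℂ) * (g (x - z) : ℂ)) volume x]
    congr 1
    funext y
    push_cast
    rw [sub_sub_cancel]
  have h3 : |∫ x, φ x * ∫ y, k (x - y) * g y| =
      ‖mlF k (hφ2.toLp (fun x => (φ x : ℂ))) (hg2.toLp (fun x => (g x : ℂ)))‖ := by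
    rw [h1, h2, Complex.norm_real, Real.norm_eq_abs]
  rw [h3, mul_assoc]
  refine (mlF_bound k hk M hM _ _).trans (mul_le_mul_of_nonneg_left ?_ hM0)
  exact mul_le_mul hφn hgn (norm_nonneg _) (Real.sqrt_nonneg _)

end

theorem mult_bound (n : ℕ) (k : E n → ℝ) (hk : Integrable k) (M : ℝ)
    (hM : ∀ ξ : E n, ‖𝓕 (fun x => (k x : ℂ)) ξ‖ ≤ M) (φ g : E n → ℝ) (hφ : Measurable φ)
    (hg : Measurable g) (hφ0 : ∀ x, 0 ≤ φ x) (hφ1 : ∀ x, φ x ≤ 1) (hg0 : ∀ x, 0 ≤ g x)
    (hg1 : ∀ x, g x ≤ 1) (hφi : Integrable φ) (hgi : Integrable g) :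
    |∫ x, φ x * ∫ y, k (x - y) * g y| ≤ M * Real.sqrt (∫ x, φ x) * Real.sqrt (∫ x, g x) :=
  ml_main k hk M hM φ g hφ hg hφ0 hφ1 hg0 hg1 hφi hgi

end Pool.DyMax
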