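import Pool.Agent.DyMax.Moment
import Pool.Agent.DyMax.Degen
import Pool.Agent.DyMax.Geom

/-! MODULE NDEG: the bound for nondegenerate points, one pair of scales.

Proof: put `R_i = 2^i R`, `R_j = 2^j R`, `ρ = rp n R i j`, so `ρ² ≥ (3/4) R_j²`.
(1) `nondeg_x`: fix `x` with `av n R_i f x ≤ 2 s`, let `S = {z ∈ ann n R_i : x - z ∉ degen i}` and let
`ν` be the measure on `z = x - p` with density `|ann_i|⁻¹ 1_S(z) f(x - z)`: it has mass `≤ 2s` (the annulus
is symmetric, `ann_neg`), and `ν (ball z (R_i/8)) ≤ |ann_i|⁻¹ ∫_{B(x-z, R_i/8)} f ≤ |ann_i|⁻¹ (9/10)^n s |B(R_i)|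
≤ 2 (9/10)^n s =: φ` for `z ∈ S`. By definition of `kap` (Tonelli, `y = x + y'`)
`∫_p 1_{degenᶜ}(p) f(p) ∫_y ψ(y) kap(x-p, y-p) dy dp
 = 2000 √n |B(ρ)|⁻¹ ∫_{y' ∈ B(ρ)} ψ(x+y') Q(y') dy'`, `Q(y') = ν {z ∈ S : |⟪y',z⟫| ≤ δ‖z‖}`, `δ = 2R_j/n`.
Write `Q ≤ m + (Q - m)`, `m = 33^q φ`, and with `a = 1000 s`:
`√n (Q - m) ≤ a + a (√n (Q-m)/a)^q` (case distinction; `q ≥ 1`), so by `moment`
`√n |B(ρ)|⁻¹ ∫ ψ Q ≤ (√n m + a) bav ψ x + a (√n * 2s * 106 √n δ/ρ / a)^q`, and
`106 n δ/ρ = 212 R_j/ρ ≤ 212 * 2/√3 ≤ 245`, `2 * 245 / 1000 ≤ 1/2`.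
With the hypothesis `√n 33^q 2 (9/10)^n ≤ 1`, `√n m ≤ s`.
(2) `nondeg_pair`: integrate against `ψ_i(x)`: with `x = p + z`, `y = p + w`,
`∫_p 1_{degenᶜ} f ∫_z ∫_w ψ_i(p+z) ψ_j(p+w) kap(z,w) = ∫_x ψ_i(x) [∫_p 1_{degenᶜ}(p) f(p) ∫_y ψ_j(y) kap(x-p,y-p)]`. -/

set_option autoImplicit false

open MeasureTheory Metric
open scoped ENNReal RealInnerProductSpace

namespace Pool.DyMax

private theorem ndeg_split (X a : ℝ≥0∞) (ha : a ≠ 0) (ha' : a ≠ ∞) (q : ℕ) (hq : 1 ≤ q) :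
    X ≤ a + a * (a⁻¹ * X) ^ q := by
  rcases le_or_gt X a with h | h
  · exact h.trans le_self_add
  · have h1 : 1 ≤ a⁻¹ * X := by
      rw [← ENNReal.inv_mul_cancel ha ha']
      gcongr
    have h2 : a⁻¹ * X ≤ (a⁻¹ * X) ^ q := le_self_pow₀ h1 (by omega)
    calc X = a * (a⁻¹ * X) := by
          rw [← mul_assoc, ENNReal.mul_inv_cancel ha ha', one_mul]
      _ ≤ a * (a⁻¹ * X) ^ q := by gcongr
      _ ≤ _ := le_add_self

private theorem ndeg_rp {n : ℕ} {R : ℝ} (hR : 0 < R) {i j : ℕ} (hij : i < j) :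
    0 < rp n R i j ∧ 3 / 4 * (2 ^ j * R) ^ 2 ≤ rp n R i j ^ 2 := by
  have h0 : (2 : ℝ) * 2 ^ i ≤ 2 ^ j := by
    rw [← pow_succ']
    exact pow_le_pow_right₀ (by norm_num) hij
  have h1 : 4 * (2 ^ i * R) ^ 2 ≤ (2 ^ j * R) ^ 2 := by
    have : (2 * (2 ^ i * R)) ^ 2 ≤ (2 ^ j * R) ^ 2 := by
      apply pow_le_pow_left₀ (by positivity)
      nlinarith
    linarith [this, mul_pow 2 (2 ^ i * R) 2]
  have hj : 0 < (2 ^ j * R) ^ 2 := by positivity
  have h2 : (1 : ℝ) ≤ 1 + 3 / n := by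
    have : (0 : ℝ) ≤ 3 / n := by positivity
    linarith
  have h3 : 3 / 4 * (2 ^ j * R) ^ 2 ≤ ((2 ^ j * R) ^ 2 - (2 ^ i * R) ^ 2) * (1 + 3 / n) := by
    have : 0 ≤ (2 ^ j * R) ^ 2 - (2 ^ i * R) ^ 2 := by nlinarith [sq_nonneg (2 ^ i * R)]
    nlinarith
  have h4 : 0 < ((2 ^ j * R) ^ 2 - (2 ^ i * R) ^ 2) * (1 + 3 / n) := lt_of_lt_of_le (by positivity) h3
  refine ⟨Real.sqrt_pos.2 h4, ?_⟩
  unfold rp
  rw [Real.sq_sqrt h4.le]
  exact h3

/-- The inner part of the pair kernel after the change of variables. -/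
private noncomputable def ndK (n : ℕ) (R : ℝ) (i j : ℕ) (z y : E n) : ℝ≥0∞ :=
  {q : E n × E n | q.1 ∈ ann n (2 ^ i * R) ∧ q.2 ∈ ball (0 : E n) (rp n R i j) ∧
    |⟪q.2, q.1⟫| ≤ 2 * (2 ^ j * R) / n * ‖q.1‖}.indicator
    (fun _ => (volume (ann n (2 ^ i * R)))⁻¹ * (volume (ball (0 : E n) (rp n R i j)))⁻¹ *
      ENNReal.ofReal (2000 * Real.sqrt n)) (z, y)

private theorem ndK_eq (n : ℕ) (R : ℝ) (i j : ℕ) (x y p : E n) :
    kap n R i j (x - p) (y - p) = ndK n R i j (x - p) (y - x) := by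
  have h : ((x - p, y - p) ∈ {q : E n × E n | q.1 ∈ ann n (2 ^ i * R) ∧
      q.2 - q.1 ∈ ball (0 : E n) (rp n R i j) ∧
      |⟪q.2 - q.1, q.1⟫| ≤ 2 * (2 ^ j * R) / n * ‖q.1‖}) ↔
      ((x - p, y - x) ∈ {q : E n × E n | q.1 ∈ ann n (2 ^ i * R) ∧
      q.2 ∈ ball (0 : E n) (rp n R i j) ∧ |⟪q.2, q.1⟫| ≤ 2 * (2 ^ j * R) / n * ‖q.1‖}) := by
    change (x - p ∈ ann n (2 ^ i * R) ∧ (y - p) - (x - p) ∈ ball (0 : E n) (rp n R i j) ∧
      |⟪(y - p) - (x - p), x - p⟫| ≤ 2 * (2 ^ j * R) / n * ‖x - p‖) ↔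
      (x - p ∈ ann n (2 ^ i * R) ∧ y - x ∈ ball (0 : E n) (rp n R i j) ∧
      |⟪y - x, x - p⟫| ≤ 2 * (2 ^ j * R) / n * ‖x - p‖)
    rw [sub_sub_sub_cancel_right]
  unfold kap ndK
  by_cases hA : ((x - p, y - p) ∈ {q : E n × E n | q.1 ∈ ann n (2 ^ i * R) ∧
      q.2 - q.1 ∈ ball (0 : E n) (rp n R i j) ∧
      |⟪q.2 - q.1, q.1⟫| ≤ 2 * (2 ^ j * R) / n * ‖q.1‖})
  · rw [Set.indicator_of_mem hA, Set.indicator_of_mem (h.1 hA)]
  · rw [Set.indicator_of_notMem hA, Set.indicator_of_notMem (fun hb => hA (h.2 hb))]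

private theorem ndK_set (n : ℕ) (R : ℝ) (i j : ℕ) :
    MeasurableSet {q : E n × E n | q.1 ∈ ann n (2 ^ i * R) ∧
      q.2 ∈ ball (0 : E n) (rp n R i j) ∧ |⟪q.2, q.1⟫| ≤ 2 * (2 ^ j * R) / n * ‖q.1‖} := by
  refine (measurable_fst (meas_ann n (2 ^ i * R))).inter ((measurable_snd measurableSet_ball).inter ?_)
  have h1 : Continuous fun q : E n × E n => |⟪q.2, q.1⟫| := (continuous_snd.inner continuous_fst).abs
  have h2 : Continuous fun q : E n × E n => 2 * (2 ^ j * R) / n * ‖q.1‖ :=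
    continuous_const.mul continuous_fst.norm
  exact measurableSet_le h1.measurable h2.measurable

private theorem ndK_meas (n : ℕ) (R : ℝ) (i j : ℕ) :
    Measurable (fun q : E n × E n => ndK n R i j q.1 q.2) := by
  unfold ndK
  exact measurable_const.indicator (ndK_set n R i j)

/-- Change of variables and Tonelli. -/
private theorem ndeg_swap (n : ℕ) (R : ℝ) (i j : ℕ) (x : E n) (G ψ : E n → ℝ≥0∞)
    (hG : Measurable G) (hψ : Measurable ψ) :
    ∫⁻ p, G p * ∫⁻ y, ψ y * kap n R i j (x - p) (y - p) =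
      ∫⁻ y, ψ (x + y) * ∫⁻ z, G (x - z) * ndK n R i j z y := by
  have e1 : ∀ p, ∫⁻ y, ψ y * kap n R i j (x - p) (y - p) =
      ∫⁻ y, ψ (x + y) * ndK n R i j (x - p) y := by
    intro p
    rw [← lintegral_add_left_eq_self (fun y => ψ y * kap n R i j (x - p) (y - p)) x]
    refine lintegral_congr fun y => ?_
    rw [ndK_eq, add_sub_cancel_left]
  simp only [e1]
  have hK := ndK_meas n R i j
  have hGx : Measurable fun z => G (x - z) := hG.comp (measurable_const.sub measurable_id)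
  have hψx : Measurable fun y => ψ (x + y) := hψ.comp (measurable_const.add measurable_id)
  have e2 : ∫⁻ p, G p * ∫⁻ y, ψ (x + y) * ndK n R i j (x - p) y =
      ∫⁻ z, G (x - z) * ∫⁻ y, ψ (x + y) * ndK n R i j z y := by
    rw [← lintegral_sub_left_eq_self (fun p => G p * ∫⁻ y, ψ (x + y) * ndK n R i j (x - p) y) x]
    refine lintegral_congr fun z => ?_
    rw [sub_sub_cancel]
  rw [e2]
  have hKz : ∀ z, Measurable fun y => ndK n R i j z y := fun z =>
    hK.comp (g := fun q : E n × E n => ndK n R i j q.1 q.2) (f := fun y => (z, y))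
      (measurable_const.prodMk measurable_id)
  have hKy : ∀ y, Measurable fun z => ndK n R i j z y := fun y =>
    hK.comp (g := fun q : E n × E n => ndK n R i j q.1 q.2) (f := fun z => (z, y))
      (measurable_id.prodMk measurable_const)
  have e3 : ∀ z, G (x - z) * ∫⁻ y, ψ (x + y) * ndK n R i j z y =
      ∫⁻ y, G (x - z) * (ψ (x + y) * ndK n R i j z y) := fun z =>
    (lintegral_const_mul _ (hψx.mul (hKz z))).symm
  have e4 : ∀ y, ψ (x + y) * ∫⁻ z, G (x - z) * ndK n R i j z y =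
      ∫⁻ z, G (x - z) * (ψ (x + y) * ndK n R i j z y) := by
    intro y
    have h1 : ψ (x + y) * ∫⁻ z, G (x - z) * ndK n R i j z y =
        ∫⁻ z, ψ (x + y) * (G (x - z) * ndK n R i j z y) :=
      (lintegral_const_mul _ (hGx.mul (hKy y))).symm
    rw [h1]
    refine lintegral_congr fun z => ?_
    ring
  simp only [e3, e4]
  have h5 : Measurable (fun t : E n × E n => G (x - t.1) * (ψ (x + t.2) * ndK n R i j t.1 t.2)) :=
    (hGx.comp measurable_fst).mul ((hψx.comp measurable_snd).mul hK)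
  exact lintegral_lintegral_swap (f := fun z y => G (x - z) * (ψ (x + y) * ndK n R i j z y))
    h5.aemeasurable

theorem nondeg_x (n : ℕ) (hn : 100 ≤ n) (R : ℝ) (hR : 0 < R) (f : E n → ℝ≥0∞) (hf : Measurable f)
    (s : ℝ≥0∞) (hs : s ≠ 0) (hs' : s ≠ ∞) (i j : ℕ) (hij : i < j) (q : ℕ) (hq : 1 ≤ q)
    (hqn : Real.sqrt n * 33 ^ q * 2 * (9 / 10) ^ n ≤ 1) (x : E n)
    (hx : av n (2 ^ i * R) f x ≤ 2 * s) (ψ : E n → ℝ≥0∞) (hψ : Measurable ψ) (hψ1 : ∀ y, ψ y ≤ 1) :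
    ∫⁻ p, (degen n R f s i)ᶜ.indicator f p * ∫⁻ y, ψ y * kap n R i j (x - p) (y - p) ≤
      2000 * 1001 * s * (bav n (rp n R i j) ψ x + 2⁻¹ ^ q) := by
  classical
  obtain ⟨hρ0, hρ2⟩ := ndeg_rp (n := n) hR hij
  have hn0 : (0 : ℝ) < n := by
    have : (100 : ℝ) ≤ n := by exact_mod_cast hn
    linarith
  have hRi0 : (0 : ℝ) < 2 ^ i * R := by positivity
  have hRj0 : (0 : ℝ) < 2 ^ j * R := by positivity
  have hdm : MeasurableSet (degen n R f s i) := degen_meas n R f hf s i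
  rw [ndeg_swap n R i j x _ ψ (hf.indicator hdm.compl) hψ]
  set ρ := rp n R i j with hρ
  set δ : ℝ := 2 * (2 ^ j * R) / n with hδ
  have hδ0 : 0 < δ := by positivity
  have hA0 : volume (ann n (2 ^ i * R)) ≠ 0 := ann_pos (by omega) hRi0
  have hAt : volume (ann n (2 ^ i * R)) ≠ ∞ := ann_top n _
  have hB0 : volume (ball (0 : E n) ρ) ≠ 0 := (Metric.measure_ball_pos volume (0 : E n) hρ0).ne'
  have hBt : volume (ball (0 : E n) ρ) ≠ ∞ := measure_ball_lt_top.ne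
  set S : Set (E n) := {z | z ∈ ann n (2 ^ i * R) ∧ x - z ∉ degen n R f s i} with hS
  have hSm : MeasurableSet S :=
    (meas_ann n (2 ^ i * R)).inter ((measurable_const.sub measurable_id) hdm.compl)
  set d : E n → ℝ≥0∞ := fun z => (volume (ann n (2 ^ i * R)))⁻¹ * f (x - z) with hd
  have hfx : Measurable fun z => f (x - z) := hf.comp (measurable_const.sub measurable_id)
  have hdmeas : Measurable d := hfx.const_mul _
  set ν : Measure (E n) := (volume.restrict S).withDensity d with hν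
  have hνA : ∀ A, MeasurableSet A → ν A = ∫⁻ z in A ∩ S, d z := by
    intro A hA
    rw [hν, withDensity_apply _ hA, Measure.restrict_restrict hA]
  -- total mass
  have hν1 : ν Set.univ ≤ 2 * s := by
    rw [hνA _ MeasurableSet.univ, Set.univ_inter]
    refine le_trans ?_ hx
    have h1 : ∫⁻ z in S, d z ≤ ∫⁻ z in ann n (2 ^ i * R), d z :=
      lintegral_mono_set (fun z hz => hz.1)
    refine h1.trans (le_of_eq ?_)
    rw [hd, lintegral_const_mul _ hfx]
    unfold av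
    congr 1
    rw [← lintegral_indicator (meas_ann _ _), ← lintegral_indicator (meas_ann _ _),
      ← lintegral_neg_eq_self]
    refine lintegral_congr fun z => ?_
    by_cases hz : z ∈ ann n (2 ^ i * R)
    · rw [Set.indicator_of_mem ((ann_neg z).2 hz), Set.indicator_of_mem hz, sub_neg_eq_add]
    · rw [Set.indicator_of_notMem (fun h => hz ((ann_neg z).1 h)), Set.indicator_of_notMem hz]
  have : IsFiniteMeasure ν := ⟨lt_of_le_of_lt hν1 (ENNReal.mul_lt_top (by norm_num) hs'.lt_top)⟩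
  set φ : ℝ≥0∞ := 2 * (ENNReal.ofReal ((9 / 10) ^ n) * s) with hφdef
  have hφ : ∀ z ∈ S, ν (ball z (2 ^ i * R / 8)) ≤ φ := by
    intro z hz
    rw [hνA _ measurableSet_ball]
    have h1 : ∫⁻ w in ball z (2 ^ i * R / 8) ∩ S, d w ≤ ∫⁻ w in ball z (2 ^ i * R / 8), d w :=
      lintegral_mono_set Set.inter_subset_left
    refine h1.trans ?_
    rw [hd, lintegral_const_mul _ hfx]
    have h2 : ∫⁻ w in ball z (2 ^ i * R / 8), f (x - w) =
        ∫⁻ y in ball (x - z) (2 ^ i * R / 8), f y := by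
      rw [← lintegral_indicator measurableSet_ball, ← lintegral_indicator measurableSet_ball,
        ← lintegral_sub_left_eq_self _ x]
      refine lintegral_congr fun w => ?_
      have h3 : x - w ∈ ball z (2 ^ i * R / 8) ↔ w ∈ ball (x - z) (2 ^ i * R / 8) := by
        rw [mem_ball, mem_ball, dist_eq_norm, dist_eq_norm, ← norm_neg]
        have : -(x - w - z) = w - (x - z) := by abel
        rw [this]
      by_cases hw : w ∈ ball (x - z) (2 ^ i * R / 8)
      · rw [Set.indicator_of_mem (h3.2 hw), Set.indicator_of_mem hw, sub_sub_cancel]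
      · rw [Set.indicator_of_notMem (fun h => hw (h3.1 h)), Set.indicator_of_notMem hw]
    rw [h2]
    have h4 : ∫⁻ y in ball (x - z) (2 ^ i * R / 8), f y ≤
        ENNReal.ofReal ((9 / 10) ^ n) * s * volume (ball (0 : E n) (2 ^ i * R)) := by
      have := hz.2
      simp only [degen, Set.mem_ofPred_eq, not_le] at this
      exact this.le
    have h5 : volume (ball (0 : E n) (2 ^ i * R)) ≤ 2 * volume (ann n (2 ^ i * R)) :=
      ball_le_ann (by omega) hRi0
    calc (volume (ann n (2 ^ i * R)))⁻¹ * ∫⁻ y in ball (x - z) (2 ^ i * R / 8), f y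
        ≤ (volume (ann n (2 ^ i * R)))⁻¹ *
          (ENNReal.ofReal ((9 / 10) ^ n) * s * (2 * volume (ann n (2 ^ i * R)))) := by
          gcongr
          exact h4.trans (by gcongr)
      _ = φ * ((volume (ann n (2 ^ i * R)))⁻¹ * volume (ann n (2 ^ i * R))) := by
          rw [hφdef]; ring
      _ = φ := by rw [ENNReal.inv_mul_cancel hA0 hAt, mul_one]
  have hmom := moment n (by omega) (2 ^ i * R) hRi0 S (fun z hz => hz.1) hSm ν φ hφ δ ρ hδ0 hρ0 q
  set Q : E n → ℝ≥0∞ := fun y => ν {z | z ∈ S ∧ |⟪y, z⟫| ≤ δ * ‖z‖} with hQ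
  set m : ℝ≥0∞ := 33 ^ q * φ with hm
  -- the inner integral
  have hinner : ∀ y, ∫⁻ z, (degen n R f s i)ᶜ.indicator f (x - z) * ndK n R i j z y =
      (ball (0 : E n) ρ).indicator (fun y => (volume (ball (0 : E n) ρ))⁻¹ *
        ENNReal.ofReal (2000 * Real.sqrt n) * Q y) y := by
    intro y
    by_cases hy : y ∈ ball (0 : E n) ρ
    · rw [Set.indicator_of_mem hy]
      have hTm : MeasurableSet {z : E n | z ∈ S ∧ |⟪y, z⟫| ≤ δ * ‖z‖} := by
        have h1 : Continuous fun z : E n => |⟪y, z⟫| := (continuous_const.inner continuous_id).abs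
        have h2 : Continuous fun z : E n => δ * ‖z‖ := continuous_const.mul continuous_norm
        exact hSm.inter (measurableSet_le h1.measurable h2.measurable)
      have h1 : Q y = ∫⁻ z, {z : E n | z ∈ S ∧ |⟪y, z⟫| ≤ δ * ‖z‖}.indicator d z := by
        rw [hQ]
        simp only
        rw [hνA _ hTm, lintegral_indicator hTm]
        congr 2
        ext z
        simp only [Set.mem_inter_iff, Set.mem_ofPred_eq]
        tauto
      rw [h1, ← lintegral_const_mul _ (hdmeas.indicator hTm)]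
      refine lintegral_congr fun z => ?_
      by_cases hz : z ∈ S ∧ |⟪y, z⟫| ≤ δ * ‖z‖
      · have hz1 : x - z ∈ (degen n R f s i)ᶜ := hz.1.2
        have hz2 : (z, y) ∈ {q : E n × E n | q.1 ∈ ann n (2 ^ i * R) ∧
            q.2 ∈ ball (0 : E n) (rp n R i j) ∧
            |⟪q.2, q.1⟫| ≤ 2 * (2 ^ j * R) / n * ‖q.1‖} := ⟨hz.1.1, hy, hz.2⟩
        rw [Set.indicator_of_mem hz1, Set.indicator_of_mem (show z ∈ {z : E n | z ∈ S ∧ |⟪y, z⟫| ≤ δ * ‖z‖} from hz)]
        unfold ndK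
        rw [Set.indicator_of_mem hz2]
        rw [hd]
        ring
      · rw [Set.indicator_of_notMem (show z ∉ {z : E n | z ∈ S ∧ |⟪y, z⟫| ≤ δ * ‖z‖} from hz), mul_zero]
        by_cases hz1 : x - z ∈ (degen n R f s i)ᶜ
        · have hz2 : (z, y) ∉ {q : E n × E n | q.1 ∈ ann n (2 ^ i * R) ∧
              q.2 ∈ ball (0 : E n) (rp n R i j) ∧
              |⟪q.2, q.1⟫| ≤ 2 * (2 ^ j * R) / n * ‖q.1‖} := by
            intro h
            exact hz ⟨⟨h.1, hz1⟩, h.2.2⟩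
          unfold ndK
          rw [Set.indicator_of_notMem hz2, mul_zero]
        · rw [Set.indicator_of_notMem hz1, zero_mul]
    · rw [Set.indicator_of_notMem hy]
      have : ∀ z, (degen n R f s i)ᶜ.indicator f (x - z) * ndK n R i j z y = 0 := by
        intro z
        have hz2 : (z, y) ∉ {q : E n × E n | q.1 ∈ ann n (2 ^ i * R) ∧
            q.2 ∈ ball (0 : E n) (rp n R i j) ∧
            |⟪q.2, q.1⟫| ≤ 2 * (2 ^ j * R) / n * ‖q.1‖} := fun h => hy h.2.1
        unfold ndK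
        rw [Set.indicator_of_notMem hz2, mul_zero]
      simp only [this, lintegral_zero]
  simp only [hinner]
  have hre : ∫⁻ y, ψ (x + y) * (ball (0 : E n) ρ).indicator (fun y => (volume (ball (0 : E n) ρ))⁻¹ *
        ENNReal.ofReal (2000 * Real.sqrt n) * Q y) y =
      ∫⁻ y in ball (0 : E n) ρ, ψ (x + y) * ((volume (ball (0 : E n) ρ))⁻¹ *
        ENNReal.ofReal (2000 * Real.sqrt n) * Q y) := by
    rw [← lintegral_indicator measurableSet_ball]
    refine lintegral_congr fun y => ?_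
    by_cases hy : y ∈ ball (0 : E n) ρ
    · rw [Set.indicator_of_mem hy, Set.indicator_of_mem hy]
    · rw [Set.indicator_of_notMem hy, Set.indicator_of_notMem hy, mul_zero]
  rw [hre]
  set r : ℝ≥0∞ := ENNReal.ofReal (Real.sqrt n) with hr
  have h2000 : ENNReal.ofReal (2000 * Real.sqrt n) = 2000 * r := by
    rw [ENNReal.ofReal_mul (by norm_num), hr]
    congr 1
    norm_num
  rw [h2000]
  set a : ℝ≥0∞ := 1000 * s with ha
  have ha0 : a ≠ 0 := mul_ne_zero (by norm_num) hs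
  have hat : a ≠ ∞ := ENNReal.mul_ne_top (by norm_num) hs'
  have hrt : r ≠ ∞ := ENNReal.ofReal_ne_top
  -- pointwise bound
  have hpt : ∀ y, ψ (x + y) * ((volume (ball (0 : E n) ρ))⁻¹ * (2000 * r) * Q y) ≤
      ((volume (ball (0 : E n) ρ))⁻¹ * 2000) * (ψ (x + y) * (r * m + a) +
        a * ((a⁻¹ * r) ^ q * (Q y - m) ^ q)) := by
    intro y
    have h1 : r * Q y ≤ r * m + (a + a * (a⁻¹ * (r * (Q y - m))) ^ q) := by
      have h2 : Q y ≤ m + (Q y - m) := le_add_tsub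
      calc r * Q y ≤ r * (m + (Q y - m)) := by gcongr
        _ = r * m + r * (Q y - m) := by rw [mul_add]
        _ ≤ _ := by
            gcongr
            exact ndeg_split _ a ha0 hat q hq
    have h3 : ψ (x + y) * (r * Q y) ≤ ψ (x + y) * (r * m + a) +
        a * ((a⁻¹ * r) ^ q * (Q y - m) ^ q) := by
      calc ψ (x + y) * (r * Q y)
          ≤ ψ (x + y) * (r * m + (a + a * (a⁻¹ * (r * (Q y - m))) ^ q)) := by gcongr
        _ = ψ (x + y) * (r * m + a) + ψ (x + y) * (a * ((a⁻¹ * r) ^ q * (Q y - m) ^ q)) := by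
            rw [← mul_assoc a⁻¹, mul_pow]
            ring
        _ ≤ ψ (x + y) * (r * m + a) + 1 * (a * ((a⁻¹ * r) ^ q * (Q y - m) ^ q)) := by
            gcongr
            exact hψ1 _
        _ = _ := by rw [one_mul]
    calc ψ (x + y) * ((volume (ball (0 : E n) ρ))⁻¹ * (2000 * r) * Q y)
        = ((volume (ball (0 : E n) ρ))⁻¹ * 2000) * (ψ (x + y) * (r * Q y)) := by ring
      _ ≤ _ := by gcongr
  have hψx : Measurable fun y => ψ (x + y) := hψ.comp (measurable_const.add measurable_id)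
  have hBi : (volume (ball (0 : E n) ρ))⁻¹ * 2000 ≠ ∞ :=
    ENNReal.mul_ne_top (ENNReal.inv_ne_top.2 hB0) (by norm_num)
  have har : (a⁻¹ * r) ^ q ≠ ∞ := ENNReal.pow_ne_top (ENNReal.mul_ne_top (ENNReal.inv_ne_top.2 ha0) hrt)
  have hI : ∫⁻ y in ball (0 : E n) ρ, ψ (x + y) * ((volume (ball (0 : E n) ρ))⁻¹ * (2000 * r) * Q y) ≤
      ((volume (ball (0 : E n) ρ))⁻¹ * 2000) * ((∫⁻ y in ball (0 : E n) ρ, ψ (x + y)) * (r * m + a) +
        a * ((a⁻¹ * r) ^ q * ∫⁻ y in ball (0 : E n) ρ, (Q y - m) ^ q)) := by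
    refine (lintegral_mono hpt).trans (le_of_eq ?_)
    rw [lintegral_const_mul' _ _ hBi, lintegral_add_left (hψx.mul_const _),
      lintegral_mul_const _ hψx, lintegral_const_mul' _ _ hat, lintegral_const_mul' _ _ har]
  refine hI.trans ?_
  -- numerical facts
  have hrm : r * m ≤ s := by
    have h1 : r * m = ENNReal.ofReal (Real.sqrt n * 33 ^ q * 2 * (9 / 10) ^ n) * s := by
      rw [hm, hφdef, hr]
      rw [ENNReal.ofReal_mul (by positivity), ENNReal.ofReal_mul (by positivity),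
        ENNReal.ofReal_mul (by positivity)]
      have h33 : ENNReal.ofReal ((33 : ℝ) ^ q) = 33 ^ q := by
        rw [ENNReal.ofReal_pow (by norm_num)]
        norm_num
      have h2 : ENNReal.ofReal (2 : ℝ) = 2 := by norm_num
      rw [h33, h2]
      ring
    rw [h1]
    calc ENNReal.ofReal (Real.sqrt n * 33 ^ q * 2 * (9 / 10) ^ n) * s ≤ ENNReal.ofReal 1 * s := by
          gcongr
      _ = s := by rw [ENNReal.ofReal_one, one_mul]
  have hc : a⁻¹ * r * (ν Set.univ * ENNReal.ofReal (106 * Real.sqrt n * δ / ρ)) ≤ 2⁻¹ := by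
    have h1 : r * ENNReal.ofReal (106 * Real.sqrt n * δ / ρ) ≤ 250 := by
      rw [hr, ← ENNReal.ofReal_mul (Real.sqrt_nonneg _)]
      have h2 : Real.sqrt n * (106 * Real.sqrt n * δ / ρ) ≤ 250 := by
        have h3 : Real.sqrt n * (106 * Real.sqrt n * δ / ρ) =
            212 * (2 ^ j * R) / ρ := by
          have h4 : Real.sqrt n * Real.sqrt n = n := Real.mul_self_sqrt hn0.le
          calc Real.sqrt n * (106 * Real.sqrt n * δ / ρ)
              = (Real.sqrt n * Real.sqrt n) * (106 * δ / ρ) := by ring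
            _ = n * (106 * (2 * (2 ^ j * R) / n) / ρ) := by rw [h4, hδ]
            _ = _ := by field_simp; ring
        rw [h3, div_le_iff₀ hρ0]
        have h5 : (212 * (2 ^ j * R)) ^ 2 ≤ (250 * ρ) ^ 2 := by
          nlinarith
        exact (abs_le_of_sq_le_sq' h5 (by positivity)).2
      calc ENNReal.ofReal (Real.sqrt n * (106 * Real.sqrt n * δ / ρ)) ≤ ENNReal.ofReal 250 :=
            ENNReal.ofReal_le_ofReal h2
        _ = 250 := by norm_num
    calc a⁻¹ * r * (ν Set.univ * ENNReal.ofReal (106 * Real.sqrt n * δ / ρ))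
        = a⁻¹ * (ν Set.univ * (r * ENNReal.ofReal (106 * Real.sqrt n * δ / ρ))) := by ring
      _ ≤ a⁻¹ * ((2 * s) * 250) := by gcongr
      _ = a⁻¹ * (a * 2⁻¹) := by
          congr 1
          rw [ha]
          have : (1000 : ℝ≥0∞) = 500 * 2 := by norm_num
          rw [this]
          have h2 : (2 : ℝ≥0∞) * 2⁻¹ = 1 := ENNReal.mul_inv_cancel (by norm_num) (by norm_num)
          calc 2 * s * 250 = 500 * s * 1 := by ring
            _ = 500 * s * (2 * 2⁻¹) := by rw [h2]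
            _ = _ := by ring
      _ = 2⁻¹ := by rw [← mul_assoc, ENNReal.inv_mul_cancel ha0 hat, one_mul]
  have hmom2 : (a⁻¹ * r) ^ q * ∫⁻ y in ball (0 : E n) ρ, (Q y - m) ^ q ≤
      2⁻¹ ^ q * volume (ball (0 : E n) ρ) := by
    calc (a⁻¹ * r) ^ q * ∫⁻ y in ball (0 : E n) ρ, (Q y - m) ^ q
        ≤ (a⁻¹ * r) ^ q * ((ν Set.univ * ENNReal.ofReal (106 * Real.sqrt n * δ / ρ)) ^ q *
          volume (ball (0 : E n) ρ)) := by
          gcongr
      _ = (a⁻¹ * r * (ν Set.univ * ENNReal.ofReal (106 * Real.sqrt n * δ / ρ))) ^ q *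
          volume (ball (0 : E n) ρ) := by
          rw [mul_pow (a⁻¹ * r)]
          ring
      _ ≤ _ := by gcongr
  have hbav : (volume (ball (0 : E n) ρ))⁻¹ * ∫⁻ y in ball (0 : E n) ρ, ψ (x + y) = bav n ρ ψ x := rfl
  calc ((volume (ball (0 : E n) ρ))⁻¹ * 2000) * ((∫⁻ y in ball (0 : E n) ρ, ψ (x + y)) * (r * m + a) +
        a * ((a⁻¹ * r) ^ q * ∫⁻ y in ball (0 : E n) ρ, (Q y - m) ^ q))
      ≤ ((volume (ball (0 : E n) ρ))⁻¹ * 2000) * ((∫⁻ y in ball (0 : E n) ρ, ψ (x + y)) * (s + a) +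
        a * (2⁻¹ ^ q * volume (ball (0 : E n) ρ))) := by
        gcongr
    _ = 2000 * (s + a) * ((volume (ball (0 : E n) ρ))⁻¹ * ∫⁻ y in ball (0 : E n) ρ, ψ (x + y)) +
        2000 * a * 2⁻¹ ^ q * ((volume (ball (0 : E n) ρ))⁻¹ * volume (ball (0 : E n) ρ)) := by ring
    _ = 2000 * (s + a) * bav n ρ ψ x + 2000 * a * 2⁻¹ ^ q := by
        rw [hbav, ENNReal.inv_mul_cancel hB0 hBt, mul_one]
    _ ≤ 2000 * (s + a) * bav n ρ ψ x + 2000 * (s + a) * 2⁻¹ ^ q := by
        gcongr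
        exact le_add_self
    _ = 2000 * 1001 * s * (bav n ρ ψ x + 2⁻¹ ^ q) := by
        rw [ha]; ring

/-- Change of variables and Tonelli for a general kernel. -/
private theorem ndeg_pair_swap (n : ℕ) (κ : E n → E n → ℝ≥0∞) (hκ : Measurable (Function.uncurry κ))
    (G ψ χ : E n → ℝ≥0∞) (hG : Measurable G) (hψ : Measurable ψ) (hχ : Measurable χ) :
    ∫⁻ p, G p * ∫⁻ z, ∫⁻ w, ψ (p + z) * χ (p + w) * κ z w =
      ∫⁻ x, ψ x * ∫⁻ p, G p * ∫⁻ y, χ y * κ (x - p) (y - p) := by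
  have hκc : ∀ {α : Type} [MeasurableSpace α] (a b : α → E n), Measurable a → Measurable b →
      Measurable fun t => κ (a t) (b t) := fun a b ha hb => hκ.comp (ha.prodMk hb)
  have e1 : ∀ p, ∫⁻ z, ∫⁻ w, ψ (p + z) * χ (p + w) * κ z w =
      ∫⁻ x, ψ x * ∫⁻ y, χ y * κ (x - p) (y - p) := by
    intro p
    rw [← lintegral_add_left_eq_self (fun x => ψ x * ∫⁻ y, χ y * κ (x - p) (y - p)) p]
    refine lintegral_congr fun z => ?_
    rw [← lintegral_add_left_eq_self (fun y => χ y * κ (p + z - p) (y - p)) p]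
    have hm : Measurable fun w => χ (p + w) * κ (p + z - p) (p + w - p) :=
      (hχ.comp (measurable_const.add measurable_id)).mul
        (hκc _ _ measurable_const ((measurable_const.add measurable_id).sub measurable_const))
    rw [← lintegral_const_mul _ hm]
    refine lintegral_congr fun w => ?_
    rw [add_sub_cancel_left, add_sub_cancel_left]
    ring
  simp only [e1]
  have hk3 : Measurable (fun t : (E n × E n) × E n => χ t.2 * κ (t.1.2 - t.1.1) (t.2 - t.1.1)) := by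
    have h1 : Measurable (fun t : (E n × E n) × E n => t.1.2 - t.1.1) := by fun_prop
    have h2 : Measurable (fun t : (E n × E n) × E n => t.2 - t.1.1) := by fun_prop
    exact (hχ.comp measurable_snd).mul (hκc _ _ h1 h2)
  have hin : Measurable (fun t : E n × E n => ∫⁻ y, χ y * κ (t.2 - t.1) (y - t.1)) :=
    Measurable.lintegral_prod_right' (f := fun t : (E n × E n) × E n =>
      χ t.2 * κ (t.1.2 - t.1.1) (t.2 - t.1.1)) hk3
  have hin1 : ∀ p, Measurable fun x => ∫⁻ y, χ y * κ (x - p) (y - p) := fun p =>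
    hin.comp (g := fun t : E n × E n => ∫⁻ y, χ y * κ (t.2 - t.1) (y - t.1))
      (f := fun x => (p, x)) (measurable_const.prodMk measurable_id)
  have hin2 : ∀ x, Measurable fun p => ∫⁻ y, χ y * κ (x - p) (y - p) := fun x =>
    hin.comp (g := fun t : E n × E n => ∫⁻ y, χ y * κ (t.2 - t.1) (y - t.1))
      (f := fun p => (p, x)) (measurable_id.prodMk measurable_const)
  have a1 : ∀ p, G p * ∫⁻ x, ψ x * ∫⁻ y, χ y * κ (x - p) (y - p) =
      ∫⁻ x, G p * (ψ x * ∫⁻ y, χ y * κ (x - p) (y - p)) := fun p =>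
    (lintegral_const_mul _ (hψ.mul (hin1 p))).symm
  have a2 : ∀ x, ψ x * ∫⁻ p, G p * ∫⁻ y, χ y * κ (x - p) (y - p) =
      ∫⁻ p, G p * (ψ x * ∫⁻ y, χ y * κ (x - p) (y - p)) := by
    intro x
    have h1 : ψ x * ∫⁻ p, G p * ∫⁻ y, χ y * κ (x - p) (y - p) =
        ∫⁻ p, ψ x * (G p * ∫⁻ y, χ y * κ (x - p) (y - p)) :=
      (lintegral_const_mul _ (hG.mul (hin2 x))).symm
    rw [h1]
    refine lintegral_congr fun p => ?_
    ring
  simp only [a1, a2]
  have h5 : Measurable (fun t : E n × E n => G t.1 * (ψ t.2 *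
      ∫⁻ y, χ y * κ (t.2 - t.1) (y - t.1))) :=
    (hG.comp measurable_fst).mul ((hψ.comp measurable_snd).mul hin)
  exact lintegral_lintegral_swap (f := fun p x => G p * (ψ x *
    ∫⁻ y, χ y * κ (x - p) (y - p))) h5.aemeasurable

theorem nondeg_pair (n : ℕ) (hn : 100 ≤ n) (R : ℝ) (hR : 0 < R) (f : E n → ℝ≥0∞)
    (hf : Measurable f) (s : ℝ≥0∞) (hs : s ≠ 0) (hs' : s ≠ ∞) (i j : ℕ) (hij : i < j) (q : ℕ)
    (hq : 1 ≤ q) (hqn : Real.sqrt n * 33 ^ q * 2 * (9 / 10) ^ n ≤ 1)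
    (ψ χ : E n → ℝ≥0∞) (hψ : Measurable ψ) (hχ : Measurable χ) (hχ1 : ∀ y, χ y ≤ 1)
    (hlvl : ∀ x, ψ x ≠ 0 → av n (2 ^ i * R) f x ≤ 2 * s) :
    ∫⁻ p, (degen n R f s i)ᶜ.indicator f p * ∫⁻ z, ∫⁻ w, ψ (p + z) * χ (p + w) * kap n R i j z w ≤
      2000 * 1001 * s * ((∫⁻ x, ψ x * bav n (rp n R i j) χ x) + 2⁻¹ ^ q * ∫⁻ x, ψ x) := by
  have hdm : MeasurableSet (degen n R f s i) := degen_meas n R f hf s i
  rw [ndeg_pair_swap n (kap n R i j) (kap_meas n R i j) _ ψ χ (hf.indicator hdm.compl) hψ hχ]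
  have e3 : ∀ x, ψ x * ∫⁻ p, (degen n R f s i)ᶜ.indicator f p *
      ∫⁻ y, χ y * kap n R i j (x - p) (y - p) ≤
      (2000 * 1001 * s) * (ψ x * bav n (rp n R i j) χ x + 2⁻¹ ^ q * ψ x) := by
    intro x
    by_cases h0 : ψ x = 0
    · rw [h0]
      simp
    · calc ψ x * ∫⁻ p, (degen n R f s i)ᶜ.indicator f p *
            ∫⁻ y, χ y * kap n R i j (x - p) (y - p)
          ≤ ψ x * (2000 * 1001 * s * (bav n (rp n R i j) χ x + 2⁻¹ ^ q)) := by
            gcongr
            exact nondeg_x n hn R hR f hf s hs hs' i j hij q hq hqn x (hlvl x h0) χ hχ hχ1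
        _ = _ := by ring
  refine (lintegral_mono e3).trans (le_of_eq ?_)
  have hc1 : (2000 * 1001 * s : ℝ≥0∞) ≠ ∞ := ENNReal.mul_ne_top (by norm_num) hs'
  have hc2 : (2⁻¹ ^ q : ℝ≥0∞) ≠ ∞ := ENNReal.pow_ne_top (by norm_num)
  rw [lintegral_const_mul' _ _ hc1, lintegral_add_right _ (hψ.const_mul _),
    lintegral_const_mul' _ _ hc2]

end Pool.DyMax
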