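import Pool.Agent.DyMax.Defs

/-! MODULE NUM: numerical conditions for large `n` (`K = Kn n = log_2 n + 1`, `q = 2K`).

Proof: `33^(2K) ≤ 33^2 * 33^(2 log_2 n) ≤ 1089 n^(11)` (`1089 ≤ 2^11`), polynomial times `(9/10)^n` tends to 0,
and so does polynomial times `(5/6)^n`. `K * 2⁻¹^(2K) ≤ 1` is elementary. -/

set_option autoImplicit false

namespace Pool.DyMax

private lemma num_kn_le (n : ℕ) (hn : 1 ≤ n) : Kn n ≤ n := by
  have h1 : Nat.log 2 n < n := Nat.log_lt_self 2 (by omega)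
  unfold Kn
  omega

private lemma num_pow_le (n : ℕ) (hn : 1 ≤ n) : (33 : ℝ) ^ (2 * Kn n) ≤ 1089 * (n : ℝ) ^ 11 := by
  have h1 : (2 : ℕ) ^ Nat.log 2 n ≤ n := Nat.pow_log_le_self 2 (by omega)
  have h2 : (33 : ℝ) ^ (2 * Kn n) = 1089 * (1089 : ℝ) ^ (Nat.log 2 n) := by
    unfold Kn
    rw [pow_mul, pow_succ]
    norm_num
    ring
  rw [h2]
  refine mul_le_mul_of_nonneg_left ?_ (by norm_num)
  calc (1089 : ℝ) ^ (Nat.log 2 n) ≤ ((2 : ℝ) ^ 11) ^ (Nat.log 2 n) :=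
        pow_le_pow_left₀ (by norm_num) (by norm_num) _
    _ = ((2 : ℝ) ^ (Nat.log 2 n)) ^ 11 := by rw [← pow_mul, ← pow_mul, mul_comm]
    _ ≤ (n : ℝ) ^ 11 := by
        refine pow_le_pow_left₀ (by positivity) ?_ _
        exact_mod_cast h1

theorem numeric : ∃ n₀ : ℕ, 100 ≤ n₀ ∧ ∀ n : ℕ, n₀ ≤ n → 2 * Kn n + 1 ≤ n ∧
    Real.sqrt n * 33 ^ (2 * Kn n) * 2 * (9 / 10) ^ n ≤ 1 ∧ (4 * Kn n : ℝ) * (5 / 6) ^ n ≤ 1 ∧
    (Kn n : ℝ) * (1 / 2) ^ (2 * Kn n) ≤ 1 := by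
  have t1 : Filter.Tendsto (fun n : ℕ => (n : ℝ) ^ 12 * (9 / 10 : ℝ) ^ n) Filter.atTop (nhds 0) :=
    tendsto_pow_const_mul_const_pow_of_lt_one 12 (by norm_num) (by norm_num)
  have t2 : Filter.Tendsto (fun n : ℕ => (n : ℝ) ^ 1 * (5 / 6 : ℝ) ^ n) Filter.atTop (nhds 0) :=
    tendsto_pow_const_mul_const_pow_of_lt_one 1 (by norm_num) (by norm_num)
  have e1 := t1.eventually (gt_mem_nhds (show (0 : ℝ) < 1 / 2178 by norm_num))
  have e2 := t2.eventually (gt_mem_nhds (show (0 : ℝ) < 1 / 4 by norm_num))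
  obtain ⟨a, ha⟩ := Filter.eventually_atTop.1 (e1.and e2)
  refine ⟨max a 100, le_max_right _ _, fun n hn => ?_⟩
  have hna : a ≤ n := le_trans (le_max_left _ _) hn
  have hn100 : 100 ≤ n := le_trans (le_max_right _ _) hn
  have hn1 : 1 ≤ n := by omega
  have hnR : (1 : ℝ) ≤ n := by exact_mod_cast hn1
  obtain ⟨h1, h2⟩ := ha n hna
  refine ⟨?_, ?_, ?_, ?_⟩
  · -- 2 log + 3 ≤ n
    have h3 : (2 : ℕ) ^ Nat.log 2 n ≤ n := Nat.pow_log_le_self 2 (by omega)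
    unfold Kn
    by_contra hcon
    have h4 : n < 2 * (Nat.log 2 n + 1) + 1 := by omega
    have h5 : ∀ m : ℕ, 6 ≤ m → 2 * (m + 1) + 1 ≤ 2 ^ m := by
      intro m hm
      induction m, hm using Nat.le_induction with
      | base => norm_num
      | succ m hm ih => rw [pow_succ]; omega
    have h6 : 6 ≤ Nat.log 2 n := by
      have := Nat.log_mono_right (b := 2) hn100
      have h7 : Nat.log 2 100 = 6 := by
        rw [Nat.log_eq_iff (by norm_num)]; norm_num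
      omega
    have := h5 _ h6
    omega
  · have h3 : Real.sqrt n ≤ n := by
      rw [Real.sqrt_le_left (by linarith)]
      nlinarith
    calc Real.sqrt n * 33 ^ (2 * Kn n) * 2 * (9 / 10) ^ n
        ≤ n * (1089 * (n : ℝ) ^ 11) * 2 * (9 / 10) ^ n := by
          have := num_pow_le n hn1
          gcongr
      _ = 2178 * ((n : ℝ) ^ 12 * (9 / 10) ^ n) := by ring
      _ ≤ 2178 * (1 / 2178) := by gcongr
      _ = 1 := by norm_num
  · have h3 : (Kn n : ℝ) ≤ n := by exact_mod_cast num_kn_le n hn1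
    calc (4 * Kn n : ℝ) * (5 / 6) ^ n ≤ (4 * n) * (5 / 6) ^ n := by gcongr
      _ = 4 * ((n : ℝ) ^ 1 * (5 / 6) ^ n) := by ring
      _ ≤ 4 * (1 / 4) := by gcongr
      _ = 1 := by norm_num
  · have h3 : (Kn n : ℝ) ≤ 2 ^ (2 * Kn n) := by
      have h4 : Kn n < 2 ^ Kn n := Nat.lt_two_pow_self
      have h5 : (2 : ℕ) ^ Kn n ≤ 2 ^ (2 * Kn n) := Nat.pow_le_pow_right (by norm_num) (by omega)
      exact_mod_cast (h4.le.trans h5)
    calc (Kn n : ℝ) * (1 / 2) ^ (2 * Kn n) ≤ 2 ^ (2 * Kn n) * (1 / 2) ^ (2 * Kn n) := by gcongr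
      _ = 1 := by rw [← mul_pow]; norm_num

end Pool.DyMax
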