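import Pool.Agent.DyMax.HeatFT
import Pool.Agent.DyMax.HeatPairs

/-! MODULE PL2: the Lebesgue measure pair bound.

Proof: sum `ball_heat` over `i < j < K`. Main terms: `heat_pairs` with `τ = (1+3/n)/(n-1)/2 R²` gives
`≤ 2 ∑ ∫ψ_k`. Error terms: `∑_{i<j<K} 2/(n-1) (a_i + a_j)/2 ≤ (2K/(n-1)) ∑ a_k ≤ ∑ a_k` (for fixed `k` there are at
most `K` pairs containing `k`; `2K ≤ n-1`), and `∑_{i<j} (1/4)^(j-i) (a_i+a_j)/2 ≤ (1/3) ∑ a_k`. -/

set_option autoImplicit false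

open MeasureTheory Metric
open scoped ENNReal

namespace Pool.DyMax

namespace PL2

theorem geo (N : ℕ) : ∑ m ∈ Finset.range N, (1 / 4 : ℝ) ^ (m + 1) ≤ 1 := by
  have h : ∑ m ∈ Finset.range N, (1 / 4 : ℝ) ^ (m + 1) = (1 - (1 / 4) ^ N) / 3 := by
    induction N with
    | zero => simp
    | succ N ih =>
      rw [Finset.sum_range_succ, ih, pow_succ]
      ring
  rw [h]
  have : (0 : ℝ) ≤ (1 / 4) ^ N := by positivity
  linarith

theorem geo1 (i K : ℕ) : ∑ j ∈ Finset.Ico (i + 1) K, (1 / 4 : ℝ) ^ (j - i) ≤ 1 := by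
  rw [Finset.sum_Ico_eq_sum_range]
  refine le_trans (le_of_eq (Finset.sum_congr rfl fun m _ => ?_)) (geo (K - (i + 1)))
  congr 1
  omega

theorem geo2 (j : ℕ) : ∑ i ∈ Finset.range j, (1 / 4 : ℝ) ^ (j - i) ≤ 1 := by
  have h := Finset.sum_range_reflect (fun m => (1 / 4 : ℝ) ^ (m + 1)) j
  refine le_trans (le_of_eq ?_) (geo j)
  rw [← h]
  refine Finset.sum_congr rfl fun i hi => ?_
  rw [Finset.mem_range] at hi
  congr 1
  omega

/-- summation of a kernel over pairs `i < j < K` -/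
theorem swap (K : ℕ) (r : ℕ → ℕ → ℝ≥0∞) (a : ℕ → ℝ≥0∞) :
    ∑ j ∈ Finset.range K, ∑ i ∈ Finset.range j, r i j * a i =
      ∑ i ∈ Finset.range K, (∑ j ∈ Finset.Ico (i + 1) K, r i j) * a i := by
  have h := Finset.sum_Ico_Ico_comm' 0 K (fun i j => r i j * a i)
  simp only [← Finset.range_eq_Ico] at h
  rw [← h]
  refine Finset.sum_congr rfl fun i _ => ?_
  rw [Finset.sum_mul]

theorem err (K : ℕ) (c d : ℝ) (hc : 0 ≤ c) (hd : 0 ≤ d) (hcK : 2 * K * c ≤ 2 * d)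
    (a : ℕ → ℝ≥0∞) :
    ∑ j ∈ Finset.range K, ∑ i ∈ Finset.range j,
      ENNReal.ofReal (c + (1 / 4) ^ (j - i)) * (a i + a j) / 2 ≤
        ENNReal.ofReal (d + 1) * ∑ k ∈ Finset.range K, a k := by
  have hd1 : (0 : ℝ) ≤ d + 1 := by linarith
  -- the two parts
  have h1 : ∑ j ∈ Finset.range K, ∑ i ∈ Finset.range j,
      ENNReal.ofReal (c + (1 / 4) ^ (j - i)) * a i ≤
        ENNReal.ofReal (d + 1) * ∑ k ∈ Finset.range K, a k := by
    rw [swap, Finset.mul_sum]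
    refine Finset.sum_le_sum fun i hi => mul_le_mul_left ?_ _
    rw [← ENNReal.ofReal_sum_of_nonneg (fun j _ => by positivity)]
    apply ENNReal.ofReal_le_ofReal
    rw [Finset.sum_add_distrib, Finset.sum_const, nsmul_eq_mul, Nat.card_Ico]
    have h2 : ((K - (i + 1) : ℕ) : ℝ) ≤ K := by exact_mod_cast Nat.sub_le _ _
    have h3 := mul_le_mul_of_nonneg_right h2 hc
    have h4 := geo1 i K
    linarith
  have h2 : ∑ j ∈ Finset.range K, ∑ i ∈ Finset.range j,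
      ENNReal.ofReal (c + (1 / 4) ^ (j - i)) * a j ≤
        ENNReal.ofReal (d + 1) * ∑ k ∈ Finset.range K, a k := by
    rw [Finset.mul_sum]
    refine Finset.sum_le_sum fun j hj => ?_
    rw [← Finset.sum_mul, ← ENNReal.ofReal_sum_of_nonneg (fun i _ => by positivity)]
    refine mul_le_mul_left ?_ _
    apply ENNReal.ofReal_le_ofReal
    rw [Finset.sum_add_distrib, Finset.sum_const, nsmul_eq_mul, Finset.card_range]
    rw [Finset.mem_range] at hj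
    have h2 : (j : ℝ) ≤ K := by exact_mod_cast hj.le
    have h3 := mul_le_mul_of_nonneg_right h2 hc
    have h4 := geo2 j
    linarith
  have h3 : ∑ j ∈ Finset.range K, ∑ i ∈ Finset.range j,
      ENNReal.ofReal (c + (1 / 4) ^ (j - i)) * (a i + a j) / 2 =
      (∑ j ∈ Finset.range K, ∑ i ∈ Finset.range j,
        ENNReal.ofReal (c + (1 / 4) ^ (j - i)) * a i +
      ∑ j ∈ Finset.range K, ∑ i ∈ Finset.range j,
        ENNReal.ofReal (c + (1 / 4) ^ (j - i)) * a j) / 2 := by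
    rw [← Finset.sum_add_distrib, ENNReal.div_eq_inv_mul, Finset.mul_sum]
    refine Finset.sum_congr rfl fun j _ => ?_
    rw [← Finset.sum_add_distrib, Finset.mul_sum]
    refine Finset.sum_congr rfl fun i _ => ?_
    rw [← mul_add, ENNReal.div_eq_inv_mul]
  rw [h3]
  refine le_trans (ENNReal.div_le_div_right (add_le_add h1 h2) 2) ?_
  rw [← two_mul, mul_comm, mul_div_assoc, ENNReal.div_self two_ne_zero ENNReal.ofNat_ne_top,
    mul_one]

end PL2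

theorem pair_L2 (n K : ℕ) (hn : 100 ≤ n) (hK : 2 * K + 1 ≤ n) (R : ℝ) (hR : 0 < R)
    (ψ : ℕ → E n → ℝ≥0∞) (hψ : ∀ k, Measurable (ψ k))
    (h1 : ∀ x, ∑ k ∈ Finset.range K, ψ k x ≤ 1) (hfin : ∀ k < K, ∫⁻ x, ψ k x ≠ ∞) :
    ∑ j ∈ Finset.range K, ∑ i ∈ Finset.range j, ∫⁻ x, ψ i x * bav n (rp n R i j) (ψ j) x ≤
      4 * ∑ k ∈ Finset.range K, ∫⁻ x, ψ k x := by
  have hn1 : (0 : ℝ) < (n : ℝ) - 1 := by
    have : (100 : ℝ) ≤ n := by exact_mod_cast hn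
    linarith
  have hle : ∀ k < K, ∀ x, ψ k x ≤ 1 := fun k hk x =>
    le_trans (Finset.single_le_sum (f := fun k => ψ k x) (fun _ _ => bot_le)
      (Finset.mem_range.2 hk)) (h1 x)
  set τ : ℝ := (1 + 3 / n) / (n - 1) / 2 * R ^ 2 with hτ
  have hτ0 : 0 < τ := by positivity
  have hmain := heat_pairs n K τ hτ0 ψ hψ h1 hfin
  have hcK : 2 * (K : ℝ) * (2 / (n - 1)) ≤ 2 * 1 := by
    rw [mul_div_assoc', div_le_iff₀ hn1]
    have : (2 * (K : ℝ) + 1) ≤ n := by exact_mod_cast hK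
    linarith
  have herr := PL2.err K (2 / ((n : ℝ) - 1)) 1 (by positivity) zero_le_one hcK
    (fun k => ∫⁻ x, ψ k x)
  have hstep : ∀ j ∈ Finset.range K, ∀ i ∈ Finset.range j,
      ∫⁻ x, ψ i x * bav n (rp n R i j) (ψ j) x ≤
        (∫⁻ x, ψ i x * MaxFn.heatP n (4 ^ i * τ + 4 ^ j * τ) (ψ j) x) +
        ENNReal.ofReal (2 / (n - 1) + (1 / 4) ^ (j - i)) *
          ((∫⁻ x, ψ i x) + ∫⁻ x, ψ j x) / 2 := by
    intro j hj i hi
    rw [Finset.mem_range] at hj hi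
    have hiK : i < K := hi.trans hj
    exact ball_heat n hn R hR i j hi (ψ i) (ψ j) (hψ i) (hψ j) (hle i hiK) (hle j hj)
      (hfin i hiK) (hfin j hj)
  calc ∑ j ∈ Finset.range K, ∑ i ∈ Finset.range j, ∫⁻ x, ψ i x * bav n (rp n R i j) (ψ j) x
      ≤ ∑ j ∈ Finset.range K, ∑ i ∈ Finset.range j,
        ((∫⁻ x, ψ i x * MaxFn.heatP n (4 ^ i * τ + 4 ^ j * τ) (ψ j) x) +
        ENNReal.ofReal (2 / (n - 1) + (1 / 4) ^ (j - i)) *
          ((∫⁻ x, ψ i x) + ∫⁻ x, ψ j x) / 2) :=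
        Finset.sum_le_sum fun j hj => Finset.sum_le_sum fun i hi => hstep j hj i hi
    _ = (∑ j ∈ Finset.range K, ∑ i ∈ Finset.range j,
          ∫⁻ x, ψ i x * MaxFn.heatP n (4 ^ i * τ + 4 ^ j * τ) (ψ j) x) +
        ∑ j ∈ Finset.range K, ∑ i ∈ Finset.range j,
          ENNReal.ofReal (2 / (n - 1) + (1 / 4) ^ (j - i)) *
            ((∫⁻ x, ψ i x) + ∫⁻ x, ψ j x) / 2 := by
        rw [← Finset.sum_add_distrib]
        exact Finset.sum_congr rfl fun j _ => Finset.sum_add_distrib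
    _ ≤ (2 * ∑ k ∈ Finset.range K, ∫⁻ x, ψ k x) +
        ENNReal.ofReal (1 + 1) * ∑ k ∈ Finset.range K, ∫⁻ x, ψ k x := add_le_add hmain herr
    _ = 4 * ∑ k ∈ Finset.range K, ∫⁻ x, ψ k x := by
        rw [← add_mul]
        congr 1
        rw [show (1 + 1 : ℝ) = 2 by norm_num]
        norm_num

end Pool.DyMax
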