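import Pool.Agent.DyMax.Defs

/-! MODULE ROT: a random rotation, and transitivity of the isometry group on pairs of vectors.

`exists_rot`: take `Ω = unitary (E n →L[ℝ] E n)` (subtype topology; it is a topological group by
Mathlib.Topology.Algebra.Star.Unitary, compact because it is a closed and bounded subset of a finite
dimensional normed space; Borel measurable space by the subtype instance), `H` = the inverse
(`Measure.inv`) of the Haar probability measure (`haarMeasure ⊤`), or the Haar measure itself: it has to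
be right invariant. `A U` = the isometry given by `U` (it preserves the norm since `star U * U = 1`).
For an isometry `B`, `A U (B v) = A (U * B) v`, so the identity is right invariance.

`exists_isom`: if `‖u‖ = ‖u'‖`, reflection in the hyperplane orthogonal to `u - u'` maps `u` to `u'`
(Mathlib `reflection_sub`); let `v1` be the image of `v`; then the reflection in the hyperplane
orthogonal to `v1 - v'` maps `v1` to `v'` and fixes `u'`, because `⟪u', v1 - v'⟫ = 0`. -/

set_option autoImplicit false
set_option linter.all false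

open MeasureTheory Metric
open scoped ENNReal RealInnerProductSpace

namespace Pool.DyMax

namespace RotAux

/-- The group of rotations. -/
abbrev Om (n : ℕ) : Type := unitary (E n →L[ℝ] E n)

lemma norm_apply {n : ℕ} (U : Om n) (x : E n) : ‖(U : E n →L[ℝ] E n) x‖ = ‖x‖ :=
  Unitary.norm_map U x

instance {n : ℕ} : ContinuousStar (E n →L[ℝ] E n) :=
  ⟨(ContinuousLinearMap.adjoint (𝕜 := ℝ) (E := E n) (F := E n)).continuous⟩

lemma norm_le_one {n : ℕ} (U : Om n) : ‖(U : E n →L[ℝ] E n)‖ ≤ 1 :=
  ContinuousLinearMap.opNorm_le_bound _ zero_le_one fun x => by rw [norm_apply, one_mul]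

instance {n : ℕ} : CompactSpace (Om n) := by
  have hK : IsCompact (Metric.closedBall (0 : E n →L[ℝ] E n) 1) := isCompact_closedBall 0 1
  have hC : IsClosed (unitary (E n →L[ℝ] E n) : Set (E n →L[ℝ] E n)) := isClosed_unitary
  have hsub : (unitary (E n →L[ℝ] E n) : Set (E n →L[ℝ] E n)) ⊆ Metric.closedBall 0 1 := by
    intro U hU
    rw [Metric.mem_closedBall, dist_zero_right]
    exact norm_le_one ⟨U, hU⟩
  exact isCompact_iff_compactSpace.1 (hK.of_isClosed_subset hC hsub)

end RotAux

open RotAux in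
theorem exists_rot (n : ℕ) : ∃ (Ω : Type) (_ : MeasurableSpace Ω) (H : Measure Ω)
    (A : Ω → E n ≃ₗᵢ[ℝ] E n), IsProbabilityMeasure H ∧
      Measurable (fun q : Ω × E n => A q.1 q.2) ∧
      ∀ (B : E n ≃ₗᵢ[ℝ] E n) (F : E n → E n → ℝ≥0∞), Measurable (Function.uncurry F) →
        ∀ v w, ∫⁻ ω, F (A ω (B v)) (A ω (B w)) ∂H = ∫⁻ ω, F (A ω v) (A ω w) ∂H := by
  letI : MeasurableSpace (Om n) := borel (Om n)
  haveI : BorelSpace (Om n) := ⟨rfl⟩
  set μ : Measure (Om n) := Measure.haarMeasure ⊤ with hμ
  refine ⟨Om n, inferInstance, μ.inv, fun U => Unitary.linearIsometryEquiv U, ?_, ?_, ?_⟩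
  · constructor
    rw [Measure.inv_apply, Set.inv_univ]
    have := Measure.haarMeasure_self (K₀ := (⊤ : TopologicalSpace.PositiveCompacts (Om n)))
    rw [TopologicalSpace.PositiveCompacts.coe_top] at this
    exact this
  · have hc : Continuous (fun q : Om n × E n => (q.1 : E n →L[ℝ] E n) q.2) := by
      have h1 : Continuous (fun q : Om n × E n => (q.1 : E n →L[ℝ] E n)) :=
        continuous_subtype_val.comp continuous_fst
      exact h1.clm_apply continuous_snd
    exact hc.measurable
  · intro B F hF v w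
    have h := lintegral_mul_right_eq_self (μ := μ.inv)
      (fun U : Om n => F ((U : E n →L[ℝ] E n) v) ((U : E n →L[ℝ] E n) w))
      (Unitary.linearIsometryEquiv.symm B)
    have hB : ∀ x, ((Unitary.linearIsometryEquiv.symm B : Om n) : E n →L[ℝ] E n) x = B x := by
      intro x
      rfl
    exact h

theorem exists_isom (n : ℕ) (u v u' v' : E n) (hu : ‖u‖ = ‖u'‖) (hv : ‖v‖ = ‖v'‖)
    (huv : ⟪u, v⟫ = ⟪u', v'⟫) : ∃ B : E n ≃ₗᵢ[ℝ] E n, B u = u' ∧ B v = v' := by
  set B1 : E n ≃ₗᵢ[ℝ] E n := Submodule.reflection (ℝ ∙ (u - u'))ᗮ with hB1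
  have h1 : B1 u = u' := Submodule.reflection_sub hu
  set v1 := B1 v with hv1
  have hv1n : ‖v1‖ = ‖v'‖ := by rw [hv1, B1.norm_map, hv]
  set B2 : E n ≃ₗᵢ[ℝ] E n := Submodule.reflection (ℝ ∙ (v1 - v'))ᗮ with hB2
  have h2 : B2 v1 = v' := Submodule.reflection_sub hv1n
  have h3 : ⟪v1 - v', u'⟫ = 0 := by
    rw [inner_sub_left, real_inner_comm u' v1, real_inner_comm u' v', ← h1, hv1, B1.inner_map_map,
      huv, h1, sub_self]
  have h4 : B2 u' = u' := by
    rw [hB2, Submodule.reflection_eq_self_iff, Submodule.mem_orthogonal_singleton_iff_inner_right]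
    exact h3
  refine ⟨B1.trans B2, ?_, ?_⟩
  · show B2 (B1 u) = u'
    rw [h1, h4]
  · show B2 (B1 v) = v'
    exact h2

end Pool.DyMax
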