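import Pool.Agent.DyMax.Defs

/-! MODULE TAU: the law of the inner product `cc r a b` for independent uniform `a, b ∈ tI n`.

Here `tI n = [τ, 3τ/2]`, `τ = 2/(3√n)`, length `τ/2`, `(3τ/2)² = 1/n`.
Proof: for fixed `a ∈ tI n`, `g(b) = √(1-a²)√(1-b²) r + a b` has derivative
`a - √(1-a²) r b/√(1-b²) ≥ τ - (1/2)(3τ/2)/√(1-1/n) ≥ τ/5` (`n ≥ 100`), so it is strictly increasing and
injective on `tI n`, with values in `[r - 1/n, r + 1/n]`:
`g ≥ r(1 - 1/n) + a b ≥ r - 1/n` because `√((1-a²)(1-b²)) ≥ 1 - 1/n`, and `g ≤ r + a b ≤ r + 1/n`.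
By the change of variables formula (`lintegral_image_eq_lintegral_abs_deriv_mul`)
`∫_{tI} φ(g(b)) db ≤ (5/τ) ∫_{[r-1/n, r+1/n]} φ`. Integrate over `a` (length `τ/2`):
`∫∫ ≤ (τ/2)(5/τ) ∫ φ = (τ/2)² (10/τ²) ∫ φ` and `10/τ² = 22.5 n ≤ 23 n`. -/

set_option autoImplicit false

open MeasureTheory Metric
open scoped ENNReal

namespace Pool.DyMax

theorem tau_deriv (r a : ℝ) {b : ℝ} (hb : b ^ 2 < 1) :
    HasDerivAt (fun b => cc r a b)
      (Real.sqrt (1 - a ^ 2) * (-b / Real.sqrt (1 - b ^ 2)) * r + a) b := by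
  have h0 : 1 - b ^ 2 ≠ 0 := by nlinarith
  have h1 : HasDerivAt (fun b : ℝ => 1 - b ^ 2) (-(2 * b)) b := by
    simpa using ((hasDerivAt_pow 2 b).const_sub 1)
  have h2 := h1.sqrt h0
  have h3 := ((h2.const_mul (Real.sqrt (1 - a ^ 2))).mul_const r).add
    ((hasDerivAt_id b).const_mul a)
  refine h3.congr_deriv ?_
  have hs : Real.sqrt (1 - b ^ 2) ≠ 0 := (Real.sqrt_pos.2 (by linarith)).ne'
  field_simp

/-- For fixed `a` the one dimensional change of variables. -/
theorem tau_inner (n : ℕ) (hn : 100 ≤ n) (r : ℝ) (hr : 0 ≤ r) (hr' : r ≤ 1 / 2) (φ : ℝ → ℝ≥0∞)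
    {a : ℝ} (ha : a ∈ tI n) :
    ∫⁻ b in tI n, φ (cc r a b) ≤ ENNReal.ofReal (15 * Real.sqrt n / 2) *
      ∫⁻ c in Set.Icc (r - 1 / n) (r + 1 / n), φ c := by
  have hnR : (100 : ℝ) ≤ n := by exact_mod_cast hn
  set s := Real.sqrt n with hs
  have hs2 : s ^ 2 = n := Real.sq_sqrt (by linarith)
  have hs10 : 10 ≤ s := by
    rw [hs]; exact Real.le_sqrt_of_sq_le (by linarith)
  have hs0 : 0 < s := by linarith
  have h1n : (1 : ℝ) / n = (1 / s) ^ 2 := by rw [div_pow, hs2, one_pow]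
  have hτ0 : 0 < 2 / (3 * s) := by positivity
  have h1s0 : 0 < 1 / s := by positivity
  have hlow : ∀ b ∈ tI n, 2 / (3 * s) ≤ b := fun b hb => hb.1
  have hup : ∀ b ∈ tI n, b ≤ 1 / s := fun b hb => hb.2
  have hb0 : ∀ b ∈ tI n, 0 < b := fun b hb => lt_of_lt_of_le hτ0 (hlow b hb)
  have hb2 : ∀ b ∈ tI n, b ^ 2 ≤ 1 / n := by
    intro b hb
    rw [h1n]
    exact pow_le_pow_left₀ (hb0 b hb).le (hup b hb) 2
  have h1n100 : (1 : ℝ) / n ≤ 1 / 100 := one_div_le_one_div_of_le (by norm_num) hnR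
  have h1n0 : (0 : ℝ) < 1 / n := by positivity
  have hsq : ∀ b ∈ tI n, 99 / 100 ≤ Real.sqrt (1 - b ^ 2) := by
    intro b hb
    apply Real.le_sqrt_of_sq_le
    have := hb2 b hb
    norm_num
    linarith
  have hsq1 : ∀ b : ℝ, Real.sqrt (1 - b ^ 2) ≤ 1 := by
    intro b
    apply Real.sqrt_le_one.2
    nlinarith [sq_nonneg b]
  -- the derivative
  have hder : ∀ b ∈ tI n, HasDerivAt (fun b => cc r a b)
      (Real.sqrt (1 - a ^ 2) * (-b / Real.sqrt (1 - b ^ 2)) * r + a) b := by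
    intro b hb
    apply tau_deriv
    have := hb2 b hb
    linarith
  have hlb : ∀ b ∈ tI n, 2 / (15 * s) ≤
      Real.sqrt (1 - a ^ 2) * (-b / Real.sqrt (1 - b ^ 2)) * r + a := by
    intro b hb
    have h1 := hsq b hb
    have h2 := hb0 b hb
    have h3 : b / Real.sqrt (1 - b ^ 2) ≤ (1 / s) * (100 / 99) := by
      rw [div_le_iff₀ (by linarith)]
      have h4 := hup b hb
      have h5 : 1 ≤ 100 / 99 * Real.sqrt (1 - b ^ 2) := by linarith
      calc b ≤ 1 / s := h4
        _ = 1 / s * 1 := (mul_one _).symm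
        _ ≤ 1 / s * (100 / 99 * Real.sqrt (1 - b ^ 2)) := mul_le_mul_of_nonneg_left h5 h1s0.le
        _ = _ := by ring
    have h6 : 0 ≤ b / Real.sqrt (1 - b ^ 2) := div_nonneg h2.le (Real.sqrt_nonneg _)
    have h7 : Real.sqrt (1 - a ^ 2) * (b / Real.sqrt (1 - b ^ 2)) * r ≤
        1 * ((1 / s) * (100 / 99)) * (1 / 2) := by
      apply mul_le_mul _ hr' hr (by positivity)
      exact mul_le_mul (hsq1 a) h3 h6 (by norm_num)
    have h8 := hlow a ha
    have h9 : Real.sqrt (1 - a ^ 2) * (-b / Real.sqrt (1 - b ^ 2)) * r =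
        -(Real.sqrt (1 - a ^ 2) * (b / Real.sqrt (1 - b ^ 2)) * r) := by ring
    rw [h9]
    have h10 : 2 / (3 * s) = (2 / 3) * (1 / s) := by field_simp
    have h11 : 2 / (15 * s) = (2 / 15) * (1 / s) := by field_simp
    rw [h10] at h8
    rw [h11]
    nlinarith
  have hlb0 : (0 : ℝ) < 2 / (15 * s) := by positivity
  -- injectivity
  have hinj : Set.InjOn (fun b => cc r a b) (tI n) := by
    apply StrictMonoOn.injOn
    apply strictMonoOn_of_deriv_pos (convex_Icc _ _)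
    · intro b hb
      exact (hder b hb).continuousAt.continuousWithinAt
    · intro b hb
      have hb' : b ∈ tI n := interior_subset hb
      rw [(hder b hb').deriv]
      exact lt_of_lt_of_le hlb0 (hlb b hb')
  -- the range
  have hrange : (fun b => cc r a b) '' tI n ⊆ Set.Icc (r - 1 / n) (r + 1 / n) := by
    rintro _ ⟨b, hb, rfl⟩
    have ha2 := hb2 a ha
    have hb2' := hb2 b hb
    have ha0 := hb0 a ha
    have hb0' := hb0 b hb
    have hab : a * b ≤ 1 / n := by nlinarith [sq_nonneg (a - b)]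
    have hab0 : 0 < a * b := mul_pos ha0 hb0'
    have hp1 : Real.sqrt (1 - a ^ 2) * Real.sqrt (1 - b ^ 2) ≤ 1 :=
      mul_le_one₀ (hsq1 a) (Real.sqrt_nonneg _) (hsq1 b)
    have hp2 : 1 - 1 / (n : ℝ) ≤ Real.sqrt (1 - a ^ 2) * Real.sqrt (1 - b ^ 2) := by
      rw [← Real.sqrt_mul (by linarith)]
      apply Real.le_sqrt_of_sq_le
      nlinarith
    refine ⟨?_, ?_⟩
    · show r - 1 / n ≤ cc r a b
      unfold cc
      nlinarith
    · show cc r a b ≤ r + 1 / n
      unfold cc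
      nlinarith
  have hcov := lintegral_image_eq_lintegral_abs_deriv_mul (s := tI n) measurableSet_Icc
    (fun b hb => (hder b hb).hasDerivWithinAt) hinj φ
  have hc1 : ENNReal.ofReal (15 * s / 2) * ENNReal.ofReal (2 / (15 * s)) = 1 := by
    rw [← ENNReal.ofReal_mul (by positivity)]
    have : 15 * s / 2 * (2 / (15 * s)) = 1 := by field_simp
    rw [this, ENNReal.ofReal_one]
  calc ∫⁻ b in tI n, φ (cc r a b)
      ≤ ∫⁻ b in tI n, ENNReal.ofReal (15 * s / 2) * (ENNReal.ofReal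
          |Real.sqrt (1 - a ^ 2) * (-b / Real.sqrt (1 - b ^ 2)) * r + a| * φ (cc r a b)) := by
        apply setLIntegral_mono' measurableSet_Icc
        intro b hb
        have h1 := hlb b hb
        calc φ (cc r a b) = ENNReal.ofReal (15 * s / 2) * (ENNReal.ofReal (2 / (15 * s)) *
              φ (cc r a b)) := by rw [← mul_assoc, hc1, one_mul]
          _ ≤ _ := by
              gcongr
              exact h1.trans (le_abs_self _)
    _ = ENNReal.ofReal (15 * s / 2) * ∫⁻ b in tI n, ENNReal.ofReal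
          |Real.sqrt (1 - a ^ 2) * (-b / Real.sqrt (1 - b ^ 2)) * r + a| * φ (cc r a b) :=
        lintegral_const_mul' _ _ ENNReal.ofReal_ne_top
    _ = ENNReal.ofReal (15 * s / 2) * ∫⁻ c in (fun b => cc r a b) '' tI n, φ c := by rw [hcov]
    _ ≤ _ := by
        gcongr

theorem tau_law (n : ℕ) (hn : 100 ≤ n) (r : ℝ) (hr : 0 ≤ r) (hr' : r ≤ 1 / 2) (φ : ℝ → ℝ≥0∞)
    (hφ : Measurable φ) :
    ∫⁻ a in tI n, ∫⁻ b in tI n, φ (cc r a b) ≤
      volume (tI n) ^ 2 * ENNReal.ofReal (23 * n) * ∫⁻ c in Set.Icc (r - 1 / n) (r + 1 / n), φ c := by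
  have hnR : (100 : ℝ) ≤ n := by exact_mod_cast hn
  have hs2 : Real.sqrt n ^ 2 = n := Real.sq_sqrt (by linarith)
  have hs0 : 0 < Real.sqrt n := Real.sqrt_pos.2 (by linarith)
  have hvol : volume (tI n) = ENNReal.ofReal (1 / (3 * Real.sqrt n)) := by
    unfold tI
    rw [Real.volume_Icc]
    congr 1
    field_simp
    ring
  calc ∫⁻ a in tI n, ∫⁻ b in tI n, φ (cc r a b)
      ≤ ∫⁻ _ in tI n, ENNReal.ofReal (15 * Real.sqrt n / 2) *
          ∫⁻ c in Set.Icc (r - 1 / n) (r + 1 / n), φ c := by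
        apply setLIntegral_mono' measurableSet_Icc
        intro a ha
        exact tau_inner n hn r hr hr' φ ha
    _ = ENNReal.ofReal (15 * Real.sqrt n / 2) *
          (∫⁻ c in Set.Icc (r - 1 / n) (r + 1 / n), φ c) * volume (tI n) := setLIntegral_const _ _
    _ ≤ _ := by
        have h1 : ENNReal.ofReal (15 * Real.sqrt n / 2) ≤ volume (tI n) *
            ENNReal.ofReal (23 * n) := by
          rw [hvol, ← ENNReal.ofReal_mul (by positivity)]
          apply ENNReal.ofReal_le_ofReal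
          have h2 : 1 / (3 * Real.sqrt n) * (23 * n) = 23 / 3 * Real.sqrt n := by
            have h3 : (n : ℝ) = Real.sqrt n ^ 2 := hs2.symm
            rw [h3]
            field_simp
            rw [Real.sqrt_sq hs0.le]
          rw [h2]
          linarith
        calc ENNReal.ofReal (15 * Real.sqrt n / 2) *
              (∫⁻ c in Set.Icc (r - 1 / n) (r + 1 / n), φ c) * volume (tI n)
            ≤ (volume (tI n) * ENNReal.ofReal (23 * n)) *
              (∫⁻ c in Set.Icc (r - 1 / n) (r + 1 / n), φ c) * volume (tI n) := by gcongr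
          _ = _ := by ring

end Pool.DyMax
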