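import Pool.Agent.DyMax.Defs

/-! MODULE WLOW: lower bound for the density `wn`.

Proof: the denominator is `J = ∫_{-1}^1 (1-t²)^((n-3)/2) dt ≤ ∫_ℝ e^{-(n-3)t²/2} dt = √(2π/(n-3))`, so
`wn n c ≥ √((n-3)/(2π)) (1-c²)^((n-3)/2) ≥ 0.39 √n (1-c²)^(n/2)` for `n ≥ 100`. As
`-1/n ≤ c ≤ r + 1/n` with `0 ≤ r ≤ 1/2`, `c² ≤ r² + 1/n + 1/n²` and
`(1-c²)/(1-r²) ≥ 1 - (1/n+1/n²)/(3/4) ≥ 1 - 1.4/n`, so `(1-c²)^(n/2) ≥ (1-r²)^(n/2) (1-1.4/n)^(n/2)` and
`(1-1.4/n)^(n/2) ≥ 0.48`  (`log(1-y) ≥ -y - y²` for `0 ≤ y ≤ 1/2`). Hence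
`wn n c ≥ 0.18 √n (1-r²)^(n/2)`, and `23 n ≤ 200 √n * 0.18 √n = 36 n`. -/

set_option autoImplicit false

open MeasureTheory Metric

namespace Pool.DyMax

private theorem wlow_cont (m : ℝ) (hm : 0 ≤ m) :
    ContinuousOn (fun t : ℝ => (1 - t ^ 2) ^ m) (Set.Icc (-1) 1) := by
  apply ContinuousOn.rpow_const
  · fun_prop
  · intro x _
    exact Or.inr hm

private theorem wlow_int (m : ℝ) (hm : 0 ≤ m) :
    IntegrableOn (fun t : ℝ => (1 - t ^ 2) ^ m) (Set.Icc (-1) 1) :=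
  (wlow_cont m hm).integrableOn_Icc

private theorem wlow_sq {t : ℝ} (ht : t ∈ Set.Ioo (-1 : ℝ) 1) : 0 < 1 - t ^ 2 := by
  have h1 := ht.1
  have h2 := ht.2
  nlinarith

private theorem wlow_J_le (m : ℝ) (hm : 0 < m) :
    ∫ t in Set.Ioo (-1 : ℝ) 1, (1 - t ^ 2) ^ m ≤ Real.sqrt (Real.pi / m) := by
  rw [← integral_gaussian m]
  calc ∫ t in Set.Ioo (-1 : ℝ) 1, (1 - t ^ 2) ^ m
      ≤ ∫ t in Set.Ioo (-1 : ℝ) 1, Real.exp (-m * t ^ 2) := by
        apply setIntegral_mono_on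
        · exact (wlow_int m hm.le).mono_set Set.Ioo_subset_Icc_self
        · exact (integrable_exp_neg_mul_sq hm).integrableOn
        · exact measurableSet_Ioo
        · intro t ht
          have h1 : 0 ≤ 1 - t ^ 2 := (wlow_sq ht).le
          calc (1 - t ^ 2) ^ m ≤ (Real.exp (-t ^ 2)) ^ m :=
                Real.rpow_le_rpow h1 (Real.one_sub_le_exp_neg _) hm.le
            _ = Real.exp (-m * t ^ 2) := by
                rw [← Real.exp_mul]
                congr 1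
                ring
    _ ≤ ∫ t, Real.exp (-m * t ^ 2) :=
        setIntegral_le_integral (integrable_exp_neg_mul_sq hm)
          (Filter.Eventually.of_forall (fun t => (Real.exp_pos _).le))

private theorem wlow_J_pos (m : ℝ) (hm : 0 < m) :
    0 < ∫ t in Set.Ioo (-1 : ℝ) 1, (1 - t ^ 2) ^ m := by
  rw [← integral_Ioc_eq_integral_Ioo, ← intervalIntegral.integral_of_le (by norm_num)]
  apply intervalIntegral.intervalIntegral_pos_of_pos_on
  · apply ContinuousOn.intervalIntegrable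
    rw [Set.uIcc_of_le (by norm_num)]
    exact wlow_cont m hm.le
  · intro t ht
    exact Real.rpow_pos_of_pos (wlow_sq ht) _
  · norm_num

theorem wn_nonneg (n : ℕ) (c : ℝ) (hc : |c| ≤ 1) : 0 ≤ wn n c := by
  unfold wn
  apply div_nonneg
  · apply Real.rpow_nonneg
    have := (sq_le_one_iff_abs_le_one c).2 hc
    linarith
  · apply setIntegral_nonneg measurableSet_Ioo
    intro t ht
    exact Real.rpow_nonneg (wlow_sq ht).le _

theorem wn_low (n : ℕ) (hn : 100 ≤ n) (r c : ℝ) (hr : 0 ≤ r) (hr' : r ≤ 1 / 2)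
    (hc : |c - r| ≤ 1 / n) :
    23 * (n : ℝ) ≤ 200 * Real.sqrt n * (1 - r ^ 2) ^ (-(n : ℝ) / 2) * wn n c := by
  have hnR : (100 : ℝ) ≤ n := by exact_mod_cast hn
  have hn0 : (0 : ℝ) < n := by linarith
  set N : ℝ := (n : ℝ) with hN
  have hinv : 1 / N ≤ 1 / 100 := one_div_le_one_div_of_le (by norm_num) hnR
  have hinv0 : 0 < 1 / N := one_div_pos.2 hn0
  set δ : ℝ := 1 / N with hδ
  have hδN : δ * N = 1 := by rw [hδ]; field_simp
  obtain ⟨hc1, hc2⟩ := abs_le.1 hc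
  set m : ℝ := (N - 3) / 2 with hm
  have hm0 : 0 < m := by rw [hm]; linarith
  set x : ℝ := 4 / 3 * (δ + δ ^ 2) with hx
  have hcsq : c ^ 2 ≤ r ^ 2 + δ + δ ^ 2 := by
    have h1 : c ^ 2 = r ^ 2 + 2 * r * (c - r) + (c - r) ^ 2 := by ring
    have h2 : (c - r) ^ 2 ≤ δ ^ 2 := by
      rw [← sq_abs (c - r)]
      exact pow_le_pow_left₀ (abs_nonneg _) hc 2
    have h3 : 2 * r * (c - r) ≤ δ := by nlinarith
    linarith
  have hr2 : 3 / 4 ≤ 1 - r ^ 2 := by nlinarith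
  have hr1 : 1 - r ^ 2 ≤ 1 := by nlinarith [sq_nonneg r]
  have hx0 : 0 ≤ x := by rw [hx]; positivity
  have hx1 : x ≤ 1 / 50 := by
    rw [hx]
    nlinarith
  have hxN : x * N ≤ 4 / 3 * (101 / 100) := by
    have h1 : x * N = 4 / 3 * (δ * N + δ * (δ * N)) := by rw [hx]; ring
    rw [h1, hδN]
    linarith
  have hb : (1 - r ^ 2) * (1 - x) ≤ 1 - c ^ 2 := by
    have h1 : 3 / 4 * x ≤ (1 - r ^ 2) * x := mul_le_mul_of_nonneg_right hr2 hx0
    have h2 : 3 / 4 * x = δ + δ ^ 2 := by rw [hx]; ring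
    have h3 : (1 - r ^ 2) * (1 - x) = (1 - r ^ 2) - (1 - r ^ 2) * x := by ring
    rw [h3]
    linarith
  have hb0 : 0 < 1 - c ^ 2 := by
    refine lt_of_lt_of_le ?_ hb
    apply mul_pos <;> linarith
  have hb1 : 1 - c ^ 2 ≤ 1 := by nlinarith [sq_nonneg c]
  -- the numerator
  have hnum : (1 - r ^ 2) ^ (N / 2) * (13 / 40) ≤ (1 - c ^ 2) ^ m := by
    have h1 : (1 - c ^ 2) ^ (N / 2) ≤ (1 - c ^ 2) ^ m :=
      Real.rpow_le_rpow_of_exponent_ge hb0 hb1 (by rw [hm]; linarith)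
    have h2 : ((1 - r ^ 2) * (1 - x)) ^ (N / 2) ≤ (1 - c ^ 2) ^ (N / 2) := by
      apply Real.rpow_le_rpow _ hb (by linarith)
      apply mul_nonneg <;> linarith
    rw [Real.mul_rpow (by linarith) (by linarith)] at h2
    have h3 : 1 + N / 2 * (-x) ≤ (1 + (-x)) ^ (N / 2) :=
      one_add_mul_self_le_rpow_one_add (by linarith) (by linarith)
    have h4 : (13 / 40 : ℝ) ≤ (1 - x) ^ (N / 2) := by
      have h5 : (1 + (-x)) = 1 - x := by ring
      rw [h5] at h3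
      refine le_trans ?_ h3
      nlinarith
    have h6 : (1 - r ^ 2) ^ (N / 2) * (13 / 40) ≤ (1 - r ^ 2) ^ (N / 2) * (1 - x) ^ (N / 2) :=
      mul_le_mul_of_nonneg_left h4 (Real.rpow_nonneg (by linarith) _)
    linarith
  -- the quotient
  have hJle := wlow_J_le m hm0
  have hJpos := wlow_J_pos m hm0
  have hwn : (1 - r ^ 2) ^ (N / 2) * (13 / 40) / Real.sqrt (Real.pi / m) ≤ wn n c := by
    unfold wn
    rw [← hN, ← hm]
    apply div_le_div₀ (Real.rpow_nonneg hb0.le _) hnum hJpos hJle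
  have hprod : (1 - r ^ 2) ^ (-N / 2) * (1 - r ^ 2) ^ (N / 2) = 1 := by
    rw [← Real.rpow_add (by linarith)]
    have : -N / 2 + N / 2 = 0 := by ring
    rw [this, Real.rpow_zero]
  have hcoef : 0 ≤ 200 * Real.sqrt N * (1 - r ^ 2) ^ (-N / 2) := by
    apply mul_nonneg (by positivity) (Real.rpow_nonneg (by linarith) _)
  refine le_trans ?_ (mul_le_mul_of_nonneg_left hwn hcoef)
  have heq : 200 * Real.sqrt N * (1 - r ^ 2) ^ (-N / 2) *
      ((1 - r ^ 2) ^ (N / 2) * (13 / 40) / Real.sqrt (Real.pi / m)) =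
      65 * (Real.sqrt N / Real.sqrt (Real.pi / m)) := by
    calc _ = ((1 - r ^ 2) ^ (-N / 2) * (1 - r ^ 2) ^ (N / 2)) *
        (65 * (Real.sqrt N / Real.sqrt (Real.pi / m))) := by ring
      _ = _ := by rw [hprod, one_mul]
  rw [heq, ← Real.sqrt_div' _ (by positivity)]
  have hpi : Real.pi < 3.1416 := Real.pi_lt_d4
  have hpi0 := Real.pi_pos
  have hsq : (39 / 100 * N) ≤ Real.sqrt (N / (Real.pi / m)) := by
    apply Real.le_sqrt_of_sq_le
    rw [div_div_eq_mul_div, le_div_iff₀ hpi0]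
    have h1 : (39 / 100 * N) ^ 2 * Real.pi ≤ (39 / 100 * N) ^ 2 * 3.1416 :=
      mul_le_mul_of_nonneg_left hpi.le (by positivity)
    refine h1.trans ?_
    rw [hm]
    nlinarith
  linarith

end Pool.DyMax
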