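import Pool.Agent.DyMax.Basic
import Pool.Agent.DyMax.Rot
import Pool.Agent.DyMax.AngleLaw
import Pool.Agent.DyMax.WLow
import Pool.Agent.DyMax.Tau

/-! MODULE PLAW: laws of one and of two points of the rigid random configuration.

`(Ω, H, A)` is a random rotation as in `exists_rot`.

`single_law`: Lebesgue measure is invariant under `A ω`, and so is the annulus, so
`∫_{ann} g(z) dz = ∫_{ann} ∫_Ω g(A ω z) dH dz`, and by right invariance and `exists_isom`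
`∫_Ω g(A ω z) dH = ∫_Ω g(‖z‖ A ω v) dH` for every unit vector `v`.

`pair_law`: put `r = (1/2)^(j-i)`, fix an orthonormal pair `u, u'` (for instance `u = vi`, `u' = e`) and
`Φ(x, y, c) = ∫_Ω F(x A ω u)(y A ω (c u + √(1-c²) u')) dH`. By right invariance and `exists_isom`,
`∫_Ω F(A ω z)(A ω w) dH = Φ(‖z‖, ‖w‖, ⟪z,w⟫/(‖z‖‖w‖))` for all nonzero `z, w` (same Gram matrix).
For the left-hand side, the two unit vectors have inner product `cc r a b`, so the innermost integral is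
`Φ(‖z‖, ‖w‖, cc r a b)` and `tau_law` bounds the left-hand side by
`23 n |ann_i|⁻¹ |ann_j|⁻¹ ∫_{ann_i} ∫_{ann_j} ∫_{|c-r| ≤ 1/n} Φ(‖z‖,‖w‖,c) dc dw dz`.
The right-hand side is, by invariance of Lebesgue measure and of `kapA` under `(z,w) ↦ (A ω z, A ω w)`,
`∫∫ Φ(‖z‖,‖w‖,⟪z,w⟫/(‖z‖‖w‖)) kapA(z,w) dw dz`, and `angle_law` (with `e = z/‖z‖`, function
`φ(ρ, c) = 1[ρ in the radial range of ann_j] 1[|c-r| ≤ 1/n] Φ(‖z‖, ρ, c)`) turns the inner integral into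
`|ann_i|⁻¹ |ann_j|⁻¹ 200 √n (1-r²)^(-n/2) ∫_{ann_j} ∫_{|c-r| ≤ 1/n} Φ(‖z‖,‖w‖,c) wn(c) dc dw`
(note `r² = (1/4)^(j-i)` and `[r-1/n, r+1/n] ⊆ (-1,1)`); conclude with `wn_low`. -/

set_option autoImplicit false

open MeasureTheory Metric
open scoped ENNReal RealInnerProductSpace

namespace Pool.DyMax

/-- Isometries preserve integrals over the annulus. -/
private theorem plaw_isom_lint {n : ℕ} (B : E n ≃ₗᵢ[ℝ] E n) (F : E n → ℝ≥0∞)
    (hF : Measurable F) : ∫⁻ z, F (B z) = ∫⁻ z, F z :=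
  (B.measurePreserving).lintegral_comp hF

private theorem plaw_isom_ann {n : ℕ} (R : ℝ) (B : E n ≃ₗᵢ[ℝ] E n) (F : E n → ℝ≥0∞)
    (hF : Measurable F) : ∫⁻ z in ann n R, F (B z) = ∫⁻ z in ann n R, F z := by
  rw [← lintegral_indicator (meas_ann n R), ← lintegral_indicator (meas_ann n R),
    ← plaw_isom_lint B _ (hF.indicator (meas_ann n R))]
  refine lintegral_congr fun z => ?_
  by_cases h : z ∈ ann n R
  · have h' : B z ∈ ann n R := by
      simpa [ann] using h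
    rw [Set.indicator_of_mem h, Set.indicator_of_mem h']
  · have h' : B z ∉ ann n R := by
      simpa [ann] using h
    rw [Set.indicator_of_notMem h, Set.indicator_of_notMem h']

theorem single_law (n : ℕ) {Ω : Type} [MeasurableSpace Ω] (H : Measure Ω) [IsProbabilityMeasure H]
    (A : Ω → E n ≃ₗᵢ[ℝ] E n) (hA : Measurable (fun q : Ω × E n => A q.1 q.2))
    (hinv : ∀ (B : E n ≃ₗᵢ[ℝ] E n) (F : E n → E n → ℝ≥0∞), Measurable (Function.uncurry F) →
        ∀ v w, ∫⁻ ω, F (A ω (B v)) (A ω (B w)) ∂H = ∫⁻ ω, F (A ω v) (A ω w) ∂H)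
    (R : ℝ) (g : E n → ℝ≥0∞) (hg : Measurable g) (v : E n) (hv : ‖v‖ = 1) :
    ∫⁻ z in ann n R, ∫⁻ ω, g (‖z‖ • A ω v) ∂H = ∫⁻ z in ann n R, g z := by
  have h1 : ∀ z : E n, ∫⁻ ω, g (‖z‖ • A ω v) ∂H = ∫⁻ ω, g (A ω z) ∂H := by
    intro z
    obtain ⟨B, hB, -⟩ := exists_isom n z 0 (‖z‖ • v) 0 (by rw [norm_smul, hv]; simp) rfl (by simp)
    have h := hinv B (fun x _ => g x) (hg.comp measurable_fst) z 0
    simp only [hB] at h
    rw [← h]
    refine lintegral_congr fun ω => ?_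
    rw [map_smul]
  simp only [h1]
  have hm : Measurable (fun p : E n × Ω => g (A p.2 p.1)) :=
    hg.comp (hA.comp (measurable_snd.prodMk measurable_fst))
  rw [lintegral_lintegral_swap hm.aemeasurable]
  simp only [plaw_isom_ann R _ g hg]
  rw [lintegral_const, measure_univ, mul_one]

/-- The integrated function depends only on the Gram matrix. -/
private theorem plaw_gram (n : ℕ) {Ω : Type} [MeasurableSpace Ω] (H : Measure Ω)
    (A : Ω → E n ≃ₗᵢ[ℝ] E n)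
    (hinv : ∀ (B : E n ≃ₗᵢ[ℝ] E n) (F : E n → E n → ℝ≥0∞), Measurable (Function.uncurry F) →
        ∀ v w, ∫⁻ ω, F (A ω (B v)) (A ω (B w)) ∂H = ∫⁻ ω, F (A ω v) (A ω w) ∂H)
    (F : E n → E n → ℝ≥0∞) (hF : Measurable (Function.uncurry F))
    (u v u' v' : E n) (hu : ‖u‖ = ‖u'‖) (hv : ‖v‖ = ‖v'‖) (huv : ⟪u, v⟫ = ⟪u', v'⟫) :
    ∫⁻ ω, F (A ω u) (A ω v) ∂H = ∫⁻ ω, F (A ω u') (A ω v') ∂H := by
  obtain ⟨B, hB, hB'⟩ := exists_isom n u v u' v' hu hv huv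
  have h := hinv B F hF u v
  rw [hB, hB'] at h
  exact h.symm

/-- The reference function. -/
private noncomputable def plaw_Phi {n : ℕ} {Ω : Type} [MeasurableSpace Ω] (H : Measure Ω)
    (A : Ω → E n ≃ₗᵢ[ℝ] E n) (F : E n → E n → ℝ≥0∞) (u u' : E n) (q : ℝ × ℝ × ℝ) : ℝ≥0∞ :=
  ∫⁻ ω, F (A ω (q.1 • u)) (A ω (q.2.1 • (q.2.2 • u + Real.sqrt (1 - q.2.2 ^ 2) • u'))) ∂H

private theorem plaw_Phi_meas {n : ℕ} {Ω : Type} [MeasurableSpace Ω] (H : Measure Ω) [SFinite H]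
    (A : Ω → E n ≃ₗᵢ[ℝ] E n) (hA : Measurable (fun q : Ω × E n => A q.1 q.2))
    (F : E n → E n → ℝ≥0∞) (hF : Measurable (Function.uncurry F)) (u u' : E n) :
    Measurable (plaw_Phi H A F u u') := by
  unfold plaw_Phi
  have h1 : Measurable (fun p : (ℝ × ℝ × ℝ) × Ω => A p.2 (p.1.1 • u)) := by
    have : Measurable (fun p : (ℝ × ℝ × ℝ) × Ω => (p.2, p.1.1 • u)) := by
      refine measurable_snd.prodMk ?_
      exact (measurable_fst.comp measurable_fst).smul_const u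
    exact hA.comp this
  have h2 : Measurable (fun p : (ℝ × ℝ × ℝ) × Ω =>
      A p.2 (p.1.2.1 • (p.1.2.2 • u + Real.sqrt (1 - p.1.2.2 ^ 2) • u'))) := by
    have : Measurable (fun p : (ℝ × ℝ × ℝ) × Ω =>
        (p.2, p.1.2.1 • (p.1.2.2 • u + Real.sqrt (1 - p.1.2.2 ^ 2) • u'))) := by
      refine measurable_snd.prodMk ?_
      fun_prop
    exact hA.comp this
  have h3 : Measurable (fun p : (ℝ × ℝ × ℝ) × Ω =>
      F (A p.2 (p.1.1 • u)) (A p.2 (p.1.2.1 • (p.1.2.2 • u + Real.sqrt (1 - p.1.2.2 ^ 2) • u')))) :=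
    hF.comp (h1.prodMk h2)
  exact h3.lintegral_prod_right'

private theorem plaw_unit {n : ℕ} (u u' : E n) (hu : ‖u‖ = 1) (hu' : ‖u'‖ = 1) (h : ⟪u, u'⟫ = 0)
    (a : ℝ) (b : ℝ) (hab : a ^ 2 + b ^ 2 = 1) : ‖a • u + b • u'‖ = 1 := by
  have h1 : ‖a • u + b • u'‖ ^ 2 = 1 := by
    rw [norm_add_sq_real, norm_smul, norm_smul, real_inner_smul_left, real_inner_smul_right, h, hu, hu']
    simp
    exact hab
  have h2 := norm_nonneg (a • u + b • u')
  nlinarith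

private theorem plaw_Phi_eq {n : ℕ} {Ω : Type} [MeasurableSpace Ω] (H : Measure Ω)
    (A : Ω → E n ≃ₗᵢ[ℝ] E n)
    (hinv : ∀ (B : E n ≃ₗᵢ[ℝ] E n) (F : E n → E n → ℝ≥0∞), Measurable (Function.uncurry F) →
        ∀ v w, ∫⁻ ω, F (A ω (B v)) (A ω (B w)) ∂H = ∫⁻ ω, F (A ω v) (A ω w) ∂H)
    (F : E n → E n → ℝ≥0∞) (hF : Measurable (Function.uncurry F)) (u u' : E n)
    (hu : ‖u‖ = 1) (hu' : ‖u'‖ = 1) (h : ⟪u, u'⟫ = 0) (z w : E n) (x y c : ℝ)
    (hx : ‖z‖ = x) (hy : ‖w‖ = y) (hc : ⟪z, w⟫ = x * y * c) (hc1 : c ^ 2 ≤ 1) :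
    ∫⁻ ω, F (A ω z) (A ω w) ∂H = plaw_Phi H A F u u' (x, y, c) := by
  unfold plaw_Phi
  have hx0 : 0 ≤ x := hx ▸ norm_nonneg z
  have hy0 : 0 ≤ y := hy ▸ norm_nonneg w
  refine plaw_gram n H A hinv F hF z w _ _ ?_ ?_ ?_
  · rw [norm_smul, hu, hx, Real.norm_of_nonneg hx0, mul_one]
  · rw [norm_smul, plaw_unit u u' hu hu' h c _ (by rw [Real.sq_sqrt (by linarith)]; ring), hy,
      Real.norm_of_nonneg hy0, mul_one]
  · rw [hc, real_inner_smul_left, real_inner_smul_right, inner_add_right, real_inner_smul_right,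
      real_inner_smul_right, h, real_inner_self_eq_norm_sq, hu]
    ring


private theorem plaw_kapA_isom {n : ℕ} (R : ℝ) (i j : ℕ) (B : E n ≃ₗᵢ[ℝ] E n) (z w : E n) :
    kapA n R i j (B z) (B w) = kapA n R i j z w := by
  unfold kapA
  have h1 : ∀ r : ℝ, ∀ z : E n, B z ∈ ann n r ↔ z ∈ ann n r := by
    intro r z
    simp [ann]
  have h2 : (z, w) ∈ {q : E n × E n | q.1 ∈ ann n (2 ^ i * R) ∧ q.2 ∈ ann n (2 ^ j * R) ∧
      |⟪q.1, q.2⟫ / (‖q.1‖ * ‖q.2‖) - (1 / 2) ^ (j - i)| ≤ 1 / n} ↔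
      (B z, B w) ∈ {q : E n × E n | q.1 ∈ ann n (2 ^ i * R) ∧ q.2 ∈ ann n (2 ^ j * R) ∧
      |⟪q.1, q.2⟫ / (‖q.1‖ * ‖q.2‖) - (1 / 2) ^ (j - i)| ≤ 1 / n} := by
    change (z ∈ ann n (2 ^ i * R) ∧ w ∈ ann n (2 ^ j * R) ∧
      |⟪z, w⟫ / (‖z‖ * ‖w‖) - (1 / 2) ^ (j - i)| ≤ 1 / n) ↔
      (B z ∈ ann n (2 ^ i * R) ∧ B w ∈ ann n (2 ^ j * R) ∧
      |⟪B z, B w⟫ / (‖B z‖ * ‖B w‖) - (1 / 2) ^ (j - i)| ≤ 1 / n)
    rw [h1, h1, LinearIsometryEquiv.norm_map, LinearIsometryEquiv.norm_map,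
      LinearIsometryEquiv.inner_map_map]
  by_cases h : (z, w) ∈ {q : E n × E n | q.1 ∈ ann n (2 ^ i * R) ∧ q.2 ∈ ann n (2 ^ j * R) ∧
      |⟪q.1, q.2⟫ / (‖q.1‖ * ‖q.2‖) - (1 / 2) ^ (j - i)| ≤ 1 / n}
  · rw [Set.indicator_of_mem h, Set.indicator_of_mem (h2.1 h)]
  · rw [Set.indicator_of_notMem h, Set.indicator_of_notMem (fun h' => h (h2.2 h'))]

private theorem plaw_kapA_meas (n : ℕ) (R : ℝ) (i j : ℕ) :
    Measurable (fun q : E n × E n => kapA n R i j q.1 q.2) := by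
  unfold kapA
  refine Measurable.indicator measurable_const ?_
  have hsplit : {q : E n × E n | q.1 ∈ ann n (2 ^ i * R) ∧ q.2 ∈ ann n (2 ^ j * R) ∧
      |⟪q.1, q.2⟫ / (‖q.1‖ * ‖q.2‖) - (1 / 2) ^ (j - i)| ≤ 1 / n} =
      (Prod.fst ⁻¹' ann n (2 ^ i * R)) ∩ ((Prod.snd ⁻¹' ann n (2 ^ j * R)) ∩
        {q : E n × E n | |⟪q.1, q.2⟫ / (‖q.1‖ * ‖q.2‖) - (1 / 2) ^ (j - i)| ≤ 1 / n}) := rfl
  rw [hsplit]
  refine (measurable_fst (meas_ann n _)).inter ((measurable_snd (meas_ann n _)).inter ?_)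
  refine measurableSet_le ?_ measurable_const
  have h1 : Measurable (fun q : E n × E n => ⟪q.1, q.2⟫) := by fun_prop
  have h2 : Measurable (fun q : E n × E n => ‖q.1‖ * ‖q.2‖) := by fun_prop
  exact ((h1.div h2).sub_const _).norm

private theorem plaw_swap3 {X Y Z : Type} [MeasurableSpace X] [MeasurableSpace Y]
    [MeasurableSpace Z] (μ : Measure X) (ν : Measure Y) (ρ : Measure Z) [SFinite μ] [SFinite ν]
    [SFinite ρ] (f : X → Y → Z → ℝ≥0∞) (hf : Measurable (fun p : X × Y × Z => f p.1 p.2.1 p.2.2)) :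
    ∫⁻ x, (∫⁻ y, (∫⁻ z, f x y z ∂ρ) ∂ν) ∂μ = ∫⁻ y, (∫⁻ z, (∫⁻ x, f x y z ∂μ) ∂ρ) ∂ν := by
  have h1 : Measurable (fun p : (X × Y) × Z => f p.1.1 p.1.2 p.2) :=
    hf.comp ((measurable_fst.comp measurable_fst).prodMk
      ((measurable_snd.comp measurable_fst).prodMk measurable_snd))
  have h2 : Measurable (fun p : X × Y => ∫⁻ z, f p.1 p.2 z ∂ρ) := h1.lintegral_prod_right'
  rw [lintegral_lintegral_swap (f := fun x y => ∫⁻ z, f x y z ∂ρ) h2.aemeasurable]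
  refine lintegral_congr fun y => ?_
  have h3 : Measurable (fun p : X × Z => f p.1 y p.2) :=
    hf.comp (measurable_fst.prodMk (measurable_const.prodMk measurable_snd))
  exact lintegral_lintegral_swap (f := fun x z => f x y z) h3.aemeasurable

private theorem plaw_rhs {n : ℕ} {Ω : Type} [MeasurableSpace Ω] (H : Measure Ω)
    [IsProbabilityMeasure H]
    (A : Ω → E n ≃ₗᵢ[ℝ] E n) (hA : Measurable (fun q : Ω × E n => A q.1 q.2))
    (R : ℝ) (i j : ℕ) (F : E n → E n → ℝ≥0∞) (hF : Measurable (Function.uncurry F)) :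
    ∫⁻ z, ∫⁻ w, F z w * kapA n R i j z w =
      ∫⁻ z, ∫⁻ w, (∫⁻ ω, F (A ω z) (A ω w) ∂H) * kapA n R i j z w := by
  have hk := plaw_kapA_meas n R i j
  generalize hκ : kapA n R i j = κ at hk ⊢
  have hκ' : ∀ (B : E n ≃ₗᵢ[ℝ] E n) z w, κ (B z) (B w) = κ z w := by
    intro B z w
    rw [← hκ]
    exact plaw_kapA_isom R i j B z w
  clear hκ
  have hG : Measurable (fun q : E n × E n => F q.1 q.2 * κ q.1 q.2) := hF.mul hk
  have hG' : Measurable (fun z : E n => ∫⁻ w, F z w * κ z w) := hG.lintegral_prod_right'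
  have h1 : ∀ ω, ∫⁻ z, ∫⁻ w, F z w * κ z w =
      ∫⁻ z, ∫⁻ w, F (A ω z) (A ω w) * κ z w := by
    intro ω
    rw [← plaw_isom_lint (A ω) (fun z => ∫⁻ w, F z w * κ z w) hG']
    refine lintegral_congr fun z => ?_
    have h3 : Measurable (fun w : E n => F (A ω z) w * κ (A ω z) w) :=
      hG.comp measurable_prodMk_left
    rw [← plaw_isom_lint (A ω) (fun w => F (A ω z) w * κ (A ω z) w) h3]
    refine lintegral_congr fun w => ?_
    rw [hκ']
  have h2 : ∫⁻ z, ∫⁻ w, F z w * κ z w =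
      ∫⁻ ω, (∫⁻ z, ∫⁻ w, F (A ω z) (A ω w) * κ z w) ∂H := by
    rw [← lintegral_congr h1, lintegral_const, measure_univ, mul_one]
  rw [h2]
  have hA1 : Measurable (fun p : Ω × E n × E n => A p.1 p.2.1) :=
    hA.comp (measurable_fst.prodMk (measurable_fst.comp measurable_snd))
  have hA2 : Measurable (fun p : Ω × E n × E n => A p.1 p.2.2) :=
    hA.comp (measurable_fst.prodMk (measurable_snd.comp measurable_snd))
  have hm : Measurable (fun p : Ω × E n × E n =>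
      F (A p.1 p.2.1) (A p.1 p.2.2) * κ p.2.1 p.2.2) :=
    (hF.comp (hA1.prodMk hA2)).mul (hk.comp measurable_snd)
  rw [plaw_swap3 H volume volume (fun ω z w => F (A ω z) (A ω w) * κ z w) hm]
  refine lintegral_congr fun z => lintegral_congr fun w => ?_
  have h4 : Measurable (fun ω : Ω => F (A ω z) (A ω w)) :=
    hF.comp ((hA.comp (measurable_id.prodMk measurable_const)).prodMk
      (hA.comp (measurable_id.prodMk measurable_const)))
  exact lintegral_mul_const _ h4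

/-- The inner integral on the right-hand side. -/
private theorem plaw_inner {n : ℕ} (hn : 100 ≤ n) (R : ℝ) (hR : 0 < R) (i j : ℕ) (hij : i < j)
    (Φ : ℝ × ℝ × ℝ → ℝ≥0∞) (hΦ : Measurable Φ) (z : E n) (hz : z ∈ ann n (2 ^ i * R)) :
    (volume (ann n (2 ^ i * R)))⁻¹ * (volume (ann n (2 ^ j * R)))⁻¹ * ENNReal.ofReal (23 * n) *
      ∫⁻ w in ann n (2 ^ j * R), ∫⁻ c in Set.Icc ((1 / 2 : ℝ) ^ (j - i) - 1 / n)
        ((1 / 2 : ℝ) ^ (j - i) + 1 / n), Φ (‖z‖, ‖w‖, c) ≤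
      ∫⁻ w, Φ (‖z‖, ‖w‖, ⟪z, w⟫ / (‖z‖ * ‖w‖)) * kapA n R i j z w := by
  have hn' : (100 : ℝ) ≤ n := by exact_mod_cast hn
  have hn0 : (0 : ℝ) < n := by linarith
  have hninv : 1 / (n : ℝ) ≤ 1 / 100 := by
    rw [div_le_div_iff₀ hn0 (by norm_num)]
    linarith
  have hninv0 : 0 < 1 / (n : ℝ) := by positivity
  generalize hr : (1 / 2 : ℝ) ^ (j - i) = r
  have hr0 : 0 ≤ r := by rw [← hr]; positivity
  have hr1 : r ≤ 1 / 2 := by
    rw [← hr]
    calc (1 / 2 : ℝ) ^ (j - i) ≤ (1 / 2 : ℝ) ^ 1 :=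
          pow_le_pow_of_le_one (by norm_num) (by norm_num) (by omega)
      _ = 1 / 2 := by norm_num
  have hr2 : r ^ 2 = (1 / 4 : ℝ) ^ (j - i) := by
    rw [← hr, ← pow_mul, mul_comm, pow_mul]
    norm_num
  have hcit : (volume (ann n (2 ^ i * R)))⁻¹ ≠ ∞ :=
    ENNReal.inv_ne_top.2 (ann_pos (by omega) (by positivity))
  have hcjt : (volume (ann n (2 ^ j * R)))⁻¹ ≠ ∞ :=
    ENNReal.inv_ne_top.2 (ann_pos (by omega) (by positivity))
  generalize hci : (volume (ann n (2 ^ i * R)))⁻¹ = ci at hcit ⊢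
  generalize hcj : (volume (ann n (2 ^ j * R)))⁻¹ = cj at hcjt ⊢
  have hct : ci * cj * ENNReal.ofReal (23 * n) ≠ ∞ :=
    ENNReal.mul_ne_top (ENNReal.mul_ne_top hcit hcjt) ENNReal.ofReal_ne_top
  have hzpos : 0 < ‖z‖ := by
    have h1 := hz.1
    have h2 : 0 < (1 - 1 / (n : ℝ)) * (2 ^ i * R) := by
      have : 0 < 1 - 1 / (n : ℝ) := by linarith
      positivity
    linarith
  have hz0 : z ≠ 0 := norm_pos_iff.1 hzpos
  let S : Set (ℝ × ℝ) := {q | ((1 - 1 / (n : ℝ)) * (2 ^ j * R) ≤ q.1 ∧ q.1 < 2 ^ j * R) ∧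
    |q.2 - r| ≤ 1 / n}
  have hS : MeasurableSet S := by
    refine ((measurableSet_le measurable_const measurable_fst).inter
      (measurableSet_lt measurable_fst measurable_const)).inter ?_
    exact measurableSet_le ((measurable_snd.sub_const _).norm) measurable_const
  let C : ℝ≥0∞ := ci * cj *
    ENNReal.ofReal (200 * Real.sqrt n * (1 - (1 / 4) ^ (j - i)) ^ (-(n : ℝ) / 2))
  let φ : ℝ → ℝ → ℝ≥0∞ := fun ρ c => S.indicator (fun q => Φ (‖z‖, q.1, q.2) * C) (ρ, c)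
  have hφ : Measurable (Function.uncurry φ) := by
    have h1 : Measurable (fun q : ℝ × ℝ => Φ (‖z‖, q.1, q.2) * C) :=
      (hΦ.comp (measurable_const.prodMk (measurable_fst.prodMk measurable_snd))).mul_const C
    exact h1.indicator hS
  let e : E n := ‖z‖⁻¹ • z
  have he : ‖e‖ = 1 := by
    rw [norm_smul, norm_inv, norm_norm, inv_mul_cancel₀ hzpos.ne']
  have hcos : ∀ w : E n, ⟪e, w⟫ / ‖w‖ = ⟪z, w⟫ / (‖z‖ * ‖w‖) := by
    intro w
    rw [real_inner_smul_left, div_mul_eq_div_div]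
    congr 1
    rw [inv_mul_eq_div]
  have hkey : ∀ w : E n, Φ (‖z‖, ‖w‖, ⟪z, w⟫ / (‖z‖ * ‖w‖)) * kapA n R i j z w =
      φ ‖w‖ (⟪e, w⟫ / ‖w‖) := by
    intro w
    rw [hcos]
    simp only [φ]
    unfold kapA
    rw [hr, hci, hcj]
    by_cases h : w ∈ ann n (2 ^ j * R) ∧ |⟪z, w⟫ / (‖z‖ * ‖w‖) - r| ≤ 1 / n
    · rw [Set.indicator_of_mem, Set.indicator_of_mem]
      · exact h
      · exact ⟨hz, h⟩
    · rw [Set.indicator_of_notMem, Set.indicator_of_notMem, mul_zero]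
      · exact h
      · exact fun h' => h h'.2
  rw [lintegral_congr hkey, angle_law n (by omega) e he φ hφ]
  have hlow : ∀ c, |c - r| ≤ 1 / n → ENNReal.ofReal (23 * n) ≤
      ENNReal.ofReal (200 * Real.sqrt n * (1 - (1 / 4) ^ (j - i)) ^ (-(n : ℝ) / 2)) *
        ENNReal.ofReal (wn n c) := by
    intro c hc
    rw [← ENNReal.ofReal_mul, ← hr2]
    · exact ENNReal.ofReal_le_ofReal (wn_low n hn r c hr0 hr1 hc)
    · have h1 : (1 / 4 : ℝ) ^ (j - i) ≤ 1 := pow_le_one₀ (by norm_num) (by norm_num)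
      have h2 : 0 ≤ (1 - (1 / 4 : ℝ) ^ (j - i)) ^ (-(n : ℝ) / 2) := Real.rpow_nonneg (by linarith) _
      positivity
  have hIcc : ∀ c, c ∈ Set.Icc (r - 1 / n) (r + 1 / n) ↔ |c - r| ≤ 1 / n := by
    intro c
    rw [Set.mem_Icc, abs_le]
    constructor
    · rintro ⟨h1, h2⟩
      constructor <;> linarith
    · rintro ⟨h1, h2⟩
      constructor <;> linarith
  have hIoo : Set.Icc (r - 1 / n) (r + 1 / n) ⊆ Set.Ioo (-1 : ℝ) 1 := by
    intro c hc
    exact ⟨by linarith [hc.1], by linarith [hc.2]⟩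
  rw [← lintegral_indicator (meas_ann n _), ← lintegral_const_mul']
  · refine lintegral_mono fun w => ?_
    by_cases hw : w ∈ ann n (2 ^ j * R)
    · simp only [Set.indicator_of_mem hw]
      rw [← lintegral_const_mul']
      · refine le_trans ?_ (lintegral_mono_set hIoo)
        refine setLIntegral_mono' measurableSet_Icc fun c hc => ?_
        have hc' := (hIcc c).1 hc
        have h1 : φ ‖w‖ c = Φ (‖z‖, ‖w‖, c) * C := by
          simp only [φ]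
          rw [Set.indicator_of_mem]
          exact ⟨hw, hc'⟩
        rw [h1]
        simp only [C]
        calc ci * cj * ENNReal.ofReal (23 * n) * Φ (‖z‖, ‖w‖, c)
            ≤ ci * cj * (ENNReal.ofReal (200 * Real.sqrt n * (1 - (1 / 4) ^ (j - i)) ^ (-(n : ℝ) / 2)) *
              ENNReal.ofReal (wn n c)) * Φ (‖z‖, ‖w‖, c) := by
              gcongr
              exact hlow c hc'
          _ = _ := by ring
      · exact hct
    · simp only [Set.indicator_of_notMem hw, mul_zero]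
      exact zero_le
  · exact hct

theorem pair_law (n : ℕ) (hn : 100 ≤ n) {Ω : Type} [MeasurableSpace Ω] (H : Measure Ω)
    [IsProbabilityMeasure H]
    (A : Ω → E n ≃ₗᵢ[ℝ] E n) (hA : Measurable (fun q : Ω × E n => A q.1 q.2))
    (hinv : ∀ (B : E n ≃ₗᵢ[ℝ] E n) (F : E n → E n → ℝ≥0∞), Measurable (Function.uncurry F) →
        ∀ v w, ∫⁻ ω, F (A ω (B v)) (A ω (B w)) ∂H = ∫⁻ ω, F (A ω v) (A ω w) ∂H)
    (R : ℝ) (hR : 0 < R) (i j : ℕ) (hij : i < j) (vi vj e : E n) (hvi : ‖vi‖ = 1) (hvj : ‖vj‖ = 1)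
    (he : ‖e‖ = 1) (h1 : ⟪vi, e⟫ = 0) (h2 : ⟪vj, e⟫ = 0) (h3 : ⟪vi, vj⟫ = (1 / 2 : ℝ) ^ (j - i))
    (F : E n → E n → ℝ≥0∞) (hF : Measurable (Function.uncurry F)) :
    (volume (tI n))⁻¹ ^ 2 * ((volume (ann n (2 ^ i * R)))⁻¹ * (volume (ann n (2 ^ j * R)))⁻¹) *
      (∫⁻ a in tI n, ∫⁻ b in tI n, ∫⁻ z in ann n (2 ^ i * R), ∫⁻ w in ann n (2 ^ j * R),
        ∫⁻ ω, F (‖z‖ • A ω (Real.sqrt (1 - a ^ 2) • vi + a • e))
          (‖w‖ • A ω (Real.sqrt (1 - b ^ 2) • vj + b • e)) ∂H) ≤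
      ∫⁻ z, ∫⁻ w, F z w * kapA n R i j z w := by
  have hn' : (100 : ℝ) ≤ n := by exact_mod_cast hn
  have hn0 : (0 : ℝ) < n := by linarith
  have hΦm := plaw_Phi_meas H A hA F hF vi e
  have hΦeq := plaw_Phi_eq H A hinv F hF vi e hvi he h1
  generalize plaw_Phi H A F vi e = Φ at hΦm hΦeq
  have hin : ∀ z ∈ ann n (2 ^ i * R), _ := plaw_inner hn R hR i j hij Φ hΦm
  have hr0 : (0 : ℝ) ≤ (1 / 2 : ℝ) ^ (j - i) := by positivity
  have hr1 : (1 / 2 : ℝ) ^ (j - i) ≤ 1 / 2 := by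
    calc (1 / 2 : ℝ) ^ (j - i) ≤ (1 / 2 : ℝ) ^ 1 :=
          pow_le_pow_of_le_one (by norm_num) (by norm_num) (by omega)
      _ = 1 / 2 := by norm_num
  generalize (1 / 2 : ℝ) ^ (j - i) = r at h3 hin hr0 hr1
  have hcit : (volume (ann n (2 ^ i * R)))⁻¹ ≠ ∞ :=
    ENNReal.inv_ne_top.2 (ann_pos (by omega) (by positivity))
  have hcjt : (volume (ann n (2 ^ j * R)))⁻¹ ≠ ∞ :=
    ENNReal.inv_ne_top.2 (ann_pos (by omega) (by positivity))
  have htI : ∀ a ∈ tI n, a ^ 2 ≤ 1 := by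
    intro a ha
    have hs : 1 ≤ Real.sqrt n := Real.one_le_sqrt.2 (by linarith)
    have h4 : 0 ≤ a := le_trans (by positivity) ha.1
    have h5 : a ≤ 1 := ha.2.trans (by rw [div_le_one (by linarith)]; exact hs)
    nlinarith
  have hsq : ∀ a ∈ tI n, Real.sqrt (1 - a ^ 2) ^ 2 + a ^ 2 = 1 := by
    intro a ha
    rw [Real.sq_sqrt (by linarith [htI a ha])]
    ring
  have hL : ∀ a ∈ tI n, ∀ b ∈ tI n, ∀ z w : E n,
      ∫⁻ ω, F (‖z‖ • A ω (Real.sqrt (1 - a ^ 2) • vi + a • e))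
          (‖w‖ • A ω (Real.sqrt (1 - b ^ 2) • vj + b • e)) ∂H = Φ (‖z‖, ‖w‖, cc r a b) := by
    intro a ha b hb z w
    have hua : ‖Real.sqrt (1 - a ^ 2) • vi + a • e‖ = 1 := plaw_unit vi e hvi he h1 _ _ (hsq a ha)
    have hub : ‖Real.sqrt (1 - b ^ 2) • vj + b • e‖ = 1 := plaw_unit vj e hvj he h2 _ _ (hsq b hb)
    have hcc : ⟪Real.sqrt (1 - a ^ 2) • vi + a • e, Real.sqrt (1 - b ^ 2) • vj + b • e⟫ =
        cc r a b := by
      have h2' : ⟪e, vj⟫ = 0 := by rw [real_inner_comm]; exact h2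
      rw [inner_add_left, inner_add_right, inner_add_right]
      simp only [real_inner_smul_left, real_inner_smul_right, h1, h2', h3,
        real_inner_self_eq_norm_sq, he]
      unfold cc
      ring
    have hcc1 : cc r a b ^ 2 ≤ 1 := by
      rw [← hcc, sq_le_one_iff_abs_le_one]
      calc _ ≤ _ := abs_real_inner_le_norm _ _
        _ = 1 := by rw [hua, hub]; norm_num
    rw [← hΦeq (‖z‖ • (Real.sqrt (1 - a ^ 2) • vi + a • e))
      (‖w‖ • (Real.sqrt (1 - b ^ 2) • vj + b • e)) ‖z‖ ‖w‖ (cc r a b)]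
    · refine lintegral_congr fun ω => ?_
      rw [map_smul, map_smul]
    · rw [norm_smul, hua, norm_norm, mul_one]
    · rw [norm_smul, hub, norm_norm, mul_one]
    · rw [real_inner_smul_left, real_inner_smul_right, hcc]
      ring
    · exact hcc1
  have htm : MeasurableSet (tI n) := measurableSet_Icc
  have hL2 : (∫⁻ a in tI n, ∫⁻ b in tI n, ∫⁻ z in ann n (2 ^ i * R), ∫⁻ w in ann n (2 ^ j * R),
        ∫⁻ ω, F (‖z‖ • A ω (Real.sqrt (1 - a ^ 2) • vi + a • e))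
          (‖w‖ • A ω (Real.sqrt (1 - b ^ 2) • vj + b • e)) ∂H) =
      ∫⁻ a in tI n, ∫⁻ b in tI n, ∫⁻ z in ann n (2 ^ i * R), ∫⁻ w in ann n (2 ^ j * R),
        Φ (‖z‖, ‖w‖, cc r a b) := by
    refine setLIntegral_congr_fun htm fun a ha => ?_
    refine setLIntegral_congr_fun htm fun b hb => ?_
    exact lintegral_congr fun z => lintegral_congr fun w => hL a ha b hb z w
  rw [hL2]
  have hΦ3 : Measurable (fun p : ℝ × E n × E n => Φ (‖p.2.1‖, ‖p.2.2‖, p.1)) := by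
    refine hΦm.comp ?_
    fun_prop
  have hφ0 : Measurable (fun c : ℝ => ∫⁻ z in ann n (2 ^ i * R), ∫⁻ w in ann n (2 ^ j * R),
      Φ (‖z‖, ‖w‖, c)) := by
    have h5 : Measurable (fun p : (ℝ × E n) × E n => Φ (‖p.1.2‖, ‖p.2‖, p.1.1)) := by
      refine hΦm.comp ?_
      fun_prop
    have h6 : Measurable (fun p : ℝ × E n => ∫⁻ w in ann n (2 ^ j * R), Φ (‖p.2‖, ‖w‖, p.1)) :=
      h5.lintegral_prod_right'
    exact h6.lintegral_prod_right'
  have ht := tau_law n hn r hr0 hr1 _ hφ0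
  rw [plaw_rhs H A hA R i j F hF]
  calc _ ≤ (volume (tI n))⁻¹ ^ 2 * ((volume (ann n (2 ^ i * R)))⁻¹ *
        (volume (ann n (2 ^ j * R)))⁻¹) * (volume (tI n) ^ 2 * ENNReal.ofReal (23 * n) *
        ∫⁻ c in Set.Icc (r - 1 / n) (r + 1 / n), (∫⁻ z in ann n (2 ^ i * R),
          ∫⁻ w in ann n (2 ^ j * R), Φ (‖z‖, ‖w‖, c))) := by
        gcongr
    _ = ((volume (tI n))⁻¹ * volume (tI n)) ^ 2 * ((volume (ann n (2 ^ i * R)))⁻¹ *
        (volume (ann n (2 ^ j * R)))⁻¹ * ENNReal.ofReal (23 * n) *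
        ∫⁻ c in Set.Icc (r - 1 / n) (r + 1 / n), (∫⁻ z in ann n (2 ^ i * R),
          ∫⁻ w in ann n (2 ^ j * R), Φ (‖z‖, ‖w‖, c))) := by ring
    _ ≤ 1 ^ 2 * ((volume (ann n (2 ^ i * R)))⁻¹ *
        (volume (ann n (2 ^ j * R)))⁻¹ * ENNReal.ofReal (23 * n) *
        ∫⁻ c in Set.Icc (r - 1 / n) (r + 1 / n), (∫⁻ z in ann n (2 ^ i * R),
          ∫⁻ w in ann n (2 ^ j * R), Φ (‖z‖, ‖w‖, c))) := by
        gcongr
        exact ENNReal.inv_mul_le_one _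
    _ = (volume (ann n (2 ^ i * R)))⁻¹ *
        (volume (ann n (2 ^ j * R)))⁻¹ * ENNReal.ofReal (23 * n) *
        ∫⁻ z in ann n (2 ^ i * R), (∫⁻ w in ann n (2 ^ j * R),
          (∫⁻ c in Set.Icc (r - 1 / n) (r + 1 / n), Φ (‖z‖, ‖w‖, c))) := by
        rw [one_pow, one_mul, plaw_swap3 (volume.restrict (Set.Icc (r - 1 / n) (r + 1 / n)))
          (volume.restrict (ann n (2 ^ i * R))) (volume.restrict (ann n (2 ^ j * R)))
          (fun c z w => Φ (‖z‖, ‖w‖, c)) hΦ3]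
    _ = ∫⁻ z in ann n (2 ^ i * R), (volume (ann n (2 ^ i * R)))⁻¹ *
        (volume (ann n (2 ^ j * R)))⁻¹ * ENNReal.ofReal (23 * n) *
        (∫⁻ w in ann n (2 ^ j * R),
          (∫⁻ c in Set.Icc (r - 1 / n) (r + 1 / n), Φ (‖z‖, ‖w‖, c))) := by
        rw [lintegral_const_mul']
        exact ENNReal.mul_ne_top (ENNReal.mul_ne_top hcit hcjt) ENNReal.ofReal_ne_top
    _ ≤ ∫⁻ z in ann n (2 ^ i * R), ∫⁻ w, (∫⁻ ω, F (A ω z) (A ω w) ∂H) * kapA n R i j z w := by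
        refine setLIntegral_mono' (meas_ann n _) fun z hz => ?_
        refine (hin z hz).trans (lintegral_mono fun w => ?_)
        by_cases hw : w ∈ ann n (2 ^ j * R)
        · have hpos : ∀ (k : ℕ) (y : E n), y ∈ ann n (2 ^ k * R) → 0 < ‖y‖ := by
            intro k y hy
            have h5 := hy.1
            have h6 : 0 < (1 - 1 / (n : ℝ)) * (2 ^ k * R) := by
              have : 1 / (n : ℝ) < 1 := by
                rw [div_lt_one hn0]
                linarith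
              have : 0 < 1 - 1 / (n : ℝ) := by linarith
              positivity
            linarith
          have hz' := hpos i z hz
          have hw' := hpos j w hw
          rw [hΦeq z w ‖z‖ ‖w‖ (⟪z, w⟫ / (‖z‖ * ‖w‖)) rfl rfl]
          · field_simp
          · rw [sq_le_one_iff_abs_le_one]
            exact abs_real_inner_div_norm_mul_norm_le_one z w
        · have h5 : kapA n R i j z w = 0 := by
            unfold kapA
            rw [Set.indicator_of_notMem]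
            exact fun h => hw h.2.1
          rw [h5, mul_zero, mul_zero]
    _ ≤ _ := setLIntegral_le_lintegral _ _

end Pool.DyMax
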