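import Pool.Agent.DyMax.PairLaw
import Pool.Agent.DyMax.Frame
import Pool.Agent.DyMax.Geom

/-! MODULE PAIRS: the second moment inequality from the rigid random configuration.

Proof: take `(Ω, H, A)` from `exists_rot`, `v, e` from `exists_frame`, and
`g_k(p, ω) = |tI|⁻¹ |ann_k|⁻¹ ∫_{a ∈ tI} ∫_{z ∈ ann_k} ψ_k(p + ‖z‖ A ω (√(1-a²) v_k + a e)) dz da`.
Then `0 ≤ g_k ≤ 1`, `∫ g_k dH = av n (2^k R) (ψ k) p` (by `single_law`: `√(1-a²) v_k + a e` is a unit
vector), so by Jensen/Cauchy-Schwarz for the probability measure `H`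
`U(p)² = (∫ ∑_k g_k dH)² ≤ ∫ (∑ g_k)² dH = ∑_k ∫ g_k² dH + 2 ∑_{i<j} ∫ g_i g_j dH ≤ U(p) + 2 ∑_{i<j} Pi i j p`
with `Pi i j p = ∫ g_i g_j dH ≤ ∫ g_i dH, ∫ g_j dH`. The last bound is `pair_law` (applied to
`F z w = ψ_i(p+z) ψ_j(p+w)`; Tonelli) and `kapA_le`. -/

set_option autoImplicit false

open MeasureTheory Metric
open scoped ENNReal RealInnerProductSpace

namespace Pool.DyMax

/-- The volume of the parameter interval. -/
theorem pairs_tI_vol (n : ℕ) (hn : 1 ≤ n) : volume (tI n) ≠ 0 ∧ volume (tI n) ≠ ∞ := by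
  have hn' : (0 : ℝ) < n := by exact_mod_cast hn
  have hs : 0 < Real.sqrt n := Real.sqrt_pos.2 hn'
  unfold tI
  rw [Real.volume_Icc]
  refine ⟨?_, ENNReal.ofReal_ne_top⟩
  rw [Ne, ENNReal.ofReal_eq_zero, not_le, sub_pos, div_lt_div_iff₀ (by positivity) hs]
  nlinarith

theorem pairs_tI_le (n : ℕ) (hn : 1 ≤ n) {a : ℝ} (ha : a ∈ tI n) : a ^ 2 ≤ 1 := by
  have hn' : (1 : ℝ) ≤ n := by exact_mod_cast hn
  have hs : 1 ≤ Real.sqrt n := by
    rw [Real.one_le_sqrt]; exact hn'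
  have h0 : 0 ≤ a := le_trans (by positivity) ha.1
  have h1 : a ≤ 1 := ha.2.trans (by rw [div_le_one (by linarith)]; exact hs)
  nlinarith

/-- `√(1-a²) v + a e` is a unit vector. -/
theorem pairs_unit {n : ℕ} {v e : E n} (hv : ‖v‖ = 1) (he : ‖e‖ = 1) (h : ⟪v, e⟫ = 0) {a : ℝ}
    (ha : a ^ 2 ≤ 1) : ‖Real.sqrt (1 - a ^ 2) • v + a • e‖ = 1 := by
  have h1 : ‖Real.sqrt (1 - a ^ 2) • v + a • e‖ ^ 2 = 1 := by
    rw [norm_add_sq_real, real_inner_smul_left, real_inner_smul_right, h, norm_smul, norm_smul, hv,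
      he, mul_one, mul_one, Real.norm_eq_abs, Real.norm_eq_abs, sq_abs, sq_abs,
      Real.sq_sqrt (by linarith)]
    ring
  have h2 : 0 ≤ ‖Real.sqrt (1 - a ^ 2) • v + a • e‖ := norm_nonneg _
  nlinarith

section

variable {n : ℕ} {Ω : Type} [MeasurableSpace Ω] {A : Ω → E n ≃ₗᵢ[ℝ] E n}

/-- The configuration functions. -/
noncomputable def pairs_g (n : ℕ) {Ω : Type} (A : Ω → E n ≃ₗᵢ[ℝ] E n) (v e : E n) (R : ℝ)
    (ψ : E n → ℝ≥0∞) (p : E n) (ω : Ω) : ℝ≥0∞ :=
  (volume (tI n))⁻¹ * (volume (ann n R))⁻¹ *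
    ∫⁻ a in tI n, ∫⁻ z in ann n R, ψ (p + ‖z‖ • A ω (Real.sqrt (1 - a ^ 2) • v + a • e))

theorem pairs_meas_sqrt (v e : E n) :
    Measurable fun a : ℝ => Real.sqrt (1 - a ^ 2) • v + a • e := by
  have h : Continuous fun a : ℝ => Real.sqrt (1 - a ^ 2) • v + a • e := by fun_prop
  exact h.measurable

/-- The basic measurability: everything is a measurable function of `(p, ω, a, z)`. -/
theorem pairs_meas0 (hA : Measurable (fun q : Ω × E n => A q.1 q.2)) (v e : E n) {ψ : E n → ℝ≥0∞}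
    (hψ : Measurable ψ) {X : Type*} [MeasurableSpace X] {fp : X → E n} {fω : X → Ω} {fa : X → ℝ}
    {fz : X → E n} (h1 : Measurable fp) (h2 : Measurable fω) (h3 : Measurable fa)
    (h4 : Measurable fz) :
    Measurable fun x => ψ (fp x + ‖fz x‖ • A (fω x) (Real.sqrt (1 - fa x ^ 2) • v + fa x • e)) := by
  refine hψ.comp (h1.add (h4.norm.smul ?_))
  exact hA.comp (h2.prodMk ((pairs_meas_sqrt v e).comp h3))

theorem pairs_g_meas (hA : Measurable (fun q : Ω × E n => A q.1 q.2)) (v e : E n) (R : ℝ)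
    {ψ : E n → ℝ≥0∞} (hψ : Measurable ψ) :
    Measurable fun q : E n × Ω => pairs_g n A v e R ψ q.1 q.2 := by
  unfold pairs_g
  refine Measurable.const_mul ?_ _
  refine Measurable.lintegral_prod_right' (f := fun s : (E n × Ω) × ℝ =>
    ∫⁻ z in ann n R, ψ (s.1.1 + ‖z‖ • A s.1.2 (Real.sqrt (1 - s.2 ^ 2) • v + s.2 • e))) ?_
  refine Measurable.lintegral_prod_right' (f := fun s : ((E n × Ω) × ℝ) × E n =>
    ψ (s.1.1.1 + ‖s.2‖ • A s.1.1.2 (Real.sqrt (1 - s.1.2 ^ 2) • v + s.1.2 • e))) ?_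
  exact pairs_meas0 hA v e hψ measurable_fst.fst.fst measurable_fst.fst.snd measurable_fst.snd
    measurable_snd

omit [MeasurableSpace Ω] in
theorem pairs_g_le_one (v e : E n) (R : ℝ) {ψ : E n → ℝ≥0∞} (h : ∀ x, ψ x ≤ 1) (p : E n) (ω : Ω) :
    pairs_g n A v e R ψ p ω ≤ 1 := by
  unfold pairs_g
  calc (volume (tI n))⁻¹ * (volume (ann n R))⁻¹ *
        ∫⁻ a in tI n, ∫⁻ z in ann n R, ψ (p + ‖z‖ • A ω (Real.sqrt (1 - a ^ 2) • v + a • e))
      ≤ (volume (tI n))⁻¹ * (volume (ann n R))⁻¹ *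
        ∫⁻ a in tI n, ∫⁻ z in ann n R, 1 := by
        gcongr
        exact h _
    _ = ((volume (tI n))⁻¹ * volume (tI n)) * ((volume (ann n R))⁻¹ * volume (ann n R)) := by
        rw [setLIntegral_const, setLIntegral_const, one_mul]
        ring
    _ ≤ 1 * 1 := by
        gcongr
        · exact ENNReal.inv_mul_le_one _
        · exact ENNReal.inv_mul_le_one _
    _ = 1 := one_mul 1

theorem pairs_g_int (hn : 2 ≤ n) (H : Measure Ω) [IsProbabilityMeasure H]
    (hA : Measurable (fun q : Ω × E n => A q.1 q.2))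
    (hinv : ∀ (B : E n ≃ₗᵢ[ℝ] E n) (F : E n → E n → ℝ≥0∞), Measurable (Function.uncurry F) →
        ∀ v w, ∫⁻ ω, F (A ω (B v)) (A ω (B w)) ∂H = ∫⁻ ω, F (A ω v) (A ω w) ∂H)
    {v e : E n} (hv : ‖v‖ = 1) (he : ‖e‖ = 1) (hve : ⟪v, e⟫ = 0) (R : ℝ)
    {ψ : E n → ℝ≥0∞} (hψ : Measurable ψ) (p : E n) :
    ∫⁻ ω, pairs_g n A v e R ψ p ω ∂H = av n R ψ p := by
  have hI := pairs_tI_vol n (by omega)
  unfold pairs_g av
  rw [lintegral_const_mul]
  swap
  · refine Measurable.lintegral_prod_right' (f := fun s : Ω × ℝ =>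
      ∫⁻ z in ann n R, ψ (p + ‖z‖ • A s.1 (Real.sqrt (1 - s.2 ^ 2) • v + s.2 • e))) ?_
    refine Measurable.lintegral_prod_right' (f := fun s : (Ω × ℝ) × E n =>
      ψ (p + ‖s.2‖ • A s.1.1 (Real.sqrt (1 - s.1.2 ^ 2) • v + s.1.2 • e))) ?_
    exact pairs_meas0 hA v e hψ measurable_const measurable_fst.fst measurable_fst.snd
      measurable_snd
  rw [lintegral_lintegral_swap]
  swap
  · refine Measurable.aemeasurable ?_
    refine Measurable.lintegral_prod_right' (f := fun s : (Ω × ℝ) × E n =>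
      ψ (p + ‖s.2‖ • A s.1.1 (Real.sqrt (1 - s.1.2 ^ 2) • v + s.1.2 • e))) ?_
    exact pairs_meas0 hA v e hψ measurable_const measurable_fst.fst measurable_fst.snd
      measurable_snd
  have h1 : ∫⁻ a in tI n, ∫⁻ ω, (∫⁻ z in ann n R,
      ψ (p + ‖z‖ • A ω (Real.sqrt (1 - a ^ 2) • v + a • e))) ∂H =
      ∫⁻ _ in tI n, ∫⁻ z in ann n R, ψ (p + z) := by
    refine setLIntegral_congr_fun measurableSet_Icc fun a ha => ?_
    have hsw : ∫⁻ ω, (∫⁻ z in ann n R,
        ψ (p + ‖z‖ • A ω (Real.sqrt (1 - a ^ 2) • v + a • e))) ∂H =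
        ∫⁻ z in ann n R, ∫⁻ ω,
        ψ (p + ‖z‖ • A ω (Real.sqrt (1 - a ^ 2) • v + a • e)) ∂H := by
      refine lintegral_lintegral_swap (Measurable.aemeasurable ?_)
      exact pairs_meas0 hA v e hψ measurable_const measurable_fst measurable_const measurable_snd
    rw [hsw]
    exact single_law n H A hA hinv R (fun x => ψ (p + x))
      (hψ.comp (measurable_const.add measurable_id)) _
      (pairs_unit hv he hve (pairs_tI_le n (by omega) ha))
  rw [h1, setLIntegral_const, mul_comm (∫⁻ z in ann n R, ψ (p + z)) (volume (tI n)), ← mul_assoc,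
    mul_comm (volume (tI n))⁻¹ (volume (ann n R))⁻¹, mul_assoc _ (volume (tI n))⁻¹ (volume (tI n)),
    ENNReal.inv_mul_cancel hI.1 hI.2, mul_one]

/-- Product of the two averages, as an iterated integral. -/
theorem pairs_prod (H : Measure Ω) [IsProbabilityMeasure H]
    (hA : Measurable (fun q : Ω × E n => A q.1 q.2))
    (v v' e : E n) (R R' : ℝ) {ψ ψ' : E n → ℝ≥0∞} (hψ : Measurable ψ) (hψ' : Measurable ψ')
    (p : E n) :
    ∫⁻ ω, pairs_g n A v e R ψ p ω * pairs_g n A v' e R' ψ' p ω ∂H =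
      (volume (tI n))⁻¹ ^ 2 * ((volume (ann n R))⁻¹ * (volume (ann n R'))⁻¹) *
      (∫⁻ a in tI n, ∫⁻ b in tI n, ∫⁻ z in ann n R, ∫⁻ w in ann n R',
        ∫⁻ ω, ψ (p + ‖z‖ • A ω (Real.sqrt (1 - a ^ 2) • v + a • e)) *
          ψ' (p + ‖w‖ • A ω (Real.sqrt (1 - b ^ 2) • v' + b • e)) ∂H) := by
  -- basic functions
  set f : Ω → ℝ → E n → ℝ≥0∞ := fun ω a z =>
    ψ (p + ‖z‖ • A ω (Real.sqrt (1 - a ^ 2) • v + a • e)) with hf
  set g : Ω → ℝ → E n → ℝ≥0∞ := fun ω b w =>
    ψ' (p + ‖w‖ • A ω (Real.sqrt (1 - b ^ 2) • v' + b • e)) with hg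
  have mf : ∀ {X : Type} [MeasurableSpace X] {fω : X → Ω} {fa : X → ℝ} {fz : X → E n},
      Measurable fω → Measurable fa → Measurable fz →
      Measurable fun x => f (fω x) (fa x) (fz x) := fun h2 h3 h4 =>
    pairs_meas0 hA v e hψ measurable_const h2 h3 h4
  have mg : ∀ {X : Type} [MeasurableSpace X] {fω : X → Ω} {fa : X → ℝ} {fz : X → E n},
      Measurable fω → Measurable fa → Measurable fz →
      Measurable fun x => g (fω x) (fa x) (fz x) := fun h2 h3 h4 =>
    pairs_meas0 hA v' e hψ' measurable_const h2 h3 h4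
  have mfi : ∀ {X : Type} [MeasurableSpace X] {fω : X → Ω} {fa : X → ℝ},
      Measurable fω → Measurable fa →
      Measurable fun x => ∫⁻ z in ann n R, f (fω x) (fa x) z := fun h2 h3 =>
    Measurable.lintegral_prod_right' (mf (h2.comp measurable_fst) (h3.comp measurable_fst)
      measurable_snd)
  have mgi : ∀ {X : Type} [MeasurableSpace X] {fω : X → Ω} {fa : X → ℝ},
      Measurable fω → Measurable fa →
      Measurable fun x => ∫⁻ z in ann n R', g (fω x) (fa x) z := fun h2 h3 =>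
    Measurable.lintegral_prod_right' (mg (h2.comp measurable_fst) (h3.comp measurable_fst)
      measurable_snd)
  have e1 : ∀ ω, (∫⁻ a in tI n, ∫⁻ z in ann n R, f ω a z) *
      (∫⁻ b in tI n, ∫⁻ w in ann n R', g ω b w) =
      ∫⁻ a in tI n, ∫⁻ b in tI n, ∫⁻ z in ann n R, ∫⁻ w in ann n R', f ω a z * g ω b w := by
    intro ω
    have n1 : Measurable fun a : ℝ => ∫⁻ z in ann n R, f ω a z :=
      mfi (fω := fun _ : ℝ => ω) (fa := fun a : ℝ => a) measurable_const measurable_id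
    have n2 : Measurable fun b : ℝ => ∫⁻ w in ann n R', g ω b w :=
      mgi (fω := fun _ : ℝ => ω) (fa := fun a : ℝ => a) measurable_const measurable_id
    have n3 : ∀ a, Measurable fun z : E n => f ω a z := fun a =>
      mf (fω := fun _ : E n => ω) (fa := fun _ : E n => a) (fz := fun z : E n => z)
        measurable_const measurable_const measurable_id
    have n4 : ∀ a, Measurable fun z : E n => g ω a z := fun a =>
      mg (fω := fun _ : E n => ω) (fa := fun _ : E n => a) (fz := fun z : E n => z)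
        measurable_const measurable_const measurable_id
    rw [← lintegral_mul_const _ n1]
    refine lintegral_congr fun a => ?_
    rw [← lintegral_const_mul _ n2]
    refine lintegral_congr fun b => ?_
    rw [← lintegral_mul_const _ (n3 a)]
    refine lintegral_congr fun z => ?_
    rw [← lintegral_const_mul _ (n4 b)]
  have m1 : Measurable fun s : (((Ω × ℝ) × ℝ) × E n) × E n =>
      f s.1.1.1.1 s.1.1.1.2 s.1.2 * g s.1.1.1.1 s.1.1.2 s.2 :=
    (mf measurable_fst.fst.fst.fst measurable_fst.fst.fst.snd measurable_fst.snd).mul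
      (mg measurable_fst.fst.fst.fst measurable_fst.fst.snd measurable_snd)
  have m2 : Measurable fun s : ((Ω × ℝ) × ℝ) × E n =>
      ∫⁻ w in ann n R', f s.1.1.1 s.1.1.2 s.2 * g s.1.1.1 s.1.2 w := m1.lintegral_prod_right'
  have m3 : Measurable fun s : (Ω × ℝ) × ℝ =>
      ∫⁻ z in ann n R, ∫⁻ w in ann n R', f s.1.1 s.1.2 z * g s.1.1 s.2 w :=
    m2.lintegral_prod_right'
  have m4 : Measurable fun s : Ω × ℝ =>
      ∫⁻ b in tI n, ∫⁻ z in ann n R, ∫⁻ w in ann n R', f s.1 s.2 z * g s.1 b w :=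
    m3.lintegral_prod_right'
  have m5 : Measurable fun ω : Ω => ∫⁻ a in tI n,
      ∫⁻ b in tI n, ∫⁻ z in ann n R, ∫⁻ w in ann n R', f ω a z * g ω b w :=
    m4.lintegral_prod_right'
  have e2 : ∫⁻ ω, (∫⁻ a in tI n, ∫⁻ b in tI n, ∫⁻ z in ann n R, ∫⁻ w in ann n R',
      f ω a z * g ω b w) ∂H =
      ∫⁻ a in tI n, ∫⁻ b in tI n, ∫⁻ z in ann n R, ∫⁻ w in ann n R',
        ∫⁻ ω, f ω a z * g ω b w ∂H := by
    rw [lintegral_lintegral_swap m4.aemeasurable]
    refine lintegral_congr fun a => ?_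
    have q3 : Measurable fun s : Ω × ℝ =>
        ∫⁻ z in ann n R, ∫⁻ w in ann n R', f s.1 a z * g s.1 s.2 w :=
      m3.comp (g := fun s : (Ω × ℝ) × ℝ =>
        ∫⁻ z in ann n R, ∫⁻ w in ann n R', f s.1.1 s.1.2 z * g s.1.1 s.2 w)
        (f := fun s : Ω × ℝ => ((s.1, a), s.2))
        ((measurable_fst.prodMk measurable_const).prodMk measurable_snd)
    rw [lintegral_lintegral_swap q3.aemeasurable]
    refine lintegral_congr fun b => ?_
    have q2 : Measurable fun s : Ω × E n =>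
        ∫⁻ w in ann n R', f s.1 a s.2 * g s.1 b w :=
      m2.comp (g := fun s : ((Ω × ℝ) × ℝ) × E n =>
        ∫⁻ w in ann n R', f s.1.1.1 s.1.1.2 s.2 * g s.1.1.1 s.1.2 w)
        (f := fun s : Ω × E n => (((s.1, a), b), s.2))
        (((measurable_fst.prodMk measurable_const).prodMk measurable_const).prodMk
        measurable_snd)
    rw [lintegral_lintegral_swap q2.aemeasurable]
    refine lintegral_congr fun z => ?_
    have q1 : Measurable fun s : Ω × E n => f s.1 a z * g s.1 b s.2 :=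
      m1.comp (g := fun s : (((Ω × ℝ) × ℝ) × E n) × E n =>
        f s.1.1.1.1 s.1.1.1.2 s.1.2 * g s.1.1.1.1 s.1.1.2 s.2)
        (f := fun s : Ω × E n => ((((s.1, a), b), z), s.2))
        ((((measurable_fst.prodMk measurable_const).prodMk measurable_const).prodMk
        measurable_const).prodMk measurable_snd)
    rw [lintegral_lintegral_swap q1.aemeasurable]
  rw [← e2, ← lintegral_const_mul _ m5]
  refine lintegral_congr fun ω => ?_
  rw [← e1 ω]
  unfold pairs_g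
  simp only [hf, hg]
  ring

end

/-- The square of a finite sum in an ordered form. -/
theorem pairs_sq_sum (g : ℕ → ℝ≥0∞) (K : ℕ) : (∑ k ∈ Finset.range K, g k) ^ 2 =
    ∑ k ∈ Finset.range K, g k ^ 2 +
      2 * ∑ j ∈ Finset.range K, ∑ i ∈ Finset.range j, g i * g j := by
  induction K with
  | zero => simp
  | succ K ih =>
    rw [Finset.sum_range_succ, Finset.sum_range_succ, Finset.sum_range_succ, add_sq, ih,
      ← Finset.sum_mul]
    ring

theorem exists_pairs (n K : ℕ) (hn : 100 ≤ n) (hK : K + 1 ≤ n) (R : ℝ) (hR : 0 < R)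
    (ψ : ℕ → E n → ℝ≥0∞) (hψ : ∀ k, Measurable (ψ k)) (h1 : ∀ k < K, ∀ x, ψ k x ≤ 1) :
    ∃ Pi : ℕ → ℕ → E n → ℝ≥0∞, (∀ i j, Measurable (Pi i j)) ∧
      (∀ p, UU n K R ψ p ^ 2 ≤ UU n K R ψ p +
        2 * ∑ j ∈ Finset.range K, ∑ i ∈ Finset.range j, Pi i j p) ∧
      (∀ i j p, i < j → j < K → Pi i j p ≤ av n (2 ^ i * R) (ψ i) p) ∧
      (∀ i j p, i < j → j < K → Pi i j p ≤ av n (2 ^ j * R) (ψ j) p) ∧
      (∀ i j p, i < j → j < K →
        Pi i j p ≤ ∫⁻ z, ∫⁻ w, ψ i (p + z) * ψ j (p + w) * kap n R i j z w) := by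
  obtain ⟨Ω, mΩ, H, A, hprob, hA, hinv⟩ := exists_rot n
  obtain ⟨v, e, he, hv, hve, hvv⟩ := exists_frame n K hK
  have gm : ∀ k, Measurable fun q : E n × Ω =>
      pairs_g n A (v k) e (2 ^ k * R) (ψ k) q.1 q.2 := fun k => pairs_g_meas hA _ _ _ (hψ k)
  have gmp : ∀ k p, Measurable fun ω : Ω => pairs_g n A (v k) e (2 ^ k * R) (ψ k) p ω :=
    fun k p => (gm k).comp (measurable_const.prodMk measurable_id)
  have g1 : ∀ k < K, ∀ p ω, pairs_g n A (v k) e (2 ^ k * R) (ψ k) p ω ≤ 1 := fun k hk p ω =>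
    pairs_g_le_one _ _ _ (h1 k hk) p ω
  have gi : ∀ k < K, ∀ p, ∫⁻ ω, pairs_g n A (v k) e (2 ^ k * R) (ψ k) p ω ∂H =
      av n (2 ^ k * R) (ψ k) p := fun k hk p =>
    pairs_g_int (by omega) H hA hinv (hv k hk) he (hve k hk) _ (hψ k) p
  have hmj : ∀ p j, Measurable fun ω : Ω => ∑ i ∈ Finset.range j,
      pairs_g n A (v i) e (2 ^ i * R) (ψ i) p ω * pairs_g n A (v j) e (2 ^ j * R) (ψ j) p ω :=
    fun p j => Finset.measurable_sum _ fun i _ => (gmp i p).mul (gmp j p)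
  have hmm : ∀ p, Measurable fun ω : Ω => ∑ j ∈ Finset.range K, ∑ i ∈ Finset.range j,
      pairs_g n A (v i) e (2 ^ i * R) (ψ i) p ω * pairs_g n A (v j) e (2 ^ j * R) (ψ j) p ω :=
    fun p => Finset.measurable_sum _ fun j _ => hmj p j
  refine ⟨fun i j p => ∫⁻ ω, pairs_g n A (v i) e (2 ^ i * R) (ψ i) p ω *
    pairs_g n A (v j) e (2 ^ j * R) (ψ j) p ω ∂H, ?_, ?_, ?_, ?_, ?_⟩
  · intro i j
    exact Measurable.lintegral_prod_right' ((gm i).mul (gm j))
  · intro p
    have hU : UU n K R ψ p = ∫⁻ ω, ∑ k ∈ Finset.range K,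
        pairs_g n A (v k) e (2 ^ k * R) (ψ k) p ω ∂H := by
      unfold UU
      rw [lintegral_finsetSum _ fun k _ => gmp k p]
      exact Finset.sum_congr rfl fun k hk => (gi k (Finset.mem_range.1 hk) p).symm
    have hm : Measurable fun ω : Ω => ∑ k ∈ Finset.range K,
        pairs_g n A (v k) e (2 ^ k * R) (ψ k) p ω :=
      Finset.measurable_sum _ fun k _ => gmp k p
    have hJ : UU n K R ψ p ^ 2 ≤ ∫⁻ ω, (∑ k ∈ Finset.range K,
        pairs_g n A (v k) e (2 ^ k * R) (ψ k) p ω) ^ 2 ∂H := by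
      rw [hU]
      have h := ENNReal.lintegral_mul_le_Lp_mul_Lq H Real.HolderConjugate.two_two hm.aemeasurable
        (aemeasurable_const (b := (1 : ℝ≥0∞)))
      simp only [Pi.mul_apply, mul_one, ENNReal.one_rpow, lintegral_const, measure_univ] at h
      calc (∫⁻ ω, ∑ k ∈ Finset.range K, pairs_g n A (v k) e (2 ^ k * R) (ψ k) p ω ∂H) ^ 2
          ≤ ((∫⁻ ω, (∑ k ∈ Finset.range K, pairs_g n A (v k) e (2 ^ k * R) (ψ k) p ω) ^ (2 : ℝ) ∂H)
            ^ (1 / (2 : ℝ))) ^ 2 := by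
            gcongr
        _ = ∫⁻ ω, (∑ k ∈ Finset.range K, pairs_g n A (v k) e (2 ^ k * R) (ψ k) p ω) ^ 2 ∂H := by
            rw [← ENNReal.rpow_natCast, ← ENNReal.rpow_mul]
            norm_num
    refine hJ.trans ?_
    simp only [pairs_sq_sum]
    rw [lintegral_add_left (Finset.measurable_sum _ fun k _ => (gmp k p).pow_const 2),
      lintegral_finsetSum _ fun k _ => (gmp k p).pow_const 2,
      lintegral_const_mul _ (hmm p), lintegral_finsetSum _ fun j _ => hmj p j]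
    refine add_le_add ?_ ?_
    · unfold UU
      refine Finset.sum_le_sum fun k hk => ?_
      rw [← gi k (Finset.mem_range.1 hk) p]
      refine lintegral_mono fun ω => ?_
      calc pairs_g n A (v k) e (2 ^ k * R) (ψ k) p ω ^ 2
          = pairs_g n A (v k) e (2 ^ k * R) (ψ k) p ω *
            pairs_g n A (v k) e (2 ^ k * R) (ψ k) p ω := sq _
        _ ≤ pairs_g n A (v k) e (2 ^ k * R) (ψ k) p ω * 1 := by
            gcongr
            exact g1 k (Finset.mem_range.1 hk) p ω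
        _ = _ := mul_one _
    · refine mul_le_mul_right ?_ _
      refine Finset.sum_le_sum fun j _ => ?_
      exact (lintegral_finsetSum _ fun i _ => (gmp i p).mul (gmp j p)).le
  · intro i j p hij hj
    rw [← gi i (hij.trans hj) p]
    refine lintegral_mono fun ω => ?_
    calc _ ≤ pairs_g n A (v i) e (2 ^ i * R) (ψ i) p ω * 1 := by
            gcongr
            exact g1 j hj p ω
      _ = _ := mul_one _
  · intro i j p hij hj
    rw [← gi j hj p]
    refine lintegral_mono fun ω => ?_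
    calc _ ≤ 1 * pairs_g n A (v j) e (2 ^ j * R) (ψ j) p ω := by
            gcongr
            exact g1 i (hij.trans hj) p ω
      _ = _ := one_mul _
  · intro i j p hij hj
    have h := pair_law n hn H A hA hinv R hR i j hij (v i) (v j) e (hv i (hij.trans hj)) (hv j hj)
      he (hve i (hij.trans hj)) (hve j hj) (hvv i j hij hj)
      (fun z w => ψ i (p + z) * ψ j (p + w))
      (((hψ i).comp (measurable_const.add measurable_fst)).mul
        ((hψ j).comp (measurable_const.add measurable_snd)))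
    simp only []
    rw [pairs_prod H hA (v i) (v j) e _ _ (hψ i) (hψ j) p]
    refine h.trans ?_
    refine lintegral_mono fun z => lintegral_mono fun w => ?_
    exact mul_le_mul_right (kapA_le n hn R hR i j hij z w) _

end Pool.DyMax
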