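import Pool.Agent.DyMax.Pairs
import Pool.Agent.DyMax.Nondeg
import Pool.Agent.DyMax.PairL2
import Pool.Agent.DyMax.Numeric

/-! MODULE SEC: the second moment bound.

Proof: take `Pi` from `exists_pairs` (`ψ k ≤ 1` from `Sys.le_one`). Then
`∫ f U² ≤ ∫ f U + 2 ∑_{i<j} ∫ f Pi_ij`, and split `f = 1_{degen i} f + 1_{(degen i)ᶜ} f`.
(a) Degenerate part. For fixed `p`, let `I = {i < K : p ∈ degen i}`; if `i ∈ I` and `p ∉ degenAbove i`, then `i` is
the largest element of `I`, so there is at most one such `i`, and `∑_{j>i} Pi_ij(p) ≤ ∑_j S_jψ_j(p) ≤ U(p)`; if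
`p ∈ degenAbove i`, `∑_{j>i} Pi_ij(p) ≤ K S_iψ_i(p)`. So
`∑_{i<j} 1_{degen i} Pi_ij ≤ U + K ∑_i 1_{degenAbove i} S_iψ_i`, and `degen_bound` gives
`∫ f (...) ≤ ∫ f U + K 2 (5/6)^n ∫ f`.
(b) Nondegenerate part: last property of `Pi`, `nondeg_pair` with `q = 2 Kn n` for each pair, `pair_L2`:
`≤ 2000*1001 s (4 ∑∫ψ_k + K 2^{-q} ∑ ∫ψ_i) ≤ 2000*1001*5 s ∑∫ψ_k` (for each `i` at most `K` values of `j`).
(c) `∫ f U = ∑ ∫ f S_kψ_k = ∑ ∫ (S_k f) ψ_k ≤ 2 s ∑ ∫ψ_k` (lemma `av_symm`, `Sys.lvl`).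
Total: `3 * 2 s a + 4 K (5/6)^n ∫ f + 2 * 2000*1001*5 s a`, `a = ∑ ∫ψ_k`, `≤ 3·10^7 s a + ∫ f`. -/

set_option autoImplicit false

open MeasureTheory Metric
open scoped ENNReal

namespace Pool.DyMax

theorem lint_f_U (n K : ℕ) (hn : 2 ≤ n) (R : ℝ) (f : E n → ℝ≥0∞) (hf : Measurable f)
    (ψ : ℕ → E n → ℝ≥0∞) (hψ : ∀ k, Measurable (ψ k)) :
    ∫⁻ p, f p * UU n K R ψ p = ∑ k ∈ Finset.range K, ∫⁻ x, av n (2 ^ k * R) f x * ψ k x := by
  have h1 : ∀ p, f p * UU n K R ψ p =
      ∑ k ∈ Finset.range K, f p * av n (2 ^ k * R) (ψ k) p := by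
    intro p
    rw [UU, Finset.mul_sum]
  simp_rw [h1]
  have hm : ∀ k ∈ Finset.range K, Measurable (fun p => f p * av n (2 ^ k * R) (ψ k) p) :=
    fun k _ => hf.mul (av_meas (hψ k))
  rw [lintegral_finsetSum _ hm]
  exact Finset.sum_congr rfl (fun k _ => av_symm hf (hψ k))

private theorem sec_UU_meas (n K : ℕ) (R : ℝ) (ψ : ℕ → E n → ℝ≥0∞) (hψ : ∀ k, Measurable (ψ k)) :
    Measurable (UU n K R ψ) := by
  unfold UU
  exact Finset.measurable_sum _ (fun k _ => av_meas (hψ k))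

/-- `∫ f U ≤ 2 s ∑ ∫ ψ_k`. -/
private theorem sec_lint_f_U_le (n K : ℕ) (hn : 2 ≤ n) (R : ℝ) (f : E n → ℝ≥0∞)
    (hf : Measurable f) (s : ℝ≥0∞) (ψ : ℕ → E n → ℝ≥0∞) (hψ : Sys n K R f s ψ) :
    ∫⁻ p, f p * UU n K R ψ p ≤ 2 * s * ∑ k ∈ Finset.range K, ∫⁻ x, ψ k x := by
  rw [lint_f_U n K hn R f hf ψ hψ.meas, Finset.mul_sum]
  refine Finset.sum_le_sum (fun k hk => ?_)
  have hk' : k < K := Finset.mem_range.mp hk
  rw [← lintegral_const_mul _ (hψ.meas k)]
  refine lintegral_mono (fun x => ?_)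
  by_cases hx : ψ k x = 0
  · simp [hx]
  · exact mul_le_mul_left (hψ.lvl k hk' x hx) _

/-- At most one index is degenerate and not degenerate above. -/
private theorem sec_one (n K : ℕ) (R : ℝ) (f : E n → ℝ≥0∞) (s : ℝ≥0∞) (p : E n) (c : ℝ≥0∞) :
    ∑ i ∈ Finset.range K, (degen n R f s i \ degenAbove n K R f s i).indicator (fun _ => c) p ≤
      c := by
  classical
  have h : ∀ i, (degen n R f s i \ degenAbove n K R f s i).indicator (fun _ => c) p =
      if p ∈ degen n R f s i \ degenAbove n K R f s i then c else 0 := by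
    intro i
    rw [Set.indicator_apply]
  simp_rw [h]
  rw [← Finset.sum_filter, Finset.sum_const]
  have hcard : (Finset.filter (fun i => p ∈ degen n R f s i \ degenAbove n K R f s i)
      (Finset.range K)).card ≤ 1 := by
    rw [Finset.card_le_one]
    intro a ha b hb
    rw [Finset.mem_filter, Finset.mem_range] at ha hb
    obtain ⟨haK, ha1, ha2⟩ := ha
    obtain ⟨hbK, hb1, hb2⟩ := hb
    by_contra hab
    rcases lt_or_gt_of_ne hab with h1 | h1
    · exact ha2 ⟨b, h1, hbK, hb1⟩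
    · exact hb2 ⟨a, h1, haK, ha1⟩
  calc _ ≤ (1 : ℕ) • c := nsmul_le_nsmul_left zero_le hcard
    _ = c := one_nsmul c

/-- Swap of the two summations. -/
private theorem sec_swap (K : ℕ) (F : ℕ → ℕ → ℝ≥0∞) :
    ∑ j ∈ Finset.range K, ∑ i ∈ Finset.range j, F i j =
      ∑ i ∈ Finset.range K, ∑ j ∈ (Finset.range K).filter (fun j => i < j), F i j := by
  rw [Finset.sum_comm']
  intro j i
  simp only [Finset.mem_range, Finset.mem_filter]
  constructor
  · rintro ⟨h1, h2⟩
    exact ⟨⟨h1, h2⟩, by omega⟩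
  · rintro ⟨⟨h1, h2⟩, h3⟩
    exact ⟨h1, h2⟩

/-- The degenerate part, pointwise. -/
private theorem sec_deg (n K : ℕ) (R : ℝ) (f : E n → ℝ≥0∞) (s : ℝ≥0∞) (ψ : ℕ → E n → ℝ≥0∞)
    (Pi : ℕ → ℕ → E n → ℝ≥0∞)
    (hi : ∀ i j p, i < j → j < K → Pi i j p ≤ av n (2 ^ i * R) (ψ i) p)
    (hj : ∀ i j p, i < j → j < K → Pi i j p ≤ av n (2 ^ j * R) (ψ j) p) (p : E n) :
    ∑ j ∈ Finset.range K, ∑ i ∈ Finset.range j, (degen n R f s i).indicator (Pi i j) p ≤
      UU n K R ψ p + K * ∑ i ∈ Finset.range K,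
        (degenAbove n K R f s i).indicator (av n (2 ^ i * R) (ψ i)) p := by
  classical
  rw [sec_swap K (fun i j => (degen n R f s i).indicator (Pi i j) p)]
  have key : ∀ i ∈ Finset.range K,
      ∑ j ∈ (Finset.range K).filter (fun j => i < j), (degen n R f s i).indicator (Pi i j) p ≤
        (degen n R f s i \ degenAbove n K R f s i).indicator (fun _ => UU n K R ψ p) p +
        K * (degenAbove n K R f s i).indicator (av n (2 ^ i * R) (ψ i)) p := by
    intro i hiK
    by_cases hd : p ∈ degen n R f s i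
    · by_cases ha : p ∈ degenAbove n K R f s i
      · rw [Set.indicator_of_mem ha]
        refine le_trans ?_ le_add_self
        calc ∑ j ∈ (Finset.range K).filter (fun j => i < j),
              (degen n R f s i).indicator (Pi i j) p
            ≤ ∑ j ∈ (Finset.range K).filter (fun j => i < j), av n (2 ^ i * R) (ψ i) p := by
              refine Finset.sum_le_sum (fun j hj' => ?_)
              rw [Finset.mem_filter, Finset.mem_range] at hj'
              rw [Set.indicator_of_mem hd]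
              exact hi i j p hj'.2 hj'.1
          _ ≤ ∑ j ∈ Finset.range K, av n (2 ^ i * R) (ψ i) p :=
              Finset.sum_le_sum_of_subset (Finset.filter_subset _ _)
          _ = K * av n (2 ^ i * R) (ψ i) p := by
              rw [Finset.sum_const, Finset.card_range, nsmul_eq_mul]
      · rw [Set.indicator_of_mem (show p ∈ degen n R f s i \ degenAbove n K R f s i from ⟨hd, ha⟩)]
        refine le_trans ?_ le_self_add
        calc ∑ j ∈ (Finset.range K).filter (fun j => i < j),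
              (degen n R f s i).indicator (Pi i j) p
            ≤ ∑ j ∈ (Finset.range K).filter (fun j => i < j), av n (2 ^ j * R) (ψ j) p := by
              refine Finset.sum_le_sum (fun j hj' => ?_)
              rw [Finset.mem_filter, Finset.mem_range] at hj'
              rw [Set.indicator_of_mem hd]
              exact hj i j p hj'.2 hj'.1
          _ ≤ ∑ j ∈ Finset.range K, av n (2 ^ j * R) (ψ j) p :=
              Finset.sum_le_sum_of_subset (Finset.filter_subset _ _)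
          _ = UU n K R ψ p := rfl
    · have h0 : ∑ j ∈ (Finset.range K).filter (fun j => i < j),
          (degen n R f s i).indicator (Pi i j) p = 0 := by
        refine Finset.sum_eq_zero (fun j _ => ?_)
        rw [Set.indicator_of_notMem hd]
      rw [h0]
      exact zero_le
  calc _ ≤ ∑ i ∈ Finset.range K,
        ((degen n R f s i \ degenAbove n K R f s i).indicator (fun _ => UU n K R ψ p) p +
        K * (degenAbove n K R f s i).indicator (av n (2 ^ i * R) (ψ i)) p) :=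
        Finset.sum_le_sum key
    _ = ∑ i ∈ Finset.range K,
        (degen n R f s i \ degenAbove n K R f s i).indicator (fun _ => UU n K R ψ p) p +
        K * ∑ i ∈ Finset.range K,
          (degenAbove n K R f s i).indicator (av n (2 ^ i * R) (ψ i)) p := by
        rw [Finset.sum_add_distrib, Finset.mul_sum]
    _ ≤ _ := by
        gcongr
        exact sec_one n K R f s p _

/-- The nondegenerate part. -/
private theorem sec_nondeg (n K : ℕ) (hn : 100 ≤ n) (hK : 2 * K + 1 ≤ n) (q : ℕ) (hq : 1 ≤ q)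
    (hqn : Real.sqrt n * 33 ^ q * 2 * (9 / 10) ^ n ≤ 1)
    (hKq : (K : ℝ) * (1 / 2) ^ q ≤ 1)
    (R : ℝ) (hR : 0 < R) (f : E n → ℝ≥0∞) (hf : Measurable f)
    (s : ℝ≥0∞) (hs : s ≠ 0) (hs' : s ≠ ∞) (ψ : ℕ → E n → ℝ≥0∞) (hψ : Sys n K R f s ψ)
    (hψ1 : ∀ k < K, ∀ x, ψ k x ≤ 1)
    (Pi : ℕ → ℕ → E n → ℝ≥0∞)
    (hk : ∀ i j p, i < j → j < K →
        Pi i j p ≤ ∫⁻ z, ∫⁻ w, ψ i (p + z) * ψ j (p + w) * kap n R i j z w) :
    ∑ j ∈ Finset.range K, ∑ i ∈ Finset.range j,
      ∫⁻ p, (degen n R f s i)ᶜ.indicator f p * Pi i j p ≤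
      2000 * 1001 * s * (5 * ∑ k ∈ Finset.range K, ∫⁻ x, ψ k x) := by
  have hKq' : (K : ℝ≥0∞) * 2⁻¹ ^ q ≤ 1 := by
    have h1 : (2 : ℝ≥0∞)⁻¹ = ENNReal.ofReal (1 / 2) := by
      rw [one_div, ENNReal.ofReal_inv_of_pos (by norm_num)]
      norm_num
    rw [h1, ← ENNReal.ofReal_pow (by norm_num), ← ENNReal.ofReal_natCast,
      ← ENNReal.ofReal_mul (by positivity), ← ENNReal.ofReal_one]
    exact ENNReal.ofReal_le_ofReal hKq
  calc ∑ j ∈ Finset.range K, ∑ i ∈ Finset.range j,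
      ∫⁻ p, (degen n R f s i)ᶜ.indicator f p * Pi i j p
      ≤ ∑ j ∈ Finset.range K, ∑ i ∈ Finset.range j,
        2000 * 1001 * s * ((∫⁻ x, ψ i x * bav n (rp n R i j) (ψ j) x) + 2⁻¹ ^ q * ∫⁻ x, ψ i x) := by
        refine Finset.sum_le_sum (fun j hj => Finset.sum_le_sum (fun i hi => ?_))
        have hjK : j < K := Finset.mem_range.mp hj
        have hij : i < j := Finset.mem_range.mp hi
        refine le_trans (lintegral_mono (fun p => ?_))
          (nondeg_pair n hn R hR f hf s hs hs' i j hij q hq hqn (ψ i) (ψ j) (hψ.meas i)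
            (hψ.meas j) (hψ1 j hjK) (hψ.lvl i (by omega)))
        exact mul_le_mul_right (hk i j p hij hjK) _
    _ = 2000 * 1001 * s * ((∑ j ∈ Finset.range K, ∑ i ∈ Finset.range j,
          ∫⁻ x, ψ i x * bav n (rp n R i j) (ψ j) x) +
          2⁻¹ ^ q * ∑ j ∈ Finset.range K, ∑ i ∈ Finset.range j, ∫⁻ x, ψ i x) := by
        simp_rw [← Finset.mul_sum, Finset.sum_add_distrib, ← Finset.mul_sum]
    _ ≤ 2000 * 1001 * s * (4 * (∑ k ∈ Finset.range K, ∫⁻ x, ψ k x) +
          1 * ∑ k ∈ Finset.range K, ∫⁻ x, ψ k x) := by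
        refine mul_le_mul_right (add_le_add ?_ ?_) _
        · exact pair_L2 n K hn hK R hR ψ hψ.meas hψ.le_one hψ.fin
        · have h2 : ∑ j ∈ Finset.range K, ∑ i ∈ Finset.range j, ∫⁻ x, ψ i x ≤
              K * ∑ k ∈ Finset.range K, ∫⁻ x, ψ k x := by
            calc ∑ j ∈ Finset.range K, ∑ i ∈ Finset.range j, ∫⁻ x, ψ i x
                ≤ ∑ j ∈ Finset.range K, ∑ i ∈ Finset.range K, ∫⁻ x, ψ i x := by
                  refine Finset.sum_le_sum (fun j hj => Finset.sum_le_sum_of_subset ?_)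
                  intro i hi
                  rw [Finset.mem_range] at hi hj ⊢
                  omega
              _ = K * ∑ k ∈ Finset.range K, ∫⁻ x, ψ k x := by
                  rw [Finset.sum_const, Finset.card_range, nsmul_eq_mul]
          calc 2⁻¹ ^ q * ∑ j ∈ Finset.range K, ∑ i ∈ Finset.range j, ∫⁻ x, ψ i x
              ≤ 2⁻¹ ^ q * (K * ∑ k ∈ Finset.range K, ∫⁻ x, ψ k x) := by gcongr
            _ = (K * 2⁻¹ ^ q) * ∑ k ∈ Finset.range K, ∫⁻ x, ψ k x := by ring
            _ ≤ 1 * ∑ k ∈ Finset.range K, ∫⁻ x, ψ k x := by gcongr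
    _ = 2000 * 1001 * s * (5 * ∑ k ∈ Finset.range K, ∫⁻ x, ψ k x) := by ring

theorem second (n K : ℕ) (hn : 100 ≤ n) (hK : 2 * K + 1 ≤ n) (q : ℕ) (hq : 1 ≤ q)
    (hqn : Real.sqrt n * 33 ^ q * 2 * (9 / 10) ^ n ≤ 1) (hKn : (4 * K : ℝ) * (5 / 6) ^ n ≤ 1)
    (hKq : (K : ℝ) * (1 / 2) ^ q ≤ 1)
    (R : ℝ) (hR : 0 < R) (f : E n → ℝ≥0∞) (hf : Measurable f) (hfi : ∫⁻ x, f x ≠ ∞)
    (s : ℝ≥0∞) (hs : s ≠ 0) (hs' : s ≠ ∞) (ψ : ℕ → E n → ℝ≥0∞) (hψ : Sys n K R f s ψ) :
    ∫⁻ p, f p * UU n K R ψ p ^ 2 ≤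
      30000000 * s * (∑ k ∈ Finset.range K, ∫⁻ x, ψ k x) + ∫⁻ x, f x := by
  classical
  have hψ1 : ∀ k < K, ∀ x, ψ k x ≤ 1 := by
    intro k hk x
    refine le_trans ?_ (hψ.le_one x)
    exact Finset.single_le_sum (f := fun k => ψ k x) (fun _ _ => zero_le) (Finset.mem_range.mpr hk)
  obtain ⟨Pi, hPm, hP2, hPi, hPj, hPk⟩ := exists_pairs n K hn (by omega) R hR ψ hψ.meas hψ1
  set a : ℝ≥0∞ := ∑ k ∈ Finset.range K, ∫⁻ x, ψ k x with ha
  have hUm := sec_UU_meas n K R ψ hψ.meas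
  have hKn' : (4 * K : ℝ≥0∞) * ENNReal.ofReal ((5 / 6) ^ n) ≤ 1 := by
    have h1 : (4 * K : ℝ≥0∞) = ENNReal.ofReal (4 * K) := by
      rw [ENNReal.ofReal_mul (by norm_num), ENNReal.ofReal_natCast]
      norm_num
    rw [h1, ← ENNReal.ofReal_mul (by positivity), ← ENNReal.ofReal_one]
    exact ENNReal.ofReal_le_ofReal hKn
  have hAm : Measurable (fun p => ∑ i ∈ Finset.range K,
      (degenAbove n K R f s i).indicator (av n (2 ^ i * R) (ψ i)) p) :=
    Finset.measurable_fun_sum _ (fun i _ => (av_meas (hψ.meas i)).indicator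
      (degenAbove_meas n K R f hf s i))
  have hNm : ∀ i j, Measurable (fun p => (degen n R f s i)ᶜ.indicator f p * Pi i j p) := by
    intro i j
    exact (hf.indicator (degen_meas n R f hf s i).compl).mul (hPm i j)
  have hm1 : Measurable (fun p => f p * UU n K R ψ p) := hf.mul hUm
  have hm2 : Measurable (fun p => f p * ∑ i ∈ Finset.range K,
      (degenAbove n K R f s i).indicator (av n (2 ^ i * R) (ψ i)) p) := hf.mul hAm
  have hm3 : Measurable (fun p => 3 * (f p * UU n K R ψ p)) := hm1.const_mul 3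
  have hm4 : Measurable (fun p => 2 * (K : ℝ≥0∞) * (f p * ∑ i ∈ Finset.range K,
      (degenAbove n K R f s i).indicator (av n (2 ^ i * R) (ψ i)) p)) := hm2.const_mul _
  have hm5 : ∀ j ∈ Finset.range K, Measurable (fun p => ∑ i ∈ Finset.range j,
      (degen n R f s i)ᶜ.indicator f p * Pi i j p) :=
    fun j _ => Finset.measurable_fun_sum _ (fun i _ => hNm i j)
  -- pointwise bound
  have hpt : ∀ p, f p * UU n K R ψ p ^ 2 ≤
      (3 * (f p * UU n K R ψ p) + 2 * K * (f p * ∑ i ∈ Finset.range K,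
        (degenAbove n K R f s i).indicator (av n (2 ^ i * R) (ψ i)) p)) +
      2 * ∑ j ∈ Finset.range K, ∑ i ∈ Finset.range j,
        (degen n R f s i)ᶜ.indicator f p * Pi i j p := by
    intro p
    have hsplit : f p * ∑ j ∈ Finset.range K, ∑ i ∈ Finset.range j, Pi i j p =
        f p * (∑ j ∈ Finset.range K, ∑ i ∈ Finset.range j,
          (degen n R f s i).indicator (Pi i j) p) +
        ∑ j ∈ Finset.range K, ∑ i ∈ Finset.range j,
          (degen n R f s i)ᶜ.indicator f p * Pi i j p := by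
      simp_rw [Finset.mul_sum]
      rw [← Finset.sum_add_distrib]
      refine Finset.sum_congr rfl (fun j _ => ?_)
      rw [← Finset.sum_add_distrib]
      refine Finset.sum_congr rfl (fun i _ => ?_)
      by_cases hd : p ∈ degen n R f s i
      · rw [Set.indicator_of_mem hd, Set.indicator_of_notMem (Set.notMem_compl_iff.mpr hd)]
        simp
      · rw [Set.indicator_of_notMem hd, Set.indicator_of_mem (show p ∈ (degen n R f s i)ᶜ from hd)]
        simp
    have hdeg := sec_deg n K R f s ψ Pi hPi hPj p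
    calc f p * UU n K R ψ p ^ 2
        ≤ f p * (UU n K R ψ p + 2 * ∑ j ∈ Finset.range K, ∑ i ∈ Finset.range j, Pi i j p) := by
          gcongr
          exact hP2 p
      _ = f p * UU n K R ψ p +
          2 * (f p * ∑ j ∈ Finset.range K, ∑ i ∈ Finset.range j, Pi i j p) := by ring
      _ = f p * UU n K R ψ p +
          2 * (f p * (∑ j ∈ Finset.range K, ∑ i ∈ Finset.range j,
            (degen n R f s i).indicator (Pi i j) p) +
          ∑ j ∈ Finset.range K, ∑ i ∈ Finset.range j,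
            (degen n R f s i)ᶜ.indicator f p * Pi i j p) := by rw [hsplit]
      _ ≤ f p * UU n K R ψ p +
          2 * (f p * (UU n K R ψ p + K * ∑ i ∈ Finset.range K,
            (degenAbove n K R f s i).indicator (av n (2 ^ i * R) (ψ i)) p) +
          ∑ j ∈ Finset.range K, ∑ i ∈ Finset.range j,
            (degen n R f s i)ᶜ.indicator f p * Pi i j p) := by gcongr
      _ = _ := by ring
  calc ∫⁻ p, f p * UU n K R ψ p ^ 2
      ≤ ∫⁻ p, ((3 * (f p * UU n K R ψ p) + 2 * K * (f p * ∑ i ∈ Finset.range K,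
        (degenAbove n K R f s i).indicator (av n (2 ^ i * R) (ψ i)) p)) +
      2 * ∑ j ∈ Finset.range K, ∑ i ∈ Finset.range j,
        (degen n R f s i)ᶜ.indicator f p * Pi i j p) := lintegral_mono hpt
    _ = (3 * (∫⁻ p, f p * UU n K R ψ p) + 2 * K * ∫⁻ p, f p * ∑ i ∈ Finset.range K,
        (degenAbove n K R f s i).indicator (av n (2 ^ i * R) (ψ i)) p) +
        2 * ∑ j ∈ Finset.range K, ∑ i ∈ Finset.range j,
          ∫⁻ p, (degen n R f s i)ᶜ.indicator f p * Pi i j p := by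
        have hm34 : Measurable (fun p => 3 * (f p * UU n K R ψ p) +
            2 * (K : ℝ≥0∞) * (f p * ∑ i ∈ Finset.range K,
              (degenAbove n K R f s i).indicator (av n (2 ^ i * R) (ψ i)) p)) := hm3.add hm4
        rw [lintegral_add_left hm34, lintegral_add_left hm3, lintegral_const_mul _ hm1,
          lintegral_const_mul _ hm2, lintegral_const_mul _ (Finset.measurable_fun_sum _ hm5),
          lintegral_finsetSum _ hm5]
        congr 2
        refine Finset.sum_congr rfl (fun j _ => ?_)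
        rw [lintegral_finsetSum _ (fun i _ => hNm i j)]
    _ ≤ (3 * (2 * s * a) + 2 * K * (2 * ENNReal.ofReal ((5 / 6) ^ n) * ∫⁻ x, f x)) +
        2 * (2000 * 1001 * s * (5 * a)) := by
        gcongr
        · exact sec_lint_f_U_le n K (by omega) R f hf s ψ hψ
        · exact degen_bound n K (by omega) R hR f hf hfi s hs hs' ψ hψ
        · exact sec_nondeg n K hn hK q hq hqn hKq R hR f hf s hs hs' ψ hψ hψ1 Pi hPk
    _ = (20020006 : ℝ≥0∞) * s * a + (4 * K * ENNReal.ofReal ((5 / 6) ^ n)) * ∫⁻ x, f x := by ring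
    _ ≤ 30000000 * s * a + 1 * ∫⁻ x, f x := by
        gcongr
        norm_num
    _ = 30000000 * s * a + ∫⁻ x, f x := by rw [one_mul]

end Pool.DyMax
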