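import Pool.Agent.DyMax.Basic

/-! MODULE SHELL: from annuli to balls.

Proof: put `λ = 1 - 1/n`. The ball `B(x, r)` minus its centre is the disjoint union over `a ∈ ℕ` of
`x + ann n (λ^a r)`, and `|ann n (λ^a r)| ≤ |ball (λ^a r)| = λ^(a n) |ball r| ≤ (4/9)^a |ball r|`, because
`λ^n ≤ e^{-1} < 4/9`. If `∫_{B(x,r)} f > s |B(r)|` then for some `a`
`∫_{x + ann(λ^a r)} f > (s/3) (2/3)^a |B(r)| ≥ (s/3) (3/2)^a |ann(λ^a r)|` (otherwise sum over `a`:
`∑ (1/3)(2/3)^a = 1`), i.e. `av n (λ^a r) f x > (s/3)(3/2)^a`. With `r = 2^k R`, `λ^a r = 2^k (λ^a R)`: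
apply the hypothesis with `R` replaced by `λ^a R` and `s` by `(s/3)(3/2)^a`, and sum over `a`
(`∑ 3 (2/3)^a = 9`). -/

set_option autoImplicit false

open MeasureTheory Metric
open scoped ENNReal

namespace Pool.DyMax

theorem lam_pow (n : ℕ) (hn : 2 ≤ n) : (1 - 1 / (n : ℝ)) ^ n ≤ 4 / 9 := by
  have hn' : (2 : ℝ) ≤ n := by exact_mod_cast hn
  have h0 : (0 : ℝ) ≤ 1 - 1 / (n : ℝ) := by
    rw [sub_nonneg, div_le_one (by linarith)]; linarith
  have h1 : 1 - 1 / (n : ℝ) ≤ Real.exp (-(1 / (n : ℝ))) := by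
    have := Real.add_one_le_exp (-(1 / (n : ℝ)))
    linarith
  calc (1 - 1 / (n : ℝ)) ^ n ≤ Real.exp (-(1 / (n : ℝ))) ^ n := pow_le_pow_left₀ h0 h1 n
    _ = Real.exp (n * (-(1 / (n : ℝ)))) := by rw [← Real.exp_nat_mul]
    _ = Real.exp (-1) := by
        congr 1
        field_simp
    _ ≤ 4 / 9 := by
        rw [Real.exp_neg, show (4 / 9 : ℝ) = (9 / 4)⁻¹ by norm_num]
        apply inv_anti₀ (by norm_num)
        have := Real.exp_one_gt_d9
        linarith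

theorem ball_subset_anns (n : ℕ) (hn : 2 ≤ n) (r : ℝ) :
    ball (0 : E n) r ⊆ {0} ∪ ⋃ a : ℕ, ann n ((1 - 1 / (n : ℝ)) ^ a * r) := by
  intro z hz
  rw [mem_ball_zero_iff] at hz
  by_cases h0 : z = 0
  · exact Or.inl h0
  right
  have hzp : 0 < ‖z‖ := norm_pos_iff.2 h0
  have hr : 0 < r := hzp.trans hz
  have hn' : (2 : ℝ) ≤ n := by exact_mod_cast hn
  have hl0 : (0 : ℝ) ≤ 1 - 1 / (n : ℝ) := by
    rw [sub_nonneg, div_le_one (by linarith)]; linarith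
  have hl1 : 1 - 1 / (n : ℝ) < 1 := by
    have : 0 < 1 / (n : ℝ) := by positivity
    linarith
  have hex : ∃ a : ℕ, (1 - 1 / (n : ℝ)) ^ (a + 1) * r ≤ ‖z‖ := by
    obtain ⟨a, ha⟩ := exists_pow_lt_of_lt_one (div_pos hzp hr) hl1
    refine ⟨a, ?_⟩
    have h1 : (1 - 1 / (n : ℝ)) ^ (a + 1) ≤ (1 - 1 / (n : ℝ)) ^ a :=
      pow_le_pow_of_le_one hl0 hl1.le (Nat.le_succ a)
    have h2 : (1 - 1 / (n : ℝ)) ^ (a + 1) < ‖z‖ / r := h1.trans_lt ha
    exact ((lt_div_iff₀ hr).1 h2).le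
  classical
  have hs := Nat.find_spec hex
  refine Set.mem_iUnion.2 ⟨Nat.find hex, ?_, ?_⟩
  · calc (1 - 1 / (n : ℝ)) * ((1 - 1 / (n : ℝ)) ^ (Nat.find hex) * r)
        = (1 - 1 / (n : ℝ)) ^ (Nat.find hex + 1) * r := by rw [pow_succ]; ring
      _ ≤ ‖z‖ := hs
  · rcases Nat.eq_zero_or_pos (Nat.find hex) with h | h
    · rw [h, pow_zero, one_mul]
      exact hz
    · have h1 := Nat.find_min hex (Nat.sub_lt h Nat.one_pos)
      rw [Nat.sub_add_cancel h] at h1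
      exact not_le.1 h1

theorem tsum_two_thirds (c : ℝ) (hc : 0 ≤ c) :
    ∑' a : ℕ, ENNReal.ofReal (c * (2 / 3) ^ a) = ENNReal.ofReal (3 * c) := by
  rw [← ENNReal.ofReal_tsum_of_nonneg]
  · rw [tsum_mul_left, tsum_geometric_of_lt_one (by norm_num) (by norm_num)]
    congr 1
    ring
  · intro a
    positivity
  · exact (summable_geometric_of_lt_one (by norm_num) (by norm_num)).mul_left c

theorem shell_exists (n : ℕ) (hn : 2 ≤ n) (r : ℝ) (hr : 0 < r) (f : E n → ℝ≥0∞)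
    (s : ℝ≥0∞) (x : E n)
    (h : s * volume (ball x r) < ∫⁻ y in ball x r, f y) :
    ∃ a : ℕ, s * ENNReal.ofReal (1 / 3 * (3 / 2) ^ a) <
      av n ((1 - 1 / (n : ℝ)) ^ a * r) f x := by
  by_contra hcon
  push Not at hcon
  have hn' : (2 : ℝ) ≤ n := by exact_mod_cast hn
  have hl0 : (0 : ℝ) < 1 - 1 / (n : ℝ) := by
    rw [sub_pos, div_lt_one (by linarith)]; linarith
  haveI : Nontrivial (E n) := by
    haveI : Nonempty (Fin n) := ⟨⟨0, by omega⟩⟩
    infer_instance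
  have e1 : ∫⁻ y in ball x r, f y = ∫⁻ z in ball (0 : E n) r, f (x + z) := by
    rw [← lintegral_indicator measurableSet_ball, ← lintegral_indicator measurableSet_ball,
      ← lintegral_add_left_eq_self _ x]
    refine lintegral_congr fun z => ?_
    by_cases hz : z ∈ ball (0 : E n) r
    · have h1 : x + z ∈ ball x r := by
        rw [mem_ball, dist_eq_norm, add_sub_cancel_left]
        rwa [mem_ball_zero_iff] at hz
      rw [Set.indicator_of_mem h1, Set.indicator_of_mem hz]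
    · have h1 : x + z ∉ ball x r := by
        intro h2
        rw [mem_ball, dist_eq_norm, add_sub_cancel_left] at h2
        exact hz (by rwa [mem_ball_zero_iff])
      rw [Set.indicator_of_notMem h1, Set.indicator_of_notMem hz]
  have e2 : ∀ a : ℕ, ∫⁻ z in ann n ((1 - 1 / (n : ℝ)) ^ a * r), f (x + z) ≤
      s * volume (ball (0 : E n) r) * ENNReal.ofReal (1 / 3 * (2 / 3) ^ a) := by
    intro a
    have hra : 0 < (1 - 1 / (n : ℝ)) ^ a * r := by positivity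
    have h1 : ∫⁻ z in ann n ((1 - 1 / (n : ℝ)) ^ a * r), f (x + z) =
        volume (ann n ((1 - 1 / (n : ℝ)) ^ a * r)) * av n ((1 - 1 / (n : ℝ)) ^ a * r) f x := by
      unfold av
      rw [← mul_assoc, ENNReal.mul_inv_cancel (ann_pos hn hra) (ann_top n _), one_mul]
    have h2 : volume (ann n ((1 - 1 / (n : ℝ)) ^ a * r)) ≤
        ENNReal.ofReal ((4 / 9) ^ a) * volume (ball (0 : E n) r) := by
      refine (measure_mono (ann_subset_ball n _)).trans ?_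
      rw [Measure.addHaar_ball_mul_of_pos volume (0 : E n) (by positivity) r,
        finrank_euclideanSpace_fin]
      gcongr
      rw [← pow_mul, mul_comm a n, pow_mul]
      exact pow_le_pow_left₀ (by positivity) (lam_pow n hn) a
    rw [h1]
    calc volume (ann n ((1 - 1 / (n : ℝ)) ^ a * r)) * av n ((1 - 1 / (n : ℝ)) ^ a * r) f x
        ≤ (ENNReal.ofReal ((4 / 9) ^ a) * volume (ball (0 : E n) r)) *
            (s * ENNReal.ofReal (1 / 3 * (3 / 2) ^ a)) := by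
          gcongr
          exact hcon a
      _ = s * volume (ball (0 : E n) r) *
            (ENNReal.ofReal ((4 / 9) ^ a) * ENNReal.ofReal (1 / 3 * (3 / 2) ^ a)) := by ring
      _ = _ := by
          rw [← ENNReal.ofReal_mul (by positivity)]
          congr 2
          have : (4 / 9 : ℝ) ^ a * (1 / 3 * (3 / 2) ^ a) = 1 / 3 * ((4 / 9) * (3 / 2)) ^ a := by
            rw [mul_pow]; ring
          rw [this]
          norm_num
  have e3 : ∫⁻ y in ball x r, f y ≤ s * volume (ball x r) := by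
    rw [e1]
    calc ∫⁻ z in ball (0 : E n) r, f (x + z)
        ≤ ∫⁻ z in {0} ∪ ⋃ a : ℕ, ann n ((1 - 1 / (n : ℝ)) ^ a * r), f (x + z) :=
          lintegral_mono_set (ball_subset_anns n hn r)
      _ ≤ (∫⁻ z in {0}, f (x + z)) + ∫⁻ z in ⋃ a : ℕ, ann n ((1 - 1 / (n : ℝ)) ^ a * r), f (x + z) :=
          lintegral_union_le _ _ _
      _ = ∫⁻ z in ⋃ a : ℕ, ann n ((1 - 1 / (n : ℝ)) ^ a * r), f (x + z) := by
          rw [setLIntegral_measure_zero _ _ (measure_singleton _), zero_add]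
      _ ≤ ∑' a : ℕ, ∫⁻ z in ann n ((1 - 1 / (n : ℝ)) ^ a * r), f (x + z) :=
          lintegral_iUnion_le _ _
      _ ≤ ∑' a : ℕ, s * volume (ball (0 : E n) r) * ENNReal.ofReal (1 / 3 * (2 / 3) ^ a) :=
          ENNReal.tsum_le_tsum e2
      _ = s * volume (ball (0 : E n) r) := by
          rw [ENNReal.tsum_mul_left, tsum_two_thirds _ (by norm_num)]
          norm_num
      _ = s * volume (ball x r) := by
          rw [Measure.addHaar_ball_center volume x r]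
  exact absurd h (not_lt.2 e3)

theorem shells (n K : ℕ) (hn : 2 ≤ n) (G : ℝ≥0∞)
    (hann : ∀ R : ℝ, 0 < R → ∀ f : E n → ℝ≥0∞, Measurable f → ∫⁻ x, f x ≠ ∞ →
      ∀ s : ℝ≥0∞, s ≠ 0 → s ≠ ∞ →
        volume {x : E n | ∃ k < K, s < av n (2 ^ k * R) f x} ≤ G / s * ∫⁻ x, f x)
    (R : ℝ) (hR : 0 < R) (f : E n → ℝ≥0∞) (hf : Measurable f) (hfi : ∫⁻ x, f x ≠ ∞)
    (s : ℝ≥0∞) (hs : s ≠ 0) (hs' : s ≠ ∞) :
    volume (MaxFn.bigSet n f {r | ∃ k < K, r = 2 ^ k * R} s) ≤ (9 * G) / s * ∫⁻ x, f x := by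
  have hn' : (2 : ℝ) ≤ n := by exact_mod_cast hn
  have hl0 : (0 : ℝ) < 1 - 1 / (n : ℝ) := by
    rw [sub_pos, div_lt_one (by linarith)]; linarith
  have hsub : MaxFn.bigSet n f {r | ∃ k < K, r = 2 ^ k * R} s ⊆
      ⋃ a : ℕ, {x : E n | ∃ k < K, s * ENNReal.ofReal (1 / 3 * (3 / 2) ^ a) <
        av n (2 ^ k * ((1 - 1 / (n : ℝ)) ^ a * R)) f x} := by
    rintro x ⟨r, ⟨k, hk, rfl⟩, hx⟩
    obtain ⟨a, ha⟩ := shell_exists n hn (2 ^ k * R) (by positivity) f s x hx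
    refine Set.mem_iUnion.2 ⟨a, k, hk, ?_⟩
    have e : (2 : ℝ) ^ k * ((1 - 1 / (n : ℝ)) ^ a * R) = (1 - 1 / (n : ℝ)) ^ a * (2 ^ k * R) := by
      ring
    rw [e]
    exact ha
  have hc0 : ∀ a : ℕ, ENNReal.ofReal (1 / 3 * (3 / 2) ^ a) ≠ 0 := by
    intro a
    have : (0 : ℝ) < 1 / 3 * (3 / 2) ^ a := by positivity
    exact (ENNReal.ofReal_pos.2 this).ne'
  have hterm : ∀ a : ℕ, volume {x : E n | ∃ k < K, s * ENNReal.ofReal (1 / 3 * (3 / 2) ^ a) <
        av n (2 ^ k * ((1 - 1 / (n : ℝ)) ^ a * R)) f x} ≤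
      G / s * (∫⁻ x, f x) * ENNReal.ofReal (3 * (2 / 3) ^ a) := by
    intro a
    refine (hann ((1 - 1 / (n : ℝ)) ^ a * R) (by positivity) f hf hfi _
      (mul_ne_zero hs (hc0 a)) (ENNReal.mul_ne_top hs' ENNReal.ofReal_ne_top)).trans (le_of_eq ?_)
    rw [div_eq_mul_inv G, div_eq_mul_inv G s, ENNReal.mul_inv (Or.inl hs) (Or.inl hs'),
      ← ENNReal.ofReal_inv_of_pos (by positivity)]
    have e : (1 / 3 * (3 / 2 : ℝ) ^ a)⁻¹ = 3 * (2 / 3) ^ a := by
      rw [mul_inv, ← inv_pow]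
      norm_num
    rw [e]
    ring
  calc volume (MaxFn.bigSet n f {r | ∃ k < K, r = 2 ^ k * R} s)
      ≤ volume (⋃ a : ℕ, {x : E n | ∃ k < K, s * ENNReal.ofReal (1 / 3 * (3 / 2) ^ a) <
        av n (2 ^ k * ((1 - 1 / (n : ℝ)) ^ a * R)) f x}) := measure_mono hsub
    _ ≤ ∑' a : ℕ, volume {x : E n | ∃ k < K, s * ENNReal.ofReal (1 / 3 * (3 / 2) ^ a) <
        av n (2 ^ k * ((1 - 1 / (n : ℝ)) ^ a * R)) f x} := measure_iUnion_le _
    _ ≤ ∑' a : ℕ, G / s * (∫⁻ x, f x) * ENNReal.ofReal (3 * (2 / 3) ^ a) :=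
        ENNReal.tsum_le_tsum hterm
    _ = G / s * (∫⁻ x, f x) * 9 := by
        rw [ENNReal.tsum_mul_left, tsum_two_thirds _ (by norm_num)]
        norm_num
    _ = _ := by
        rw [div_eq_mul_inv, div_eq_mul_inv]
        ring

end Pool.DyMax
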