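import Pool.Agent.DyMax.Defs

/-! MODULE SLAB: volume of an intersection of slabs with a ball, for well-conditioned directions.

Proof: induction on `L`, proving for all `ρ > 0`
`|{y ∈ B(ρ) : ∀ θ ∈ L, |⟪y,θ⟫| ≤ δ}| ≤ (64 √n δ/ρ)^|L| |B(ρ √(1+1/n)^|L|)|`
(the volume on the right is `(1+1/n)^(n|L|/2) |B(ρ)| ≤ e^(|L|/2) |B(ρ)|` and `64 e^(1/2) < 106`).
Step `θ :: L` with the unit vector `v` orthogonal to all `u ∈ L`, `|⟪v,θ⟫| ≥ 1/64`: let
`G = {y : ∀ u ∈ L, |⟪y,u⟫| ≤ δ}`, invariant under translations by `τ v`. On each line `y' + τ v` (`y' ⊥ v`)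
the set `{τ : |⟪y'+τv,θ⟫| ≤ δ}` has length at most `2δ/|⟪v,θ⟫| ≤ 128 δ`, while for `|y'| < ρ` the set
`{τ : |y'+τv| < ρ√(1+1/n)}` has length `2√(ρ²(1+1/n) - |y'|²) ≥ 2ρ/√n`. By Fubini (decomposition
`E n = ℝ v ⊕ v^⊥`; or as in `Pool.MaxFn.slab_step` (Pool/Agent/MaxFn/SlabStep.lean): bound the indicator of
`{y ∈ B(ρ)} ∩ A` by `(√n/(2ρ)) ∫ 1[y+τv ∈ B(ρ√(1+1/n))] dτ` and use translation invariance)
`|B(ρ) ∩ G ∩ A| ≤ 128 δ (√n/(2ρ)) |B(ρ√(1+1/n)) ∩ G|`. -/

set_option autoImplicit false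

open MeasureTheory Metric
open scoped ENNReal RealInnerProductSpace

namespace Pool.DyMax

/-- a line through a point of the ball meets the slightly larger ball in a long segment -/
private lemma slabVol_line (n : ℕ) (hn : 1 ≤ n) {ρ : ℝ} (hρ : 0 < ρ) (y v : E n) (hv : ‖v‖ = 1)
    (hy : y ∈ ball (0 : E n) ρ) :
    1 ≤ ENNReal.ofReal (Real.sqrt n / (2 * ρ)) *
      volume {τ : ℝ | y + τ • v ∈ ball (0 : E n) (ρ * Real.sqrt (1 + 1 / n))} := by
  have hn0 : (0 : ℝ) < n := by exact_mod_cast hn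
  have hs : 0 < Real.sqrt n := Real.sqrt_pos.2 hn0
  set b : ℝ := ⟪y, v⟫ with hb
  rw [mem_ball_zero_iff] at hy
  have hnorm : ∀ τ : ℝ, ‖y + τ • v‖ ^ 2 = (‖y‖ ^ 2 - b ^ 2) + (τ + b) ^ 2 := by
    intro τ
    rw [norm_add_sq_real, norm_smul, hv, inner_smul_right, ← hb, Real.norm_eq_abs, mul_one, sq_abs]
    ring
  have hsub : ball (-b) (ρ / Real.sqrt n) ⊆
      {τ : ℝ | y + τ • v ∈ ball (0 : E n) (ρ * Real.sqrt (1 + 1 / n))} := by
    intro τ hτ
    rw [Real.ball_eq_Ioo, Set.mem_Ioo] at hτ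
    show y + τ • v ∈ ball (0 : E n) (ρ * Real.sqrt (1 + 1 / n))
    rw [mem_ball_zero_iff]
    have h1 : (τ + b) ^ 2 < (ρ / Real.sqrt n) ^ 2 := by
      apply sq_lt_sq' <;> linarith [hτ.1, hτ.2]
    have h2 : (ρ / Real.sqrt n) ^ 2 = ρ ^ 2 / n := by
      rw [div_pow, Real.sq_sqrt hn0.le]
    have h3 : (ρ * Real.sqrt (1 + 1 / n)) ^ 2 = ρ ^ 2 + ρ ^ 2 / n := by
      rw [mul_pow, Real.sq_sqrt (by positivity)]
      ring
    have h4 : ‖y‖ ^ 2 < ρ ^ 2 := by
      have := norm_nonneg y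
      nlinarith
    have h5 : ‖y + τ • v‖ ^ 2 < (ρ * Real.sqrt (1 + 1 / n)) ^ 2 := by
      rw [hnorm, h3]
      rw [h2] at h1
      nlinarith [sq_nonneg b]
    exact lt_of_pow_lt_pow_left₀ 2 (by positivity) h5
  have hvol : volume (ball (-b) (ρ / Real.sqrt n)) = ENNReal.ofReal (2 * (ρ / Real.sqrt n)) :=
    Real.volume_ball _ _
  calc (1 : ℝ≥0∞) = ENNReal.ofReal (Real.sqrt n / (2 * ρ)) *
        ENNReal.ofReal (2 * (ρ / Real.sqrt n)) := by
        rw [← ENNReal.ofReal_mul (by positivity), ← ENNReal.ofReal_one]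
        congr 1
        field_simp
    _ ≤ _ := by
        rw [← hvol]
        gcongr

/-- one step: volume of `B(ρ) ∩ G ∩ A` when `G` is invariant in the direction `v` and `A` is thin
in the direction `v` -/
private lemma slabVol_step (n : ℕ) (hn : 1 ≤ n) {ρ : ℝ} (hρ : 0 < ρ) (v : E n) (hv : ‖v‖ = 1)
    (G A : Set (E n)) (hG : MeasurableSet G) (hA : MeasurableSet A)
    (hinv : ∀ (y : E n) (τ : ℝ), y ∈ G → y + τ • v ∈ G) (len : ℝ≥0∞)
    (hlen : ∀ y, volume {τ : ℝ | y + τ • v ∈ A} ≤ len) :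
    volume (ball (0 : E n) ρ ∩ (G ∩ A)) ≤
      len * ENNReal.ofReal (Real.sqrt n / (2 * ρ)) *
        volume (ball (0 : E n) (ρ * Real.sqrt (1 + 1 / n)) ∩ G) := by
  classical
  set c : ℝ≥0∞ := ENNReal.ofReal (Real.sqrt n / (2 * ρ)) with hc
  have hctop : c ≠ ∞ := ENNReal.ofReal_ne_top
  set B' : Set (E n) := ball (0 : E n) (ρ * Real.sqrt (1 + 1 / n)) with hB'
  have hB'm : MeasurableSet B' := measurableSet_ball
  have hS : MeasurableSet (ball (0 : E n) ρ ∩ (G ∩ A)) := measurableSet_ball.inter (hG.inter hA)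
  set I : E n → ℝ≥0∞ := (ball (0 : E n) ρ ∩ (G ∩ A)).indicator (fun _ => 1) with hI
  have hIm : Measurable I := measurable_const.indicator hS
  set J : E n → ℝ≥0∞ := B'.indicator (fun _ => 1) with hJ
  have hJm : Measurable J := measurable_const.indicator hB'm
  have hcont1 : Continuous (fun p : E n × ℝ => p.1 + p.2 • v) := by
    fun_prop
  have hcont2 : Continuous (fun p : ℝ × E n => p.2 - p.1 • v) := by
    fun_prop
  have hJ1 : ∀ y : E n, ∫⁻ τ : ℝ, J (y + τ • v) = volume {τ : ℝ | y + τ • v ∈ B'} := by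
    intro y
    have hcont3 : Continuous (fun τ : ℝ => y + τ • v) := by fun_prop
    have hm : MeasurableSet {τ : ℝ | y + τ • v ∈ B'} := hcont3.measurable hB'm
    have : (fun τ : ℝ => J (y + τ • v)) = {τ : ℝ | y + τ • v ∈ B'}.indicator (fun _ => 1) := by
      funext τ
      rfl
    rw [this, lintegral_indicator hm]
    simp
  have step1 : volume (ball (0 : E n) ρ ∩ (G ∩ A)) ≤
      c * ∫⁻ y, ∫⁻ τ : ℝ, I y * J (y + τ • v) := by
    have h0 : volume (ball (0 : E n) ρ ∩ (G ∩ A)) = ∫⁻ y, I y := by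
      rw [hI, lintegral_indicator hS]
      simp
    rw [h0, ← lintegral_const_mul' _ _ hctop]
    refine lintegral_mono fun y => ?_
    by_cases hy : y ∈ ball (0 : E n) ρ ∩ (G ∩ A)
    · have h1 : I y = 1 := by rw [hI, Set.indicator_of_mem hy]
      simp only [h1, one_mul]
      rw [hJ1]
      exact slabVol_line n hn hρ y v hv hy.1
    · have h1 : I y = 0 := by rw [hI, Set.indicator_of_notMem hy]
      rw [h1]
      exact zero_le
  have step2 : ∫⁻ y, ∫⁻ τ : ℝ, I y * J (y + τ • v) =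
      ∫⁻ y, ∫⁻ τ : ℝ, I (y - τ • v) * J y := by
    rw [lintegral_lintegral_swap]
    · have h1 : ∀ τ : ℝ, ∫⁻ y, I y * J (y + τ • v) = ∫⁻ y, I (y - τ • v) * J y := by
        intro τ
        rw [← lintegral_add_right_eq_self (fun y => I (y - τ • v) * J y) (τ • v)]
        refine lintegral_congr fun y => ?_
        rw [add_sub_cancel_right]
      simp only [h1]
      rw [lintegral_lintegral_swap]
      refine Measurable.aemeasurable ?_
      exact (hIm.comp hcont2.measurable).mul (hJm.comp measurable_snd)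
    · refine Measurable.aemeasurable ?_
      exact (hIm.comp measurable_fst).mul (hJm.comp hcont1.measurable)
  have step3 : ∫⁻ y, ∫⁻ τ : ℝ, I (y - τ • v) * J y ≤ len * volume (B' ∩ G) := by
    have h0 : volume (B' ∩ G) = ∫⁻ y, (B' ∩ G).indicator (fun _ => 1) y := by
      rw [lintegral_indicator (hB'm.inter hG)]
      simp
    rw [h0, ← lintegral_const_mul _ (measurable_const.indicator (hB'm.inter hG))]
    refine lintegral_mono fun y => ?_
    by_cases hy : y ∈ B' ∩ G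
    · have hJy : J y = 1 := by rw [hJ, Set.indicator_of_mem hy.1]
      rw [Set.indicator_of_mem hy, hJy]
      simp only [mul_one]
      have h2 : ∀ τ : ℝ, I (y - τ • v) ≤ ({τ : ℝ | y - τ • v ∈ A}.indicator (fun _ => 1) τ) := by
        intro τ
        by_cases hτ : y - τ • v ∈ A
        · have : τ ∈ {τ : ℝ | y - τ • v ∈ A} := hτ
          rw [Set.indicator_of_mem this, hI]
          exact Set.indicator_le_self' (fun _ _ => zero_le) _
        · have : y - τ • v ∉ ball (0 : E n) ρ ∩ (G ∩ A) := fun h => hτ h.2.2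
          rw [hI, Set.indicator_of_notMem this]
          exact zero_le
      have hSm : MeasurableSet {τ : ℝ | y - τ • v ∈ A} := by
        have hcont3 : Continuous (fun τ : ℝ => y - τ • v) := by fun_prop
        exact hcont3.measurable hA
      calc ∫⁻ τ : ℝ, I (y - τ • v) ≤ ∫⁻ τ : ℝ, {τ : ℝ | y - τ • v ∈ A}.indicator (fun _ => 1) τ :=
            lintegral_mono h2
        _ = volume {τ : ℝ | y - τ • v ∈ A} := by
            rw [lintegral_indicator hSm]
            simp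
        _ = volume ((fun τ : ℝ => -τ) ⁻¹' {τ : ℝ | y + τ • v ∈ A}) := by
            congr 1
            ext τ
            simp only [Set.mem_ofPred_eq, Set.mem_preimage, neg_smul, ← sub_eq_add_neg]
        _ = volume {τ : ℝ | y + τ • v ∈ A} := by
            have hSm' : MeasurableSet {τ : ℝ | y + τ • v ∈ A} := by
              have hcont3 : Continuous (fun τ : ℝ => y + τ • v) := by fun_prop
              exact hcont3.measurable hA
            exact (Measure.measurePreserving_neg (volume : Measure ℝ)).measure_preimage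
              hSm'.nullMeasurableSet
        _ ≤ len := hlen y
    · have h3 : ∀ τ : ℝ, I (y - τ • v) * J y = 0 := by
        intro τ
        by_cases hyB : y ∈ B'
        · have : y - τ • v ∉ ball (0 : E n) ρ ∩ (G ∩ A) := by
            intro h
            apply hy
            refine ⟨hyB, ?_⟩
            have := hinv _ τ h.2.1
            rwa [sub_add_cancel] at this
          rw [hI, Set.indicator_of_notMem this, zero_mul]
        · rw [hJ, Set.indicator_of_notMem hyB, mul_zero]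
      simp [h3]
  calc _ ≤ c * ∫⁻ y, ∫⁻ τ : ℝ, I y * J (y + τ • v) := step1
    _ = c * ∫⁻ y, ∫⁻ τ : ℝ, I (y - τ • v) * J y := by rw [step2]
    _ ≤ c * (len * volume (B' ∩ G)) := by gcongr
    _ = _ := by ring

private lemma slabVol_len (n : ℕ) {δ : ℝ} (hδ : 0 < δ) (v θ : E n) (h : 1 / 64 ≤ |⟪v, θ⟫|)
    (y : E n) : volume {τ : ℝ | y + τ • v ∈ {y : E n | |⟪y, θ⟫| ≤ δ}} ≤ ENNReal.ofReal (128 * δ) := by
  set β : ℝ := ⟪v, θ⟫ with hβ
  set a : ℝ := ⟪y, θ⟫ with ha
  have hβ0 : 0 < |β| := lt_of_lt_of_le (by norm_num) h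
  have hβne : β ≠ 0 := abs_pos.1 hβ0
  have hsub : {τ : ℝ | y + τ • v ∈ {y : E n | |⟪y, θ⟫| ≤ δ}} ⊆ closedBall (-a / β) (δ / |β|) := by
    intro τ hτ
    have h1 : |⟪y + τ • v, θ⟫| ≤ δ := hτ
    rw [inner_add_left, real_inner_smul_left, ← hβ, ← ha] at h1
    rw [mem_closedBall, Real.dist_eq, le_div_iff₀ hβ0, ← abs_mul]
    have h2 : (τ - -a / β) * β = a + τ * β := by
      field_simp
      ring
    rw [h2]
    exact h1
  refine (measure_mono hsub).trans ?_
  rw [Real.volume_closedBall]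
  apply ENNReal.ofReal_le_ofReal
  rw [← mul_div_assoc, div_le_iff₀ hβ0]
  nlinarith

private lemma slabVol_ind (n : ℕ) (hn : 1 ≤ n) (δ : ℝ) (hδ : 0 < δ) (L : List (E n))
    (hL : Cond L) : ∀ ρ : ℝ, 0 < ρ →
    volume {y : E n | y ∈ ball (0 : E n) ρ ∧ ∀ θ ∈ L, |⟪y, θ⟫| ≤ δ} ≤
      ENNReal.ofReal (64 * Real.sqrt n * δ / ρ) ^ L.length *
        volume (ball (0 : E n) (ρ * Real.sqrt (1 + 1 / n) ^ L.length)) := by
  have hn0 : (0 : ℝ) < n := by exact_mod_cast hn
  have hs : 0 < Real.sqrt n := Real.sqrt_pos.2 hn0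
  have hq1 : 1 ≤ Real.sqrt (1 + 1 / n) := by
    rw [Real.one_le_sqrt]
    have : 0 < 1 / (n : ℝ) := by positivity
    linarith
  induction L with
  | nil =>
    intro ρ hρ
    simp only [List.length_nil, pow_zero, one_mul, mul_one]
    exact measure_mono fun y hy => hy.1
  | cons θ L ih =>
    intro ρ hρ
    obtain ⟨⟨v, hv, hvL, hvθ⟩, hL'⟩ := hL
    have hρ' : 0 < ρ * Real.sqrt (1 + 1 / n) := by positivity
    have h1 := ih hL' (ρ * Real.sqrt (1 + 1 / n)) hρ'
    set G : Set (E n) := {y : E n | ∀ θ ∈ L, |⟪y, θ⟫| ≤ δ} with hG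
    set A : Set (E n) := {y : E n | |⟪y, θ⟫| ≤ δ} with hA
    have hGm : MeasurableSet G := by
      have : G = ⋂ θ ∈ L, {y : E n | |⟪y, θ⟫| ≤ δ} := by
        ext y
        simp [hG]
      rw [this]
      refine MeasurableSet.biInter (Set.Finite.countable ?_) fun θ _ => ?_
      · exact List.finite_toSet L
      · exact (isClosed_le (by fun_prop) continuous_const).measurableSet
    have hAm : MeasurableSet A := (isClosed_le (by fun_prop) continuous_const).measurableSet
    have hinv : ∀ (y : E n) (τ : ℝ), y ∈ G → y + τ • v ∈ G := by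
      intro y τ hy u hu
      rw [inner_add_left, real_inner_smul_left, hvL u hu, mul_zero, add_zero]
      exact hy u hu
    have h2 := slabVol_step n hn hρ v hv G A hGm hAm hinv (ENNReal.ofReal (128 * δ))
      (slabVol_len n hδ v θ hvθ)
    have h3 : {y : E n | y ∈ ball (0 : E n) ρ ∧ ∀ u ∈ θ :: L, |⟪y, u⟫| ≤ δ} =
        ball (0 : E n) ρ ∩ (G ∩ A) := by
      ext y
      simp only [List.mem_cons, forall_eq_or_imp, Set.mem_ofPred_eq, Set.mem_inter_iff, hG, hA]
      tauto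
    have h4 : ball (0 : E n) (ρ * Real.sqrt (1 + 1 / n)) ∩ G =
        {y : E n | y ∈ ball (0 : E n) (ρ * Real.sqrt (1 + 1 / n)) ∧ ∀ θ ∈ L, |⟪y, θ⟫| ≤ δ} := rfl
    rw [h3]
    refine h2.trans ?_
    rw [h4]
    have h5 : ENNReal.ofReal (128 * δ) * ENNReal.ofReal (Real.sqrt n / (2 * ρ)) =
        ENNReal.ofReal (64 * Real.sqrt n * δ / ρ) := by
      rw [← ENNReal.ofReal_mul (by positivity)]
      congr 1
      field_simp
      ring
    rw [h5, List.length_cons]
    have h6 : ρ * Real.sqrt (1 + 1 / n) * Real.sqrt (1 + 1 / n) ^ L.length =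
        ρ * Real.sqrt (1 + 1 / n) ^ (L.length + 1) := by
      rw [pow_succ]
      ring
    have h7 : ρ ≤ ρ * Real.sqrt (1 + 1 / n) := by
      calc ρ = ρ * 1 := (mul_one ρ).symm
        _ ≤ ρ * Real.sqrt (1 + 1 / n) := by gcongr
    have h8 : ENNReal.ofReal (64 * Real.sqrt n * δ / (ρ * Real.sqrt (1 + 1 / n))) ≤
        ENNReal.ofReal (64 * Real.sqrt n * δ / ρ) := by
      apply ENNReal.ofReal_le_ofReal
      gcongr
    calc ENNReal.ofReal (64 * Real.sqrt n * δ / ρ) *
          volume {y : E n | y ∈ ball (0 : E n) (ρ * Real.sqrt (1 + 1 / n)) ∧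
            ∀ θ ∈ L, |⟪y, θ⟫| ≤ δ}
        ≤ ENNReal.ofReal (64 * Real.sqrt n * δ / ρ) *
          (ENNReal.ofReal (64 * Real.sqrt n * δ / (ρ * Real.sqrt (1 + 1 / n))) ^ L.length *
            volume (ball (0 : E n) (ρ * Real.sqrt (1 + 1 / n) *
              Real.sqrt (1 + 1 / n) ^ L.length))) := by gcongr
      _ ≤ ENNReal.ofReal (64 * Real.sqrt n * δ / ρ) *
          (ENNReal.ofReal (64 * Real.sqrt n * δ / ρ) ^ L.length *
            volume (ball (0 : E n) (ρ * Real.sqrt (1 + 1 / n) ^ (L.length + 1)))) := by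
          rw [h6]
          gcongr
      _ = _ := by
          rw [pow_succ (ENNReal.ofReal (64 * Real.sqrt n * δ / ρ))]
          ring

theorem slab_vol (n : ℕ) (hn : 1 ≤ n) (δ ρ : ℝ) (hδ : 0 < δ) (hρ : 0 < ρ) (L : List (E n))
    (hL : Cond L) :
    volume {y : E n | y ∈ ball (0 : E n) ρ ∧ ∀ θ ∈ L, |⟪y, θ⟫| ≤ δ} ≤
      ENNReal.ofReal (106 * Real.sqrt n * δ / ρ) ^ L.length * volume (ball (0 : E n) ρ) := by
  have hn0 : (0 : ℝ) < n := by exact_mod_cast hn
  have hs : 0 < Real.sqrt n := Real.sqrt_pos.2 hn0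
  set q : ℝ := Real.sqrt (1 + 1 / n) with hq
  have hq0 : 0 < q := Real.sqrt_pos.2 (by positivity)
  refine (slabVol_ind n hn δ hδ L hL ρ hρ).trans ?_
  have h1 : volume (ball (0 : E n) (ρ * q ^ L.length)) =
      ENNReal.ofReal ((q ^ n) ^ L.length) * volume (ball (0 : E n) ρ) := by
    rw [Measure.addHaar_ball_of_pos _ _ (by positivity), Measure.addHaar_ball_of_pos _ _ hρ,
      finrank_euclideanSpace, Fintype.card_fin, ← mul_assoc, ← ENNReal.ofReal_mul (by positivity)]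
    congr 2
    rw [mul_pow, ← pow_mul, ← pow_mul, mul_comm n]
    ring
  have h2 : q ^ n ≤ 53 / 32 := by
    have h3 : (q ^ n) ^ 2 ≤ (53 / 32) ^ 2 := by
      have h4 : (q ^ n) ^ 2 = (1 + 1 / (n : ℝ)) ^ n := by
        rw [← pow_mul, mul_comm n 2, pow_mul, hq, Real.sq_sqrt (by positivity)]
      have h5 : (1 + 1 / (n : ℝ)) ^ n ≤ Real.exp 1 := by
        have h6 : 1 + 1 / (n : ℝ) ≤ Real.exp (1 / n) := by
          have := Real.add_one_le_exp (1 / (n : ℝ))
          linarith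
        calc (1 + 1 / (n : ℝ)) ^ n ≤ Real.exp (1 / n) ^ n := by gcongr
          _ = Real.exp 1 := by
              rw [← Real.exp_nat_mul]
              congr 1
              field_simp
      rw [h4]
      have h7 := Real.exp_one_lt_d9
      refine h5.trans ?_
      norm_num at h7 ⊢
      linarith
    exact le_of_sq_le_sq h3 (by norm_num)
  rw [h1, ← mul_assoc, ENNReal.ofReal_pow (by positivity), ← mul_pow,
    ← ENNReal.ofReal_mul (by positivity)]
  gcongr
  calc 64 * Real.sqrt n * δ / ρ * q ^ n ≤ 64 * Real.sqrt n * δ / ρ * (53 / 32) := by gcongr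
    _ = 106 * Real.sqrt n * δ / ρ := by ring

end Pool.DyMax
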