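import Pool.Agent.DyMax.Second
import Pool.Agent.DyMax.Levels
import Pool.Agent.DyMax.Shells

/-! MODULE WIN: weak type bound for one window.

`level_bound`: let `E_k` (k < K) be the set of points of the level set where `k` is the first index with
`s < av n (2^k R) f x`, `ψ_k = 1_{E_k}` (and `ψ_k = 0` for `k ≥ K`); then `Sys n K R f s ψ` (finite measure by
Markov's inequality and `lint_av`), `∑ ∫ψ_k = |level set| = a`, `s a ≤ ∑ ∫ S_kf ψ_k = ∫ f U` (`lint_f_U`) and
`f U ≤ (A/2) f + (1/(2A)) f U²` with `A = 3·10^7`, so by `second`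
`s a ≤ (A/2) ∫f + (1/(2A)) (A s a + ∫ f)`, hence `s a ≤ (A + 1) ∫ f` (`s a < ∞`).
`window`: `levels` and `shells`. -/

set_option autoImplicit false

open MeasureTheory Metric
open scoped ENNReal

namespace Pool.DyMax

theorem amgm (u : ℝ≥0∞) : u ≤ 15000000 + 60000000⁻¹ * u ^ 2 := by
  by_cases hu : u = ∞
  · subst hu
    have h : (60000000 : ℝ≥0∞)⁻¹ * ∞ ^ 2 = ∞ := by
      rw [ENNReal.top_pow (by norm_num)]
      exact ENNReal.mul_top (by simp)
    rw [h]
    simp
  · lift u to NNReal using hu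
    have h : (u : ℝ≥0∞) * 60000000 ≤ (15000000 + 60000000⁻¹ * (u : ℝ≥0∞) ^ 2) * 60000000 := by
      have e : (15000000 + 60000000⁻¹ * (u : ℝ≥0∞) ^ 2) * 60000000 =
          15000000 * 60000000 + (u : ℝ≥0∞) ^ 2 := by
        rw [add_mul, mul_comm (60000000⁻¹ : ℝ≥0∞), mul_assoc,
          ENNReal.inv_mul_cancel (by norm_num) (by simp), mul_one]
      rw [e]
      have h2 : u * 60000000 ≤ 15000000 * 60000000 + u ^ 2 := by
        rw [← NNReal.coe_le_coe]
        push_cast
        nlinarith [sq_nonneg ((u : ℝ) - 30000000)]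
      exact_mod_cast h2
    exact (ENNReal.mul_le_mul_iff_left (by norm_num) (by simp)).1 h

theorem alg_level (s b I : ℝ≥0∞) (hs : s ≠ ∞) (hb : b ≠ ∞) (hI : I ≠ ∞)
    (h3 : s * b ≤ 15000000 * I + 60000000⁻¹ * (30000000 * s * b + I)) :
    s * b ≤ 30000001 * I := by
  lift s to NNReal using hs
  lift b to NNReal using hb
  lift I to NNReal using hI
  have h5 : (s * b : ℝ≥0∞) * 60000000 ≤ 15000000 * I * 60000000 + (30000000 * s * b + I) := by
    calc (s * b : ℝ≥0∞) * 60000000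
        ≤ (15000000 * I + 60000000⁻¹ * (30000000 * s * b + I)) * 60000000 := by gcongr
      _ = _ := by
        rw [add_mul, mul_comm (60000000⁻¹ : ℝ≥0∞), mul_assoc (30000000 * (s : ℝ≥0∞) * b + I),
          ENNReal.inv_mul_cancel (by norm_num) (by simp), mul_one]
  have h6 : s * b * 60000000 ≤ 15000000 * I * 60000000 + (30000000 * s * b + I) := by
    exact_mod_cast h5
  have h7 : s * b ≤ 30000001 * I := by
    rw [← NNReal.coe_le_coe] at h6 ⊢
    push_cast at h6 ⊢
    have hI0 : (0 : ℝ) ≤ I := I.coe_nonneg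
    nlinarith
  exact_mod_cast h7

theorem level_bound (n K : ℕ) (hn : 100 ≤ n) (hK : 2 * K + 1 ≤ n) (q : ℕ) (hq : 1 ≤ q)
    (hqn : Real.sqrt n * 33 ^ q * 2 * (9 / 10) ^ n ≤ 1) (hKn : (4 * K : ℝ) * (5 / 6) ^ n ≤ 1)
    (hKq : (K : ℝ) * (1 / 2) ^ q ≤ 1)
    (R : ℝ) (hR : 0 < R) (f : E n → ℝ≥0∞) (hf : Measurable f) (hfi : ∫⁻ x, f x ≠ ∞)
    (s : ℝ≥0∞) (hs : s ≠ 0) (hs' : s ≠ ∞) :
    volume {x : E n | (∃ k < K, s < av n (2 ^ k * R) f x) ∧ ∀ k < K, av n (2 ^ k * R) f x ≤ 2 * s} ≤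
      30000001 / s * ∫⁻ x, f x := by
  classical
  have hn2 : 2 ≤ n := by omega
  have hRk : ∀ k : ℕ, 0 < 2 ^ k * R := fun k => by positivity
  have hmk : ∀ k : ℕ, Measurable (av n (2 ^ k * R) f) := fun k => av_meas hf
  set Ek : ℕ → Set (E n) := fun k => {x | (k < K ∧ s < av n (2 ^ k * R) f x) ∧
    (∀ j, j < k → av n (2 ^ j * R) f x ≤ s) ∧ ∀ j, j < K → av n (2 ^ j * R) f x ≤ 2 * s} with hEk
  have hEm : ∀ k, MeasurableSet (Ek k) := by
    intro k
    have e : Ek k = ({x | k < K} ∩ {x | s < av n (2 ^ k * R) f x}) ∩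
        ((⋂ j : ℕ, ⋂ _ : j < k, {x | av n (2 ^ j * R) f x ≤ s}) ∩
          ⋂ j : ℕ, ⋂ _ : j < K, {x | av n (2 ^ j * R) f x ≤ 2 * s}) := by
      ext x
      simp only [hEk, Set.mem_setOf_eq, Set.mem_inter_iff, Set.mem_iInter]
    rw [e]
    refine ((MeasurableSet.const _).inter (measurableSet_lt measurable_const (hmk k))).inter
      ((MeasurableSet.iInter fun j => MeasurableSet.iInter fun _ =>
        measurableSet_le (hmk j) measurable_const).inter
      (MeasurableSet.iInter fun j => MeasurableSet.iInter fun _ =>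
        measurableSet_le (hmk j) measurable_const))
  have hdisj : ∀ x k k', x ∈ Ek k → x ∈ Ek k' → k = k' := by
    intro x k k' h h'
    rcases lt_trichotomy k k' with hlt | heq | hlt
    · exact absurd (h'.2.1 k hlt) (not_le.2 h.1.2)
    · exact heq
    · exact absurd (h.2.1 k' hlt) (not_le.2 h'.1.2)
  set ψ : ℕ → E n → ℝ≥0∞ := fun k => (Ek k).indicator 1 with hψdef
  have hψ1 : ∀ k, ∫⁻ x, ψ k x = volume (Ek k) := fun k => lintegral_indicator_one (hEm k)
  have hψm : ∀ k, Measurable (ψ k) := fun k => measurable_one.indicator (hEm k)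
  have hsψ : ∀ k x, s * ψ k x ≤ av n (2 ^ k * R) f x * ψ k x := by
    intro k x
    by_cases hx : x ∈ Ek k
    · have : ψ k x = 1 := Set.indicator_of_mem hx _
      rw [this, mul_one, mul_one]
      exact hx.1.2.le
    · have : ψ k x = 0 := Set.indicator_of_notMem hx _
      rw [this, mul_zero, mul_zero]
  have hψle : ∀ k x, ψ k x ≤ 1 := by
    intro k x
    by_cases hx : x ∈ Ek k
    · exact (Set.indicator_of_mem hx _).le
    · have : ψ k x = 0 := Set.indicator_of_notMem hx _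
      rw [this]
      exact zero_le_one
  have hsψi : ∀ k, s * ∫⁻ x, ψ k x ≤ ∫⁻ x, av n (2 ^ k * R) f x * ψ k x := by
    intro k
    rw [← lintegral_const_mul s (hψm k)]
    exact lintegral_mono (hsψ k)
  have hfin : ∀ k, ∫⁻ x, ψ k x ≠ ∞ := by
    intro k h
    have h1 : s * ∫⁻ x, ψ k x ≤ ∫⁻ x, f x := by
      refine (hsψi k).trans ?_
      rw [← lint_av hn2 (hRk k) hf]
      refine lintegral_mono fun x => ?_
      calc av n (2 ^ k * R) f x * ψ k x ≤ av n (2 ^ k * R) f x * 1 := by gcongr; exact hψle k x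
        _ = _ := mul_one _
    rw [h, ENNReal.mul_top hs] at h1
    exact hfi (top_le_iff.1 h1)
  have hSys : Sys n K R f s ψ := by
    refine ⟨hψm, ?_, ?_, fun k _ => hfin k⟩
    · intro x
      by_cases hx : ∃ k ∈ Finset.range K, x ∈ Ek k
      · obtain ⟨k, hk, hxk⟩ := hx
        rw [Finset.sum_eq_single_of_mem k hk]
        · exact hψle k x
        · intro k' _ hne
          exact Set.indicator_of_notMem (fun h => hne (hdisj x k' k h hxk)) _
      · rw [Finset.sum_eq_zero]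
        · exact zero_le_one
        · intro k hk
          exact Set.indicator_of_notMem (fun h => hx ⟨k, hk, h⟩) _
    · intro k hk x hx
      have hxk : x ∈ Ek k := by
        by_contra hne
        exact hx (Set.indicator_of_notMem hne _)
      exact hxk.2.2 k hk
  have hsec := second n K hn hK q hq hqn hKn hKq R hR f hf hfi s hs hs' ψ hSys
  have hUm : Measurable (UU n K R ψ) := by
    unfold UU
    exact Finset.measurable_sum _ fun k _ => av_meas (hψm k)
  set b : ℝ≥0∞ := ∑ k ∈ Finset.range K, ∫⁻ x, ψ k x with hb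
  set I : ℝ≥0∞ := ∫⁻ x, f x with hI
  have hbfin : b ≠ ∞ := by
    rw [hb]
    exact (ENNReal.sum_lt_top.2 fun k _ => (hfin k).lt_top).ne
  have hab : volume {x : E n | (∃ k < K, s < av n (2 ^ k * R) f x) ∧
      ∀ k < K, av n (2 ^ k * R) f x ≤ 2 * s} ≤ b := by
    have hsub : {x : E n | (∃ k < K, s < av n (2 ^ k * R) f x) ∧
        ∀ k < K, av n (2 ^ k * R) f x ≤ 2 * s} ⊆ ⋃ k ∈ Finset.range K, Ek k := by
      rintro x ⟨hx1, hx2⟩
      have hx1' : ∃ k, k < K ∧ s < av n (2 ^ k * R) f x := hx1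
      have hmin := Nat.find_spec hx1'
      refine Set.mem_biUnion (x := Nat.find hx1') ?_ ?_
      · simpa using hmin.1
      · refine ⟨hmin, ?_, fun j hj => hx2 j hj⟩
        intro j hj
        by_contra hc
        exact Nat.find_min hx1' hj ⟨hj.trans hmin.1, not_le.1 hc⟩
    refine (measure_mono hsub).trans ((measure_biUnion_finset_le _ _).trans ?_)
    rw [hb]
    exact Finset.sum_le_sum fun k _ => (hψ1 k).symm.le
  have h1 : s * b ≤ ∫⁻ p, f p * UU n K R ψ p := by
    rw [lint_f_U n K hn2 R f hf ψ hψm, hb, Finset.mul_sum]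
    exact Finset.sum_le_sum fun k _ => hsψi k
  have h2 : ∫⁻ p, f p * UU n K R ψ p ≤ 15000000 * I + 60000000⁻¹ * ∫⁻ p, f p * UU n K R ψ p ^ 2 := by
    have hm2 : Measurable (fun p => f p * UU n K R ψ p ^ 2) := hf.mul (hUm.pow_const 2)
    rw [hI, ← lintegral_const_mul _ hf, ← lintegral_const_mul _ hm2,
      ← lintegral_add_left (hf.const_mul _)]
    refine lintegral_mono fun p => ?_
    calc f p * UU n K R ψ p ≤ f p * (15000000 + 60000000⁻¹ * UU n K R ψ p ^ 2) := by
          gcongr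
          exact amgm _
      _ = _ := by ring
  have h3 : s * b ≤ 15000000 * I + 60000000⁻¹ * (30000000 * s * b + I) :=
    h1.trans (h2.trans (by gcongr))
  have h4 : s * b ≤ 30000001 * I := alg_level s b I hs' hbfin hfi h3
  calc volume {x : E n | (∃ k < K, s < av n (2 ^ k * R) f x) ∧
      ∀ k < K, av n (2 ^ k * R) f x ≤ 2 * s} ≤ b := hab
    _ = s⁻¹ * (s * b) := by rw [← mul_assoc, ENNReal.inv_mul_cancel hs hs', one_mul]
    _ ≤ s⁻¹ * (30000001 * I) := by gcongr
    _ = 30000001 / s * I := by rw [div_eq_mul_inv]; ring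

theorem window : ∃ n₀ : ℕ, ∀ n : ℕ, n₀ ≤ n → ∀ R : ℝ, 0 < R → ∀ f : E n → ℝ≥0∞, Measurable f →
    ∫⁻ x, f x ≠ ∞ → ∀ s : ℝ≥0∞, s ≠ 0 → s ≠ ∞ →
      volume (MaxFn.bigSet n f {r | ∃ k < Kn n, r = 2 ^ k * R} s) ≤
        (9 * (2 * 30000001)) / s * ∫⁻ x, f x := by
  obtain ⟨n₀, hn₀, h⟩ := numeric
  refine ⟨n₀, fun n hn => ?_⟩
  obtain ⟨h1, h2, h3, h4⟩ := h n hn
  have hn2 : 2 ≤ n := by omega
  have hn100 : 100 ≤ n := by omega
  intro R hR f hf hfi s hs hs'
  refine shells n (Kn n) hn2 (2 * 30000001) (fun R hR f hf hfi s hs hs' => ?_) R hR f hf hfi s hs hs'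
  refine levels n (Kn n) hn2 30000001 R hR f hf hfi (fun s hs hs' => ?_) s hs hs'
  exact level_bound n (Kn n) hn100 h1 (2 * Kn n) (by unfold Kn; omega) h2 h3 h4 R hR f hf hfi s hs hs'

end Pool.DyMax
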